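import Pool.Agent.Lib.MP_ba2ef4_al.Defs

section
/-!
# MP_ba2ef4_al : basic lemmas on geodesic norms and the four point condition
-/
set_option autoImplicit false

namespace MPba2ef4

variable {G : Type} [Group G] {ℓ : G → ℕ}

theorem dd_self (h : GeoNorm ℓ) (x : G) : dd ℓ x x = 0 := by
  simp [dd, h.one]

theorem dd_comm (h : GeoNorm ℓ) (x y : G) : dd ℓ x y = dd ℓ y x := by
  unfold dd
  rw [← h.inv (x⁻¹ * y)]
  congr 1
  group

theorem dd_tri (h : GeoNorm ℓ) (x y z : G) : dd ℓ x z ≤ dd ℓ x y + dd ℓ y z := by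
  unfold dd
  have := h.mul (x⁻¹ * y) (y⁻¹ * z)
  have e : x⁻¹ * y * (y⁻¹ * z) = x⁻¹ * z := by group
  rwa [e] at this

theorem dd_left (g x y : G) : dd ℓ (g * x) (g * y) = dd ℓ x y := by
  unfold dd
  congr 1
  group

theorem dd_eq (h : GeoNorm ℓ) {x y : G} (e : dd ℓ x y = 0) : x = y := by
  have := h.eq_one _ e
  exact inv_mul_eq_one.mp this

theorem dd_one_left (x : G) : dd ℓ 1 x = ℓ x := by
  simp [dd]

theorem dd_one_right (h : GeoNorm ℓ) (x : G) : dd ℓ x 1 = ℓ x := by
  rw [dd_comm h, dd_one_left]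

/-- `dd (g * x) y = dd x (g⁻¹ * y)` -/
theorem dd_shift (g x y : G) : dd ℓ (g * x) y = dd ℓ x (g⁻¹ * y) := by
  rw [← dd_left g x (g⁻¹ * y)]
  congr 1
  group

theorem dd_mul_right (x g : G) : dd ℓ x (x * g) = ℓ g := by
  simp [dd]

theorem Btw.left (g : G) {x p y : G} (h : Btw ℓ x p y) : Btw ℓ (g * x) (g * p) (g * y) := by
  unfold Btw at *
  simpa only [dd_left] using h

theorem Btw.of_left {g x p y : G} (h : Btw ℓ (g * x) (g * p) (g * y)) : Btw ℓ x p y := by
  unfold Btw at *
  simpa only [dd_left] using h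

theorem Btw.symm (h : GeoNorm ℓ) {x p y : G} (b : Btw ℓ x p y) : Btw ℓ y p x := by
  unfold Btw at *
  rw [dd_comm h y p, dd_comm h p x, dd_comm h y x]
  omega

theorem btw_left (h : GeoNorm ℓ) (x y : G) : Btw ℓ x x y := by
  unfold Btw
  rw [dd_self h]
  omega

theorem btw_right (h : GeoNorm ℓ) (x y : G) : Btw ℓ x y y := by
  unfold Btw
  rw [dd_self h]
  omega

/-- (1.1) points at every distance on a geodesic -/
theorem exists_btw (h : GeoNorm ℓ) (x y : G) (k : ℕ) (hk : k ≤ dd ℓ x y) :
    ∃ p, Btw ℓ x p y ∧ dd ℓ x p = k := by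
  obtain ⟨a, b, hab, ha, hb⟩ := h.split (x⁻¹ * y) k hk
  refine ⟨x * a, ?_, ?_⟩
  · unfold Btw
    rw [dd_mul_right]
    have e : dd ℓ (x * a) y = ℓ b := by
      unfold dd
      congr 1
      have : y = x * (a * b) := by rw [hab]; group
      rw [this]
      group
    rw [e, ha]
    have : dd ℓ x y = ℓ (x⁻¹ * y) := rfl
    omega
  · rw [dd_mul_right, ha]

/-- (1.2) -/
theorem Btw.trans_left (h : GeoNorm ℓ) {x u p y : G} (h1 : Btw ℓ x u p) (h2 : Btw ℓ x p y) :
    Btw ℓ x u y ∧ Btw ℓ u p y := by
  unfold Btw at *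
  have t1 := dd_tri h u p y
  have t2 := dd_tri h x u y
  constructor <;> omega

/-- (1.2') -/
theorem Btw.trans_right (h : GeoNorm ℓ) {x u p y : G} (h1 : Btw ℓ p u y) (h2 : Btw ℓ x p y) :
    Btw ℓ x u y ∧ Btw ℓ x p u := by
  unfold Btw at *
  have t1 := dd_tri h x p u
  have t2 := dd_tri h x u y
  constructor <;> omega

theorem FP.mono {δ δ' : ℕ} (hd : δ ≤ δ') (hF : FP ℓ δ) : FP ℓ δ' := by
  intro x y z w
  rcases hF x y z w with h | h
  · left; omega
  · right; omega

/-- (1.4) a point which is nearly on a geodesic is close to a point of a given geodesic -/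
theorem close (h : GeoNorm ℓ) {δ : ℕ} (hF : FP ℓ δ) {x a y p : G} {c : ℕ}
    (ha : dd ℓ x a + dd ℓ a y ≤ dd ℓ x y + c) (hp : Btw ℓ x p y) :
    ∃ u, (Btw ℓ x u p ∨ Btw ℓ p u y) ∧ dd ℓ a u ≤ c + δ := by
  have main : ∃ u, (Btw ℓ x u p ∨ Btw ℓ p u y) ∧ dd ℓ x u = min (dd ℓ x a) (dd ℓ x y) := by
    by_cases h1 : min (dd ℓ x a) (dd ℓ x y) ≤ dd ℓ x p
    · obtain ⟨u, hu, hu'⟩ := exists_btw h x p _ h1
      exact ⟨u, Or.inl hu, hu'⟩
    · push Not at h1
      have h2 : min (dd ℓ x a) (dd ℓ x y) - dd ℓ x p ≤ dd ℓ p y := by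
        unfold Btw at hp
        omega
      obtain ⟨u, hu, hu'⟩ := exists_btw h p y _ h2
      refine ⟨u, Or.inr hu, ?_⟩
      have := (Btw.trans_right h hu hp).2
      unfold Btw at this
      omega
  obtain ⟨u, hu, hu'⟩ := main
  refine ⟨u, hu, ?_⟩
  have hxuy : Btw ℓ x u y := by
    rcases hu with hu | hu
    · exact (Btw.trans_left h hu hp).1
    · exact (Btw.trans_right h hu hp).1
  unfold Btw at hxuy
  have c1 := dd_comm h a x
  have c2 := dd_comm h u x
  have c3 := dd_comm h u a
  have t := dd_tri h x y a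
  have t' := dd_comm h y a
  rcases hF a u x y with h1 | h1 <;> rcases le_total (dd ℓ x a) (dd ℓ x y) with h2 | h2
  all_goals
    simp only [h2, min_eq_left, min_eq_right] at hu'
    have c4 := dd_comm h u x
    have t1 := dd_tri h u a y
  · omega
  · have : u = y := dd_eq h (by omega)
    subst this
    omega
  · omega
  · have : u = y := dd_eq h (by omega)
    subst this
    omega

/-- (1.6) two nearly geodesic points at the same position are close -/
theorem posn (h : GeoNorm ℓ) {δ : ℕ} (hF : FP ℓ δ) {x z w P : G} {c : ℕ}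
    (hz : dd ℓ x z + dd ℓ z P ≤ dd ℓ x P + c) (hw : dd ℓ x w + dd ℓ w P ≤ dd ℓ x P + c) :
    dd ℓ z w ≤ (dd ℓ x z - dd ℓ x w) + (dd ℓ x w - dd ℓ x z) + c + δ := by
  have c1 := dd_comm h z x
  have c2 := dd_comm h w x
  rcases hF z w x P with h1 | h1 <;> omega

/-- (1.3) ultrametric inequality for the excess -/
theorem ultra (h : GeoNorm ℓ) {δ : ℕ} (hF : FP ℓ δ) (x p y z : G) :
    (dd ℓ x p + dd ℓ p z + dd ℓ x y ≤ dd ℓ x p + dd ℓ p y + dd ℓ x z + δ) ∨
    (dd ℓ z p + dd ℓ p y + dd ℓ x y ≤ dd ℓ x p + dd ℓ p y + dd ℓ z y + δ) := by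
  have c1 := dd_comm h z p
  have c2 := dd_comm h y p
  have c3 := dd_comm h y z
  rcases hF x y z p with h1 | h1
  · left; omega
  · right; omega

/-- (1.5) fellow travelling -/
theorem fellow (h : GeoNorm ℓ) {δ : ℕ} (hF : FP ℓ δ) {x y x' y' p p' : G} {R : ℕ}
    (hx : dd ℓ x x' ≤ R) (hy : dd ℓ y y' ≤ R) (hp : Btw ℓ x p y) (hp' : Btw ℓ x' p' y')
    (e : dd ℓ x p = dd ℓ x' p') : dd ℓ p p' ≤ 3 * R + δ := by
  unfold Btw at hp hp'
  have t1 := dd_tri h p x x'
  have t2 := dd_tri h p y y'
  have t3 := dd_tri h x x' y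
  have t4 := dd_tri h x' y' y
  have c1 := dd_comm h p x
  have c2 := dd_comm h p' x'
  have c3 := dd_comm h y' y
  have t5 := dd_tri h x' x y
  have t6 := dd_tri h x' y y'
  have c4 := dd_comm h x' x
  have c5 := dd_comm h p y
  rcases hF p p' x' y' with h1 | h1 <;> omega

/-- (1.7) the four point condition implies thin triangles -/
theorem FP.thin (h : GeoNorm ℓ) {δ : ℕ} (hF : FP ℓ δ) : Thin ℓ (2 * δ) := by
  intro x y z p hp
  have hp' := hp
  unfold Btw at hp'
  rcases hF x y p z with h1 | h1
  · -- p is nearly on [y, z]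
    have c1 := dd_comm h y p
    have hz : dd ℓ z p + dd ℓ p y ≤ dd ℓ z y + δ := by
      have c2 := dd_comm h z p
      have c3 := dd_comm h z y
      omega
    obtain ⟨u, hu, hu'⟩ := close h hF hz (btw_left h z y)
    rcases hu with hu | hu
    · refine ⟨u, Or.inr ?_, by omega⟩
      exact (Btw.trans_left h hu (btw_left h z y)).1
    · exact ⟨u, Or.inr hu, by omega⟩
  · have hz : dd ℓ x p + dd ℓ p z ≤ dd ℓ x z + δ := by
      have c1 := dd_comm h y p
      omega
    obtain ⟨u, hu, hu'⟩ := close h hF hz (btw_left h x z)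
    rcases hu with hu | hu
    · exact ⟨u, Or.inl (Btw.trans_left h hu (btw_left h x z)).1, by omega⟩
    · exact ⟨u, Or.inl hu, by omega⟩

/-- (1.8) thin triangles imply the four point condition -/
theorem Thin.fp (h : GeoNorm ℓ) {δ : ℕ} (hT : Thin ℓ δ) : FP ℓ (4 * δ + 2) := by
  intro x y z w
  -- a centre of the triangle x y z on [x, y]
  have centre : ∃ p, Btw ℓ x p y ∧ dd ℓ x p + dd ℓ p z ≤ dd ℓ x z + 2 * (δ + 1) ∧
      dd ℓ y p + dd ℓ p z ≤ dd ℓ y z + 2 * (δ + 1) := by
    by_contra hcon
    push Not at hcon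
    -- every point is close to [x, z]
    have key : ∀ k, k ≤ dd ℓ x y → ∃ p, Btw ℓ x p y ∧ dd ℓ x p = k ∧
        ∃ q, Btw ℓ x q z ∧ dd ℓ p q ≤ δ := by
      intro k
      induction k with
      | zero =>
        intro _
        exact ⟨x, btw_left h x y, dd_self h x, x, btw_left h x z, by rw [dd_self h]; omega⟩
      | succ k ih =>
        intro hk
        obtain ⟨p, hp, hpk, q, hq, hpq⟩ := ih (by omega)
        have hp1 := hp
        unfold Btw at hp1
        obtain ⟨p', hp', hpp⟩ := exists_btw h p y 1 (by omega)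
        have hb := Btw.trans_right h hp' hp
        refine ⟨p', hb.1, ?_, ?_⟩
        · have := hb.2
          unfold Btw at this
          omega
        · obtain ⟨q', hq', hq''⟩ := hT x y z p' hb.1
          rcases hq' with hq' | hq'
          · exact ⟨q', hq', hq''⟩
          · exfalso
            have h3 := hcon p' hb.1
            have e1 : dd ℓ x p' + dd ℓ p' z ≤ dd ℓ x z + 2 * (δ + 1) := by
              unfold Btw at hq
              have t1 := dd_tri h x q p'
              have t2 := dd_tri h p' q z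
              have t3 := dd_tri h q p p'
              have c1 := dd_comm h q p
              have c2 := dd_comm h q p'
              omega
            have e2 : dd ℓ y p' + dd ℓ p' z ≤ dd ℓ y z + 2 * (δ + 1) := by
              unfold Btw at hq'
              have t1 := dd_tri h y q' p'
              have t2 := dd_tri h p' q' z
              have c1 := dd_comm h q' p'
              have c2 := dd_comm h q' y
              have c3 := dd_comm h q' z
              have c4 := dd_comm h z y
              omega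
            have := h3 e1
            omega
    obtain ⟨p, hp, hpk, q, hq, hpq⟩ := key _ le_rfl
    have hpy : p = y := by
      apply dd_eq h
      unfold Btw at hp
      omega
    subst hpy
    have := hcon p hp (by
      unfold Btw at hq
      have t1 := dd_tri h x q p
      have t2 := dd_tri h p q z
      have c1 := dd_comm h q p
      omega)
    rw [dd_self h] at this
    omega
  obtain ⟨p, hp, h1, h2⟩ := centre
  obtain ⟨q, hq, hpq⟩ := hT x y w p hp
  have c1 := dd_comm h q p
  have c2 := dd_comm h z p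
  have c3 := dd_comm h y p
  have t0 := dd_tri h z p w
  unfold Btw at hp
  rcases hq with hq | hq
  · right
    unfold Btw at hq
    have t1 := dd_tri h x q p
    have t2 := dd_tri h p q w
    omega
  · left
    unfold Btw at hq
    have t1 := dd_tri h y q p
    have t2 := dd_tri h p q w
    have c4 := dd_comm h q y
    have c5 := dd_comm h q w
    have c6 := dd_comm h w y
    omega

/-- (1.9) Between two nearly geodesic points there is, near every nearly geodesic point of
intermediate position, a point of the interval of the two points. -/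
theorem midd (h : GeoNorm ℓ) {δ : ℕ} (hF : FP ℓ δ) {x P a a' z : G} {c : ℕ}
    (ha : dd ℓ x a + dd ℓ a P ≤ dd ℓ x P + c) (ha' : dd ℓ x a' + dd ℓ a' P ≤ dd ℓ x P + c)
    (hz : dd ℓ x z + dd ℓ z P ≤ dd ℓ x P + 2 * c + δ)
    (h1 : dd ℓ x a ≤ dd ℓ x z) (h2 : dd ℓ x z ≤ dd ℓ x a') :
    ∃ w, Btw ℓ a w a' ∧ dd ℓ z w ≤ 3 * c + 3 * δ := by
  have hpos := posn h hF ha ha'
  have t1 := dd_tri h x a a'
  obtain ⟨w, hw, hw'⟩ := exists_btw h a a' (dd ℓ x z - dd ℓ x a) (by omega)
  refine ⟨w, hw, ?_⟩
  unfold Btw at hw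
  have t2 := dd_tri h x a w
  have t3 := dd_tri h x w a'
  have t4 := dd_tri h w a' P
  have e : dd ℓ x w + dd ℓ w P ≤ dd ℓ x P + (2 * c + δ) := by omega
  have hz' : dd ℓ x z + dd ℓ z P ≤ dd ℓ x P + (2 * c + δ) := by omega
  have := posn h hF hz' e
  omega

/-- (1.10) discrete intermediate value theorem along a geodesic -/
theorem ivt (h : GeoNorm ℓ) {a c b : G} {t : ℕ} (h1 : dd ℓ a c ≤ t) (h2 : t ≤ dd ℓ a b) :
    ∃ g, Btw ℓ c g b ∧ dd ℓ a g = t := by
  by_contra hcon
  push Not at hcon
  have key : ∀ k, k ≤ dd ℓ c b → ∃ p, Btw ℓ c p b ∧ dd ℓ c p = k ∧ dd ℓ a p < t := by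
    intro k
    induction k with
    | zero =>
      intro _
      have := hcon c (btw_left h c b)
      exact ⟨c, btw_left h c b, dd_self h c, by omega⟩
    | succ k ih =>
      intro hk
      obtain ⟨p, hp, hpk, hpt⟩ := ih (by omega)
      have hp1 := hp
      unfold Btw at hp1
      obtain ⟨p', hp', hpp⟩ := exists_btw h p b 1 (by omega)
      have hb := Btw.trans_right h hp' hp
      have h3 := hcon p' hb.1
      refine ⟨p', hb.1, ?_, ?_⟩
      · have := hb.2
        unfold Btw at this
        omega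
      · have := dd_tri h a p p'
        omega
  obtain ⟨p, hp, hpk, hpt⟩ := key _ le_rfl
  have hpb : p = b := by
    apply dd_eq h
    unfold Btw at hp
    omega
  subst hpb
  omega

theorem Red.sub (h : GeoNorm ℓ) {R : Subgroup G} {x y u : G} (hr : Red ℓ R x y)
    (hu : Btw ℓ x u y) : Red ℓ R x u ∧ Red ℓ R u y := by
  constructor
  · intro r hr'
    have h1 := hr r hr'
    have t := dd_tri h x (r * u) (r * y)
    rw [dd_left] at t
    unfold Btw at hu
    omega
  · intro r hr'
    have h1 := hr r hr'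
    have t := dd_tri h x u (r * y)
    unfold Btw at hu
    omega

theorem Red.left {R : Subgroup G} (hn : R.Normal) (g : G) {x y : G} (hr : Red ℓ R x y) :
    Red ℓ R (g * x) (g * y) := by
  intro r hr'
  have h1 := hr (g⁻¹ * r * g) (by
    have := hn.conj_mem r hr' g⁻¹
    simpa using this)
  rw [dd_left]
  have e : dd ℓ (g * x) (r * (g * y)) = dd ℓ x (g⁻¹ * r * g * y) := by
    rw [dd_shift]
    congr 1
    group
  rw [e]
  exact h1

end MPba2ef4
end

section
/-!
# MP_ba2ef4_al : the base group `V ⋊ F`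

`V = F_3^3` (written multiplicatively, coordinates indexed by `ZMod 3`), `F` free on two
generators; `true` acts by the cyclic shift of the coordinates, `false` by `diag(1,-1,-1)`.
-/
set_option autoImplicit false

namespace MPba2ef4

/-- `F_3^3` written multiplicatively -/
abbrev VV : Type := Multiplicative (ZMod 3 → ZMod 3)

/-- cyclic shift of the coordinates -/
def cycA : (ZMod 3 → ZMod 3) ≃+ (ZMod 3 → ZMod 3) where
  toFun v := fun i => v (i + 1)
  invFun v := fun i => v (i - 1)
  left_inv v := by funext i; simp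
  right_inv v := by funext i; simp
  map_add' v w := by funext i; simp

/-- the signs `1, -1, -1` -/
def sg (i : ZMod 3) : ZMod 3 := if i = 0 then 1 else -1

theorem sg_mul_sg (i : ZMod 3) : sg i * sg i = 1 := by
  unfold sg; split_ifs <;> decide

/-- `diag(1,-1,-1)` -/
def sgnA : (ZMod 3 → ZMod 3) ≃+ (ZMod 3 → ZMod 3) where
  toFun v := fun i => sg i * v i
  invFun v := fun i => sg i * v i
  left_inv v := by funext i; simp [← mul_assoc, sg_mul_sg]
  right_inv v := by funext i; simp [← mul_assoc, sg_mul_sg]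
  map_add' v w := by funext i; simp [mul_add]

/-- the action of the generators -/
def genA (b : Bool) : MulAut VV := AddEquiv.toMultiplicative (if b then cycA else sgnA)

/-- the action of the free group on `V` (onto the alternating group of degree 4) -/
def actA : FreeGroup Bool →* MulAut VV := FreeGroup.lift genA

/-- the homomorphism of the free group onto the cyclic group of order 3 -/
def chiA : FreeGroup Bool →* Multiplicative (ZMod 3) :=
  FreeGroup.lift (fun b => if b then Multiplicative.ofAdd (1 : ZMod 3) else 1)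

/-- the base group -/
abbrev E0 : Type := VV ⋊[actA] FreeGroup Bool

/-- the finite normal subgroup of the base group -/
def V0 : Subgroup E0 := (SemidirectProduct.inl : VV →* E0).range

/-- the normal subgroup of index 3 of the base group -/
def N0 : Subgroup E0 := (chiA.comp (SemidirectProduct.rightHom : E0 →* FreeGroup Bool)).ker

end MPba2ef4
end
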