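import Mathlib

/-!
# MP_ba2ef4_al : definitions

Left-invariant word-type norms on a group, the four point condition, the class of stages
(groups from which the counterexample is built by iterated hyperbolic Dehn filling), and the
interfaces `Elem` (elementary subgroup), `Proj` (nearest point projections to its cosets) and
`Rot` (relation subgroup with the Greendlinger property).
-/

set_option autoImplicit false

namespace MPba2ef4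

variable {G : Type} [Group G]

/-- A geodesic norm with finite balls (word norm of a finite generating set). -/
structure GeoNorm (ℓ : G → ℕ) : Prop where
  one : ℓ 1 = 0
  eq_one : ∀ g, ℓ g = 0 → g = 1
  inv : ∀ g, ℓ g⁻¹ = ℓ g
  mul : ∀ g h, ℓ (g * h) ≤ ℓ g + ℓ h
  fin : ∀ n : ℕ, {g : G | ℓ g ≤ n}.Finite
  split : ∀ g, ∀ k : ℕ, k ≤ ℓ g → ∃ a b, a * b = g ∧ ℓ a = k ∧ ℓ b + k = ℓ g

/-- the left-invariant distance of a norm -/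
def dd (ℓ : G → ℕ) (x y : G) : ℕ := ℓ (x⁻¹ * y)

/-- `p` lies on a geodesic from `x` to `y`. -/
def Btw (ℓ : G → ℕ) (x p y : G) : Prop := dd ℓ x p + dd ℓ p y = dd ℓ x y

/-- four point condition with constant `δ` -/
def FP (ℓ : G → ℕ) (δ : ℕ) : Prop := ∀ x y z w,
  dd ℓ x y + dd ℓ z w ≤ dd ℓ x z + dd ℓ y w + δ ∨
  dd ℓ x y + dd ℓ z w ≤ dd ℓ x w + dd ℓ y z + δ

/-- thin triangles, with intervals in place of geodesics -/
def Thin (ℓ : G → ℕ) (δ : ℕ) : Prop := ∀ x y z p, Btw ℓ x p y →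
  ∃ q, (Btw ℓ x q z ∨ Btw ℓ z q y) ∧ dd ℓ p q ≤ δ

/-- The class of groups used in the construction (`p = 3`). -/
structure IsStage (G : Type) [Group G] (V N : Subgroup G) : Prop where
  Vnormal : V.Normal
  Vfin : (V : Set G).Finite
  Vcomm : ∀ a ∈ V, ∀ b ∈ V, a * b = b * a
  Vexp : ∀ a ∈ V, a ^ 3 = 1
  Nnormal : N.Normal
  VN : V ≤ N
  Nindex : N.index = 3
  act3 : ∀ x, x ∉ N → ∀ v ∈ V, x ^ 3 * v = v * x ^ 3
  fixv : ∀ x, x ∉ N → ∃ v ∈ V, v ≠ 1 ∧ x * v = v * x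
  hyp : ∃ (ℓ : G → ℕ) (δ : ℕ), GeoNorm ℓ ∧ FP ℓ δ
  tor3 : ∀ g : G, IsOfFinOrder g → ∃ k : ℕ, g ^ (3 ^ k) = 1
  cen : ∀ t z : G, IsOfFinOrder t → t ∉ V → t * z = z * t → IsOfFinOrder z
  good : ∀ t : G, IsOfFinOrder t → t ∉ N → ∃ k : ℕ, t ^ k ∈ V ∧ t ^ k ≠ 1

/-- `E = V⟨y⟩` is the maximal elementary subgroup of an element outside `N`. -/
structure Elem (V N E : Subgroup G) (y : G) : Prop where
  Vle : V ≤ E
  ymem : y ∈ E
  ynotN : y ∉ N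
  yinf : ¬ IsOfFinOrder y
  form : ∀ e ∈ E, ∃ v ∈ V, ∃ j : ℤ, e = v * y ^ j
  mal : ∀ g, g ∉ E → ∀ e ∈ E, g * e * g⁻¹ ∈ E → e ∈ V

/-- Equivariant nearest point projections `pr A x` to the left cosets `A ∈ G ⧸ E`. -/
structure Proj (ℓ : G → ℕ) (E V : Subgroup G) (pr : G ⧸ E → G → G) (κ : ℕ) : Prop where
  geo : GeoNorm ℓ
  pos : 1 ≤ κ
  fp : FP ℓ κ
  Vn : V.Normal
  Vle : V ≤ E
  torV : ∀ e ∈ E, IsOfFinOrder e → e ∈ V
  smallV : ∀ v ∈ V, ℓ v ≤ κ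
  mem : ∀ (A : G ⧸ E) (x : G), (pr A x : G ⧸ E) = A
  near : ∀ (A : G ⧸ E) (x a : G), (a : G ⧸ E) = A → dd ℓ x (pr A x) ≤ dd ℓ x a
  equiv : ∀ (g : G) (A : G ⧸ E) (x : G), pr (g • A) (g * x) = g * pr A x
  qc : ∀ (A : G ⧸ E) (a a' p : G), (a : G ⧸ E) = A → (a' : G ⧸ E) = A → Btw ℓ a p a' →
    ∃ b : G, (b : G ⧸ E) = A ∧ dd ℓ p b ≤ κ
  far : ∀ (A : G ⧸ E) (x y : G), κ < dd ℓ (pr A x) (pr A y) →
    dd ℓ x (pr A x) + dd ℓ (pr A x) (pr A y) + dd ℓ (pr A y) y ≤ dd ℓ x y + κ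
  bdd : ∀ A B : G ⧸ E, A ≠ B → ∀ b b' : G, (b : G ⧸ E) = B → (b' : G ⧸ E) = B →
    dd ℓ (pr A b) (pr A b') ≤ κ
  mal : ∀ A B : G ⧸ E, A ≠ B → ∀ g : G, g • A = A → g • B = B → g ∈ V

/-- Rotation data: `R` normal, generated by rotations of length about `L` around the cosets
of `E`, with the Greendlinger property.  `κ` is small compared with `L`. -/
structure Rot (ℓ : G → ℕ) (E V R : Subgroup G) (pr : G ⧸ E → G → G) (κ L : ℕ) : Prop where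
  proj : Proj ℓ E V pr κ
  Rn : R.Normal
  big : 1000 * κ ≤ L
  green : ∀ r ∈ R, r ≠ 1 → ∀ o : G, ∃ A : G ⧸ E, L ≤ dd ℓ (pr A o) (pr A (r * o)) + κ
  rot : ∀ (A : G ⧸ E) (a a' : G), (a : G ⧸ E) = A → (a' : G ⧸ E) = A →
    ∃ m ∈ R, m • A = A ∧
      dd ℓ a (m * a') ≤ (dd ℓ a a' - L) + (L - dd ℓ a a') + κ
  rot' : ∀ (A : G ⧸ E) (a a' : G), (a : G ⧸ E) = A → (a' : G ⧸ E) = A →
    ∃ m ∈ R, m • A = A ∧ 2 * dd ℓ a (m * a') ≤ L + κ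

/-- `(x, y)` is a shortest pair modulo `R`. -/
def Red (ℓ : G → ℕ) (R : Subgroup G) (x y : G) : Prop := ∀ r ∈ R, dd ℓ x y ≤ dd ℓ x (r * y)

/-- uniform quasi-additivity of the powers of the elements of infinite order which are
shortest in their conjugacy class; shortness of the torsion elements of the same kind -/
structure Ax (ℓ : G → ℕ) (κ : ℕ) : Prop where
  inf : ∀ g : G, ¬ IsOfFinOrder g → (∀ a, ℓ g ≤ ℓ (a⁻¹ * g * a)) → ∀ i j : ℕ,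
    ℓ (g ^ i) + ℓ (g ^ j) ≤ ℓ (g ^ (i + j)) + κ
  tor : ∀ g : G, IsOfFinOrder g → (∀ a, ℓ g ≤ ℓ (a⁻¹ * g * a)) → ℓ g ≤ κ

/-- quotient norm -/
noncomputable def qn (ℓ : G → ℕ) (R : Subgroup G) (q : G ⧸ R) : ℕ :=
  sInf {n : ℕ | ∃ g : G, (g : G ⧸ R) = q ∧ ℓ g = n}

/-- the displacement quasi-morphism at the point `p` -/
def ss (ℓ : G → ℕ) (p g : G) : ℤ := (dd ℓ 1 (g * p) : ℤ) - (dd ℓ 1 p : ℤ)

end MPba2ef4
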