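import Pool.Agent.Lib.MP_ba2ef4_al.Tor

/-!
# MP_ba2ef4_al : module TPOLY
-/

set_option autoImplicit false

namespace MPba2ef4

open RotM

theorem specT (hB : SpecB) : SpecT := by
  intro G _ ℓ E V R pr κ L hR
  have hP := hR.proj
  have hg := hP.geo
  have hF := hP.fp
  have hb := hR.big
  have hk := hP.pos
  suffices H : ∀ n : ℕ, ∀ p₀ u₁ v₁ u₂ v₂ p r : G, dd ℓ p₀ (r * p₀) < n → r ∈ R →
      Red ℓ R p₀ u₁ → Red ℓ R v₁ u₂ → Red ℓ R v₂ (r * p₀) →
      dd ℓ u₁ v₁ ≤ 20 * κ → dd ℓ u₂ v₂ ≤ 20 * κ → Btw ℓ p₀ p u₁ →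
      ∃ ρ ∈ R, ∃ q, (Btw ℓ v₁ q u₂ ∨ Btw ℓ v₂ q (r * p₀)) ∧ dd ℓ p (ρ * q) ≤ 3 * L by
    intro p₀ u₁ v₁ u₂ v₂ p r
    exact H _ p₀ u₁ v₁ u₂ v₂ p r (Nat.lt_succ_self _)
  intro n
  induction n with
  | zero => intro p₀ u₁ v₁ u₂ v₂ p r h; omega
  | succ n ih =>
  intro p₀ u₁ v₁ u₂ v₂ p r hn hr hred1 hred2 hred3 hgap1 hgap2 hp
  -- the application of `SpecB`
  have BB : ∀ (u' w' m : G), m ∈ R → Red ℓ R p₀ u' → Btw ℓ v₂ w' (r * p₀) →
      4 * dd ℓ u' (m * w') ≤ 3 * L → Btw ℓ p₀ p u' →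
      ∃ ρ ∈ R, ∃ q, (Btw ℓ v₁ q u₂ ∨ Btw ℓ v₂ q (r * p₀)) ∧ dd ℓ p (ρ * q) ≤ 3 * L := by
    intro u' w' m hm hred' hw' hgap' hp'
    have e : m * r * p₀ = m * (r * p₀) := mul_assoc _ _ _
    obtain ⟨ρ, hρ, q, hq, hq'⟩ := hB G ℓ E V R pr κ L hR p₀ u' (m * w') p (m * r)
      (R.mul_mem hm hr) hred'
      (by rw [e]; exact Red.left hR.Rn m (Red.sub hg hred3 hw').2) hgap' hp'
    rw [e] at hq
    have hq2 : Btw ℓ w' (m⁻¹ * q) (r * p₀) := by
      apply Btw.of_left (g := m)
      rwa [mul_inv_cancel_left]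
    refine ⟨ρ * m, R.mul_mem hρ hm, m⁻¹ * q, Or.inr (Btw.trans_right hg hq2 hw').1, ?_⟩
    have e2 : ρ * m * (m⁻¹ * q) = ρ * q := by group
    rw [e2]
    omega
  -- the first form of the induction hypothesis
  have IH1 : ∀ (u' w' m : G), m ∈ R → dd ℓ p₀ (m * (r * p₀)) < dd ℓ p₀ (r * p₀) →
      Red ℓ R p₀ u' → Btw ℓ v₁ w' u₂ → dd ℓ u' (m * w') ≤ 20 * κ → Btw ℓ p₀ p u' →
      ∃ ρ ∈ R, ∃ q, (Btw ℓ v₁ q u₂ ∨ Btw ℓ v₂ q (r * p₀)) ∧ dd ℓ p (ρ * q) ≤ 3 * L := by
    intro u' w' m hm hlt hred' hw' hgap' hp'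
    have e : m * r * p₀ = m * (r * p₀) := mul_assoc _ _ _
    obtain ⟨ρ, hρ, q, hq, hq'⟩ := ih p₀ u' (m * w') (m * u₂) (m * v₂) p (m * r)
      (by rw [e]; omega) (R.mul_mem hm hr) hred'
      (Red.left hR.Rn m (Red.sub hg hred2 hw').2)
      (by rw [e]; exact Red.left hR.Rn m hred3) hgap' (by rwa [dd_left]) hp'
    rw [e] at hq
    have e2 : ρ * m * (m⁻¹ * q) = ρ * q := by group
    refine ⟨ρ * m, R.mul_mem hρ hm, m⁻¹ * q, ?_, by rwa [e2]⟩
    rcases hq with hq | hq
    · left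
      have hq2 : Btw ℓ w' (m⁻¹ * q) u₂ := by
        apply Btw.of_left (g := m)
        rwa [mul_inv_cancel_left]
      exact (Btw.trans_right hg hq2 hw').1
    · right
      apply Btw.of_left (g := m)
      rwa [mul_inv_cancel_left]
  -- the second form of the induction hypothesis
  have IH2 : ∀ (w₁ w₃ m : G), m ∈ R → dd ℓ p₀ (m * (r * p₀)) < dd ℓ p₀ (r * p₀) →
      Btw ℓ v₁ w₁ u₂ → Btw ℓ v₂ w₃ (r * p₀) → dd ℓ w₁ (m * w₃) ≤ 20 * κ →
      ∃ ρ ∈ R, ∃ q, (Btw ℓ v₁ q u₂ ∨ Btw ℓ v₂ q (r * p₀)) ∧ dd ℓ p (ρ * q) ≤ 3 * L := by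
    intro w₁ w₃ m hm hlt hw₁ hw₃ hgap'
    have e : m * r * p₀ = m * (r * p₀) := mul_assoc _ _ _
    obtain ⟨ρ, hρ, q, hq, hq'⟩ := ih p₀ u₁ v₁ w₁ (m * w₃) p (m * r)
      (by rw [e]; omega) (R.mul_mem hm hr) hred1
      (Red.sub hg hred2 hw₁).1
      (by rw [e]; exact Red.left hR.Rn m (Red.sub hg hred3 hw₃).2) hgap1 hgap' hp
    rw [e] at hq
    rcases hq with hq | hq
    · exact ⟨ρ, hρ, q, Or.inl (Btw.trans_left hg hq hw₁).1, hq'⟩
    · have e2 : ρ * m * (m⁻¹ * q) = ρ * q := by group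
      refine ⟨ρ * m, R.mul_mem hρ hm, m⁻¹ * q, Or.inr ?_, by rwa [e2]⟩
      have hq2 : Btw ℓ w₃ (m⁻¹ * q) (r * p₀) := by
        apply Btw.of_left (g := m)
        rwa [mul_inv_cancel_left]
      exact (Btw.trans_right hg hq2 hw₃).1
  by_cases hr1 : r = 1
  · subst hr1
    rw [one_mul] at *
    obtain ⟨q, hq, hpq⟩ := FP.thin hg hF p₀ u₁ v₂ p hp
    rcases hq with hq | hq
    · exact ⟨1, R.one_mem, q, Or.inr (Btw.symm hg hq), by rw [one_mul]; omega⟩
    · unfold Btw at hq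
      have t1 := dd_tri hg v₁ u₁ q
      have t2 := dd_tri hg q v₂ u₂
      have t3 := dd_tri hg v₂ u₂ u₁
      have t4 := dd_tri hg u₂ v₁ u₁
      have c1 := dd_comm hg v₁ u₁
      have c2 := dd_comm hg q v₂
      have c3 := dd_comm hg v₂ u₂
      have c4 := dd_comm hg u₁ q
      have c5 := dd_comm hg u₂ v₁
      obtain ⟨q', hq', hq''⟩ := close hg hF (x := v₁) (a := q) (y := u₂) (p := u₂) (c := 80 * κ)
        (by omega) (btw_right hg v₁ u₂)
      have hq2 : Btw ℓ v₁ q' u₂ := by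
        rcases hq' with h | h
        · exact h
        · exact (Btw.trans_right hg h (btw_right hg v₁ u₂)).1
      refine ⟨1, R.one_mem, q', Or.inl hq2, ?_⟩
      rw [one_mul]
      have t5 := dd_tri hg p q q'
      omega
  obtain ⟨A, hA⟩ := hR.green r hr hr1 p₀
  have D1r := red hR A hred1
  have D2r := red hR A hred2
  have D3r := red hR A hred3
  have far0 := hP.far A p₀ (r * p₀) (by omega)
  have lip1 := lip hP A u₁ v₁
  have lip2 := lip hP A u₂ v₂
  have tri1 := dd_tri hg (pr A p₀) (pr A u₁) (pr A v₁)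
  have tri2 := dd_tri hg (pr A p₀) (pr A v₁) (pr A u₂)
  have tri3 := dd_tri hg (pr A p₀) (pr A u₂) (pr A v₂)
  have tri4 := dd_tri hg (pr A p₀) (pr A v₂) (pr A (r * p₀))
  by_cases hD1 : κ < dd ℓ (pr A p₀) (pr A u₁)
  · -- case A
    obtain ⟨u₀, hu₀, hu₀'⟩ := nearL hP A (x := p₀) (y := u₁) hD1 hp
    rcases hu₀ with hu₀ | hu₀
    · -- A1
      have hu1 := (Btw.trans_left hg hu₀ hp).2
      obtain ⟨p', hp', hpp'⟩ := FP.thin hg hF u₀ u₁ (pr A u₁) p hu1
      by_cases hD2 : κ < dd ℓ (pr A v₁) (pr A u₂)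
      · obtain ⟨q, hq, hq'⟩ := nearL' hP A (x := v₁) (y := u₂) hD2
        have t3 := dd_tri hg (pr A u₁) (pr A v₁) q
        rcases hp' with hp' | hp'
        · have t1 := dd_tri hg p p' (pr A u₁)
          have t2 := dd_tri hg u₀ (pr A p₀) (pr A u₁)
          have t4 := dd_tri hg p (pr A u₁) q
          have c1 := dd_comm hg u₀ (pr A p₀)
          unfold Btw at hp'
          refine ⟨1, R.one_mem, q, Or.inl hq, ?_⟩
          rw [one_mul]
          omega
        · unfold Btw at hp'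
          have t5 := dd_tri hg q (pr A u₁) p'
          have t6 := dd_tri hg p' u₁ v₁
          have t7 := dd_tri hg (pr A u₁) q u₁
          have t8 := dd_tri hg q v₁ u₁
          have c1 := dd_comm hg q (pr A u₁)
          have c2 := dd_comm hg v₁ u₁
          obtain ⟨q', hq', hq''⟩ := close hg hF (x := q) (a := p') (y := v₁) (p := v₁)
            (c := 86 * κ) (by omega) (btw_right hg q v₁)
          have hq2 : Btw ℓ q q' v₁ := by
            rcases hq' with h | h
            · exact h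
            · exact (Btw.trans_right hg h (btw_right hg q v₁)).1
          refine ⟨1, R.one_mem, q', Or.inl (Btw.trans_left hg (Btw.symm hg hq2) hq).1, ?_⟩
          rw [one_mul]
          have t9 := dd_tri hg p p' q'
          omega
      · obtain ⟨q, hq, hq'⟩ := nearL' hP A (x := v₂) (y := r * p₀) (by omega)
        have t3 := dd_tri hg (pr A u₁) (pr A v₁) q
        have t3' := dd_tri hg (pr A v₁) (pr A u₂) q
        have t3'' := dd_tri hg (pr A u₂) (pr A v₂) q
        rcases hp' with hp' | hp'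
        · have t1 := dd_tri hg p p' (pr A u₁)
          have t2 := dd_tri hg u₀ (pr A p₀) (pr A u₁)
          have t4 := dd_tri hg p (pr A u₁) q
          have c1 := dd_comm hg u₀ (pr A p₀)
          unfold Btw at hp'
          refine ⟨1, R.one_mem, q, Or.inr hq, ?_⟩
          rw [one_mul]
          omega
        · unfold Btw at hp'
          have t5 := dd_tri hg q (pr A u₁) p'
          have t6 := dd_tri hg p' u₁ v₁
          have t7 := dd_tri hg (pr A u₁) q u₁
          have t8 := dd_tri hg q v₁ u₁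
          have c1 := dd_comm hg q (pr A u₁)
          have c2 := dd_comm hg v₁ u₁
          obtain ⟨p'', hp'', hpp''⟩ := close hg hF (x := q) (a := p') (y := v₁) (p := v₁)
            (c := 130 * κ) (by omega) (btw_right hg q v₁)
          have hq2 : Btw ℓ q p'' v₁ := by
            rcases hp'' with h | h
            · exact h
            · exact (Btw.trans_right hg h (btw_right hg q v₁)).1
          obtain ⟨q', hq', hq''⟩ := FP.thin hg hF q v₁ u₂ p'' hq2
          have s1 := dd_tri hg p p' q'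
          have s2 := dd_tri hg p' p'' q'
          rcases hq' with hq' | hq'
          · unfold Btw at hq'
            have s3 := dd_tri hg q' u₂ v₂
            have s4 := dd_tri hg q v₂ u₂
            have c3 := dd_comm hg v₂ u₂
            obtain ⟨q₂, hq₂, hq₂'⟩ := close hg hF (x := q) (a := q') (y := v₂) (p := v₂)
              (c := 40 * κ) (by omega) (btw_right hg q v₂)
            have hq3 : Btw ℓ q q₂ v₂ := by
              rcases hq₂ with h | h
              · exact h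
              · exact (Btw.trans_right hg h (btw_right hg q v₂)).1
            refine ⟨1, R.one_mem, q₂, Or.inr (Btw.trans_left hg (Btw.symm hg hq3) hq).1, ?_⟩
            rw [one_mul]
            have s5 := dd_tri hg p q' q₂
            omega
          · refine ⟨1, R.one_mem, q', Or.inl (Btw.symm hg hq'), ?_⟩
            rw [one_mul]
            omega
    · -- A2
      have hu1 := Btw.trans_right hg hu₀ hp
      have hredu := (Red.sub hg hred1 hu1.1).1
      have c1 := dd_comm hg u₀ (pr A p₀)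
      by_cases hD3 : κ < dd ℓ (pr A v₂) (pr A (r * p₀))
      · -- A2.1
        obtain ⟨w₀, hw₀, hw₀'⟩ := nearR' hP A (x := v₂) (y := r * p₀) hD3
        obtain ⟨m, hm, -, hm'⟩ := hR.rot' A (pr A p₀) (pr A (r * p₀)) (hP.mem _ _) (hP.mem _ _)
        have t1 := dd_tri hg u₀ (pr A p₀) (m * w₀)
        have t2 := dd_tri hg (pr A p₀) (m * pr A (r * p₀)) (m * w₀)
        rw [dd_left] at t2
        exact BB u₀ w₀ m hm hredu hw₀ (by omega) hu1.2
      · -- A2.2
        by_cases hbc : κ < dd ℓ (pr A u₂) (pr A v₂)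
        · -- (a)
          have far2 := hP.far A u₂ v₂ hbc
          obtain ⟨m, hm, -, hm'⟩ := hR.rot' A (pr A p₀) (pr A (r * p₀)) (hP.mem _ _) (hP.mem _ _)
          have t1 := dd_tri hg u₀ (pr A p₀) (m * v₂)
          have t2 := dd_tri hg (pr A p₀) (m * pr A (r * p₀)) (m * v₂)
          have t3 := dd_tri hg (pr A (r * p₀)) (pr A v₂) v₂
          have c2 := dd_comm hg (pr A (r * p₀)) (pr A v₂)
          rw [dd_left] at t2
          exact BB u₀ v₂ m hm hredu (btw_left hg _ _) (by omega) hu1.2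
        · -- (b)
          have far2 := hP.far A v₁ u₂ (by omega)
          have key : ∃ b' w₀ : G, (b' : G ⧸ E) = A ∧ Btw ℓ v₁ w₀ u₂ ∧ dd ℓ b' w₀ ≤ 3 * κ ∧
              dd ℓ (pr A p₀) b' ≤ L + κ ∧ L ≤ dd ℓ (pr A p₀) b' + 3 * κ ∧
              dd ℓ b' (pr A u₂) ≤ dd ℓ (pr A v₁) (pr A u₂) + κ := by
            by_cases hL : dd ℓ (pr A p₀) (pr A u₂) ≤ L
            · obtain ⟨w₀, hw₀, hw₀'⟩ := nearR' hP A (x := v₁) (y := u₂) (by omega)
              refine ⟨pr A u₂, w₀, hP.mem _ _, hw₀, by omega, by omega, by omega, ?_⟩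
              rw [dd_self hg]
              omega
            · obtain ⟨g, hgb, hgL⟩ := ivt hg (a := pr A p₀) (c := pr A v₁) (b := pr A u₂) (t := L)
                (by omega) (by omega)
              obtain ⟨b', hb', hgb'⟩ := hP.qc A (pr A v₁) (pr A u₂) g (hP.mem _ _) (hP.mem _ _) hgb
              unfold Btw at hgb
              have s1 := dd_tri hg v₁ (pr A v₁) g
              have s2 := dd_tri hg g (pr A u₂) u₂
              obtain ⟨w₀, hw₀, hw₀'⟩ := close hg hF (x := v₁) (a := g) (y := u₂) (p := u₂)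
                (c := κ) (by omega) (btw_right hg v₁ u₂)
              have hw1 : Btw ℓ v₁ w₀ u₂ := by
                rcases hw₀ with h | h
                · exact h
                · exact (Btw.trans_right hg h (btw_right hg v₁ u₂)).1
              have s3 := dd_tri hg b' g w₀
              have s4 := dd_tri hg (pr A p₀) g b'
              have s5 := dd_tri hg (pr A p₀) b' g
              have s6 := dd_tri hg b' g (pr A u₂)
              have c2 := dd_comm hg b' g
              exact ⟨b', w₀, hb', hw1, by omega, by omega, by omega, by omega⟩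
          obtain ⟨b', w₀, hb', hw₀, h1, h2, h3, h4⟩ := key
          obtain ⟨m, hm, -, hm'⟩ := hR.rot A (pr A p₀) b' (hP.mem _ _) hb'
          have t1 := dd_tri hg u₀ (pr A p₀) (m * w₀)
          have t2 := dd_tri hg (pr A p₀) (m * b') (m * w₀)
          have t3 := dd_tri hg p₀ (pr A p₀) (m * (r * p₀))
          have t4 := dd_tri hg (pr A p₀) (m * b') (m * (r * p₀))
          have t5 := dd_tri hg b' (pr A u₂) (r * p₀)
          have t6 := dd_tri hg (pr A u₂) (pr A v₂) (r * p₀)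
          have t7 := dd_tri hg (pr A v₂) (pr A (r * p₀)) (r * p₀)
          rw [dd_left] at t2 t4
          exact IH1 u₀ w₀ m hm (by omega) hredu hw₀ (by omega) hu1.2
  · -- case C
    by_cases hbc : κ < dd ℓ (pr A u₁) (pr A v₁)
    · -- C1
      have far1 := hP.far A u₁ v₁ hbc
      obtain ⟨w₀, hw₀, hw₀'⟩ := nearR' hP A (x := v₂) (y := r * p₀) (by omega)
      obtain ⟨m, hm, -, hm'⟩ := hR.rot' A (pr A p₀) (pr A (r * p₀)) (hP.mem _ _) (hP.mem _ _)
      have t1 := dd_tri hg u₁ (pr A u₁) (m * w₀)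
      have t2 := dd_tri hg (pr A u₁) (pr A p₀) (m * w₀)
      have t3 := dd_tri hg (pr A p₀) (m * pr A (r * p₀)) (m * w₀)
      have c1 := dd_comm hg (pr A u₁) (pr A p₀)
      rw [dd_left] at t3
      exact BB u₁ w₀ m hm hred1 hw₀ (by omega) hp
    · -- C2
      have tri5 := dd_tri hg (pr A v₁) (pr A p₀) (pr A (r * p₀))
      have tri6 := dd_tri hg (pr A p₀) (pr A v₁) (pr A (r * p₀))
      have cm1 := dd_comm hg (pr A v₁) (pr A p₀)
      have tri7 := dd_tri hg (pr A v₁) (pr A u₂) (pr A v₂)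
      obtain ⟨w₁, hw₁, hw₁'⟩ := nearL' hP A (x := v₁) (y := u₂) (by omega)
      have far3 := hP.far A v₂ (r * p₀) (by omega)
      have key : ∃ b' w₃ : G, (b' : G ⧸ E) = A ∧ Btw ℓ v₂ w₃ (r * p₀) ∧ dd ℓ b' w₃ ≤ 3 * κ ∧
          dd ℓ (pr A v₁) b' ≤ L + κ ∧ L ≤ dd ℓ (pr A v₁) b' + 3 * κ ∧
          dd ℓ b' (pr A (r * p₀)) ≤ dd ℓ (pr A v₂) (pr A (r * p₀)) + κ := by
        by_cases hL : dd ℓ (pr A v₁) (pr A (r * p₀)) ≤ L
        · obtain ⟨w₃, hw₃, hw₃'⟩ := nearR' hP A (x := v₂) (y := r * p₀) (by omega)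
          refine ⟨pr A (r * p₀), w₃, hP.mem _ _, hw₃, by omega, by omega, by omega, ?_⟩
          rw [dd_self hg]
          omega
        · obtain ⟨g, hgb, hgL⟩ := ivt hg (a := pr A v₁) (c := pr A v₂) (b := pr A (r * p₀))
            (t := L) (by omega) (by omega)
          obtain ⟨b', hb', hgb'⟩ := hP.qc A (pr A v₂) (pr A (r * p₀)) g (hP.mem _ _) (hP.mem _ _)
            hgb
          unfold Btw at hgb
          have s1 := dd_tri hg v₂ (pr A v₂) g
          have s2 := dd_tri hg g (pr A (r * p₀)) (r * p₀)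
          obtain ⟨w₃, hw₃, hw₃'⟩ := close hg hF (x := v₂) (a := g) (y := r * p₀) (p := r * p₀)
            (c := κ) (by omega) (btw_right hg v₂ (r * p₀))
          have hw1 : Btw ℓ v₂ w₃ (r * p₀) := by
            rcases hw₃ with h | h
            · exact h
            · exact (Btw.trans_right hg h (btw_right hg v₂ (r * p₀))).1
          have s3 := dd_tri hg b' g w₃
          have s4 := dd_tri hg (pr A v₁) g b'
          have s5 := dd_tri hg (pr A v₁) b' g
          have s6 := dd_tri hg b' g (pr A (r * p₀))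
          have c2 := dd_comm hg b' g
          exact ⟨b', w₃, hb', hw1, by omega, by omega, by omega, by omega⟩
      obtain ⟨b', w₃, hb', hw₃, h1, h2, h3, h4⟩ := key
      obtain ⟨m, hm, -, hm'⟩ := hR.rot A (pr A v₁) b' (hP.mem _ _) hb'
      have t1 := dd_tri hg w₁ (pr A v₁) (m * w₃)
      have t2 := dd_tri hg (pr A v₁) (m * b') (m * w₃)
      have t3 := dd_tri hg p₀ (pr A p₀) (m * (r * p₀))
      have t4 := dd_tri hg (pr A p₀) (pr A v₁) (m * (r * p₀))
      have t5 := dd_tri hg (pr A v₁) (m * b') (m * (r * p₀))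
      have t6 := dd_tri hg b' (pr A (r * p₀)) (r * p₀)
      have c1 := dd_comm hg w₁ (pr A v₁)
      rw [dd_left] at t2 t5
      exact IH2 w₁ w₃ m hm (by omega) hw₁ hw₃ (by omega)

end MPba2ef4
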