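import Pool.Agent.Lib.MP_ba2ef4_al.Spec

section
/-!
# MP_ba2ef4_al : SHIFT, GROW, CENT
-/
set_option autoImplicit false

namespace MPba2ef4

namespace Shift

variable {G : Type} [Group G] {ℓ : G → ℕ} {δ : ℕ}

theorem ss_one (p : G) : ss ℓ p 1 = 0 := by
  simp [ss]

theorem norm_pow (h : GeoNorm ℓ) (x : G) (i : ℕ) : ℓ (x ^ i) ≤ i * ℓ x := by
  induction i with
  | zero => simp [h.one]
  | succ i ih =>
    rw [pow_succ]
    have := h.mul (x ^ i) x
    calc ℓ (x ^ i * x) ≤ ℓ (x ^ i) + ℓ x := this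
      _ ≤ i * ℓ x + ℓ x := by omega
      _ = (i + 1) * ℓ x := by ring

theorem norm_zpow (h : GeoNorm ℓ) (x : G) (i : ℤ) : ℓ (x ^ i) ≤ i.natAbs * ℓ x := by
  rcases Int.natAbs_eq i with e | e
  · conv_lhs => rw [e]
    rw [zpow_natCast]
    exact norm_pow h x _
  · conv_lhs => rw [e]
    rw [zpow_neg, zpow_natCast, h.inv]
    exact norm_pow h x _

/-- long powers -/
theorem exists_long (h : GeoNorm ℓ) {x : G} (hx : ¬ IsOfFinOrder x) (m T : ℕ) (hm : 1 ≤ m) :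
    ∃ n, 1 ≤ n ∧ m ∣ n ∧ T < ℓ (x ^ n) := by
  have hinj : Function.Injective (fun k : ℕ => x ^ (m * (k + 1))) := by
    intro a b hab
    have h1 := injective_pow_iff_not_isOfFinOrder.2 hx hab
    have h2 := Nat.eq_of_mul_eq_mul_left (by omega : 0 < m) h1
    omega
  have hinf := Set.infinite_range_of_injective hinj
  obtain ⟨g, ⟨k, rfl⟩, hg⟩ := hinf.exists_notMem_finite (h.fin T)
  refine ⟨m * (k + 1), ?_, Dvd.intro _ rfl, ?_⟩
  · have : 1 * 1 ≤ m * (k + 1) := Nat.mul_le_mul hm (by omega)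
    omega
  · simpa using hg

/-- the conclusions of SHIFT -/
def Sh (ℓ : G → ℕ) (δ K : ℕ) (P p : G) : Prop :=
  (∀ h, ℓ h ≤ K → Commute h P →
      |ss ℓ p h| ≤ (ℓ h : ℤ) ∧ |ss ℓ p h| ≤ (dd ℓ p (h * p) : ℤ) ∧
      (dd ℓ p (h * p) : ℤ) ≤ |ss ℓ p h| + 3 * (δ : ℤ)) ∧
    (∀ g h, ℓ g ≤ K → ℓ h ≤ K → Commute g P → Commute h P →
      |ss ℓ p (g * h) - ss ℓ p g - ss ℓ p h| ≤ (δ : ℤ))

theorem main (h : GeoNorm ℓ) (hF : FP ℓ δ) (K : ℕ) {P p : G}
    (hp : Btw ℓ 1 p P) (h1 : 100 * (K + δ + 1) ≤ dd ℓ 1 p) (h2 : 100 * (K + δ + 1) ≤ dd ℓ p P) :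
    Sh ℓ δ K P p := by
  have hb : ∀ g, ℓ g ≤ K → Commute g P → dd ℓ p (g * p) ≤ 3 * K + δ := by
    intro g hg hc
    refine fellow h hF (x := 1) (y := P) (x' := g) (y' := g * P) ?_ ?_ hp ?_ ?_
    · rw [dd_one_left]; exact hg
    · have e : dd ℓ P (g * P) = ℓ g := by
        unfold dd
        congr 1
        rw [hc.eq]
        group
      rw [e]; exact hg
    · have := hp.left g
      rwa [mul_one] at this
    · have := dd_left (ℓ := ℓ) g 1 p
      rw [mul_one] at this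
      exact this.symm
  constructor
  · intro g hg hc
    have hb' := hb g hg hc
    have e1 : dd ℓ g (g * p) = dd ℓ 1 p := by
      have := dd_left (ℓ := ℓ) g 1 p
      rwa [mul_one] at this
    have e2 : dd ℓ (g * p) (g * P) = dd ℓ p P := dd_left g p P
    have e3 : dd ℓ g (g * P) = dd ℓ 1 P := by
      have := dd_left (ℓ := ℓ) g 1 P
      rwa [mul_one] at this
    have e4 : dd ℓ P (g * P) = ℓ g := by
      unfold dd
      congr 1
      rw [hc.eq]
      group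
    have e5 : dd ℓ 1 g = ℓ g := dd_one_left g
    have e6 : dd ℓ g 1 = ℓ g := dd_one_right h g
    have t1 := dd_tri h 1 g (g * p)
    have t2 := dd_tri h g 1 (g * p)
    have t3 := dd_tri h 1 p (g * p)
    have t4 := dd_tri h 1 (g * p) p
    have c1 := dd_comm h (g * p) p
    have c2 := dd_comm h (g * p) 1
    have c3 := dd_comm h P (g * p)
    have c4 := dd_comm h (g * p) (g * P)
    have t5 := dd_tri h (g * p) P (g * P)
    have hp' := hp
    unfold Btw at hp'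
    have e7 : dd ℓ 1 (g * p) + dd ℓ (g * p) P ≤ dd ℓ 1 P + 2 * δ := by
      rcases ultra h hF g (g * p) (g * P) 1 with u | u
      · exfalso; omega
      · rcases ultra h hF 1 (g * p) (g * P) P with v | v
        · omega
        · exfalso; omega
    have e8 := posn h hF (x := 1) (z := p) (w := g * p) (P := P) (c := 2 * δ) (by omega) e7
    unfold ss
    refine ⟨?_, ?_, ?_⟩
    · rw [abs_le]; constructor <;> omega
    · rw [abs_le]; constructor <;> omega
    · rcases abs_cases ((dd ℓ 1 (g * p) : ℤ) - (dd ℓ 1 p : ℤ)) with ⟨a, b⟩ | ⟨a, b⟩ <;>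
        rw [a] <;> omega
  · intro g f hg hf hcg hcf
    have b1 := hb g hg hcg
    have b2 := hb f hf hcf
    have e1 : dd ℓ g⁻¹ (f * p) = dd ℓ 1 (g * f * p) := by
      have := dd_left (ℓ := ℓ) g g⁻¹ (f * p)
      rw [mul_inv_cancel, ← mul_assoc] at this
      exact this.symm
    have e2 : dd ℓ g⁻¹ p = dd ℓ 1 (g * p) := by
      have := dd_left (ℓ := ℓ) g g⁻¹ p
      rw [mul_inv_cancel] at this
      exact this.symm
    have e3 : dd ℓ 1 g⁻¹ = ℓ g := by rw [dd_one_left, h.inv]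
    have c1 := dd_comm h (f * p) g⁻¹
    have c2 := dd_comm h p g⁻¹
    have c3 := dd_comm h (f * p) p
    have t1 := dd_tri h 1 (g * p) p
    have t2 := dd_tri h 1 (f * p) p
    have c4 := dd_comm h (g * p) p
    have t3 := dd_tri h 1 p (g * p)
    have t4 := dd_tri h 1 p (f * p)
    have key : dd ℓ 1 (f * p) + dd ℓ 1 (g * p) ≤ dd ℓ 1 p + dd ℓ 1 (g * f * p) + δ ∧
        dd ℓ 1 p + dd ℓ 1 (g * f * p) ≤ dd ℓ 1 (f * p) + dd ℓ 1 (g * p) + δ := by
      rcases hF 1 (f * p) g⁻¹ p with u | u <;> rcases hF 1 p g⁻¹ (f * p) with v | v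
      all_goals
        constructor <;> omega
    unfold ss
    rw [abs_le]
    constructor <;> omega

/-- growth of the displacement -/
theorem grow_aux (h : GeoNorm ℓ) {x : G} (hx : ¬ IsOfFinOrder x) (δ : ℕ) :
    ∃ n₁ : ℕ, 1 ≤ n₁ ∧ ∀ (k K : ℕ) (P p : G), Commute x P → Sh ℓ δ K P p →
      k * n₁ * ℓ x ≤ K → (k : ℤ) ≤ |ss ℓ p (x ^ (k * n₁))| := by
  classical
  set B := (h.fin (2 * δ + 2 + 3 * δ)).toFinset with hB
  have hBm : ∀ g, g ∈ B ↔ ℓ g ≤ 2 * δ + 2 + 3 * δ := by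
    intro g; rw [hB]; simp
  have hJ : 1 ≤ B.card := by
    refine Finset.card_pos.2 ⟨1, ?_⟩
    rw [hBm, h.one]; omega
  refine ⟨B.card.factorial, Nat.factorial_pos _, ?_⟩
  intro k K P p hc hS hK
  rcases Nat.eq_zero_or_pos k with rfl | hk
  · simp
  have hself := Nat.self_le_factorial B.card
  have hpow : ∀ i, i ≤ k * B.card.factorial → ℓ (x ^ i) ≤ K := by
    intro i hi
    exact (norm_pow h x i).trans ((Nat.mul_le_mul_right _ hi).trans hK)
  have hcp : ∀ i : ℕ, Commute (x ^ i) P := fun i => hc.pow_left i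
  have hex : ∃ j, 1 ≤ j ∧ j ≤ B.card ∧ (2 * δ + 3 : ℤ) ≤ |ss ℓ p (x ^ j)| := by
    by_contra hcon
    push Not at hcon
    have hle : (Finset.range (B.card + 1)).card ≤ B.card := by
      refine Finset.card_le_card_of_injOn (fun j => p⁻¹ * (x ^ j * p)) ?_ ?_
      · intro j hj
        have hj' : j ≤ B.card := by
          have := Finset.mem_range.1 (Finset.mem_coe.1 hj)
          omega
        rw [Finset.mem_coe, hBm]
        change dd ℓ p (x ^ j * p) ≤ _
        rcases Nat.eq_zero_or_pos j with rfl | hj0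
        · rw [pow_zero, one_mul, dd_self h]; omega
        · have h1 := hcon j hj0 hj'
          have h2 := (hS.1 (x ^ j) (hpow j (by nlinarith)) (hcp j)).2.2
          omega
      · intro a _ b _ hab
        have h1 : x ^ a * p = x ^ b * p := mul_left_cancel hab
        exact injective_pow_iff_not_isOfFinOrder.2 hx (mul_right_cancel h1)
    rw [Finset.card_range] at hle
    omega
  obtain ⟨j, hj1, hjJ, hj⟩ := hex
  obtain ⟨q, hq⟩ := Nat.dvd_factorial hj1 hjJ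
  have hq1 : 1 ≤ q := by
    rcases Nat.eq_zero_or_pos q with rfl | hq1
    · have := Nat.factorial_pos B.card
      rw [hq] at this
      omega
    · exact hq1
  have hstep : ∀ i, i * j ≤ k * B.card.factorial →
      (0 ≤ ss ℓ p (x ^ j) → (i : ℤ) * (δ + 3) ≤ ss ℓ p (x ^ (i * j))) ∧
      (ss ℓ p (x ^ j) ≤ 0 → ss ℓ p (x ^ (i * j)) ≤ -((i : ℤ) * (δ + 3))) := by
    intro i
    induction i with
    | zero => intro _; simp [ss_one]
    | succ i ih =>
      intro hi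
      have hi' : i * j ≤ k * B.card.factorial := le_trans (by nlinarith) hi
      have hj' : j ≤ k * B.card.factorial := le_trans (by nlinarith) hi
      obtain ⟨a, b⟩ := ih hi'
      have e : x ^ ((i + 1) * j) = x ^ (i * j) * x ^ j := by
        rw [← pow_add]; congr 1; ring
      have hs := hS.2 (x ^ (i * j)) (x ^ j) (hpow _ hi') (hpow _ hj') (hcp _) (hcp _)
      rw [abs_le] at hs
      rw [e]
      push_cast
      constructor
      · intro h0
        have h1 := a h0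
        rw [abs_of_nonneg h0] at hj
        nlinarith [hs.1, hs.2]
      · intro h0
        have h1 := b h0
        rw [abs_of_nonpos h0] at hj
        nlinarith [hs.1, hs.2]
  have hkq : k * q * j = k * B.card.factorial := by rw [hq]; ring
  obtain ⟨a, b⟩ := hstep (k * q) hkq.le
  rw [hkq] at a b
  have hkk : (k : ℤ) ≤ ((k * q : ℕ) : ℤ) * (δ + 3) := by
    have h1 : k ≤ k * q := Nat.le_mul_of_pos_right _ hq1
    have h2 : (k : ℤ) ≤ ((k * q : ℕ) : ℤ) := by exact_mod_cast h1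
    nlinarith
  rcases le_total 0 (ss ℓ p (x ^ j)) with h0 | h0
  · exact hkk.trans ((a h0).trans (le_abs_self _))
  · have := b h0
    have h3 := neg_abs_le (ss ℓ p (x ^ (k * B.card.factorial)))
    omega

/-- discrete intermediate value theorem -/
theorem divt (f : ℕ → ℤ) (M : ℕ) (c t : ℤ) (h0 : f 0 ≤ t) (h1 : t ≤ f M)
    (hs : ∀ i, i < M → |f (i + 1) - f i| ≤ c) : ∃ i, i ≤ M ∧ |f i - t| ≤ c ∨ (M = 0 ∧ f 0 = t) := by
  induction M with
  | zero => exact ⟨0, Or.inr ⟨rfl, le_antisymm h0 h1⟩⟩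
  | succ M ih =>
    rcases le_total t (f M) with h2 | h2
    · obtain ⟨i, hi | ⟨hM, hf⟩⟩ := ih h2 (fun i hi => hs i (by omega))
      · exact ⟨i, Or.inl ⟨by omega, hi.2⟩⟩
      · subst hM
        refine ⟨0, Or.inl ⟨by omega, ?_⟩⟩
        have := hs 0 (by omega)
        have h3 := abs_nonneg (f (0 + 1) - f 0)
        rw [hf]; simp; omega
    · refine ⟨M, Or.inl ⟨by omega, ?_⟩⟩
      have := hs M (by omega)
      rw [abs_le] at this ⊢
      constructor <;> omega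

theorem divt' (f : ℕ → ℤ) (M : ℕ) (c t : ℤ) (hc : 0 ≤ c) (h0 : f 0 ≤ t) (h1 : t ≤ f M)
    (hs : ∀ i, i < M → |f (i + 1) - f i| ≤ c) : ∃ i, i ≤ M ∧ |f i - t| ≤ c := by
  obtain ⟨i, hi | ⟨hM, hf⟩⟩ := divt f M c t h0 h1 hs
  · exact ⟨i, hi⟩
  · exact ⟨0, by omega, by rw [hf]; simpa using hc⟩

end Shift

open Shift

theorem specShift : SpecShift := by
  intro G _ ℓ δ h hF x hx K m hm
  obtain ⟨n, hn, hmn, hl⟩ := exists_long h hx m (2 * (100 * (K + δ + 1)) + 2) hm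
  obtain ⟨p, hp, hp1⟩ := exists_btw h 1 (x ^ n) (100 * (K + δ + 1)) (by
    rw [dd_one_left]; omega)
  have hp' := hp
  unfold Btw at hp'
  have := main h hF K hp hp1.ge (by
    have := dd_one_left (ℓ := ℓ) (x ^ n)
    omega)
  exact ⟨n, p, hn, hmn, hp, this.1, this.2⟩

theorem specGrow (hSh : SpecShift) : SpecGrow := by
  intro G _ ℓ δ h hF x hx
  obtain ⟨n₁, hn₁, hg⟩ := grow_aux h hx δ
  refine ⟨n₁, hn₁, fun k => ?_⟩
  obtain ⟨n, p, -, -, -, h1, h2⟩ := hSh G ℓ δ h hF x hx (k * n₁ * ℓ x) 1 le_rfl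
  have hc : Commute x (x ^ n) := Commute.self_pow x n
  have h3 := hg k (k * n₁ * ℓ x) (x ^ n) p hc ⟨h1, h2⟩ le_rfl
  have h4 := (h1 (x ^ (k * n₁)) (norm_pow h x _) (hc.pow_left _)).1
  omega

theorem specCent (hSh : SpecShift) : SpecCent := by
  classical
  intro G _ ℓ δ h hF x hx
  obtain ⟨n₁, hn₁, hg⟩ := grow_aux h hx δ
  refine ⟨(h.fin (ℓ x + 5 * δ)).toFinset.card, ?_⟩
  intro m hm S hSc hSx
  set ρ := S.sup ℓ with hρ
  have hρ' : ∀ g ∈ S, ℓ g ≤ ρ := fun g hgS => Finset.le_sup hgS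
  set k := ρ + δ + 1 with hk
  obtain ⟨n, p, hn, hmn, -, h1, h2⟩ := hSh G ℓ δ h hF x hx (k * n₁ * ℓ x + ρ) m hm
  set K := k * n₁ * ℓ x + ρ with hK
  set N := k * n₁ with hN
  have hc : Commute x (x ^ n) := Commute.self_pow x n
  have hcz : ∀ i : ℤ, Commute (x ^ i) (x ^ n) := fun i => hc.zpow_left i
  have hcS : ∀ g ∈ S, Commute g (x ^ n) := by
    intro g hgS
    obtain ⟨c, rfl⟩ := hmn
    rw [pow_mul]
    exact (hSc g hgS).pow_right c
  have hnz : ∀ i : ℤ, i.natAbs ≤ N → ℓ (x ^ i) ≤ N * ℓ x := by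
    intro i hi
    exact (norm_zpow h x i).trans (Nat.mul_le_mul_right _ hi)
  have hnK : ∀ i : ℤ, i.natAbs ≤ N → ℓ (x ^ i) ≤ K := by
    intro i hi
    have := hnz i hi
    omega
  have hxK : ℓ x ≤ K := by
    have h3 : 1 ≤ N := Nat.mul_pos (by omega) hn₁
    have h4 : 1 * ℓ x ≤ N * ℓ x := Nat.mul_le_mul_right _ h3
    omega
  have hgrow := hg k K (x ^ n) p hc ⟨h1, h2⟩ (by omega)
  -- the main claim
  have claim : ∀ g ∈ S, ∃ i : ℤ, dd ℓ p (x ^ i * g * p) ≤ ℓ x + 5 * δ := by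
    intro g hgS
    have hgρ := hρ' g hgS
    have hgs := (h1 g (by omega) (hcS g hgS)).1
    have hgs' : |ss ℓ p g| ≤ (ρ : ℤ) := hgs.trans (by exact_mod_cast hgρ)
    rw [abs_le] at hgs'
    -- the sequence
    set f : ℕ → ℤ := fun i => ss ℓ p (x ^ ((i : ℤ) - N)) with hf
    have hsteps : ∀ i, i < 2 * N → |f (i + 1) - f i| ≤ (ℓ x : ℤ) + δ := by
      intro i hi
      have e : x ^ (((i + 1 : ℕ) : ℤ) - N) = x ^ ((i : ℤ) - N) * x := by
        rw [← zpow_add_one]; congr 1; push_cast; ring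
      have h3 := h2 (x ^ ((i : ℤ) - N)) x (hnK _ (by omega)) hxK (hcz _) hc
      have h4 := (h1 x hxK hc).1
      rw [hf]
      simp only
      rw [e]
      rw [abs_le] at h3 h4 ⊢
      constructor <;> omega
    have hf0 : f 0 = ss ℓ p (x ^ (-(N : ℤ))) := by rw [hf]; simp
    have hfN : f (2 * N) = ss ℓ p (x ^ N) := by
      rw [hf]; simp only
      congr 1
      rw [← zpow_natCast]; congr 1; push_cast; ring
    have hopp : |ss ℓ p (x ^ N) + ss ℓ p (x ^ (-(N : ℤ)))| ≤ (δ : ℤ) := by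
      have h3 := h2 (x ^ (N : ℤ)) (x ^ (-(N : ℤ))) (hnK _ (by omega)) (hnK _ (by omega)) (hcz _)
        (hcz _)
      rw [← zpow_add, add_neg_cancel, zpow_zero, ss_one, zpow_natCast] at h3
      rw [abs_le] at h3 ⊢
      constructor <;> omega
    rw [abs_le] at hopp
    have hex : ∃ i, i ≤ 2 * N ∧ |f i + ss ℓ p g| ≤ (ℓ x : ℤ) + δ := by
      rcases le_total 0 (ss ℓ p (x ^ N)) with h0 | h0
      · rw [abs_of_nonneg h0] at hgrow
        obtain ⟨i, hi, hi'⟩ := divt' f (2 * N) ((ℓ x : ℤ) + δ) (-ss ℓ p g) (by positivity)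
          (by rw [hf0]; omega) (by rw [hfN]; omega) hsteps
        exact ⟨i, hi, by simpa using hi'⟩
      · rw [abs_of_nonpos h0] at hgrow
        obtain ⟨i, hi, hi'⟩ := divt' (fun i => -f i) (2 * N) ((ℓ x : ℤ) + δ) (ss ℓ p g)
          (by positivity) (by rw [hf0]; omega) (by rw [hfN]; omega) (by
            intro i hi
            have := hsteps i hi
            rw [← abs_neg]
            have e : -(-f (i + 1) - -f i) = f (i + 1) - f i := by ring
            rw [e]; exact this)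
        refine ⟨i, hi, ?_⟩
        rw [← abs_neg]
        have e : -(f i + ss ℓ p g) = -f i - ss ℓ p g := by ring
        rw [e]; exact hi'
    obtain ⟨i, hi, hi'⟩ := hex
    refine ⟨(i : ℤ) - N, ?_⟩
    have hni := hnz ((i : ℤ) - N) (by omega)
    have hmul := h.mul (x ^ ((i : ℤ) - N)) g
    have hcomm : Commute (x ^ ((i : ℤ) - N) * g) (x ^ n) := (hcz _).mul_left (hcS g hgS)
    have h3 := h2 (x ^ ((i : ℤ) - N)) g (by omega) (by omega) (hcz _) (hcS g hgS)
    have h4 := (h1 (x ^ ((i : ℤ) - N) * g) (by omega) hcomm).2.2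
    have h5 : |ss ℓ p (x ^ ((i : ℤ) - N) * g)| ≤ (ℓ x : ℤ) + 2 * δ := by
      rw [hf] at hi'
      simp only at hi'
      rw [abs_le] at h3 hi' ⊢
      constructor <;> omega
    omega
  choose! i hi using claim
  refine Finset.card_le_card_of_injOn (fun g => p⁻¹ * (x ^ (i g) * g * p)) ?_ ?_
  · intro g hgS
    rw [Finset.mem_coe, Set.Finite.mem_toFinset]
    exact hi g hgS
  · intro a ha b hb hab
    have e1 : x ^ (i a) * a = x ^ (i b) * b := mul_right_cancel (mul_left_cancel hab)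
    have e2 : b = x ^ (i a - i b) * a := by
      rw [zpow_sub, mul_assoc, ← zpow_neg]
      have : x ^ (i a) * x ^ (-i b) = x ^ (-i b) * x ^ (i a) := by
        rw [← zpow_add, ← zpow_add, add_comm]
      rw [← mul_assoc, this, mul_assoc, e1, ← mul_assoc, ← zpow_add, neg_add_cancel, zpow_zero,
        one_mul]
    exact (hSx a ha b hb _ e2).symm

end MPba2ef4
end

section
set_option autoImplicit false

/-!
# MP_ba2ef4_al : module SPIN
-/

namespace MPba2ef4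

/-- SPIN -/
theorem specSpin (hQ : SpecQL) : SpecSpin := by
  intro G _ V N E y ℓ δ hs hE hl hF
  obtain ⟨CQ, hCQ⟩ := hQ G ℓ δ hl hF y hE.yinf
  obtain ⟨CV, hCV⟩ : ∃ CV, ∀ v ∈ V, ℓ v ≤ CV := by
    obtain ⟨CV, h⟩ := (hs.Vfin.image ℓ).bddAbove
    exact ⟨CV, fun v hv => h ⟨v, hv, rfl⟩⟩
  refine ⟨2 * CQ + 2 * CV, fun c _ v₀ hv₀ hcom => ?_⟩
  have hq0 : 0 < 3 ^ c := by positivity
  generalize 3 ^ c = q at hq0 ⊢
  have hcomm : Commute (y ^ q) v₀⁻¹ := ((show Commute y v₀ from hcom).pow_left q).inv_right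
  have hz : ∀ k : ℤ, (y ^ q * v₀⁻¹) ^ k = y ^ ((q : ℤ) * k) * v₀ ^ (-k) := by
    intro k
    rw [hcomm.mul_zpow, zpow_mul, zpow_natCast, inv_zpow']
  have hg : ∀ n : ℤ, ℓ (y ^ n) = ℓ (y ^ n.natAbs) := by
    intro n
    rcases Int.natAbs_eq n with h | h
    · conv_lhs => rw [h]
      rw [zpow_natCast]
    · conv_lhs => rw [h]
      rw [zpow_neg, zpow_natCast, hl.inv]
  have hprod : ∀ (k n : ℤ) (v : G), v ∈ V → ℓ ((y ^ q * v₀⁻¹) ^ k * (v * y ^ n)) ≤
      ℓ (y ^ (n + q * k).natAbs) + CV := by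
    intro k n v hv
    have e : (y ^ q * v₀⁻¹) ^ k * (v * y ^ n) =
        y ^ (n + (q : ℤ) * k) * ((y ^ n)⁻¹ * (v₀ ^ (-k) * v) * y ^ n) := by
      rw [hz, zpow_add, (Commute.zpow_zpow_self y n ((q : ℤ) * k)).eq]
      group
    rw [e]
    refine (hl.mul _ _).trans ?_
    rw [hg]
    have h1 : (y ^ n)⁻¹ * (v₀ ^ (-k) * v) * y ^ n ∈ V := by
      have := hs.Vnormal.conj_mem (v₀ ^ (-k) * v) (V.mul_mem (V.zpow_mem hv₀ _) hv) (y ^ n)⁻¹
      simpa using this
    have := hCV _ h1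
    omega
  have he : ∀ (n : ℤ) (v : G), v ∈ V → ℓ (v * y ^ n) ≤ ℓ (y ^ n.natAbs) + CV ∧
      ℓ (y ^ n.natAbs) ≤ ℓ (v * y ^ n) + CV := by
    intro n v hv
    constructor
    · have := hl.mul v (y ^ n)
      rw [hg] at this
      have := hCV v hv
      omega
    · have h1 := hl.mul v⁻¹ (v * y ^ n)
      rw [inv_mul_cancel_left, hg, hl.inv] at h1
      have := hCV v hv
      omega
  refine ⟨?_, ?_, ?_⟩
  · intro k hk
    have h1 : ℓ (y ^ (q * k.natAbs)) ≤ ℓ ((y ^ q * v₀⁻¹) ^ k) + CV := by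
      have h2 := hl.mul ((y ^ q * v₀⁻¹) ^ k) (v₀ ^ (-k))⁻¹
      have e : (y ^ q * v₀⁻¹) ^ k * (v₀ ^ (-k))⁻¹ = y ^ ((q : ℤ) * k) := by
        rw [hz]
        group
      rw [e, hg, hl.inv, Int.natAbs_mul, Int.natAbs_natCast] at h2
      have := hCV _ (V.zpow_mem hv₀ (-k))
      omega
    have h2 := hCQ q (q * (k.natAbs - 1))
    have e : q + q * (k.natAbs - 1) = q * k.natAbs := by
      have : 1 ≤ k.natAbs := Int.natAbs_pos.mpr hk
      obtain ⟨m, hm⟩ := Nat.exists_eq_add_of_le this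
      rw [hm]
      simp only [add_tsub_cancel_left]
      ring
    rw [e] at h2
    omega
  · intro e he'
    obtain ⟨v, hv, n, rfl⟩ := hE.form e he'
    have h1 := he n v hv
    rcases le_or_gt 0 n with hn | hn
    · refine ⟨-1, ?_⟩
      have h2 := hprod (-1) n v hv
      rcases le_or_gt q n.natAbs with h3 | h3
      · have h4 := hCQ (n.natAbs - q) q
        rw [Nat.sub_add_cancel h3] at h4
        have e1 : (n + (q : ℤ) * -1).natAbs = n.natAbs - q := by omega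
        rw [e1] at h2
        omega
      · have h4 := hCQ (q - n.natAbs) n.natAbs
        rw [Nat.sub_add_cancel h3.le] at h4
        have e1 : (n + (q : ℤ) * -1).natAbs = q - n.natAbs := by omega
        rw [e1] at h2
        omega
    · refine ⟨1, ?_⟩
      have h2 := hprod 1 n v hv
      rcases le_or_gt q n.natAbs with h3 | h3
      · have h4 := hCQ (n.natAbs - q) q
        rw [Nat.sub_add_cancel h3] at h4
        have e1 : (n + (q : ℤ) * 1).natAbs = n.natAbs - q := by omega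
        rw [e1] at h2
        omega
      · have h4 := hCQ (q - n.natAbs) n.natAbs
        rw [Nat.sub_add_cancel h3.le] at h4
        have e1 : (n + (q : ℤ) * 1).natAbs = q - n.natAbs := by omega
        rw [e1] at h2
        omega
  · intro e he'
    obtain ⟨v, hv, n, rfl⟩ := hE.form e he'
    have hex : ∃ k : ℤ, 2 * (n + (q : ℤ) * k).natAbs ≤ q := by
      have h0 : (0 : ℤ) < q := by exact_mod_cast hq0
      have h1 := Int.emod_nonneg n h0.ne'
      have h2 := Int.emod_lt_of_pos n h0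
      have h3 := Int.mul_ediv_add_emod n (q : ℤ)
      rcases le_or_gt (2 * (n % (q : ℤ))) q with h | h
      · refine ⟨-(n / (q : ℤ)), ?_⟩
        have e : n + (q : ℤ) * -(n / (q : ℤ)) = n % (q : ℤ) := by
          have : (q : ℤ) * -(n / (q : ℤ)) = -((q : ℤ) * (n / (q : ℤ))) := by ring
          omega
        rw [e]
        omega
      · refine ⟨-(n / (q : ℤ)) - 1, ?_⟩
        have e : n + (q : ℤ) * (-(n / (q : ℤ)) - 1) = n % (q : ℤ) - q := by
          have : (q : ℤ) * (-(n / (q : ℤ)) - 1) = -((q : ℤ) * (n / (q : ℤ))) - q := by ring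
          omega
        rw [e]
        omega
    obtain ⟨k, hk⟩ := hex
    refine ⟨k, ?_⟩
    have h2 := hprod k n v hv
    have h3 := hCQ (n + (q : ℤ) * k).natAbs (n + (q : ℤ) * k).natAbs
    have h4 := hCQ (2 * (n + (q : ℤ) * k).natAbs) (q - 2 * (n + (q : ℤ) * k).natAbs)
    rw [Nat.add_sub_cancel' hk] at h4
    have h5 : ℓ (y ^ ((n + (q : ℤ) * k).natAbs + (n + (q : ℤ) * k).natAbs)) =
        ℓ (y ^ (2 * (n + (q : ℤ) * k).natAbs)) := by rw [two_mul]
    omega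

end MPba2ef4
end

section
/-!
# MP_ba2ef4_al : the abstract windmill
-/
set_option autoImplicit false

namespace MPba2ef4

namespace Wind

variable {G Z : Type} [Group G] [MulAction G Z]

structure WD (ax : Set Z) (D : Z → Z → Z → ℕ) (M : Z → Subgroup G) (θ L : ℕ) : Prop where
  axinv : ∀ (g : G), ∀ A ∈ ax, g • A ∈ ax
  sym : ∀ A ∈ ax, ∀ B C : Z, B ≠ A → C ≠ A → D A B C = D A C B
  tri : ∀ A ∈ ax, ∀ B C X : Z, B ≠ A → C ≠ A → X ≠ A → D A B C ≤ D A B X + D A X C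
  diam : ∀ A ∈ ax, ∀ B : Z, B ≠ A → D A B B ≤ θ
  equiv : ∀ (g : G), ∀ A ∈ ax, ∀ B C : Z, D (g • A) (g • B) (g • C) = D A B C
  behr : ∀ A ∈ ax, ∀ B ∈ ax, ∀ C : Z, A ≠ B → C ≠ A → C ≠ B → θ < D A B C → D B A C ≤ θ
  Mfix : ∀ A ∈ ax, ∀ h ∈ M A, h • A = A
  Mconj : ∀ A ∈ ax, ∀ g : G, ∀ h ∈ M A, g * h * g⁻¹ ∈ M (g • A)
  spin : ∀ A ∈ ax, ∀ h ∈ M A, h ≠ 1 → ∀ B : Z, B ≠ A → L ≤ D A B (h • B)

/-- group generated by the rotations around the axes in `T` -/
def Gam (ax : Set Z) (M : Z → Subgroup G) (T : Set Z) : Subgroup G :=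
  Subgroup.closure {h : G | ∃ A ∈ T ∩ ax, h ∈ M A}

theorem Gam_mono (ax : Set Z) (M : Z → Subgroup G) {T T' : Set Z} (h : T ⊆ T') :
    Gam ax M T ≤ Gam ax M T' := by
  apply Subgroup.closure_mono
  rintro g ⟨A, hA, hg⟩
  exact ⟨A, ⟨h hA.1, hA.2⟩, hg⟩

theorem mem_Gam {ax : Set Z} {M : Z → Subgroup G} {T : Set Z} {A : Z} (hA : A ∈ T) (hA' : A ∈ ax)
    {h : G} (hh : h ∈ M A) : h ∈ Gam ax M T :=
  Subgroup.subset_closure ⟨A, ⟨hA, hA'⟩, hh⟩

/-- invariance of `T` under the rotations around its axes gives invariance under `Gam T` -/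
theorem Gam_smul {ax : Set Z} {M : Z → Subgroup G} {T : Set Z}
    (hT : ∀ A ∈ T, A ∈ ax → ∀ h ∈ M A, ∀ B ∈ T, h • B ∈ T) {g : G} (hg : g ∈ Gam ax M T)
    {B : Z} (hB : B ∈ T) : g • B ∈ T := by
  unfold Gam at hg
  induction hg using Subgroup.closure_induction_left with
  | one => simpa using hB
  | mul_left x hx y hy ih =>
    obtain ⟨A, hA, hxA⟩ := hx
    rw [mul_smul]
    exact hT A hA.1 hA.2 x hxA _ ih
  | inv_mul_cancel x hx y hy ih =>
    obtain ⟨A, hA, hxA⟩ := hx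
    rw [mul_smul]
    exact hT A hA.1 hA.2 x⁻¹ (inv_mem hxA) _ ih

inductive Len (Γ : Subgroup G) (S : Set Z) (M : Z → Subgroup G) : ℕ → G → Prop
  | zero (g : G) : g ∈ Γ → Len Γ S M 0 g
  | succ (k : ℕ) (r h g : G) (E : Z) : Len Γ S M k r → E ∈ S → h ∈ M E → g ∈ Γ →
      Len Γ S M (k + 1) (r * h * g)

theorem Len.mulr {Γ : Subgroup G} {S : Set Z} {M : Z → Subgroup G} {k : ℕ} {r g : G}
    (h : Len Γ S M k r) (hg : g ∈ Γ) : Len Γ S M k (r * g) := by
  cases h with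
  | zero _ h => exact Len.zero _ (mul_mem h hg)
  | succ k r h' g' E h1 h2 h3 h4 =>
    have := Len.succ k r h' (g' * g) E h1 h2 h3 (mul_mem h4 hg)
    rwa [← mul_assoc] at this

/-- data of the rotation lemma -/
structure RL (ax : Set Z) (D : Z → Z → Z → ℕ) (M : Z → Subgroup G) (θ L : ℕ) (o : Z)
    (T S : Set Z) (a b : ℕ) : Prop where
  wd : WD ax D M θ L
  oax : ∀ g : G, g • o ∉ ax
  oT : o ∈ T
  Tinv : ∀ A ∈ T, A ∈ ax → ∀ h ∈ M A, ∀ B ∈ T, h • B ∈ T
  Sax : S ⊆ ax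
  ST : ∀ E ∈ S, E ∉ T
  Sinv : ∀ g ∈ Gam ax M T, ∀ E ∈ S, g • E ∈ S
  hi : ∀ E ∈ S, ∀ B ∈ T ∪ S, ∀ B' ∈ T ∪ S, B ≠ E → B' ≠ E → D E B B' ≤ a
  hii : ∀ F ∈ ax, F ∉ T ∪ S → ∀ B ∈ T ∪ S, ∀ B' ∈ T ∪ S, D F B B' ≤ b
  hiii : ∀ r ∈ Gam ax M T, r ≠ 1 → ∃ A ∈ ax, L ≤ D A o (r • o) + 12 * θ
  ha : a + θ ≤ 12 * θ
  hL : a + 4 * θ < L

section RLsec

variable {ax : Set Z} {D : Z → Z → Z → ℕ} {M : Z → Subgroup G} {θ L : ℕ} {o : Z}
  {T S : Set Z} {a b : ℕ}

theorem RL.block (H : RL ax D M θ L o T S a b) {g : G} (hg : g ∈ Gam ax M T) {B : Z}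
    (hB : B ∈ T ∪ S) : g • B ∈ T ∪ S := by
  rcases hB with hB | hB
  · exact Or.inl (Gam_smul H.Tinv hg hB)
  · exact Or.inr (H.Sinv g hg B hB)

theorem RL.len_exists (H : RL ax D M θ L o T S a b) {r : G} (hr : r ∈ Gam ax M (T ∪ S)) :
    ∃ k, Len (Gam ax M T) S M k r := by
  unfold Gam at hr
  induction hr using Subgroup.closure_induction_right with
  | one => exact ⟨0, Len.zero _ (one_mem _)⟩
  | mul_right x hx y hy ih =>
    obtain ⟨k, hk⟩ := ih
    obtain ⟨A, hA, hyA⟩ := hy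
    rcases hA.1 with hA1 | hA1
    · exact ⟨k, hk.mulr (mem_Gam hA1 hA.2 hyA)⟩
    · have := Len.succ k x y 1 A hk hA1 hyA (one_mem _)
      rw [mul_one] at this
      exact ⟨k + 1, this⟩
  | mul_inv_cancel x hx y hy ih =>
    obtain ⟨k, hk⟩ := ih
    obtain ⟨A, hA, hyA⟩ := hy
    rcases hA.1 with hA1 | hA1
    · exact ⟨k, hk.mulr (mem_Gam hA1 hA.2 (inv_mem hyA))⟩
    · have := Len.succ k x y⁻¹ 1 A hk hA1 (inv_mem hyA) (one_mem _)
      rw [mul_one] at this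
      exact ⟨k + 1, this⟩

theorem RL.len_mem (H : RL ax D M θ L o T S a b) {k : ℕ} {r : G}
    (hr : Len (Gam ax M T) S M k r) : r ∈ Gam ax M (T ∪ S) := by
  induction hr with
  | zero g hg => exact Gam_mono ax M (T' := T ∪ S) Set.subset_union_left hg
  | succ k r h g E h1 h2 h3 h4 ih =>
    have e1 : g ∈ Gam ax M (T ∪ S) := Gam_mono ax M (T' := T ∪ S) Set.subset_union_left h4
    have e2 : E ∈ T ∪ S := Or.inr h2
    have e3 : h ∈ Gam ax M (T ∪ S) := mem_Gam e2 (H.Sax h2) h3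
    exact mul_mem (mul_mem ih e3) e1

/-- exact length -/
def Ex (ax : Set Z) (M : Z → Subgroup G) (T S : Set Z) (k : ℕ) (r : G) : Prop :=
  Len (Gam ax M T) S M k r ∧ ∀ j < k, ¬ Len (Gam ax M T) S M j r

omit [MulAction G Z] [Group G] in
theorem exists_least (P : ℕ → Prop) (h : ∃ n, P n) : ∃ n, P n ∧ ∀ j < n, ¬ P j := by
  classical
  exact ⟨Nat.find h, Nat.find_spec h, fun j hj => Nat.find_min h hj⟩

theorem RL.ex_exists (H : RL ax D M θ L o T S a b) {r : G} (hr : r ∈ Gam ax M (T ∪ S)) :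
    ∃ k, Ex ax M T S k r :=
  exists_least (fun k => Len (Gam ax M T) S M k r) (H.len_exists hr)

theorem ex_pred {k : ℕ} {r h g : G} {E : Z} (hr : Ex ax M T S (k + 1) (r * h * g))
    (h1 : Len (Gam ax M T) S M k r) (h2 : E ∈ S) (h3 : h ∈ M E) (h4 : g ∈ Gam ax M T) :
    Ex ax M T S k r ∧ h ≠ 1 := by
  refine ⟨⟨h1, fun j hj hl => hr.2 (j + 1) (by omega) (Len.succ j r h g E hl h2 h3 h4)⟩, ?_⟩
  rintro rfl
  apply hr.2 k (by omega)
  rw [mul_one]
  exact h1.mulr h4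

/-- the basic rotation estimate -/
theorem RL.rotate (H : RL ax D M θ L o T S a b) {r h g : G} {E : Z} (hE : E ∈ S) (hh : h ∈ M E)
    (hh1 : h ≠ 1) (hg : g ∈ Gam ax M T) {Y X : Z} (hY : Y ∈ T ∪ S) (hX : X ∈ T ∪ S)
    (hYE : Y ≠ E) (hXE : (r * h * g) • X ≠ r • E) :
    L ≤ D (r • E) (r • Y) ((r * h * g) • X) + a := by
  have hEa := H.Sax hE
  have hXE' : g • X ≠ E := by
    intro e
    apply hXE
    rw [mul_smul, e, mul_smul, H.wd.Mfix E hEa h hh]
  have h1 : L ≤ D E Y (h • Y) := H.wd.spin E hEa h hh hh1 Y hYE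
  have hhY : h • Y ≠ E := by
    intro e
    apply hYE
    have : h • Y = h • E := by rw [e, H.wd.Mfix E hEa h hh]
    exact MulAction.injective h this
  have hhX : h • g • X ≠ E := by
    intro e
    apply hXE'
    have : h • g • X = h • E := by rw [e, H.wd.Mfix E hEa h hh]
    exact MulAction.injective h this
  have h2 : D E (h • Y) (h • g • X) ≤ a := by
    have e := H.wd.equiv h E hEa Y (g • X)
    rw [H.wd.Mfix E hEa h hh] at e
    rw [e]
    exact H.hi E hE Y hY _ (H.block hg hX) hYE hXE'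
  have h3 := H.wd.tri E hEa Y (h • Y) (h • g • X) hYE hhY hhX
  have h4 := H.wd.sym E hEa (h • g • X) (h • Y) hhX hhY
  have e : D (r • E) (r • Y) ((r * h * g) • X) = D E Y (h • g • X) := by
    rw [mul_smul, mul_smul]
    exact H.wd.equiv r E hEa Y (h • g • X)
  rw [e]
  omega

/-- PHI -/
theorem RL.phi (H : RL ax D M θ L o T S a b) : ∀ (k : ℕ) (r h g : G) (E : Z),
    Ex ax M T S (k + 1) (r * h * g) → Len (Gam ax M T) S M k r → E ∈ S → h ∈ M E →
    g ∈ Gam ax M T → ∀ X ∈ T ∪ S, ∀ X' ∈ T ∪ S, X ≠ r • E → (r * h * g) • X' ≠ r • E →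
    L ≤ D (r • E) X ((r * h * g) • X') + a + θ := by
  intro k
  induction k with
  | zero =>
    intro r h g E hex hl hE hh hg X hX X' hX' h1 h2
    obtain ⟨hex', hh1⟩ := ex_pred hex hl hE hh hg
    cases hl with
    | zero _ hr =>
      have hY : r⁻¹ • X ∈ T ∪ S := H.block (inv_mem hr) hX
      have := H.rotate (r := r) hE hh hh1 hg hY hX'
        (by intro e; apply h1; rw [← e, smul_inv_smul]) h2
      rw [smul_inv_smul] at this
      omega
  | succ k ih =>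
    intro r h g E hex hl hE hh hg X hX X' hX' h1 h2
    obtain ⟨hex', hh1⟩ := ex_pred hex hl hE hh hg
    cases hl with
    | succ _ r'' h' g' E' hl' hE' hh' hg' =>
      have hEa := H.Sax hE
      have hEa' := H.Sax hE'
      have hCa : (r'' * h' * g') • E ∈ ax := H.wd.axinv _ _ hEa
      have hCa' : r'' • E' ∈ ax := H.wd.axinv _ _ hEa'
      -- C' = r'' E' = r' (g'⁻¹ E')
      have eC' : r'' • E' = (r'' * h' * g') • (g'⁻¹ • E') := by
        rw [mul_smul, smul_inv_smul, mul_smul, H.wd.Mfix E' hEa' h' hh']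
      have hY : g'⁻¹ • E' ∈ T ∪ S := H.block (inv_mem hg') (Or.inr hE')
      have hYE : g'⁻¹ • E' ≠ E := by
        intro e
        -- r has smaller length
        have hgE : g' • E = E' := by rw [← e, smul_inv_smul]
        have hm : g' * h * g'⁻¹ ∈ M E' := by
          have := H.wd.Mconj E hEa g' h hh
          rwa [hgE] at this
        apply hex.2 (k + 1) (by omega)
        have := Len.succ k r'' (h' * (g' * h * g'⁻¹)) (g' * g) E' hl' hE' (mul_mem hh' hm)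
          (mul_mem hg' hg)
        have e2 : r'' * (h' * (g' * h * g'⁻¹)) * (g' * g) = r'' * h' * g' * h * g := by group
        rwa [e2] at this
      have hCC : r'' • E' ≠ (r'' * h' * g') • E := by
        rw [eC']
        intro e
        exact hYE (MulAction.injective _ e)
      have hrot := H.rotate (r := r'' * h' * g') hE hh hh1 hg hY hX' hYE h2
      rw [← eC'] at hrot
      -- D_C (X, C') ≤ θ
      have hsmall : D ((r'' * h' * g') • E) X (r'' • E') ≤ θ := by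
        by_cases hXC : X = r'' • E'
        · rw [hXC]
          exact H.wd.diam _ hCa _ hCC
        · have h5 := ih r'' h' g' E' hex' hl' hE' hh' hg' X hX E (Or.inr hE) hXC hCC.symm
          have hLL := H.hL
          have h6 : θ < D (r'' • E') ((r'' * h' * g') • E) X := by
            rw [H.wd.sym _ hCa' _ _ hCC.symm hXC]
            omega
          have h7 := H.wd.behr _ hCa' _ hCa X hCC hXC h1 h6
          rw [H.wd.sym _ hCa _ _ hCC h1] at h7
          exact h7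
      have h8 := H.wd.tri _ hCa (r'' • E') ((r'' * h' * g' * h * g) • X') X hCC h2 h1
      rw [H.wd.sym _ hCa _ _ hCC h1] at h8
      omega

/-- the new block union -/
def TT (ax : Set Z) (M : Z → Subgroup G) (T S : Set Z) : Set Z :=
  {z | ∃ γ ∈ Gam ax M (T ∪ S), ∃ z₀ ∈ T ∪ S, z = γ • z₀}

theorem sub_TT : T ∪ S ⊆ TT ax M T S := fun z hz => ⟨1, one_mem _, z, hz, (one_smul _ _).symm⟩

theorem TT_smul {γ : G} (hγ : γ ∈ Gam ax M (T ∪ S)) {z : Z} (hz : z ∈ TT ax M T S) :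
    γ • z ∈ TT ax M T S := by
  obtain ⟨δ, hδ, z₀, hz₀, rfl⟩ := hz
  exact ⟨γ * δ, mul_mem hγ hδ, z₀, hz₀, (mul_smul _ _ _).symm⟩

theorem RL.outblock (H : RL ax D M θ L o T S a b) {F : Z} (hF : F ∈ ax) (hFT : F ∉ TT ax M T S)
    {γ : G} (hγ : γ ∈ Gam ax M (T ∪ S)) {B B' : Z} (hB : B ∈ T ∪ S) (hB' : B' ∈ T ∪ S) :
    D F (γ • B) (γ • B') ≤ b := by
  have e := H.wd.equiv γ (γ⁻¹ • F) (H.wd.axinv _ _ hF) B B'
  rw [smul_inv_smul] at e
  rw [e]
  apply H.hii _ (H.wd.axinv _ _ hF) _ _ hB _ hB'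
  intro h
  apply hFT
  exact ⟨γ, hγ, _, h, (smul_inv_smul _ _).symm⟩

/-- S(k) -/
theorem RL.sk (H : RL ax D M θ L o T S a b) {F : Z} (hF : F ∈ ax) (hFT : F ∉ TT ax M T S) :
    ∀ (k : ℕ) (r : G), Ex ax M T S k r → ∀ X ∈ T ∪ S, ∀ X' ∈ T ∪ S, ∀ Y : Z, Y ≠ F →
    (Y = r • X' ∨ (r • X' ∈ ax ∧ r • X' ≠ X ∧ Y ≠ r • X' ∧ 2 * θ < D (r • X') X Y)) →
    D F X (r • X') ≤ θ ∨ D F X Y ≤ b + 2 * θ := by
  have hne : ∀ z ∈ TT ax M T S, z ≠ F := fun z hz e => hFT (e ▸ hz)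
  -- common end of the argument
  have fin : ∀ (X W Y : Z), X ∈ TT ax M T S → W ∈ TT ax M T S → Y ≠ F → D F X W ≤ b + θ →
      (Y = W ∨ (W ∈ ax ∧ W ≠ X ∧ Y ≠ W ∧ 2 * θ < D W X Y)) →
      D F X W ≤ θ ∨ D F X Y ≤ b + 2 * θ := by
    intro X W Y hX hW hY hXW hcond
    rcases hcond with rfl | ⟨hWa, hWX, hYW, hD⟩
    · right; omega
    · have h1 := H.wd.tri W hWa X Y F hWX.symm hYW (hne W hW).symm
      rcases Nat.lt_or_ge θ (D W X F) with h2 | h2
      · left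
        have h2' : θ < D W F X := by
          rw [H.wd.sym W hWa _ _ (hne W hW).symm hWX.symm]; exact h2
        have h3 := H.wd.behr W hWa F hF X (hne W hW) hWX.symm (hne X hX) h2'
        rw [H.wd.sym F hF _ _ (hne W hW) (hne X hX)] at h3
        exact h3
      · right
        have h2' : θ < D W F Y := by omega
        have h3 := H.wd.behr W hWa F hF Y (hne W hW) hYW hY h2'
        have h4 := H.wd.tri F hF X Y W (hne X hX) hY (hne W hW)
        omega
  intro k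
  induction k with
  | zero =>
    intro r hex X hX X' hX' Y hY hcond
    have hl := hex.1
    cases hl with
    | zero _ hr =>
      have hr' := Gam_mono ax M (T' := T ∪ S) Set.subset_union_left hr
      apply fin X _ Y (sub_TT hX) ⟨r, hr', X', hX', rfl⟩ hY _ hcond
      have := H.outblock hF hFT (one_mem _) hX (H.block hr hX')
      rw [one_smul, one_smul] at this
      omega
  | succ k ih =>
    intro r₁ hex X hX X' hX' Y hY hcond
    have hl := hex.1
    cases hl with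
    | succ _ r h g E hl hE hh hg =>
      obtain ⟨hex', hh1⟩ := ex_pred hex hl hE hh hg
      have hEa := H.Sax hE
      have hCa : r • E ∈ ax := H.wd.axinv _ _ hEa
      have hrG := H.len_mem hl
      have hr₁G := H.len_mem hex.1
      have hWT : (r * h * g) • X' ∈ TT ax M T S := ⟨_, hr₁G, X', hX', rfl⟩
      have hCT : r • E ∈ TT ax M T S := ⟨_, hrG, E, Or.inr hE, rfl⟩
      have eC : r • E = (r * h * g) • (g⁻¹ • E) := by
        rw [mul_smul, smul_inv_smul, mul_smul, H.wd.Mfix E hEa h hh]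
      have hgE : g⁻¹ • E ∈ T ∪ S := H.block (inv_mem hg) (Or.inr hE)
      have hCW : D F (r • E) ((r * h * g) • X') ≤ b := by
        have := H.outblock hF hFT hr₁G hgE hX'
        rwa [← eC] at this
      by_cases hWC : (r * h * g) • X' = r • E
      · -- W = C
        rw [hWC] at hcond ⊢
        exact ih r hex' X hX E (Or.inr hE) Y hY hcond
      by_cases hXC : X = r • E
      · apply fin X _ Y (sub_TT hX) hWT hY _ hcond
        rw [hXC]
        omega
      have hphi := H.phi k r h g E hex hl hE hh hg X hX X' hX' hXC hWC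
      have hLL := H.hL
      set W := (r * h * g) • X' with hW
      have hXT := sub_TT (ax := ax) (M := M) hX
      -- D_C(X, Y) large, Y ≠ C
      have hY2 : Y ≠ r • E ∧ 2 * θ < D (r • E) X Y := by
        rcases hcond with rfl | ⟨hWa, hWX, hYW, hD⟩
        · exact ⟨hWC, by omega⟩
        · have h1 : θ < D (r • E) W X := by
            rw [H.wd.sym _ hCa _ _ hWC hXC]
            omega
          have h2 := H.wd.behr _ hCa W hWa X (Ne.symm hWC) hXC hWX.symm h1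
          -- D_W (C, X) ≤ θ
          have hYC : Y ≠ r • E := by
            rintro rfl
            rw [H.wd.sym W hWa _ _ hYW hWX.symm] at h2
            omega
          refine ⟨hYC, ?_⟩
          have h3 := H.wd.tri W hWa X Y (r • E) hWX.symm hYW (Ne.symm hWC)
          rw [H.wd.sym W hWa X (r • E) hWX.symm (Ne.symm hWC)] at h3
          have h4 : θ < D W (r • E) Y := by omega
          have h5 := H.wd.behr W hWa _ hCa Y hWC hYW hYC h4
          have h6 := H.wd.tri _ hCa X W Y hXC hWC hYC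
          rw [H.wd.sym _ hCa Y W hYC hWC] at h6
          omega
      have h7 := ih r hex' X hX E (Or.inr hE) Y hY
        (Or.inr ⟨hCa, Ne.symm hXC, hY2.1, hY2.2⟩)
      rcases h7 with h7 | h7
      · apply fin X W Y hXT hWT hY _ hcond
        have := H.wd.tri F hF X W (r • E) (hne X hXT) (hne W hWT) (hne _ hCT)
        omega
      · right; exact h7

/-- conclusions of the rotation lemma -/
theorem RL.outer (H : RL ax D M θ L o T S a b) {F : Z} (hF : F ∈ ax) (hFT : F ∉ TT ax M T S)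
    {B B' : Z} (hB : B ∈ TT ax M T S) (hB' : B' ∈ TT ax M T S) : D F B B' ≤ b + 2 * θ := by
  obtain ⟨γ, hγ, X, hX, rfl⟩ := hB
  obtain ⟨γ', hγ', X', hX', rfl⟩ := hB'
  have hF' : γ⁻¹ • F ∈ ax := H.wd.axinv _ _ hF
  have hFT' : γ⁻¹ • F ∉ TT ax M T S := by
    intro h
    apply hFT
    have := TT_smul hγ h
    rwa [smul_inv_smul] at this
  obtain ⟨k, hk⟩ := H.ex_exists (mul_mem (inv_mem hγ) hγ')
  have hne : (γ⁻¹ * γ') • X' ≠ γ⁻¹ • F := by
    intro e
    exact hFT' (e ▸ ⟨_, mul_mem (inv_mem hγ) hγ', X', hX', rfl⟩)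
  have h1 := H.sk hF' hFT' k _ hk X hX X' hX' _ hne (Or.inl rfl)
  have e := H.wd.equiv γ (γ⁻¹ • F) hF' X ((γ⁻¹ * γ') • X')
  rw [smul_inv_smul, ← mul_smul, mul_inv_cancel_left] at e
  rw [e]
  omega

theorem RL.gam_TT (H : RL ax D M θ L o T S a b) : Gam ax M (TT ax M T S) ≤ Gam ax M (T ∪ S) := by
  unfold Gam
  rw [Subgroup.closure_le]
  rintro h ⟨A, ⟨⟨γ, hγ, A₀, hA₀, rfl⟩, hAa⟩, hh⟩
  have hA₀a : A₀ ∈ ax := by
    have := H.wd.axinv γ⁻¹ _ hAa
    rwa [inv_smul_smul] at this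
  have h1 := H.wd.Mconj _ hAa γ⁻¹ h hh
  rw [inv_smul_smul] at h1
  have h2 : γ⁻¹ * h * γ⁻¹⁻¹ ∈ Gam ax M (T ∪ S) := mem_Gam hA₀ hA₀a h1
  have e : h = γ * (γ⁻¹ * h * γ⁻¹⁻¹) * γ⁻¹ := by group
  rw [e]
  exact mul_mem (mul_mem hγ h2) (inv_mem hγ)

theorem RL.green (H : RL ax D M θ L o T S a b) {r : G} (hr : r ∈ Gam ax M (T ∪ S))
    (hr1 : r ≠ 1) : ∃ A ∈ ax, L ≤ D A o (r • o) + 12 * θ := by
  obtain ⟨k, hk⟩ := H.ex_exists hr
  have hl := hk.1
  cases hl with
  | zero _ h0 => exact H.hiii _ h0 hr1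
  | succ k r h g E hl hE hh hg =>
    have hEa := H.Sax hE
    have hCa : r • E ∈ ax := H.wd.axinv _ _ hEa
    have h1 : o ≠ r • E := by
      intro e
      apply H.oax (1 : G)
      rw [one_smul, e]
      exact hCa
    have h2 : (r * h * g) • o ≠ r • E := by
      intro e
      apply H.oax (r * h * g)
      rw [e]
      exact hCa
    have := H.phi k r h g E hk hl hE hh hg o (Or.inl H.oT) o (Or.inl H.oT) h1 h2
    exact ⟨_, hCa, by have := H.ha; omega⟩

end RLsec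

/-- the mill property with outer constant `c` -/
structure Q (ax : Set Z) (D : Z → Z → Z → ℕ) (M : Z → Subgroup G) (θ L : ℕ) (o : Z) (c : ℕ)
    (T : Set Z) : Prop where
  oT : o ∈ T
  Tinv : ∀ A ∈ T, A ∈ ax → ∀ h ∈ M A, ∀ B ∈ T, h • B ∈ T
  out : ∀ F ∈ ax, F ∉ T → ∀ B ∈ T, ∀ B' ∈ T, D F B B' ≤ c
  gr : ∀ r ∈ Gam ax M T, r ≠ 1 → ∃ A ∈ ax, L ≤ D A o (r • o) + 12 * θ

section Main

variable {ax : Set Z} {D : Z → Z → Z → ℕ} {M : Z → Subgroup G} {θ L : ℕ} {o : Z}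

theorem RL.q {T S : Set Z} {a b : ℕ} (H : RL ax D M θ L o T S a b) :
    Q ax D M θ L o (b + 2 * θ) (TT ax M T S) where
  oT := sub_TT (Or.inl H.oT)
  Tinv := by
    intro A hA hAa h hh B hB
    exact TT_smul (H.gam_TT (mem_Gam hA hAa hh)) hB
  out := fun F hF hFT B hB B' hB' => H.outer hF hFT hB hB'
  gr := fun r hr hr1 => H.green (H.gam_TT hr) hr1

theorem Q.mono {T : Set Z} {c c' : ℕ} (hc : c ≤ c') (h : Q ax D M θ L o c T) :
    Q ax D M θ L o c' T :=
  ⟨h.oT, h.Tinv, fun F hF hFT B hB B' hB' => (h.out F hF hFT B hB B' hB').trans hc, h.gr⟩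

/-- closure step -/
theorem step (W : WD ax D M θ L) (hL : 20 * θ < L) (oax : ∀ g : G, g • o ∉ ax) {T : Set Z}
    (h : Q ax D M θ L o (8 * θ) T) : ∃ T', T ⊆ T' ∧ Q ax D M θ L o (8 * θ) T' ∧
      ∀ F ∈ ax, F ∉ T' → ∀ B ∈ T, ∀ B' ∈ T, D F B B' ≤ 2 * θ := by
  let S : Set Z := {E | E ∈ ax ∧ E ∉ T ∧ ∃ B ∈ T, ∃ B' ∈ T, 2 * θ < D E B B'}
  have key : ∀ F ∈ ax, F ∉ T → ∀ B ∈ T ∪ S, B ≠ F → ∃ B₁ ∈ T, D F B B₁ ≤ θ := by
    intro F hF hFT B hB hBF
    have hTF : ∀ z ∈ T, z ≠ F := fun z hz e => hFT (e ▸ hz)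
    rcases hB with hB | ⟨hBa, hBT, B₁, hB₁, B₂, hB₂, hD⟩
    · exact ⟨B, hB, W.diam F hF B hBF⟩
    · have hTB : ∀ z ∈ T, z ≠ B := fun z hz e => hBT (e ▸ hz)
      have h1 := W.tri B hBa B₁ B₂ F (hTB _ hB₁) (hTB _ hB₂) hBF.symm
      rcases Nat.lt_or_ge θ (D B B₁ F) with h2 | h2
      · refine ⟨B₁, hB₁, ?_⟩
        rw [W.sym B hBa _ _ (hTB _ hB₁) hBF.symm] at h2
        exact W.behr B hBa F hF B₁ hBF (hTB _ hB₁) (hTF _ hB₁) h2
      · refine ⟨B₂, hB₂, ?_⟩
        have h3 : θ < D B F B₂ := by omega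
        exact W.behr B hBa F hF B₂ hBF (hTB _ hB₂) (hTF _ hB₂) h3
  have key2 : ∀ (c : ℕ), ∀ F ∈ ax, F ∉ T → (∀ B ∈ T, ∀ B' ∈ T, D F B B' ≤ c) →
      ∀ B ∈ T ∪ S, ∀ B' ∈ T ∪ S, B ≠ F → B' ≠ F → D F B B' ≤ c + 2 * θ := by
    intro c F hF hFT hc B hB B' hB' hBF hBF'
    have hTF : ∀ z ∈ T, z ≠ F := fun z hz e => hFT (e ▸ hz)
    obtain ⟨B₁, hB₁, h1⟩ := key F hF hFT B hB hBF
    obtain ⟨B₂, hB₂, h2⟩ := key F hF hFT B' hB' hBF'
    have h3 := W.tri F hF B B' B₁ hBF hBF' (hTF _ hB₁)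
    have h4 := W.tri F hF B₁ B' B₂ (hTF _ hB₁) hBF' (hTF _ hB₂)
    have h5 := hc B₁ hB₁ B₂ hB₂
    rw [W.sym F hF B₂ B' (hTF _ hB₂) hBF'] at h4
    omega
  have H : RL ax D M θ L o T S (10 * θ) (4 * θ) :=
    { wd := W
      oax := oax
      oT := h.oT
      Tinv := h.Tinv
      Sax := fun E hE => hE.1
      ST := fun E hE => hE.2.1
      Sinv := by
        rintro g hg E ⟨hEa, hET, B, hB, B', hB', hD⟩
        refine ⟨W.axinv _ _ hEa, ?_, g • B, Gam_smul h.Tinv hg hB, g • B',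
          Gam_smul h.Tinv hg hB', ?_⟩
        · intro hgE
          apply hET
          have := Gam_smul h.Tinv (inv_mem hg) hgE
          rwa [inv_smul_smul] at this
        · rw [W.equiv g E hEa B B']
          exact hD
      hi := by
        intro E hE B hB B' hB' h1 h2
        have := key2 (8 * θ) E hE.1 hE.2.1 (h.out E hE.1 hE.2.1) B hB B' hB' h1 h2
        omega
      hii := by
        intro F hF hFT B hB B' hB'
        have hFT' : F ∉ T := fun h' => hFT (Or.inl h')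
        have := key2 (2 * θ) F hF hFT' (by
          intro B₁ hB₁ B₂ hB₂
          by_contra hcon
          push Not at hcon
          exact hFT (Or.inr ⟨hF, hFT', B₁, hB₁, B₂, hB₂, hcon⟩)) B hB B' hB'
          (fun e => hFT (e ▸ hB)) (fun e => hFT (e ▸ hB'))
        omega
      hiii := h.gr
      ha := by omega
      hL := by omega }
  refine ⟨TT ax M T S, fun z hz => sub_TT (Or.inl hz), H.q.mono (by omega), ?_⟩
  intro F hF hFT B hB B' hB'
  by_contra hcon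
  push Not at hcon
  apply hFT
  apply sub_TT
  by_cases hFT' : F ∈ T
  · exact Or.inl hFT'
  · exact Or.inr ⟨hF, hFT', B, hB, B', hB', hcon⟩

/-- elements of `Gam` of a union of a chain -/
theorem gam_chain {c : Set (Set Z)} (hc : IsChain (· ⊆ ·) c) (hne : c.Nonempty) {r : G}
    (hr : r ∈ Gam ax M (⋃₀ c)) : ∃ T ∈ c, r ∈ Gam ax M T := by
  unfold Gam at hr
  induction hr using Subgroup.closure_induction with
  | mem x hx =>
    obtain ⟨A, ⟨⟨T, hT, hAT⟩, hAa⟩, hxA⟩ := hx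
    exact ⟨T, hT, mem_Gam hAT hAa hxA⟩
  | one =>
    obtain ⟨T, hT⟩ := hne
    exact ⟨T, hT, one_mem _⟩
  | mul x y hx hy ihx ihy =>
    obtain ⟨T, hT, h1⟩ := ihx
    obtain ⟨T', hT', h2⟩ := ihy
    rcases hc.total hT hT' with h | h
    · exact ⟨T', hT', mul_mem (Gam_mono ax M h h1) h2⟩
    · exact ⟨T, hT, mul_mem h1 (Gam_mono ax M h h2)⟩
  | inv x hx ih =>
    obtain ⟨T, hT, h1⟩ := ih
    exact ⟨T, hT, inv_mem h1⟩

/-- union of a chain, given the outer bound -/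
theorem Q.union {c : Set (Set Z)} (hc : IsChain (· ⊆ ·) c) (hne : c.Nonempty) {k k' : ℕ}
    (h : ∀ T ∈ c, Q ax D M θ L o k T)
    (hout : ∀ F ∈ ax, F ∉ ⋃₀ c → ∀ T ∈ c, ∀ B ∈ T, ∀ B' ∈ T, D F B B' ≤ k') :
    Q ax D M θ L o k' (⋃₀ c) where
  oT := by
    obtain ⟨T, hT⟩ := hne
    exact ⟨T, hT, (h T hT).oT⟩
  Tinv := by
    rintro A ⟨T, hT, hAT⟩ hAa g hg B ⟨T', hT', hBT'⟩
    rcases hc.total hT hT' with h1 | h1
    · exact ⟨T', hT', (h T' hT').Tinv A (h1 hAT) hAa g hg B hBT'⟩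
    · exact ⟨T, hT, (h T hT).Tinv A hAT hAa g hg B (h1 hBT')⟩
  out := by
    rintro F hF hFT B ⟨T, hT, hBT⟩ B' ⟨T', hT', hBT'⟩
    rcases hc.total hT hT' with h1 | h1
    · exact hout F hF hFT T' hT' B (h1 hBT) B' hBT'
    · exact hout F hF hFT T hT B hBT B' (h1 hBT')
  gr := by
    intro r hr hr1
    obtain ⟨T, hT, hrT⟩ := gam_chain hc hne hr
    exact (h T hT).gr r hrT hr1

/-- iterating the closure step -/
theorem closureMill (W : WD ax D M θ L) (hL : 20 * θ < L) (oax : ∀ g : G, g • o ∉ ax) {T : Set Z}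
    (h : Q ax D M θ L o (8 * θ) T) : ∃ T', T ⊆ T' ∧ Q ax D M θ L o (2 * θ) T' := by
  choose f hf1 hf2 hf3 using fun (X : {T : Set Z // Q ax D M θ L o (8 * θ) T}) =>
    step W hL oax X.2
  let s : ℕ → {T : Set Z // Q ax D M θ L o (8 * θ) T} := fun n =>
    Nat.rec ⟨T, h⟩ (fun _ X => ⟨f X, hf2 X⟩) n
  have hs : ∀ n, (s (n + 1)).1 = f (s n) := fun n => rfl
  have hmono : Monotone (fun n => (s n).1) := by
    apply monotone_nat_of_le_succ
    intro n
    rw [hs]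
    exact hf1 (s n)
  refine ⟨⋃₀ (Set.range fun n => (s n).1), ?_, ?_⟩
  · exact Set.subset_sUnion_of_mem ⟨0, rfl⟩
  · refine Q.union (c := Set.range fun n => (s n).1) (k := 8 * θ) ?_ ⟨_, ⟨0, rfl⟩⟩ ?_ ?_
    · rintro _ ⟨n, rfl⟩ _ ⟨m, rfl⟩ _
      rcases le_total n m with hnm | hnm
      · exact Or.inl (hmono hnm)
      · exact Or.inr (hmono hnm)
    · rintro _ ⟨n, rfl⟩
      exact (s n).2
    · rintro F hF hFT _ ⟨n, rfl⟩ B hB B' hB'
      apply hf3 (s n) F hF _ B hB B' hB'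
      intro hF'
      apply hFT
      exact ⟨_, ⟨n + 1, rfl⟩, by simpa [hs] using hF'⟩

theorem initial (W : WD ax D M θ L) (oax : ∀ g : G, g • o ∉ ax) :
    Q ax D M θ L o (2 * θ) {o} where
  oT := rfl
  Tinv := by
    intro A hA hAa
    exfalso
    apply oax 1
    rw [one_smul]
    rw [Set.mem_singleton_iff] at hA
    rwa [← hA]
  out := by
    intro F hF hFT B hB B' hB'
    rw [Set.mem_singleton_iff] at hB hB'
    subst hB hB'
    have := W.diam F hF B' (fun e => hFT (by rw [← e]; rfl))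
    omega
  gr := by
    intro r hr hr1
    exfalso
    apply hr1
    have : Gam ax M ({o} : Set Z) = ⊥ := by
      unfold Gam
      rw [Subgroup.closure_eq_bot_iff]
      rintro h ⟨A, ⟨hA, hAa⟩, hh⟩
      exfalso
      apply oax 1
      rw [one_smul]
      rw [Set.mem_singleton_iff] at hA
      rwa [← hA]
    rw [this] at hr
    simpa using hr

/-- enlarging a mill which misses an axis -/
theorem enlarge (W : WD ax D M θ L) (hL : 20 * θ < L) (oax : ∀ g : G, g • o ∉ ax)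
    {ρ : Z → ℕ} (hρ : ∀ A ∈ ax, ∀ F ∈ ax, F ≠ A → θ < D F o A → ρ F < ρ A) {T : Set Z}
    (h : Q ax D M θ L o (2 * θ) T) (hne : ∃ A ∈ ax, A ∉ T) :
    ∃ T', T ⊆ T' ∧ Q ax D M θ L o (2 * θ) T' ∧ ∃ A ∈ T', A ∉ T := by
  classical
  obtain ⟨A, hAa, hAT, hmin⟩ : ∃ A ∈ ax, A ∉ T ∧ ∀ F ∈ ax, F ∉ T → ρ A ≤ ρ F := by
    have hex : ∃ n, ∃ A ∈ ax, A ∉ T ∧ ρ A = n := by
      obtain ⟨A, hA, hAT⟩ := hne
      exact ⟨_, A, hA, hAT, rfl⟩
    obtain ⟨A, hA, hAT, hAn⟩ := Nat.find_spec hex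
    refine ⟨A, hA, hAT, fun F hF hFT => ?_⟩
    rw [hAn]
    exact Nat.find_min' hex ⟨F, hF, hFT, rfl⟩
  let S : Set Z := {E | ∃ g ∈ Gam ax M T, E = g • A}
  have hoT : ∀ F, F ∉ T → o ≠ F := fun F hF e => hF (e ▸ h.oT)
  have key : ∀ F ∈ ax, F ∉ T → ∀ B ∈ T ∪ S, B ≠ F → D F o B ≤ 3 * θ := by
    intro F hF hFT B hB hBF
    rcases hB with hB | ⟨g, hg, rfl⟩
    · have := h.out F hF hFT o h.oT B hB
      omega
    · have hF' : g⁻¹ • F ∈ ax := W.axinv _ _ hF
      have hFT' : g⁻¹ • F ∉ T := by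
        intro h'
        apply hFT
        have := Gam_smul h.Tinv hg h'
        rwa [smul_inv_smul] at this
      have hne' : g⁻¹ • F ≠ A := by
        rintro e
        apply hBF
        rw [← e, smul_inv_smul]
      have e := W.equiv g (g⁻¹ • F) hF' (g⁻¹ • o) A
      rw [smul_inv_smul, smul_inv_smul] at e
      rw [e]
      have hgo : g⁻¹ • o ∈ T := Gam_smul h.Tinv (inv_mem hg) h.oT
      have h1 := h.out _ hF' hFT' _ hgo _ h.oT
      have h2 : D (g⁻¹ • F) o A ≤ θ := by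
        by_contra hcon
        push Not at hcon
        have := hρ A hAa _ hF' hne' hcon
        have := hmin _ hF' hFT'
        omega
      have h3 := W.tri _ hF' (g⁻¹ • o) A o (fun e => hFT' (e ▸ hgo)) hne'.symm (hoT _ hFT')
      omega
  have key2 : ∀ F ∈ ax, F ∉ T → ∀ B ∈ T ∪ S, ∀ B' ∈ T ∪ S, B ≠ F → B' ≠ F →
      D F B B' ≤ 6 * θ := by
    intro F hF hFT B hB B' hB' h1 h2
    have h3 := key F hF hFT B hB h1
    have h4 := key F hF hFT B' hB' h2
    have h5 := W.tri F hF B B' o h1 h2 (hoT F hFT)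
    rw [W.sym F hF B o h1 (hoT F hFT)] at h5
    omega
  have hST : ∀ E ∈ S, E ∉ T := by
    rintro E ⟨g, hg, rfl⟩ h'
    apply hAT
    have := Gam_smul h.Tinv (inv_mem hg) h'
    rwa [inv_smul_smul] at this
  have hSax : S ⊆ ax := by
    rintro E ⟨g, hg, rfl⟩
    exact W.axinv _ _ hAa
  have H : RL ax D M θ L o T S (6 * θ) (6 * θ) :=
    { wd := W
      oax := oax
      oT := h.oT
      Tinv := h.Tinv
      Sax := hSax
      ST := hST
      Sinv := by
        rintro g hg E ⟨g', hg', rfl⟩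
        exact ⟨g * g', mul_mem hg hg', (mul_smul _ _ _).symm⟩
      hi := fun E hE B hB B' hB' h1 h2 => key2 E (hSax hE) (hST E hE) B hB B' hB' h1 h2
      hii := fun F hF hFT B hB B' hB' => key2 F hF (fun h' => hFT (Or.inl h')) B hB B' hB'
        (fun e => hFT (e ▸ hB)) (fun e => hFT (e ▸ hB'))
      hiii := h.gr
      ha := by omega
      hL := by omega }
  obtain ⟨T', hT', hQ⟩ := closureMill W hL oax (H.q.mono (c' := 8 * θ) (by omega))
  refine ⟨T', fun z hz => hT' (sub_TT (Or.inl hz)), hQ, A, ?_, hAT⟩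
  exact hT' (sub_TT (Or.inr ⟨1, one_mem _, (one_smul _ _).symm⟩))

end Main

end Wind

open Wind in
theorem specWind : SpecWind := by
  intro G Z _ _ ax D M θ L h1 h2 h3 h4 h5 h6 h7 h8 h9 hL o ho hgo hρ r hr hr1
  have W : WD ax D M θ L := ⟨h1, h2, h3, h4, h5, h6, h7, h8, h9⟩
  obtain ⟨ρ, hρ⟩ := hρ
  obtain ⟨T, hoT, hmax⟩ := zorn_subset_nonempty {T | Q ax D M θ L o (2 * θ) T} (by
    intro c hc hchain hne
    refine ⟨⋃₀ c, ?_, fun s hs => Set.subset_sUnion_of_mem hs⟩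
    refine Q.union hchain hne (fun T hT => hc hT) ?_
    intro F hF hFT T hT B hB B' hB'
    have hQT : Q ax D M θ L o (2 * θ) T := hc hT
    exact hQT.out F hF (fun h => hFT ⟨T, hT, h⟩) B hB B' hB') {o} (initial W hgo)
  have hQ : Q ax D M θ L o (2 * θ) T := hmax.prop
  have hall : ∀ A ∈ ax, A ∈ T := by
    by_contra hcon
    push Not at hcon
    obtain ⟨T', hTT', hQ', A, hAT', hAT⟩ := enlarge W hL hgo hρ hQ hcon
    have := hmax.le_of_ge hQ' hTT'
    exact hAT (this hAT')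
  apply hQ.gr r _ hr1
  unfold Gam
  have hsub : {h : G | ∃ A ∈ ax, h ∈ M A} ⊆ {h : G | ∃ A ∈ T ∩ ax, h ∈ M A} := by
    rintro h ⟨A, hA, hh⟩
    exact ⟨A, ⟨hall A hA, hA⟩, hh⟩
  exact Subgroup.closure_mono hsub hr

end MPba2ef4
end
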