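import Pool.Agent.Lib.MP_ba2ef4_al.Tor
import Pool.Agent.Lib.MP_ba2ef4_al.Wind
import Pool.Agent.Lib.MP_ba2ef4_al.TPoly

section
/-!
# MP_ba2ef4_al : module STEP
-/
set_option autoImplicit false

namespace MPba2ef4

namespace StepM

variable {G : Type} [Group G] {ℓ : G → ℕ}

theorem q_eq_one {R : Subgroup G} [R.Normal] {g : G} :
    (QuotientGroup.mk' R g = 1) ↔ g ∈ R := QuotientGroup.eq_one_iff g

/-- The class of a torsion element of the quotient: shortest lifts of conjugates. -/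
theorem key (hTor : SpecTor) {E V R : Subgroup G} [R.Normal] {pr : G ⧸ E → G → G} {K L : ℕ}
    (hr : Rot ℓ E V R pr K L) (hax : Ax ℓ K) (t : G ⧸ R) (ht : IsOfFinOrder t) :
    ∃ a g : G, QuotientGroup.mk' R g = (QuotientGroup.mk' R a)⁻¹ * t * QuotientGroup.mk' R a ∧
      ((IsOfFinOrder g ∧ ℓ g ≤ K) ∨ g ∈ E) := by
  classical
  have hne : ∃ n : ℕ, ∃ a g : G, QuotientGroup.mk' R g =
      (QuotientGroup.mk' R a)⁻¹ * t * QuotientGroup.mk' R a ∧ ℓ g = n := by
    obtain ⟨g, hg⟩ := QuotientGroup.mk'_surjective R t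
    exact ⟨ℓ g, 1, g, by rw [hg]; simp, rfl⟩
  obtain ⟨a, g, hg, hgn⟩ := Nat.find_spec hne
  have hmin : ∀ a' g' : G, QuotientGroup.mk' R g' =
      (QuotientGroup.mk' R a')⁻¹ * t * QuotientGroup.mk' R a' → ℓ g ≤ ℓ g' := by
    intro a' g' h'
    rw [hgn]
    exact Nat.find_min' hne ⟨a', g', h', rfl⟩
  have hmin2 : ∀ a' : G, ∀ r ∈ R, ℓ g ≤ ℓ (a'⁻¹ * (r * g) * a') := by
    intro a' r hr'
    refine hmin (a * a') _ ?_
    simp only [map_mul, map_inv]
    rw [q_eq_one.2 hr', hg]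
    group
  by_cases hgf : IsOfFinOrder g
  · refine ⟨a, g, hg, Or.inl ⟨hgf, hax.tor g hgf fun a' => ?_⟩⟩
    have := hmin2 a' 1 R.one_mem
    rwa [one_mul] at this
  · have hpow : ∃ n : ℕ, 1 ≤ n ∧ g ^ n ∈ R := by
      rw [isOfFinOrder_iff_pow_eq_one] at ht
      obtain ⟨n, hn, hn1⟩ := ht
      refine ⟨n, hn, ?_⟩
      rw [← q_eq_one, map_pow, hg]
      have : (QuotientGroup.mk' R a)⁻¹ * t * QuotientGroup.mk' R a =
          (QuotientGroup.mk' R a)⁻¹ * t * ((QuotientGroup.mk' R a)⁻¹)⁻¹ := by rw [inv_inv]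
      rw [this, conj_pow, hn1]
      group
    obtain ⟨h, hh⟩ := hTor G ℓ E V R pr K L hr hax g hgf hmin2 hpow
    refine ⟨a * h, h⁻¹ * g * h, ?_, Or.inr hh⟩
    simp only [map_mul, map_inv]
    rw [hg]
    group

end StepM

open StepM RotM in
theorem specStep (hElem : SpecElem) (hProj : SpecProj) (hAx : SpecAx) (hRot : SpecRot)
    (hQN : SpecQN) (hQT : SpecQThin) (hTor : SpecTor) (hCenA : SpecCenA) (hCenB : SpecCenB)
    (hBar : SpecBar) : SpecStep := by
  intro G _ V N hs x hxN hxf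
  obtain ⟨ℓ, δ, hℓ, hF⟩ := hs.hyp
  obtain ⟨E, y, he, hxE⟩ := hElem G V N hs x hxN hxf
  obtain ⟨pr, κ₁, hp⟩ := hProj G V N E y ℓ δ hs he hℓ hF
  obtain ⟨κ₂, hax⟩ := hAx G ℓ δ hℓ hF
  obtain ⟨κ₃, hrot⟩ := hRot G V N E y ℓ pr κ₁ hs he hp
  obtain ⟨K, hK⟩ : ∃ K, K = κ₁ + κ₂ + κ₃ := ⟨_, rfl⟩
  obtain ⟨c, v₀, L, hc, hv₀, hv₁, hv₂, hR⟩ := hrot K (by omega)
  obtain ⟨hzN, hbar⟩ := hBar G V N E y hs he c v₀ hc hv₀ hv₁ hv₂
  obtain ⟨R, hRdef⟩ : ∃ R, R = Subgroup.normalClosure ({y ^ (3 ^ c) * v₀⁻¹} : Set G) := ⟨_, rfl⟩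
  rw [← hRdef] at hR hbar
  have hRn : R.Normal := hR.Rn
  have hVn : V.Normal := hs.Vnormal
  have hNn : N.Normal := hs.Nnormal
  have hax' : Ax ℓ K := by
    refine ⟨fun g hg hm i j => ?_, fun g hg hm => ?_⟩
    · have := hax.inf g hg hm i j
      omega
    · have := hax.tor g hg hm
      omega
  have hRN : R ≤ N := by
    rw [hRdef]
    exact Subgroup.normalClosure_le_normal (Set.singleton_subset_iff.2 hzN)
  have hpos := hR.proj.pos
  have hbig := hR.big
  have hVR : ∀ v ∈ V, v ∈ R → v = 1 := by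
    intro v hv hvR
    by_contra hv1
    obtain ⟨A, hA⟩ := hR.green v hvR hv1 1
    rw [mul_one] at hA
    have h1 := hR.proj.smallV v hv
    have h2 : dd ℓ 1 v = ℓ v := dd_one_left v
    by_cases h3 : K < dd ℓ (pr A 1) (pr A v)
    · have := hR.proj.far A 1 v h3
      omega
    · omega
  let q := QuotientGroup.mk' R
  have hq : ∀ g : G, q g = 1 ↔ g ∈ R := fun g => q_eq_one
  have hqs : Function.Surjective q := QuotientGroup.mk'_surjective R
  have hqV : ∀ v ∈ V, v ≠ 1 → q v ≠ 1 := fun v hv h1 h2 => h1 (hVR v hv ((hq v).1 h2))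
  have hqN : ∀ g : G, q g ∈ N.map q ↔ g ∈ N := by
    intro g
    constructor
    · rintro ⟨n, hn, hng⟩
      have : n⁻¹ * g ∈ R := by
        rw [← hq, map_mul, map_inv, hng, inv_mul_cancel]
      have h2 := N.mul_mem hn (hRN this)
      simpa using h2
    · intro hg
      exact ⟨g, hg, rfl⟩
  have hVmap : (V.map q).Normal := hVn.map q hqs
  have hNmap : (N.map q).Normal := hNn.map q hqs
  -- elements of `E` in the quotient
  have hEq : ∀ e ∈ E, ∃ w ∈ V, q e ^ (3 ^ c) = q w ∧ (e ∉ N → w ≠ 1) := by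
    intro e heE
    obtain ⟨j, hj, hj'⟩ := hbar e heE
    refine ⟨v₀ ^ j, V.zpow_mem hv₀ j, ?_, hj'⟩
    have := (hq _).2 hj
    rw [map_mul, map_inv, map_pow] at this
    exact mul_inv_eq_one.1 this
  have hEtor : ∀ e ∈ E, q e ^ (3 ^ (c + 1)) = 1 := by
    intro e heE
    obtain ⟨w, hw, hw', -⟩ := hEq e heE
    rw [pow_succ, pow_mul, hw', ← map_pow, hs.Vexp w hw, map_one]
  have hconj : ∀ (a t : G ⧸ R) (n : ℕ), t ^ n = a * (a⁻¹ * t * a) ^ n * a⁻¹ := by
    intro a t n
    rw [← conj_pow]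
    congr 1
    group
  refine ⟨R, hRn, hRN, hVR, ?_, ?_⟩
  · obtain ⟨j, hj, hj'⟩ := hbar x hxE
    exact ⟨3 ^ c, v₀ ^ j, V.zpow_mem hv₀ j, hj' hxN, hj⟩
  · refine ⟨hVmap, ?_, ?_, ?_, hNmap, Subgroup.map_mono hs.VN, ?_, ?_, ?_, ?_, ?_, ?_, ?_⟩
    · -- Vfin
      rw [Subgroup.coe_map]
      exact hs.Vfin.image _
    · -- Vcomm
      rintro _ ⟨a, ha, rfl⟩ _ ⟨b, hb, rfl⟩
      change q a * q b = q b * q a
      rw [← map_mul, hs.Vcomm a ha b hb, map_mul]
    · -- Vexp
      rintro _ ⟨a, ha, rfl⟩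
      change (q a) ^ 3 = 1
      rw [← map_pow, hs.Vexp a ha, map_one]
    · -- Nindex
      have h1 : (N.map q).index = N.index := by
        refine Subgroup.index_map_eq N hqs ?_
        rw [QuotientGroup.ker_mk']
        exact hRN
      rw [h1, hs.Nindex]
    · -- act3
      intro x' hx' v' hv'
      obtain ⟨x, rfl⟩ := hqs x'
      obtain ⟨v, hv, rfl⟩ := hv'
      have hx : x ∉ N := fun h => hx' ((hqN x).2 h)
      change (q x) ^ 3 * q v = q v * (q x) ^ 3
      rw [← map_pow, ← map_mul, hs.act3 x hx v hv, map_mul]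
    · -- fixv
      intro x' hx'
      obtain ⟨x, rfl⟩ := hqs x'
      have hx : x ∉ N := fun h => hx' ((hqN x).2 h)
      obtain ⟨v, hv, hv1, hv2⟩ := hs.fixv x hx
      refine ⟨q v, ⟨v, hv, rfl⟩, hqV v hv hv1, ?_⟩
      rw [← map_mul, hv2, map_mul]
    · -- hyp
      have hg := hQN G ℓ R hℓ
      exact ⟨qn ℓ R, 4 * (3 * L) + 2, hg, Thin.fp hg (hQT G ℓ E V R pr K L hR)⟩
    · -- tor3
      intro t ht
      obtain ⟨a, g, hg, hcase⟩ := key hTor hR hax' t ht
      have h2 : ∃ k, (q g) ^ (3 ^ k) = 1 := by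
        rcases hcase with ⟨hgf, -⟩ | hgE
        · obtain ⟨k, hk⟩ := hs.tor3 g hgf
          exact ⟨k, by rw [← map_pow, hk, map_one]⟩
        · exact ⟨c + 1, hEtor g hgE⟩
      obtain ⟨k, hk⟩ := h2
      refine ⟨k, ?_⟩
      rw [hconj (q a) t (3 ^ k), ← hg, hk]
      group
    · -- cen
      intro t z ht htV htz
      obtain ⟨a, g, hg, hcase⟩ := key hTor hR hax' t ht
      have hgV : q g ∉ V.map q := by
        intro h1
        apply htV
        have h2 := hVmap.conj_mem _ h1 (q a)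
        have h3 : q a * q g * (q a)⁻¹ = t := by
          have hg' : q g = (q a)⁻¹ * t * q a := hg
          rw [hg']
          group
        rwa [h3] at h2
      have hgV' : g ∉ V := fun h => hgV ⟨g, h, rfl⟩
      -- the shortest lift of the conjugate of `z`
      have hne : ∃ n : ℕ, ∃ w : G, q w = (q a)⁻¹ * z * q a ∧ ℓ w = n := by
        obtain ⟨w, hw⟩ := hqs ((q a)⁻¹ * z * q a)
        exact ⟨ℓ w, w, hw, rfl⟩
      classical
      obtain ⟨w, hw, hwn⟩ := Nat.find_spec hne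
      have hwmin : ∀ w' : G, q w' = (q a)⁻¹ * z * q a → ℓ w ≤ ℓ w' := by
        intro w' h'
        rw [hwn]
        exact Nat.find_min' hne ⟨w', h', rfl⟩
      have hred : Red ℓ R 1 w := by
        intro r hr
        rw [dd_one_left, dd_one_left]
        refine hwmin _ ?_
        rw [map_mul, (hq r).2 hr, one_mul, hw]
      have hcomm : w * g * w⁻¹ * g⁻¹ ∈ R := by
        rw [← hq]
        have hg' : q g = (q a)⁻¹ * t * q a := hg
        simp only [map_mul, map_inv]
        rw [hw, hg']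
        have : (q a)⁻¹ * z * q a * ((q a)⁻¹ * t * q a) * ((q a)⁻¹ * z * q a)⁻¹ *
            ((q a)⁻¹ * t * q a)⁻¹ = (q a)⁻¹ * (z * t * (t * z)⁻¹) * q a := by group
        rw [this, htz]
        group
      have hfin : ∃ n : ℕ, 0 < n ∧ (q w) ^ n = 1 := by
        rcases hcase with ⟨hgf, hgK⟩ | hgE
        · rcases hCenA G ℓ E V R pr K L hR w g hgK hgf hred hcomm with h1 | h1
          · exact absurd h1 hgV'
          · have h2 := hs.cen g w hgf hgV' h1.symm
            rw [isOfFinOrder_iff_pow_eq_one] at h2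
            obtain ⟨n, hn, hn1⟩ := h2
            exact ⟨n, hn, by rw [← map_pow, hn1, map_one]⟩
        · rcases hCenB G ℓ E V R pr K L hR w g g hgE hgE hcomm with ⟨v, hv, h1⟩ | ⟨e, heE, h1⟩
          · exfalso
            apply hgV
            have h2 := (hq _).2 h1
            rw [map_mul, map_inv] at h2
            exact ⟨v, hv, inv_mul_eq_one.1 h2⟩
          · have h2 := (hq _).2 h1
            rw [map_mul, map_inv] at h2
            have h3 : q e = q w := inv_mul_eq_one.1 h2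
            exact ⟨3 ^ (c + 1), by positivity, by rw [← h3]; exact hEtor e heE⟩
      obtain ⟨n, hn, hn1⟩ := hfin
      rw [isOfFinOrder_iff_pow_eq_one]
      refine ⟨n, hn, ?_⟩
      rw [hconj (q a) z n, ← hw, hn1]
      group
    · -- good
      intro t ht htN
      obtain ⟨a, g, hg, hcase⟩ := key hTor hR hax' t ht
      have hgN : g ∉ N := by
        intro h1
        apply htN
        have h2 := hNmap.conj_mem _ ((hqN g).2 h1) (q a)
        have h3 : q a * q g * (q a)⁻¹ = t := by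
          have hg' : q g = (q a)⁻¹ * t * q a := hg
          rw [hg']
          group
        rwa [h3] at h2
      have h4 : ∃ k : ℕ, ∃ w ∈ V, w ≠ 1 ∧ (q g) ^ k = q w := by
        rcases hcase with ⟨hgf, -⟩ | hgE
        · obtain ⟨k, hk, hk1⟩ := hs.good g hgf hgN
          exact ⟨k, g ^ k, hk, hk1, (map_pow q g k).symm⟩
        · obtain ⟨w, hw, hw1, hw2⟩ := hEq g hgE
          exact ⟨3 ^ c, w, hw, hw2 hgN, hw1⟩
      obtain ⟨k, w, hw, hw1, hk⟩ := h4
      have h5 : t ^ k = q a * q w * (q a)⁻¹ := by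
        rw [hconj (q a) t k, ← hg]
        change q a * (q g) ^ k * (q a)⁻¹ = _
        rw [hk]
      refine ⟨k, ?_, ?_⟩
      · rw [h5]
        exact hVmap.conj_mem _ ⟨w, hw, rfl⟩ (q a)
      · rw [h5]
        intro h6
        apply hqV w hw hw1
        have : q w = (q a)⁻¹ * (q a * q w * (q a)⁻¹) * q a := by group
        rw [this, h6]
        group

end MPba2ef4
end

section
/-!
# MP_ba2ef4_al : assembly
-/
set_option autoImplicit false

namespace MPba2ef4

theorem countE0 : Countable E0 :=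
  Function.Injective.countable (f := fun x : E0 => (x.left, x.right)) (by
    intro x y h
    have h1 := congrArg Prod.fst h
    have h2 := congrArg Prod.snd h
    exact SemidirectProduct.ext h1 h2)

theorem specStep' : SpecStep := by
  have hSh := specShift
  have hGr := specGrow hSh
  have hCe := specCent hSh
  have hQL := specQL hSh hCe
  have hAx := specAx hQL
  have hEl := specElem hGr hCe specCyc
  have hPr := specProj specQC
  have hSp := specSpin hQL
  have hGn := specGreen specWind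
  have hRot := specRot hSp hGn
  have hT := specT specB
  have hQT := specQThin specQN hT
  have hTor := specTor specOV
  have hCore := specCore specOV
  exact specStep hEl hPr hAx hRot specQN hQT hTor (specCenA hCore) (specCenB hCore) specBar

theorem final :
    ¬ (∀ (p : ℕ), p.Prime → ∀ (G : Type) [Group G], Group.FG G →
      ∀ H : Subgroup G, IsPGroup p H → H.normalCore = ⊥ →
        (∀ K : Subgroup G, {x : G | ∃ a ∈ H, ∃ b ∈ K, a * b = x} =
          {x : G | ∃ b ∈ K, ∃ a ∈ H, b * a = x}) →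
          ∀ g : G, ∃ k : ℕ,
            g ^ (p ^ k) ∈ Subgroup.centralizer (Subgroup.normalClosure (H : Set G) : Set G)) := by
  have := countE0
  exact specFin (specLim specStep' E0 V0 N0 specBase)

end MPba2ef4
end
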