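import Mathlib

section
set_option autoImplicit false

open scoped Pointwise

namespace Pool.Agent.Lib.MP_ba2ef4_al

variable {G : Type*} [Group G]

/-- `H` permutes with every subgroup of `G`. -/
def IsPermutable (H : Subgroup G) : Prop :=
  ∀ K : Subgroup G, (H : Set G) * (K : Set G) = (K : Set G) * (H : Set G)

/-- The conjugate `x H x⁻¹`. -/
def cj (x : G) (H : Subgroup G) : Subgroup G := H.map (MulAut.conj x).toMonoidHom

theorem mem_cj {x g : G} {H : Subgroup G} : g ∈ cj x H ↔ x⁻¹ * g * x ∈ H := by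
  unfold cj
  constructor
  · rintro ⟨h, hh, rfl⟩
    have : x⁻¹ * (MulAut.conj x).toMonoidHom h * x = h := by
      simp [MulAut.conj_apply, mul_assoc]
    rw [this]
    exact hh
  · intro h
    refine ⟨_, h, ?_⟩
    simp [MulAut.conj_apply, mul_assoc]

theorem conj_mem_cj {x g : G} {H : Subgroup G} (h : g ∈ H) : x * g * x⁻¹ ∈ cj x H := by
  rw [mem_cj]
  simpa [mul_assoc] using h

theorem cj_cj (x y : G) (H : Subgroup G) : cj x (cj y H) = cj (x * y) H := by
  ext g
  simp only [mem_cj, mul_inv_rev, mul_assoc]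

theorem cj_one (H : Subgroup G) : cj 1 H = H := by
  ext g
  simp [mem_cj]

theorem cj_mono {x : G} {H K : Subgroup G} (h : H ≤ K) : cj x H ≤ cj x K :=
  Subgroup.map_mono h

theorem cj_inv_cj (x : G) (H : Subgroup G) : cj x⁻¹ (cj x H) = H := by
  rw [cj_cj, inv_mul_cancel, cj_one]

theorem cj_cj_inv (x : G) (H : Subgroup G) : cj x (cj x⁻¹ H) = H := by
  rw [cj_cj, mul_inv_cancel, cj_one]

theorem cj_le_iff {x : G} {H K : Subgroup G} : cj x H ≤ K ↔ H ≤ cj x⁻¹ K := by
  constructor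
  · intro h
    have := cj_mono (x := x⁻¹) h
    rwa [cj_inv_cj] at this
  · intro h
    have := cj_mono (x := x) h
    rwa [cj_cj_inv] at this

theorem cj_sup (x : G) (H K : Subgroup G) : cj x (H ⊔ K) = cj x H ⊔ cj x K :=
  Subgroup.map_sup _ _ _

theorem isPGroup_cj {p : ℕ} {H : Subgroup G} (hH : IsPGroup p H) (x : G) :
    IsPGroup p (cj x H) := hH.map _

theorem cj_eq_of_mem_normalizer {x : G} {H : Subgroup G} (hx : x ∈ Subgroup.normalizer (H : Set G)) :
    cj x H = H := by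
  ext g
  rw [mem_cj]
  have := (Subgroup.mem_normalizer_iff''.mp hx) g
  exact this.symm

theorem mem_normalizer_iff_cj {x : G} {H : Subgroup G} :
    x ∈ Subgroup.normalizer (H : Set G) ↔ cj x H = H := by
  constructor
  · exact cj_eq_of_mem_normalizer
  · intro h
    rw [Subgroup.mem_normalizer_iff'']
    intro g
    have : g ∈ cj x H ↔ x⁻¹ * g * x ∈ H := mem_cj
    rw [h] at this
    exact this

theorem mem_mul_iff {H K : Subgroup G} {g : G} :
    g ∈ (H : Set G) * (K : Set G) ↔ ∃ h ∈ H, ∃ k ∈ K, h * k = g := by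
  rw [Set.mem_mul]
  rfl

theorem IsPermutable.mem_sup {H : Subgroup G} (hH : IsPermutable H) {K : Subgroup G} {g : G} :
    g ∈ H ⊔ K ↔ ∃ h ∈ H, ∃ k ∈ K, h * k = g := by
  constructor
  · intro hg
    let S : Subgroup G :=
      { carrier := (H : Set G) * (K : Set G)
        one_mem' := mem_mul_iff.mpr ⟨1, H.one_mem, 1, K.one_mem, one_mul 1⟩
        mul_mem' := by
          intro a b ha hb
          obtain ⟨h, hh, k, hk, rfl⟩ := mem_mul_iff.mp ha
          obtain ⟨h', hh', k', hk', rfl⟩ := mem_mul_iff.mp hb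
          have h1 : k * h' ∈ (H : Set G) * (K : Set G) := by
            rw [hH K]
            exact Set.mul_mem_mul hk hh'
          obtain ⟨h2, hh2, k2, hk2, h3⟩ := mem_mul_iff.mp h1
          rw [mem_mul_iff]
          refine ⟨h * h2, H.mul_mem hh hh2, k2 * k', K.mul_mem hk2 hk', ?_⟩
          calc h * h2 * (k2 * k') = h * (h2 * k2) * k' := by group
            _ = h * k * (h' * k') := by rw [h3]; group
        inv_mem' := by
          intro a ha
          obtain ⟨h, hh, k, hk, rfl⟩ := mem_mul_iff.mp ha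
          rw [hH K, mul_inv_rev]
          exact Set.mul_mem_mul (K.inv_mem hk) (H.inv_mem hh) }
    have h1 : H ⊔ K ≤ S := by
      apply sup_le
      · intro h hh
        exact mem_mul_iff.mpr ⟨h, hh, 1, K.one_mem, mul_one h⟩
      · intro k hk
        exact mem_mul_iff.mpr ⟨1, H.one_mem, k, hk, one_mul k⟩
    exact mem_mul_iff.mp (h1 hg)
  · rintro ⟨h, hh, k, hk, rfl⟩
    exact Subgroup.mul_mem_sup hh hk

theorem IsPermutable.coe_sup {H : Subgroup G} (hH : IsPermutable H) (K : Subgroup G) :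
    ((H ⊔ K : Subgroup G) : Set G) = (H : Set G) * (K : Set G) := by
  ext g
  rw [mem_mul_iff]
  exact hH.mem_sup

theorem IsPermutable.mem_sup' {H : Subgroup G} (hH : IsPermutable H) {K : Subgroup G} {g : G} :
    g ∈ H ⊔ K ↔ ∃ k ∈ K, ∃ h ∈ H, k * h = g := by
  have h1 : g ∈ H ⊔ K ↔ g ∈ (H : Set G) * (K : Set G) := by
    rw [← hH.coe_sup]
    rfl
  rw [h1, hH K, mem_mul_iff]

theorem IsPermutable.cj {H : Subgroup G} (hH : IsPermutable H) (x : G) :
    IsPermutable (cj x H) := by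
  have key : ∀ K : Subgroup G, ∀ g : G,
      g ∈ (MP_ba2ef4_al.cj x H : Set G) * (K : Set G) ↔
        x⁻¹ * g * x ∈ (H : Set G) * (MP_ba2ef4_al.cj x⁻¹ K : Set G) := by
    intro K g
    rw [mem_mul_iff, mem_mul_iff]
    constructor
    · rintro ⟨h, hh, k, hk, rfl⟩
      refine ⟨x⁻¹ * h * x, mem_cj.mp hh, x⁻¹ * k * x, ?_, by group⟩
      rw [mem_cj]
      have : (x⁻¹)⁻¹ * (x⁻¹ * k * x) * x⁻¹ = k := by group
      rwa [this]
    · rintro ⟨h, hh, k, hk, h1⟩
      refine ⟨x * h * x⁻¹, conj_mem_cj hh, x * k * x⁻¹, ?_, ?_⟩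
      · rw [mem_cj, inv_inv] at hk
        exact hk
      · calc x * h * x⁻¹ * (x * k * x⁻¹) = x * (h * k) * x⁻¹ := by group
          _ = g := by rw [h1]; group
  have key' : ∀ K : Subgroup G, ∀ g : G,
      g ∈ (K : Set G) * (MP_ba2ef4_al.cj x H : Set G) ↔
        x⁻¹ * g * x ∈ (MP_ba2ef4_al.cj x⁻¹ K : Set G) * (H : Set G) := by
    intro K g
    rw [mem_mul_iff, mem_mul_iff]
    constructor
    · rintro ⟨k, hk, h, hh, rfl⟩
      refine ⟨x⁻¹ * k * x, ?_, x⁻¹ * h * x, mem_cj.mp hh, by group⟩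
      rw [mem_cj]
      have : (x⁻¹)⁻¹ * (x⁻¹ * k * x) * x⁻¹ = k := by group
      rwa [this]
    · rintro ⟨k, hk, h, hh, h1⟩
      refine ⟨x * k * x⁻¹, ?_, x * h * x⁻¹, conj_mem_cj hh, ?_⟩
      · rw [mem_cj, inv_inv] at hk
        exact hk
      · calc x * k * x⁻¹ * (x * h * x⁻¹) = x * (k * h) * x⁻¹ := by group
          _ = g := by rw [h1]; group
  intro K
  ext g
  rw [key, key', hH]

theorem IsPermutable.sup {H K : Subgroup G} (hH : IsPermutable H) (hK : IsPermutable K) :
    IsPermutable (H ⊔ K) := by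
  intro L
  rw [hH.coe_sup, mul_assoc, hK L, ← mul_assoc, hH L, mul_assoc]

/-- Dedekind's law for permutable subgroups. -/
theorem IsPermutable.dedekind {A : Subgroup G} (hA : IsPermutable A) {K L : Subgroup G}
    (h1 : A ≤ L) (h2 : L ≤ A ⊔ K) : L = A ⊔ (L ⊓ K) := by
  apply le_antisymm
  · intro g hg
    obtain ⟨a, ha, k, hk, rfl⟩ := hA.mem_sup.mp (h2 hg)
    have hkL : k ∈ L := by
      have := L.mul_mem (L.inv_mem (h1 ha)) hg
      simpa [mul_assoc] using this
    exact Subgroup.mul_mem_sup ha ⟨hkL, hk⟩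
  · exact sup_le h1 inf_le_left

theorem IsPermutable.relIndex_sup {A : Subgroup G} (hA : IsPermutable A) (K : Subgroup G) :
    A.relIndex (A ⊔ K) = A.relIndex K := by
  unfold Subgroup.relIndex Subgroup.index
  symm
  apply Nat.card_congr
  apply Equiv.ofBijective (Subgroup.quotientSubgroupOfEmbeddingOfLE A (le_sup_right : K ≤ A ⊔ K))
  refine ⟨(Subgroup.quotientSubgroupOfEmbeddingOfLE A _).injective, ?_⟩
  intro q
  induction q using QuotientGroup.induction_on with
  | H g =>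
    obtain ⟨k, hk, a, ha, h1⟩ := hA.mem_sup'.mp g.2
    refine ⟨QuotientGroup.mk ⟨k, hk⟩, ?_⟩
    rw [Subgroup.quotientSubgroupOfEmbeddingOfLE_apply_mk, QuotientGroup.eq,
      Subgroup.mem_subgroupOf]
    change k⁻¹ * (g : G) ∈ A
    rw [← h1]
    simpa using ha

end Pool.Agent.Lib.MP_ba2ef4_al
end

section
set_option autoImplicit false

open scoped Pointwise

namespace Pool.Agent.Lib.MP_ba2ef4_al

variable {G : Type*} [Group G]

theorem zpow_mem_eq_zero {H : Subgroup G} {y : G} (hy : ∀ m : ℕ, 0 < m → y ^ m ∉ H) {n : ℤ}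
    (hn : y ^ n ∈ H) : n = 0 := by
  by_contra h0
  apply hy n.natAbs (Int.natAbs_pos.mpr h0)
  rcases Int.natAbs_eq n with h | h
  · rw [h, zpow_natCast] at hn
    exact hn
  · rw [h, zpow_neg, zpow_natCast] at hn
    exact H.inv_mem_iff.mp hn

theorem conj_mem_of_forall {H : Subgroup G} (hH : IsPermutable H) {y : G}
    (hy : ∀ m : ℕ, 0 < m → y ^ m ∉ H) {h : G} (hh : h ∈ H) : y * h * y⁻¹ ∈ H := by
  have h1 : y * h ∈ H ⊔ Subgroup.zpowers y :=
    Subgroup.mul_mem _ (le_sup_right (a := H) (Subgroup.mem_zpowers y))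
      (le_sup_left (b := Subgroup.zpowers y) hh)
  obtain ⟨h', hh', k, hk, e1⟩ := hH.mem_sup.mp h1
  obtain ⟨r, rfl⟩ := Subgroup.mem_zpowers_iff.mp hk
  -- `|r| = 1`
  have hr : r.natAbs = 1 := by
    have h2 : y * h ∈ H ⊔ Subgroup.zpowers (y ^ r.natAbs) := by
      rw [← e1]
      apply Subgroup.mul_mem_sup hh'
      rw [Subgroup.mem_zpowers_iff]
      rcases Int.natAbs_eq r with h | h
      · refine ⟨1, ?_⟩
        rw [zpow_one, ← zpow_natCast, ← h]
      · refine ⟨-1, ?_⟩
        rw [zpow_neg, zpow_one, ← zpow_natCast, ← zpow_neg, ← h]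
    have h3 : y ∈ H ⊔ Subgroup.zpowers (y ^ r.natAbs) := by
      have := Subgroup.mul_mem _ h2
        (Subgroup.inv_mem _ (le_sup_left (b := Subgroup.zpowers (y ^ r.natAbs)) hh))
      simpa using this
    obtain ⟨h4, hh4, k', hk', e2⟩ := hH.mem_sup.mp h3
    obtain ⟨j, rfl⟩ := Subgroup.mem_zpowers_iff.mp hk'
    have h5 : y ^ (1 - (r.natAbs : ℤ) * j) ∈ H := by
      have : y ^ (1 - (r.natAbs : ℤ) * j) = h4 := by
        rw [zpow_sub, zpow_one, zpow_mul, zpow_natCast]
        nth_rewrite 1 [← e2]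
        group
      rw [this]
      exact hh4
    have h6 := zpow_mem_eq_zero hy h5
    have h7 : (r.natAbs : ℤ) ∣ 1 := ⟨j, by linarith⟩
    have h8 : r.natAbs ∣ 1 := by exact_mod_cast h7
    exact Nat.dvd_one.mp h8
  rcases Int.natAbs_eq r with hr' | hr'
  · rw [hr'] at e1
    rw [hr] at e1
    have : y * h * y⁻¹ = h' := by
      rw [← e1]
      simp
    rw [this]
    exact hh'
  · exfalso
    rw [hr'] at e1
    rw [hr] at e1
    -- `x = y h` satisfies `x² ∈ H`
    have e1' : h' * y⁻¹ = y * h := by simpa using e1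
    have hxx : (y * h) * (y * h) = h' * h := by
      nth_rewrite 1 [← e1']
      group
    have hxx' : (y * h) ^ (2 : ℤ) ∈ H := by
      have : (y * h) ^ (2 : ℤ) = (y * h) * (y * h) := by
        rw [zpow_two]
      rw [this, hxx]
      exact H.mul_mem hh' hh
    have h2 : y ∈ H ⊔ Subgroup.zpowers (y * h) := by
      have := Subgroup.mul_mem _ (le_sup_right (a := H) (Subgroup.mem_zpowers (y * h)))
        (Subgroup.inv_mem _ (le_sup_left (b := Subgroup.zpowers (y * h)) hh))
      simpa using this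
    obtain ⟨h3, hh3, k', hk', e2⟩ := hH.mem_sup.mp h2
    obtain ⟨j, rfl⟩ := Subgroup.mem_zpowers_iff.mp hk'
    rcases Int.even_or_odd' j with ⟨i, hi | hi⟩
    · -- even
      have h4 : y ∈ H := by
        rw [← e2, hi, zpow_mul]
        exact H.mul_mem hh3 (H.zpow_mem hxx' i)
      have := hy 1 one_pos
      rw [pow_one] at this
      exact this h4
    · have h4 : y ^ 2 ∈ H := by
        have h5 : y = h3 * (((y * h) ^ (2 : ℤ)) ^ i * (y * h)) := by
          nth_rewrite 1 [← e2]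
          rw [hi, zpow_add, zpow_mul, zpow_one]
        have h6 : y ^ 2 = h3 * ((y * h) ^ (2 : ℤ)) ^ i * h' := by
          rw [pow_two]
          nth_rewrite 1 [h5]
          rw [← e1']
          group
        rw [h6]
        exact H.mul_mem (H.mul_mem hh3 (H.zpow_mem hxx' i)) hh'
      exact hy 2 two_pos h4

/-- If no positive power of `y` lies in the permutable subgroup `H`, then `y` normalizes `H`. -/
theorem mem_normalizer_of_forall {H : Subgroup G} (hH : IsPermutable H) {y : G}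
    (hy : ∀ m : ℕ, 0 < m → y ^ m ∉ H) : y ∈ Subgroup.normalizer (H : Set G) := by
  have hy' : ∀ m : ℕ, 0 < m → (y⁻¹) ^ m ∉ H := by
    intro m hm hmem
    rw [inv_pow] at hmem
    exact hy m hm (H.inv_mem_iff.mp hmem)
  rw [Subgroup.mem_normalizer_iff'']
  intro h
  constructor
  · intro hh
    have := conj_mem_of_forall hH hy' hh
    simpa using this
  · intro hh
    have := conj_mem_of_forall hH hy hh
    have e : y * (y⁻¹ * h * y) * y⁻¹ = h := by group
    rwa [e] at this

theorem relIndex_zpowers_dvd (A : Subgroup G) (b : G) {N : ℕ} (hb : b ^ N ∈ A) :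
    A.relIndex (Subgroup.zpowers b) ∣ N := by
  unfold Subgroup.relIndex
  have hn : (A.subgroupOf (Subgroup.zpowers b)).Normal := by
    constructor
    intro n hn g
    have : g * n * g⁻¹ = n := by
      have hc : g * n = n * g := by
        obtain ⟨i, hi⟩ := g.2
        obtain ⟨j, hj⟩ := n.2
        apply Subtype.ext
        change (g : G) * (n : G) = (n : G) * (g : G)
        rw [← hi, ← hj]
        change b ^ i * b ^ j = b ^ j * b ^ i
        rw [← zpow_add, ← zpow_add, add_comm]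
      rw [hc, mul_inv_cancel_right]
    rw [this]
    exact hn
  let q : Subgroup.zpowers b ⧸ A.subgroupOf (Subgroup.zpowers b) :=
    QuotientGroup.mk ⟨b, Subgroup.mem_zpowers b⟩
  have hgen : ∀ x, x ∈ Subgroup.zpowers q := by
    intro x
    induction x using QuotientGroup.induction_on with
    | H x =>
      obtain ⟨_, i, rfl⟩ := x
      rw [Subgroup.mem_zpowers_iff]
      refine ⟨i, ?_⟩
      change QuotientGroup.mk ((⟨b, Subgroup.mem_zpowers b⟩ : Subgroup.zpowers b) ^ i) = _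
      congr 1
  have h1 : orderOf q = (A.subgroupOf (Subgroup.zpowers b)).index :=
    orderOf_eq_card_of_forall_mem_zpowers hgen
  rw [← h1]
  apply orderOf_dvd_of_pow_eq_one
  change QuotientGroup.mk ((⟨b, Subgroup.mem_zpowers b⟩ : Subgroup.zpowers b) ^ N) = _
  rw [QuotientGroup.eq_one_iff, Subgroup.mem_subgroupOf]
  exact hb

theorem cj_le_of_coprime {p : ℕ} {H : Subgroup G} (hH : IsPermutable H)
    (hpg : IsPGroup p H) {y : G} {m : ℕ} (hcop : Nat.Coprime m p) (hy : y ^ m ∈ H)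
    {x : G} (hx : x ∈ Subgroup.zpowers y) : cj x H ≤ H := by
  intro b hb
  have hbT : b ∈ H ⊔ Subgroup.zpowers y := by
    have h1 : x ∈ H ⊔ Subgroup.zpowers y := le_sup_right (a := H) hx
    have h2 : x⁻¹ * b * x ∈ H ⊔ Subgroup.zpowers y :=
      (le_sup_left : H ≤ H ⊔ Subgroup.zpowers y) (mem_cj.mp hb)
    have h3 := Subgroup.mul_mem _ (Subgroup.mul_mem _ h1 h2) (Subgroup.inv_mem _ h1)
    have e : x * (x⁻¹ * b * x) * x⁻¹ = b := by group
    rwa [e] at h3
  have hL : H ⊔ Subgroup.zpowers b ≤ H ⊔ Subgroup.zpowers y :=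
    sup_le le_sup_left ((Subgroup.zpowers_le).mpr hbT)
  have h1 : H.relIndex (H ⊔ Subgroup.zpowers y) ∣ m := by
    rw [hH.relIndex_sup]
    exact relIndex_zpowers_dvd H y hy
  have h2 : H.relIndex (H ⊔ Subgroup.zpowers b) ∣ m :=
    (Dvd.intro _ (Subgroup.relIndex_mul_relIndex H _ _ le_sup_left hL)).trans h1
  obtain ⟨n, hn⟩ := isPGroup_cj hpg x ⟨b, hb⟩
  have hn' : b ^ p ^ n ∈ H := by
    have : b ^ p ^ n = 1 := congrArg Subtype.val hn
    rw [this]
    exact H.one_mem
  have h3 : H.relIndex (H ⊔ Subgroup.zpowers b) ∣ p ^ n := by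
    rw [hH.relIndex_sup]
    exact relIndex_zpowers_dvd H b hn'
  have h4 : H.relIndex (H ⊔ Subgroup.zpowers b) = 1 :=
    Nat.eq_one_of_dvd_coprimes (hcop.pow_right n) h2 h3
  rw [Subgroup.relIndex_eq_one] at h4
  exact h4 (le_sup_right (a := H) (Subgroup.mem_zpowers b))

/-- If a power `y ^ m ∈ H` with `m` prime to `p`, then `y` normalizes the permutable
`p`-subgroup `H`. -/
theorem mem_normalizer_of_coprime {p : ℕ} {H : Subgroup G} (hH : IsPermutable H)
    (hpg : IsPGroup p H) {y : G} {m : ℕ} (hcop : Nat.Coprime m p) (hy : y ^ m ∈ H) :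
    y ∈ Subgroup.normalizer (H : Set G) := by
  rw [mem_normalizer_iff_cj]
  apply le_antisymm (cj_le_of_coprime hH hpg hcop hy (Subgroup.mem_zpowers y))
  have h1 := cj_le_of_coprime hH hpg hcop hy
    (Subgroup.inv_mem _ (Subgroup.mem_zpowers y))
  rwa [cj_le_iff, inv_inv] at h1

end Pool.Agent.Lib.MP_ba2ef4_al
end

section
set_option autoImplicit false

open scoped Pointwise

namespace Pool.Agent.Lib.MP_ba2ef4_al

variable {G : Type*} [Group G]

theorem pow_mem_iff_relIndex (A : Subgroup G) (b : G) (N : ℕ) :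
    b ^ N ∈ A ↔ A.relIndex (Subgroup.zpowers b) ∣ N := by
  refine ⟨relIndex_zpowers_dvd A b, ?_⟩
  rintro ⟨k, rfl⟩
  rw [pow_mul]
  apply A.pow_mem
  unfold Subgroup.relIndex
  have hn : (A.subgroupOf (Subgroup.zpowers b)).Normal := by
    constructor
    intro n hn g
    have : g * n * g⁻¹ = n := by
      have hc : g * n = n * g := by
        obtain ⟨i, hi⟩ := g.2
        obtain ⟨j, hj⟩ := n.2
        apply Subtype.ext
        change (g : G) * (n : G) = (n : G) * (g : G)
        rw [← hi, ← hj]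
        change b ^ i * b ^ j = b ^ j * b ^ i
        rw [← zpow_add, ← zpow_add, add_comm]
      rw [hc, mul_inv_cancel_right]
    rw [this]
    exact hn
  have := Subgroup.pow_index_mem (A.subgroupOf (Subgroup.zpowers b))
    (⟨b, Subgroup.mem_zpowers b⟩ : Subgroup.zpowers b)
  rw [Subgroup.mem_subgroupOf] at this
  exact this

theorem relIndex_eq_pow {p : ℕ} [Fact p.Prime] {A K : Subgroup G} (hK : IsPGroup p K)
    (h : A.relIndex K ≠ 0) : ∃ n, A.relIndex K = p ^ n := by
  have : (A.subgroupOf K).FiniteIndex := ⟨h⟩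
  exact hK.index _

theorem isPGroup_sup {p : ℕ} [Fact p.Prime] {A B : Subgroup G} (hA : IsPermutable A)
    (hpA : IsPGroup p A) (hpB : IsPGroup p B)
    (h : A.relIndex (A ⊔ B) ≠ 0) : IsPGroup p (A ⊔ B : Subgroup G) := by
  rw [hA.relIndex_sup] at h
  obtain ⟨n, hn⟩ := relIndex_eq_pow hpB h
  rintro ⟨z, hz⟩
  have h1 : A ⊔ Subgroup.zpowers z ≤ A ⊔ B :=
    sup_le le_sup_left ((Subgroup.zpowers_le).mpr hz)
  have h2 : A.relIndex (Subgroup.zpowers z) ∣ p ^ n := by
    rw [← hn, ← hA.relIndex_sup, ← hA.relIndex_sup B,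
      ← Subgroup.relIndex_mul_relIndex A _ _ le_sup_left h1]
    exact dvd_mul_right _ _
  have h3 := (pow_mem_iff_relIndex A z (p ^ n)).mpr h2
  obtain ⟨k, hk⟩ := hpA ⟨_, h3⟩
  refine ⟨n + k, ?_⟩
  apply Subtype.ext
  have hk' : (z ^ p ^ n) ^ p ^ k = 1 := congrArg Subtype.val hk
  change z ^ p ^ (n + k) = 1
  rw [pow_add, pow_mul, hk']

theorem cj_eq_of_le {A : Subgroup G} {x : G} {m : ℕ} (hm : 0 < m) (hx : x ^ m ∈ A)
    (h : cj x A ≤ A) : cj x A = A := by
  have h1 : ∀ k : ℕ, cj (x ^ k) A ≤ A := by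
    intro k
    induction k with
    | zero => rw [pow_zero, cj_one]
    | succ k ih =>
      rw [pow_succ, ← cj_cj]
      exact (cj_mono h).trans ih
  obtain ⟨k, rfl⟩ : ∃ k, m = k + 1 := ⟨m - 1, by omega⟩
  apply le_antisymm h
  have h2 : cj (x ^ (k + 1)) A = A := by
    apply cj_eq_of_mem_normalizer
    exact Subgroup.le_normalizer hx
  nth_rewrite 1 [← h2]
  rw [pow_succ', ← cj_cj]
  exact cj_mono (h1 k)

/-- In a finitely generated group, the normal closure of a permutable `p`-subgroup `H` is a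
`p`-group in which `H` has finite index. -/
theorem normalClosure_aux {p : ℕ} [Fact p.Prime] (hfg : Group.FG G) {H : Subgroup G}
    (hH : IsPermutable H) (hpg : IsPGroup p H) :
    IsPGroup p (Subgroup.normalClosure (H : Set G)) ∧
      H.relIndex (Subgroup.normalClosure (H : Set G)) ≠ 0 := by
  classical
  obtain ⟨S, hS⟩ := hfg.out
  set P := Subgroup.normalClosure (H : Set G) with hP
  have hHP : H ≤ P := Subgroup.subset_normalClosure
  let Q : Subgroup G → Prop := fun A =>
    H ≤ A ∧ A ≤ P ∧ IsPermutable A ∧ IsPGroup p A ∧ H.relIndex A ≠ 0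
  let μ : Subgroup G → ℕ := fun A => ∑ x ∈ S, A.relIndex (Subgroup.zpowers x)
  have hex : ∃ n : ℕ, ∃ A, Q A ∧ μ A = n :=
    ⟨_, H, ⟨le_refl _, hHP, hH, hpg, by rw [Subgroup.relIndex_self]; exact one_ne_zero⟩, rfl⟩
  obtain ⟨A, hQA, hμA⟩ := Nat.find_spec hex
  have hmin : ∀ B, Q B → μ A ≤ μ B := by
    intro B hB
    rw [hμA]
    exact Nat.find_min' hex ⟨B, hB, rfl⟩
  obtain ⟨hHA, hAP, hA, hpA, hind⟩ := hQA
  have hnorm : ∀ x ∈ S, x ∈ Subgroup.normalizer (A : Set G) := by
    intro x hxS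
    by_contra hx
    have h1 : ∃ m : ℕ, 0 < m ∧ x ^ m ∈ A := by
      by_contra hcon
      push Not at hcon
      exact hx (mem_normalizer_of_forall hA hcon)
    obtain ⟨m, hm, hxm⟩ := h1
    have hr : A.relIndex (Subgroup.zpowers x) ∣ m := (pow_mem_iff_relIndex A x m).mp hxm
    have hr0 : A.relIndex (Subgroup.zpowers x) ≠ 0 := by
      intro h0
      rw [h0] at hr
      exact hm.ne' (Nat.eq_zero_of_zero_dvd hr)
    set A' := A ⊔ cj x A with hA'
    have hle : A' ≤ A ⊔ Subgroup.zpowers x := by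
      apply sup_le le_sup_left
      intro b hb
      have h1 : x ∈ A ⊔ Subgroup.zpowers x := le_sup_right (a := A) (Subgroup.mem_zpowers x)
      have h2 : x⁻¹ * b * x ∈ A ⊔ Subgroup.zpowers x :=
        (le_sup_left : A ≤ A ⊔ Subgroup.zpowers x) (mem_cj.mp hb)
      have h3 := Subgroup.mul_mem _ (Subgroup.mul_mem _ h1 h2) (Subgroup.inv_mem _ h1)
      have e : x * (x⁻¹ * b * x) * x⁻¹ = b := by group
      rwa [e] at h3
    have hmul : A.relIndex A' * A'.relIndex (A ⊔ Subgroup.zpowers x) =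
        A.relIndex (Subgroup.zpowers x) := by
      rw [Subgroup.relIndex_mul_relIndex A _ _ le_sup_left hle, hA.relIndex_sup]
    have hne : A.relIndex A' ≠ 0 := by
      intro h0
      rw [h0, zero_mul] at hmul
      exact hr0 hmul.symm
    have hne1 : A.relIndex A' ≠ 1 := by
      intro h0
      rw [Subgroup.relIndex_eq_one] at h0
      have h2 : cj x A ≤ A := le_sup_right.trans h0
      exact hx (mem_normalizer_iff_cj.mpr (cj_eq_of_le hm hxm h2))
    have hA'perm : IsPermutable A' := hA.sup (hA.cj x)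
    have hQ' : Q A' := by
      refine ⟨hHA.trans le_sup_left, ?_, hA'perm, ?_, ?_⟩
      · apply sup_le hAP
        have h3 : cj x P = P := by
          apply cj_eq_of_mem_normalizer
          have hPn : P.Normal := Subgroup.normalClosure_normal
          rw [Subgroup.normalizer_eq_top_iff.mpr hPn]
          exact Subgroup.mem_top _
        rw [← h3]
        exact cj_mono hAP
      · exact isPGroup_sup hA hpA (isPGroup_cj hpA x) hne
      · exact Subgroup.relIndex_ne_zero_trans hind hne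
    have hlt : μ A' < μ A := by
      apply Finset.sum_lt_sum
      · intro z _
        by_cases h0 : A.relIndex (Subgroup.zpowers z) = 0
        · have : A'.relIndex (Subgroup.zpowers z) = 0 := by
            by_contra h4
            exact Subgroup.relIndex_ne_zero_trans hne h4 h0
          rw [this]
          exact Nat.zero_le _
        · exact Nat.le_of_dvd (Nat.pos_of_ne_zero h0)
            (Subgroup.relIndex_dvd_of_le_left _ le_sup_left)
      · refine ⟨x, hxS, ?_⟩
        have h5 : A ⊔ Subgroup.zpowers x = A' ⊔ Subgroup.zpowers x := by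
          apply le_antisymm
          · exact sup_le_sup_right le_sup_left _
          · exact sup_le hle le_sup_right
        rw [h5, hA'perm.relIndex_sup] at hmul
        rw [← hmul]
        have h6 : 0 < A'.relIndex (Subgroup.zpowers x) := by
          apply Nat.pos_of_ne_zero
          intro h0
          rw [h0, mul_zero] at hmul
          exact hr0 hmul.symm
        have h7 : 2 ≤ A.relIndex A' := by omega
        nlinarith
    exact absurd (hmin A' hQ') (not_le.mpr hlt)
  have htop : Subgroup.normalizer (A : Set G) = ⊤ := by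
    rw [eq_top_iff, ← hS, Subgroup.closure_le]
    exact hnorm
  have hAn : A.Normal := Subgroup.normalizer_eq_top_iff.mp htop
  have hPA : P ≤ A := Subgroup.normalClosure_le_normal hHA
  have hPeq : A = P := le_antisymm hAP hPA
  rw [← hPeq]
  exact ⟨hpA, hind⟩

/-- Step 6: some `p`-power of every element normalizes every conjugate of `H`. -/
theorem exists_pow_mem_normalizer {p : ℕ} [Fact p.Prime] {H : Subgroup G}
    (hH : IsPermutable H) (hpg : IsPGroup p H) (g : G) :
    ∃ a : ℕ, ∀ x : G, g ^ p ^ a ∈ Subgroup.normalizer (cj x H : Set G) := by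
  have hp : p.Prime := Fact.out
  by_cases hfin : IsOfFinOrder g
  · obtain ⟨a, m, hm, e⟩ := Nat.exists_eq_pow_mul_and_not_dvd (n := orderOf g)
      hfin.orderOf_pos.ne' p hp.ne_one
    refine ⟨a, fun x => ?_⟩
    apply mem_normalizer_of_coprime (hH.cj x) (isPGroup_cj hpg x) (m := m)
    · exact ((Nat.Prime.coprime_iff_not_dvd hp).mpr hm).symm
    · rw [← pow_mul, ← e, pow_orderOf_eq_one]
      exact Subgroup.one_mem _
  · refine ⟨0, fun x => ?_⟩
    rw [pow_zero, pow_one]
    apply mem_normalizer_of_forall (hH.cj x)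
    intro m hm hmem
    obtain ⟨n, hn⟩ := isPGroup_cj hpg x ⟨_, hmem⟩
    apply hfin
    rw [isOfFinOrder_iff_pow_eq_one]
    refine ⟨m * p ^ n, Nat.mul_pos hm (pow_pos hp.pos n), ?_⟩
    rw [pow_mul]
    exact congrArg Subtype.val hn

end Pool.Agent.Lib.MP_ba2ef4_al
end

section
set_option autoImplicit false

open scoped Pointwise

namespace Pool.Agent.Lib.MP_ba2ef4_al

variable {G : Type*} [Group G]

/-- If `z ^ p = 1` and `g` normalizes `⟨z⟩`, then `g ^ (p - 1)` commutes with `z`. -/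
theorem pow_pred_commute {Q : Type*} [Group Q] {p : ℕ} [Fact p.Prime] {z g : Q}
    (hz : z ^ p = 1) (hg : g * z * g⁻¹ ∈ Subgroup.zpowers z) : Commute (g ^ (p - 1)) z := by
  have hp : p.Prime := Fact.out
  obtain ⟨m, hm⟩ := Subgroup.mem_zpowers_iff.mp hg
  by_cases hz1 : z = 1
  · rw [hz1]
    exact Commute.one_right _
  have ho : orderOf z = p := orderOf_eq_prime hz hz1
  have hcop : IsCoprime m (p : ℤ) := by
    rw [Int.isCoprime_iff_gcd_eq_one, Int.gcd_comm]
    have hnd : ¬ (p : ℤ) ∣ m := by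
      rintro ⟨k, rfl⟩
      rw [zpow_mul, zpow_natCast, hz, one_zpow] at hm
      apply hz1
      have : z = g⁻¹ * (g * z * g⁻¹) * g := by group
      rw [this, ← hm]
      group
    have h1 : Nat.Coprime p m.natAbs := by
      rw [Nat.Prime.coprime_iff_not_dvd hp]
      intro h
      exact hnd (Int.natCast_dvd.mpr h)
    exact h1
  have hpow : ∀ k : ℕ, g ^ k * z * (g ^ k)⁻¹ = z ^ (m ^ k) := by
    intro k
    induction k with
    | zero => simp
    | succ k ih =>
      rw [pow_succ']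
      calc g * g ^ k * z * (g * g ^ k)⁻¹ = g * (g ^ k * z * (g ^ k)⁻¹) * g⁻¹ := by group
        _ = g * z ^ (m ^ k) * g⁻¹ := by rw [ih]
        _ = (g * z * g⁻¹) ^ (m ^ k) := by rw [conj_zpow]
        _ = z ^ (m ^ (k + 1)) := by rw [← hm, ← zpow_mul, pow_succ']
  have h1 : z ^ (m ^ (p - 1)) = z ^ (1 : ℤ) := by
    rw [zpow_eq_zpow_iff_modEq, ho]
    exact Int.ModEq.pow_card_sub_one_eq_one hp hcop
  have h2 := hpow (p - 1)
  rw [h1, zpow_one] at h2
  have h3 : g ^ (p - 1) * z = z * g ^ (p - 1) := by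
    nth_rewrite 2 [← h2]
    group
  exact h3

theorem normal_of_index_dvd_prime {M : Type*} [Group M] {p : ℕ} [Fact p.Prime] (hM : IsPGroup p M)
    (N : Subgroup M) (hN : N.index ∣ p) : N.Normal := by
  have hp : p.Prime := Fact.out
  rcases (Nat.dvd_prime hp).mp hN with h | h
  · rw [Subgroup.index_eq_one] at h
    rw [h]
    infer_instance
  · have hfi : N.FiniteIndex := ⟨by rw [h]; exact hp.ne_zero⟩
    set K := N.normalCore with hK
    have hKfi : K.FiniteIndex := inferInstance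
    have hfinite : Finite (M ⧸ K) := inferInstance
    have hQ : IsPGroup p (M ⧸ K) := hM.to_quotient K
    obtain ⟨k, hk⟩ := IsPGroup.iff_card.mp hQ
    have hker : (QuotientGroup.mk' K).ker ≤ N := by
      rw [QuotientGroup.ker_mk']
      exact N.normalCore_le
    have hind : (N.map (QuotientGroup.mk' K)).index = p := by
      rw [Subgroup.index_map_eq N (QuotientGroup.mk'_surjective K) hker, h]
    have hk0 : k ≠ 0 := by
      rintro rfl
      have h1 : (N.map (QuotientGroup.mk' K)).index ∣ Nat.card (M ⧸ K) :=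
        Subgroup.index_dvd_card _
      rw [hind, hk, pow_zero] at h1
      exact hp.one_lt.ne' (Nat.dvd_one.mp h1)
    have hnorm : (N.map (QuotientGroup.mk' K)).Normal := by
      apply Subgroup.normal_of_index_eq_minFac_card
      rw [hind, hk, hp.pow_minFac hk0]
    have := hnorm.comap (QuotientGroup.mk' K)
    rwa [Subgroup.comap_map_eq_self hker] at this

theorem le_normalizer_of_relIndex_dvd {p : ℕ} [Fact p.Prime] {N M : Subgroup G} (hNM : N ≤ M)
    (hM : IsPGroup p M) (h : N.relIndex M ∣ p) : M ≤ Subgroup.normalizer (N : Set G) := by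
  rw [← Subgroup.normal_subgroupOf_iff_le_normalizer hNM]
  exact normal_of_index_dvd_prime hM _ h

/-- Trivial action of powers of `g ^ (p - 1)` on a section of order `p`. -/
theorem section_trivial {p : ℕ} [Fact p.Prime] {N M : Subgroup G}
    (hMN : M ≤ Subgroup.normalizer (N : Set G)) {t : G} (ht : t ∈ M) (htp : t ^ p ∈ N)
    (hgen : ∀ u ∈ M, ∃ n ∈ N, ∃ i : ℤ, u = n * t ^ i) {g : G}
    (hgN : g ∈ Subgroup.normalizer (N : Set G)) (hgM : g * t * g⁻¹ ∈ M)
    (k : ℕ) {c : G} (hc : c ∈ M) :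
    c⁻¹ * (g ^ (p - 1)) ^ k * c * ((g ^ (p - 1)) ^ k)⁻¹ ∈ N := by
  let L := Subgroup.normalizer (N : Set G)
  let N' := N.subgroupOf L
  have hN' : N'.Normal := Subgroup.normal_in_normalizer
  let π : L →* L ⧸ N' := QuotientGroup.mk' N'
  have hker : ∀ a : L, π a = 1 ↔ (a : G) ∈ N := by
    intro a
    change (QuotientGroup.mk a : L ⧸ N') = 1 ↔ _
    rw [QuotientGroup.eq_one_iff]
    exact Subgroup.mem_subgroupOf
  let t' : L := ⟨t, hMN ht⟩
  let g' : L := ⟨g, hgN⟩
  let c' : L := ⟨c, hMN hc⟩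
  have hpow : ∀ a : L, (a : G) ∈ M → π a ∈ Subgroup.zpowers (π t') := by
    intro a ha
    obtain ⟨n, hn, i, e⟩ := hgen a ha
    have hnL : n ∈ L := Subgroup.le_normalizer hn
    have e' : a = ⟨n, hnL⟩ * t' ^ i := Subtype.ext e
    rw [e', map_mul, (hker ⟨n, hnL⟩).mpr hn, one_mul, map_zpow]
    exact Subgroup.zpow_mem_zpowers _ _
  have hz : (π t') ^ p = 1 := by
    rw [← map_pow, hker]
    exact htp
  have hg : π g' * π t' * (π g')⁻¹ ∈ Subgroup.zpowers (π t') := by
    rw [← map_mul, ← map_inv, ← map_mul]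
    exact hpow _ hgM
  have h1 : Commute ((π g') ^ (p - 1)) (π t') := pow_pred_commute hz hg
  obtain ⟨i, hi⟩ := Subgroup.mem_zpowers_iff.mp (hpow c' hc)
  have h2 : Commute (((π g') ^ (p - 1)) ^ k) (π c') := by
    rw [← hi]
    exact (h1.pow_left k).zpow_right i
  have h3 : π (c'⁻¹ * (g' ^ (p - 1)) ^ k * c' * ((g' ^ (p - 1)) ^ k)⁻¹) = 1 := by
    simp only [map_mul, map_inv, map_pow]
    rw [mul_assoc ((π c')⁻¹), h2.eq]
    group
  exact (hker _).mp h3

theorem zpow_mem_iff_relIndex (A : Subgroup G) (b : G) (N : ℤ) :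
    b ^ N ∈ A ↔ (A.relIndex (Subgroup.zpowers b) : ℤ) ∣ N := by
  have h1 : b ^ N ∈ A ↔ b ^ N.natAbs ∈ A := by
    rcases Int.natAbs_eq N with h | h
    · nth_rewrite 1 [h]
      rw [zpow_natCast]
    · nth_rewrite 1 [h]
      rw [zpow_neg, zpow_natCast, A.inv_mem_iff]
  rw [h1, pow_mem_iff_relIndex, Int.natCast_dvd]

theorem inf_zpowers_eq (V : Subgroup G) (t : G) :
    V ⊓ Subgroup.zpowers t = Subgroup.zpowers (t ^ V.relIndex (Subgroup.zpowers t)) := by
  apply le_antisymm
  · rintro x ⟨hxV, hxt⟩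
    obtain ⟨i, rfl⟩ := Subgroup.mem_zpowers_iff.mp hxt
    obtain ⟨k, hk⟩ := (zpow_mem_iff_relIndex V t i).mp hxV
    rw [Subgroup.mem_zpowers_iff]
    refine ⟨k, ?_⟩
    rw [hk, zpow_mul, zpow_natCast]
  · rw [Subgroup.zpowers_le]
    refine ⟨(pow_mem_iff_relIndex V t _).mpr (dvd_refl _), ?_⟩
    exact Subgroup.pow_mem _ (Subgroup.mem_zpowers t) _

theorem between_eq {B V : Subgroup G} (hB : IsPermutable B) {t : G} (h1 : B ≤ V)
    (h2 : V ≤ B ⊔ Subgroup.zpowers t) :
    V = B ⊔ Subgroup.zpowers (t ^ V.relIndex (Subgroup.zpowers t)) := by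
  rw [← inf_zpowers_eq]
  exact hB.dedekind h1 h2

theorem relIndex_zpowers_pow {p : ℕ} [Fact p.Prime] {B : Subgroup G} {t : G} {l : ℕ}
    (hl : B.relIndex (Subgroup.zpowers t) = p ^ l) (j : ℕ) :
    B.relIndex (Subgroup.zpowers (t ^ p ^ j)) = p ^ (l - j) := by
  have hp : p.Prime := Fact.out
  have key : ∀ k : ℕ, B.relIndex (Subgroup.zpowers (t ^ p ^ j)) ∣ k ↔ p ^ l ∣ p ^ j * k := by
    intro k
    rw [← pow_mem_iff_relIndex, ← pow_mul, pow_mem_iff_relIndex, hl]
  apply Nat.dvd_antisymm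
  · rw [key, ← pow_add]
    exact pow_dvd_pow p (by omega)
  · have h1 := (key _).mp (dvd_refl _)
    by_cases h : l ≤ j
    · rw [Nat.sub_eq_zero_of_le h, pow_zero]
      exact one_dvd _
    · have e : p ^ l = p ^ j * p ^ (l - j) := by
        rw [← pow_add]
        congr 1
        omega
      rw [e] at h1
      exact Nat.dvd_of_mul_dvd_mul_left (pow_pos hp.pos j) h1

end Pool.Agent.Lib.MP_ba2ef4_al
end

section
set_option autoImplicit false
set_option linter.unusedSectionVars false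

open scoped Pointwise

namespace Pool.Agent.Lib.MP_ba2ef4_al

variable {G : Type*} [Group G]

theorem relIndex_cj (g : G) (A B : Subgroup G) : (cj g A).relIndex (cj g B) = A.relIndex B :=
  Subgroup.relIndex_map_map_of_injective A B (MulAut.conj g).injective

theorem zpowers_pow_le {p : ℕ} (t : G) {i j : ℕ} (h : i ≤ j) :
    Subgroup.zpowers (t ^ p ^ j) ≤ Subgroup.zpowers (t ^ p ^ i) := by
  rw [Subgroup.zpowers_le]
  have e : t ^ p ^ j = (t ^ p ^ i) ^ p ^ (j - i) := by
    rw [← pow_mul, ← pow_add]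
    congr 2
    omega
  rw [e]
  exact Subgroup.pow_mem _ (Subgroup.mem_zpowers _) _

theorem le_of_relIndex_eq {A B C : Subgroup G} (h1 : A ≤ B) (h2 : B ≤ C)
    (h : A.relIndex B = A.relIndex C) (h0 : A.relIndex C ≠ 0) : C ≤ B := by
  have h3 := Subgroup.relIndex_mul_relIndex A B C h1 h2
  rw [h] at h3
  have h4 : B.relIndex C = 1 := by
    have h5 : A.relIndex C * B.relIndex C = A.relIndex C * 1 := by rw [h3, mul_one]
    exact Nat.eq_of_mul_eq_mul_left (Nat.pos_of_ne_zero h0) h5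
  rwa [Subgroup.relIndex_eq_one] at h4

theorem cj_W_eq {p : ℕ} [Fact p.Prime] {B : Subgroup G} (hB : IsPermutable B) {t : G} {l : ℕ}
    (hl : B.relIndex (Subgroup.zpowers t) = p ^ l) {g : G} (hgB : cj g B = B)
    (hgT : cj g (B ⊔ Subgroup.zpowers t) = B ⊔ Subgroup.zpowers t) (j : ℕ) :
    cj g (B ⊔ Subgroup.zpowers (t ^ p ^ j)) = B ⊔ Subgroup.zpowers (t ^ p ^ j) := by
  have hp : p.Prime := Fact.out
  set V := cj g (B ⊔ Subgroup.zpowers (t ^ p ^ j)) with hV
  have hWT : B ⊔ Subgroup.zpowers (t ^ p ^ j) ≤ B ⊔ Subgroup.zpowers t := by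
    apply sup_le_sup_left
    rw [Subgroup.zpowers_le]
    exact Subgroup.pow_mem _ (Subgroup.mem_zpowers t) _
  have h1 : B ≤ V := by
    nth_rewrite 1 [← hgB]
    exact cj_mono le_sup_left
  have h2 : V ≤ B ⊔ Subgroup.zpowers t := by
    rw [← hgT]
    exact cj_mono hWT
  have h3 : V.relIndex (Subgroup.zpowers t) ∣ p ^ l := by
    rw [← hl]
    exact Subgroup.relIndex_dvd_of_le_left _ h1
  obtain ⟨i, -, hi⟩ := (Nat.dvd_prime_pow hp).mp h3
  have h4 := between_eq hB h1 h2
  rw [hi] at h4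
  have h5 : B.relIndex V = B.relIndex (B ⊔ Subgroup.zpowers (t ^ p ^ j)) := by
    nth_rewrite 1 [← hgB]
    rw [hV, relIndex_cj]
  have h6 : B.relIndex V ≠ 0 := by
    rw [h5, hB.relIndex_sup, relIndex_zpowers_pow hl]
    exact (pow_pos hp.pos _).ne'
  rcases le_total i j with hij | hij
  · have h7 : B ⊔ Subgroup.zpowers (t ^ p ^ j) ≤ V := by
      rw [h4]
      exact sup_le_sup_left (zpowers_pow_le t hij) _
    exact le_antisymm (le_of_relIndex_eq le_sup_left h7 h5.symm h6) h7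
  · have h7 : V ≤ B ⊔ Subgroup.zpowers (t ^ p ^ j) := by
      rw [h4]
      exact sup_le_sup_left (zpowers_pow_le t hij) _
    exact le_antisymm h7 (le_of_relIndex_eq h1 h7 h5 (by rw [← h5]; exact h6))

section chain

variable {p : ℕ} [Fact p.Prime] {B : Subgroup G} (hB : IsPermutable B) {t : G}
    (hT : IsPGroup p (B ⊔ Subgroup.zpowers t : Subgroup G)) {l : ℕ}
    (hl : B.relIndex (Subgroup.zpowers t) = p ^ l)

include hB hT hl

theorem W_relIndex (j : ℕ) :
    (B ⊔ Subgroup.zpowers (t ^ p ^ (j + 1))).relIndex (B ⊔ Subgroup.zpowers (t ^ p ^ j)) ∣ p := by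
  have hp : p.Prime := Fact.out
  have h1 := Subgroup.relIndex_mul_relIndex B (B ⊔ Subgroup.zpowers (t ^ p ^ (j + 1)))
    (B ⊔ Subgroup.zpowers (t ^ p ^ j)) le_sup_left
    (sup_le_sup_left (zpowers_pow_le t (Nat.le_succ j)) _)
  rw [hB.relIndex_sup, hB.relIndex_sup, relIndex_zpowers_pow hl, relIndex_zpowers_pow hl] at h1
  have h2 : p ^ (l - (j + 1)) *
      (B ⊔ Subgroup.zpowers (t ^ p ^ (j + 1))).relIndex (B ⊔ Subgroup.zpowers (t ^ p ^ j)) ∣
      p ^ (l - (j + 1)) * p := by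
    rw [h1, ← pow_succ]
    exact pow_dvd_pow p (by omega)
  exact Nat.dvd_of_mul_dvd_mul_left (pow_pos hp.pos _) h2

theorem W_le (j : ℕ) :
    B ⊔ Subgroup.zpowers (t ^ p ^ j) ≤ B ⊔ Subgroup.zpowers t := by
  apply sup_le_sup_left
  rw [Subgroup.zpowers_le]
  exact Subgroup.pow_mem _ (Subgroup.mem_zpowers t) _

theorem W_normalizer (j : ℕ) :
    B ⊔ Subgroup.zpowers (t ^ p ^ j) ≤
      Subgroup.normalizer (B ⊔ Subgroup.zpowers (t ^ p ^ (j + 1)) : Subgroup G) :=
  le_normalizer_of_relIndex_dvd (sup_le_sup_left (zpowers_pow_le t (Nat.le_succ j)) _)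
    (hT.to_le (W_le hB hT hl j)) (W_relIndex hB hT hl j)

theorem W_pow (j : ℕ) {c : G} (hc : c ∈ B ⊔ Subgroup.zpowers (t ^ p ^ j)) :
    c ^ p ∈ B ⊔ Subgroup.zpowers (t ^ p ^ (j + 1)) := by
  have hn : ((B ⊔ Subgroup.zpowers (t ^ p ^ (j + 1))).subgroupOf
      (B ⊔ Subgroup.zpowers (t ^ p ^ j))).Normal := by
    rw [Subgroup.normal_subgroupOf_iff_le_normalizer
      (sup_le_sup_left (zpowers_pow_le t (Nat.le_succ j)) _)]
    exact W_normalizer hB hT hl j
  have h1 := Subgroup.pow_index_mem ((B ⊔ Subgroup.zpowers (t ^ p ^ (j + 1))).subgroupOf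
      (B ⊔ Subgroup.zpowers (t ^ p ^ j))) ⟨c, hc⟩
  rw [Subgroup.mem_subgroupOf] at h1
  obtain ⟨k, hk⟩ := W_relIndex hB hT hl j
  have h2 : c ^ p = (c ^ (B ⊔ Subgroup.zpowers (t ^ p ^ (j + 1))).relIndex
      (B ⊔ Subgroup.zpowers (t ^ p ^ j))) ^ k := by
    rw [← pow_mul, ← hk]
  rw [h2]
  exact Subgroup.pow_mem _ h1 _

variable {g : G} (hgB : cj g B = B)
    (hgT : cj g (B ⊔ Subgroup.zpowers t) = B ⊔ Subgroup.zpowers t)

include hgB hgT

theorem W_section (j k : ℕ) {c : G} (hc : c ∈ B ⊔ Subgroup.zpowers (t ^ p ^ j)) :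
    c⁻¹ * (g ^ (p - 1)) ^ k * c * ((g ^ (p - 1)) ^ k)⁻¹ ∈
      B ⊔ Subgroup.zpowers (t ^ p ^ (j + 1)) := by
  have ht : t ^ p ^ j ∈ B ⊔ Subgroup.zpowers (t ^ p ^ j) :=
    le_sup_right (a := B) (Subgroup.mem_zpowers _)
  apply section_trivial (M := B ⊔ Subgroup.zpowers (t ^ p ^ j)) (t := t ^ p ^ j)
    (W_normalizer hB hT hl j) ht
  · rw [← pow_mul, ← pow_succ]
    exact le_sup_right (a := B) (Subgroup.mem_zpowers _)
  · intro u hu
    obtain ⟨b, hb, k, hk, rfl⟩ := hB.mem_sup.mp hu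
    obtain ⟨i, rfl⟩ := Subgroup.mem_zpowers_iff.mp hk
    exact ⟨b, (le_sup_left : B ≤ B ⊔ _) hb, i, rfl⟩
  · rw [mem_normalizer_iff_cj]
    exact cj_W_eq hB hl hgB hgT (j + 1)
  · rw [← cj_W_eq hB hl hgB hgT j]
    exact conj_mem_cj ht
  · exact hc

theorem chain_main (j : ℕ) {u : G} (hu : u ∈ B ⊔ Subgroup.zpowers t) :
    u⁻¹ * (g ^ (p - 1)) ^ p ^ j * u * ((g ^ (p - 1)) ^ p ^ j)⁻¹ ∈
      B ⊔ Subgroup.zpowers (t ^ p ^ (j + 1)) := by
  induction j with
  | zero =>
    apply W_section hB hT hl hgB hgT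
    rw [pow_zero, pow_one]
    exact hu
  | succ j ih =>
    set d := (g ^ (p - 1)) ^ p ^ j with hd
    set c := u⁻¹ * d * u * d⁻¹ with hc
    have key : ∀ k : ℕ, ∃ n ∈ B ⊔ Subgroup.zpowers (t ^ p ^ (j + 1 + 1)),
        u⁻¹ * d ^ k * u * (d ^ k)⁻¹ = c ^ k * n := by
      intro k
      induction k with
      | zero => exact ⟨1, Subgroup.one_mem _, by simp⟩
      | succ k ihk =>
        obtain ⟨n, hn, e⟩ := ihk
        have h1 := W_section hB hT hl hgB hgT (j + 1) (p ^ j * k) ih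
        rw [pow_mul, ← hd] at h1
        refine ⟨(c⁻¹ * n * c) * (c⁻¹ * d ^ k * c * (d ^ k)⁻¹), ?_, ?_⟩
        · apply Subgroup.mul_mem _ _ h1
          have h2 := W_normalizer hB hT hl (j + 1) ih
          exact (Subgroup.mem_normalizer_iff''.mp h2 n).mp hn
        · calc u⁻¹ * d ^ (k + 1) * u * (d ^ (k + 1))⁻¹
              = (u⁻¹ * d ^ k * u * (d ^ k)⁻¹) * (d ^ k * c * (d ^ k)⁻¹) := by
                rw [hc, pow_succ]
                group
            _ = (c ^ k * n) * (d ^ k * c * (d ^ k)⁻¹) := by rw [e]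
            _ = c ^ (k + 1) * ((c⁻¹ * n * c) * (c⁻¹ * d ^ k * c * (d ^ k)⁻¹)) := by
                rw [pow_succ]
                group
    obtain ⟨n, hn, e⟩ := key p
    have h3 : (g ^ (p - 1)) ^ p ^ (j + 1) = d ^ p := by
      rw [hd, ← pow_mul (g ^ (p - 1)), ← pow_succ]
    rw [h3, e]
    exact Subgroup.mul_mem _ (W_pow hB hT hl (j + 1) ih) hn

end chain

/-- If `g` normalizes all conjugates of the core-free permutable `p`-subgroup `H`, then
`(g ^ (p - 1)) ^ (p ^ s)` centralizes `H`, where `p ^ s = |H^G : H|`. -/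
theorem commute_of_normalizes {p : ℕ} [Fact p.Prime] {H : Subgroup G}
    (hH : IsPermutable H) (hcore : H.normalCore = ⊥)
    (hP : IsPGroup p (Subgroup.normalClosure (H : Set G))) {s : ℕ}
    (hs : H.relIndex (Subgroup.normalClosure (H : Set G)) = p ^ s) {g : G}
    (hg : ∀ x : G, g ∈ Subgroup.normalizer (cj x H : Set G)) {h : G} (hh : h ∈ H) :
    Commute ((g ^ (p - 1)) ^ p ^ s) h := by
  have hp : p.Prime := Fact.out
  set P := Subgroup.normalClosure (H : Set G) with hPdef
  have hHP : H ≤ P := Subgroup.subset_normalClosure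
  have hPn : P.Normal := Subgroup.normalClosure_normal
  have hcP : ∀ y, cj y P = P := by
    intro y
    apply cj_eq_of_mem_normalizer
    rw [Subgroup.normalizer_eq_top_iff.mpr hPn]
    exact Subgroup.mem_top _
  set d := (g ^ (p - 1)) ^ p ^ s with hd
  have hmem : h⁻¹ * d * h * d⁻¹ ∈ H.normalCore := by
    intro b
    set y := b⁻¹ with hy
    have hgoal : h⁻¹ * d * h * d⁻¹ ∈ cj y H → b * (h⁻¹ * d * h * d⁻¹) * b⁻¹ ∈ H := by
      intro h1
      have h2 := mem_cj.mp h1
      rw [hy, inv_inv] at h2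
      exact h2
    apply hgoal
    set B := cj y H with hBdef
    have hB : IsPermutable B := hH.cj y
    have hHle : H ≤ B ⊔ Subgroup.zpowers y := by
      intro z hz
      have h1 : y ∈ B ⊔ Subgroup.zpowers y := le_sup_right (a := B) (Subgroup.mem_zpowers y)
      have h2 : y * z * y⁻¹ ∈ B ⊔ Subgroup.zpowers y :=
        (le_sup_left : B ≤ B ⊔ Subgroup.zpowers y) (conj_mem_cj hz)
      have h3 := Subgroup.mul_mem _ (Subgroup.mul_mem _ (Subgroup.inv_mem _ h1) h2) h1
      have e : y⁻¹ * (y * z * y⁻¹) * y = z := by group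
      rwa [e] at h3
    have hTle : B ⊔ H ≤ B ⊔ Subgroup.zpowers y := sup_le le_sup_left hHle
    have hTeq := between_eq hB (le_sup_left : B ≤ B ⊔ H) hTle
    set t := y ^ (B ⊔ H).relIndex (Subgroup.zpowers y) with ht
    have hBP : B ≤ P := by
      rw [← hcP y]
      exact cj_mono hHP
    have hTP : B ⊔ H ≤ P := sup_le hBP hHP
    have hT : IsPGroup p (B ⊔ H : Subgroup G) := hP.to_le hTP
    have hBind : B.relIndex P = p ^ s := by
      rw [← hs, ← relIndex_cj y H P, hcP y]
    have hdvd : B.relIndex (B ⊔ H) ∣ p ^ s := by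
      rw [← hBind, ← Subgroup.relIndex_mul_relIndex B _ _ le_sup_left hTP]
      exact dvd_mul_right _ _
    obtain ⟨l, hls, hl⟩ := (Nat.dvd_prime_pow hp).mp hdvd
    have hl' : B.relIndex (Subgroup.zpowers t) = p ^ l := by
      rw [← hl, ← hB.relIndex_sup, ← hTeq]
    have hgB : cj g B = B := mem_normalizer_iff_cj.mp (hg y)
    have hgH : cj g H = H := by
      have := hg 1
      rw [cj_one] at this
      exact mem_normalizer_iff_cj.mp this
    have hgT : cj g (B ⊔ H) = B ⊔ H := by rw [cj_sup, hgB, hgH]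
    have hhT : h ∈ B ⊔ H := le_sup_right (a := B) hh
    rw [hTeq] at hT hgT hhT
    have h4 := chain_main hB hT hl' hgB hgT s hhT
    have h5 : B ⊔ Subgroup.zpowers (t ^ p ^ (s + 1)) = B := by
      apply sup_eq_left.mpr
      rw [Subgroup.zpowers_le, pow_mem_iff_relIndex, hl']
      exact pow_dvd_pow p (by omega)
    rw [h5] at h4
    exact h4
  rw [hcore, Subgroup.mem_bot] at hmem
  have h6 : d * h = h * d := by
    have : d * h = h * (h⁻¹ * d * h * d⁻¹) * d := by group
    rw [this, hmem, mul_one]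
  exact h6

/-- Main theorem: in a finitely generated group `G` with a core-free permutable `p`-subgroup
`H`, for each `g ∈ G` some `g ^ (p ^ k * (p - 1))` centralizes the normal closure of `H`. -/
theorem main {p : ℕ} [Fact p.Prime] (hfg : Group.FG G) {H : Subgroup G}
    (hpg : IsPGroup p H) (hcore : H.normalCore = ⊥) (hH : IsPermutable H) (g : G) :
    ∃ k : ℕ, g ^ (p ^ k * (p - 1)) ∈
      Subgroup.centralizer (Subgroup.normalClosure (H : Set G) : Set G) := by
  obtain ⟨hP, hind⟩ := normalClosure_aux hfg hH hpg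
  obtain ⟨s, hs⟩ := relIndex_eq_pow hP hind
  obtain ⟨a, ha⟩ := exists_pow_mem_normalizer hH hpg g
  refine ⟨a + s, ?_⟩
  have e : g ^ (p ^ (a + s) * (p - 1)) = ((g ^ p ^ a) ^ (p - 1)) ^ p ^ s := by
    rw [← pow_mul, ← pow_mul, pow_add]
    congr 1
    ring
  rw [e]
  have key : ∀ x : G, ∀ h ∈ H, Commute (((g ^ p ^ a) ^ (p - 1)) ^ p ^ s) (x * h * x⁻¹) := by
    intro x h hh
    have h1 : ∀ z : G, x⁻¹ * g ^ p ^ a * x ∈ Subgroup.normalizer (cj z H : Set G) := by
      intro z
      rw [mem_normalizer_iff_cj, cj_cj]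
      have h2 := mem_normalizer_iff_cj.mp (ha (x * z))
      have e2 : x⁻¹ * g ^ p ^ a * x * z = x⁻¹ * (g ^ p ^ a * (x * z)) := by group
      rw [e2, ← cj_cj, ← cj_cj, h2, cj_cj]
      congr 1
      group
    have h3 := commute_of_normalizes hH hcore hP hs h1 hh
    have h4 : ∀ n : ℕ, (x⁻¹ * g ^ p ^ a * x) ^ n = x⁻¹ * (g ^ p ^ a) ^ n * x := by
      intro n
      have := conj_pow (i := n) (a := x⁻¹) (b := g ^ p ^ a)
      rwa [inv_inv] at this
    have h5 : ∀ (w : G) (n : ℕ), (x⁻¹ * w * x) ^ n = x⁻¹ * w ^ n * x := by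
      intro w n
      have := conj_pow (i := n) (a := x⁻¹) (b := w)
      rwa [inv_inv] at this
    rw [h4, h5] at h3
    set d := ((g ^ p ^ a) ^ (p - 1)) ^ p ^ s with hd
    have h6 : x⁻¹ * d * x * h = h * (x⁻¹ * d * x) := h3
    change d * (x * h * x⁻¹) = x * h * x⁻¹ * d
    calc d * (x * h * x⁻¹) = x * (x⁻¹ * d * x * h) * x⁻¹ := by group
      _ = x * (h * (x⁻¹ * d * x)) * x⁻¹ := by rw [h6]
      _ = x * h * x⁻¹ * d := by group
  rw [Subgroup.mem_centralizer_iff]
  have hle : Subgroup.normalClosure (H : Set G) ≤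
      Subgroup.centralizer {((g ^ p ^ a) ^ (p - 1)) ^ p ^ s} := by
    unfold Subgroup.normalClosure
    rw [Subgroup.closure_le]
    intro z hz
    rw [Group.mem_conjugatesOfSet_iff] at hz
    obtain ⟨h, hh, hz⟩ := hz
    obtain ⟨x, rfl⟩ := isConj_iff.mp hz
    rw [SetLike.mem_coe, Subgroup.mem_centralizer_iff]
    intro w hw
    rw [Set.mem_singleton_iff] at hw
    rw [hw]
    exact key x h hh
  intro z hz
  have := Subgroup.mem_centralizer_iff.mp (hle hz) _ (Set.mem_singleton _)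
  exact this.symm

end Pool.Agent.Lib.MP_ba2ef4_al
end
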