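import Pool.Agent.Lib.MP_ba2ef4_al.Base

/-!
# MP_ba2ef4_al : exact statements of the modules

Paper proofs: /team-store/MP_ba2ef4_al_PROOF.md.  Every module may assume the other Specs
named in its uses line as hypotheses.
-/

set_option autoImplicit false

namespace MPba2ef4

/-! ### Part I : elements of infinite order -/

/-- SHIFT -/
def SpecShift : Prop := ∀ (G : Type) [Group G] (ℓ : G → ℕ) (δ : ℕ), GeoNorm ℓ → FP ℓ δ →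
  ∀ x : G, ¬ IsOfFinOrder x → ∀ K m : ℕ, 1 ≤ m → ∃ (n : ℕ) (p : G), 1 ≤ n ∧ m ∣ n ∧
    Btw ℓ 1 p (x ^ n) ∧
    (∀ h, ℓ h ≤ K → Commute h (x ^ n) →
      |ss ℓ p h| ≤ (ℓ h : ℤ) ∧ |ss ℓ p h| ≤ (dd ℓ p (h * p) : ℤ) ∧
      (dd ℓ p (h * p) : ℤ) ≤ |ss ℓ p h| + 3 * (δ : ℤ)) ∧
    (∀ g h, ℓ g ≤ K → ℓ h ≤ K → Commute g (x ^ n) → Commute h (x ^ n) →
      |ss ℓ p (g * h) - ss ℓ p g - ss ℓ p h| ≤ (δ : ℤ))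

/-- GROW (uses SpecShift) -/
def SpecGrow : Prop := ∀ (G : Type) [Group G] (ℓ : G → ℕ) (δ : ℕ), GeoNorm ℓ → FP ℓ δ →
  ∀ x : G, ¬ IsOfFinOrder x → ∃ n₁ : ℕ, 1 ≤ n₁ ∧ ∀ k : ℕ, k ≤ ℓ (x ^ (k * n₁))

/-- CENT (uses SpecShift) : `C(x^m)` has at most `B` cosets of `⟨x⟩`, uniformly in `m` -/
def SpecCent : Prop := ∀ (G : Type) [Group G] (ℓ : G → ℕ) (δ : ℕ), GeoNorm ℓ → FP ℓ δ →
  ∀ x : G, ¬ IsOfFinOrder x → ∃ B : ℕ, ∀ m : ℕ, 1 ≤ m → ∀ S : Finset G,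
    (∀ g ∈ S, Commute g (x ^ m)) → (∀ g ∈ S, ∀ h ∈ S, ∀ k : ℤ, h = x ^ k * g → h = g) →
    S.card ≤ B

/-- QL (uses SpecShift, SpecCent) : quasi-additivity of `ℓ (x^i)` -/
def SpecQL : Prop := ∀ (G : Type) [Group G] (ℓ : G → ℕ) (δ : ℕ), GeoNorm ℓ → FP ℓ δ →
  ∀ x : G, ¬ IsOfFinOrder x → ∃ C : ℕ, ∀ i j : ℕ, ℓ (x ^ i) + ℓ (x ^ j) ≤ ℓ (x ^ (i + j)) + C

/-- AX (uses SpecQL) -/
def SpecAx : Prop := ∀ (G : Type) [Group G] (ℓ : G → ℕ) (δ : ℕ), GeoNorm ℓ → FP ℓ δ →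
  ∃ κ : ℕ, Ax ℓ κ

/-! ### Part II : the elementary subgroup and its projections -/

/-- CYC : pure group theory (transfer) -/
def SpecCyc : Prop := ∀ (E : Type) [Group E] (V : Subgroup E) (x : E), V.Normal →
  (V : Set E).Finite → (∀ e : E, IsOfFinOrder e → e ∈ V) →
  (∃ m : ℕ, 1 ≤ m ∧ ∀ e : E, Commute (x ^ m) e) → (Subgroup.zpowers x).FiniteIndex →
  ∃ y : E, ∀ e : E, ∃ v ∈ V, ∃ j : ℤ, e = v * y ^ j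

/-- ELEM (uses SpecGrow, SpecCent, SpecCyc) -/
def SpecElem : Prop := ∀ (G : Type) [Group G] (V N : Subgroup G), IsStage G V N →
  ∀ x : G, x ∉ N → ¬ IsOfFinOrder x → ∃ (E : Subgroup G) (y : G), Elem V N E y ∧ x ∈ E

/-- QC : quasi-convexity of `E` -/
def SpecQC : Prop := ∀ (G : Type) [Group G] (V N E : Subgroup G) (y : G) (ℓ : G → ℕ) (δ : ℕ),
  IsStage G V N → Elem V N E y → GeoNorm ℓ → FP ℓ δ →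
  ∃ lam : ℕ, ∀ e ∈ E, ∀ p : G, Btw ℓ 1 p e → ∃ b ∈ E, dd ℓ p b ≤ lam

/-- PROJ (uses SpecQC) -/
def SpecProj : Prop := ∀ (G : Type) [Group G] (V N E : Subgroup G) (y : G) (ℓ : G → ℕ) (δ : ℕ),
  IsStage G V N → Elem V N E y → GeoNorm ℓ → FP ℓ δ →
  ∃ (pr : G ⧸ E → G → G) (κ : ℕ), Proj ℓ E V pr κ

/-- SPIN (uses SpecQL) : the geometry of the quasi-line `E` and of `M = ⟨y^(3^c) v₀⁻¹⟩` -/
def SpecSpin : Prop := ∀ (G : Type) [Group G] (V N E : Subgroup G) (y : G) (ℓ : G → ℕ) (δ : ℕ),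
  IsStage G V N → Elem V N E y → GeoNorm ℓ → FP ℓ δ →
  ∃ C : ℕ, ∀ c : ℕ, 2 ≤ c → ∀ v₀ ∈ V, y * v₀ = v₀ * y →
    (∀ k : ℤ, k ≠ 0 → ℓ (y ^ (3 ^ c)) ≤ ℓ ((y ^ (3 ^ c) * v₀⁻¹) ^ k) + C) ∧
    (∀ e ∈ E, ∃ k : ℤ, ℓ ((y ^ (3 ^ c) * v₀⁻¹) ^ k * e) ≤
      (ℓ e - ℓ (y ^ (3 ^ c))) + (ℓ (y ^ (3 ^ c)) - ℓ e) + C) ∧
    (∀ e ∈ E, ∃ k : ℤ, 2 * ℓ ((y ^ (3 ^ c) * v₀⁻¹) ^ k * e) ≤ ℓ (y ^ (3 ^ c)) + C)

/-- WIND : the abstract windmill -/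
def SpecWind : Prop := ∀ (G Z : Type) [Group G] [MulAction G Z] (ax : Set Z)
  (D : Z → Z → Z → ℕ) (M : Z → Subgroup G) (θ L : ℕ),
  (∀ (g : G), ∀ A ∈ ax, g • A ∈ ax) →
  (∀ A ∈ ax, ∀ B C : Z, B ≠ A → C ≠ A → D A B C = D A C B) →
  (∀ A ∈ ax, ∀ B C X : Z, B ≠ A → C ≠ A → X ≠ A → D A B C ≤ D A B X + D A X C) →
  (∀ A ∈ ax, ∀ B : Z, B ≠ A → D A B B ≤ θ) →
  (∀ (g : G), ∀ A ∈ ax, ∀ B C : Z, D (g • A) (g • B) (g • C) = D A B C) →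
  (∀ A ∈ ax, ∀ B ∈ ax, ∀ C : Z, A ≠ B → C ≠ A → C ≠ B → θ < D A B C → D B A C ≤ θ) →
  (∀ A ∈ ax, ∀ h ∈ M A, h • A = A) →
  (∀ A ∈ ax, ∀ g : G, ∀ h ∈ M A, g * h * g⁻¹ ∈ M (g • A)) →
  (∀ A ∈ ax, ∀ h ∈ M A, h ≠ 1 → ∀ B : Z, B ≠ A → L ≤ D A B (h • B)) →
  20 * θ < L →
  ∀ (o : Z), o ∉ ax → (∀ g : G, g • o ∉ ax) →
  (∃ ρ : Z → ℕ, ∀ A ∈ ax, ∀ F ∈ ax, F ≠ A → θ < D F o A → ρ F < ρ A) →
  ∀ r ∈ Subgroup.closure {h : G | ∃ A ∈ ax, h ∈ M A}, r ≠ 1 →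
    ∃ A ∈ ax, L ≤ D A o (r • o) + 12 * θ

/-- GREEN (uses SpecWind) : Greendlinger's lemma for the normal closure of `M`;
`c` is central in `E` and its non-trivial powers are long -/
def SpecGreen : Prop := ∀ (G : Type) [Group G] (ℓ : G → ℕ) (E V : Subgroup G)
  (pr : G ⧸ E → G → G) (κ L : ℕ) (c : G), Proj ℓ E V pr κ → c ∈ E →
  (∀ e ∈ E, c * e = e * c) → (∀ k : ℤ, k ≠ 0 → L ≤ ℓ (c ^ k)) → 80 * κ < L →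
  ∀ r ∈ Subgroup.normalClosure ({c} : Set G), r ≠ 1 → ∀ o : G,
    ∃ A : G ⧸ E, L ≤ dd ℓ (pr A o) (pr A (r * o)) + 48 * κ

/-- ROT (uses SpecSpin, SpecGreen) -/
def SpecRot : Prop := ∀ (G : Type) [Group G] (V N E : Subgroup G) (y : G) (ℓ : G → ℕ)
  (pr : G ⧸ E → G → G) (κ : ℕ), IsStage G V N → Elem V N E y → Proj ℓ E V pr κ →
  ∃ κ' : ℕ, ∀ K : ℕ, κ' ≤ K → ∃ (c : ℕ) (v₀ : G) (L : ℕ), 2 ≤ c ∧ v₀ ∈ V ∧ v₀ ≠ 1 ∧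
    y * v₀ = v₀ * y ∧
    Rot ℓ E V (Subgroup.normalClosure ({y ^ (3 ^ c) * v₀⁻¹} : Set G)) pr K L

/-! ### Part III : the quotient -/

/-- QN : the quotient norm -/
def SpecQN : Prop := ∀ (G : Type) [Group G] (ℓ : G → ℕ) (R : Subgroup G) [R.Normal],
  GeoNorm ℓ → GeoNorm (qn ℓ R)

/-- BPOLY -/
def SpecB : Prop := ∀ (G : Type) [Group G] (ℓ : G → ℕ) (E V R : Subgroup G)
  (pr : G ⧸ E → G → G) (κ L : ℕ), Rot ℓ E V R pr κ L →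
  ∀ (p₀ u w p r : G), r ∈ R → Red ℓ R p₀ u → Red ℓ R w (r * p₀) → 4 * dd ℓ u w ≤ 3 * L →
    Btw ℓ p₀ p u → ∃ ρ ∈ R, ∃ q, Btw ℓ w q (r * p₀) ∧ dd ℓ p (ρ * q) ≤ 2 * L

/-- TPOLY (uses SpecB) -/
def SpecT : Prop := ∀ (G : Type) [Group G] (ℓ : G → ℕ) (E V R : Subgroup G)
  (pr : G ⧸ E → G → G) (κ L : ℕ), Rot ℓ E V R pr κ L →
  ∀ (p₀ u₁ v₁ u₂ v₂ p r : G), r ∈ R → Red ℓ R p₀ u₁ → Red ℓ R v₁ u₂ → Red ℓ R v₂ (r * p₀) →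
    dd ℓ u₁ v₁ ≤ 20 * κ → dd ℓ u₂ v₂ ≤ 20 * κ → Btw ℓ p₀ p u₁ →
    ∃ ρ ∈ R, ∃ q, (Btw ℓ v₁ q u₂ ∨ Btw ℓ v₂ q (r * p₀)) ∧ dd ℓ p (ρ * q) ≤ 3 * L

/-- QTHIN (uses SpecT) -/
def SpecQThin : Prop := ∀ (G : Type) [Group G] (ℓ : G → ℕ) (E V R : Subgroup G) [R.Normal]
  (pr : G ⧸ E → G → G) (κ L : ℕ), Rot ℓ E V R pr κ L → Thin (qn ℓ R) (3 * L)

/-- OV : two different cosets overlap in a short stretch only -/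
def SpecOV : Prop := ∀ (G : Type) [Group G] (ℓ : G → ℕ) (E V : Subgroup G)
  (pr : G ⧸ E → G → G) (κ : ℕ), Proj ℓ E V pr κ → ∀ A B : G ⧸ E, A ≠ B →
  ∀ x P a a' b b' : G, (a : G ⧸ E) = A → (a' : G ⧸ E) = A → (b : G ⧸ E) = B →
    (b' : G ⧸ E) = B →
    dd ℓ x a + dd ℓ a P ≤ dd ℓ x P + 2 * κ → dd ℓ x a' + dd ℓ a' P ≤ dd ℓ x P + 2 * κ →
    dd ℓ x b + dd ℓ b P ≤ dd ℓ x P + 2 * κ → dd ℓ x b' + dd ℓ b' P ≤ dd ℓ x P + 2 * κ →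
    min (dd ℓ x a') (dd ℓ x b') ≤ max (dd ℓ x a) (dd ℓ x b) + 70 * κ

/-- TOR (uses SpecOV) -/
def SpecTor : Prop := ∀ (G : Type) [Group G] (ℓ : G → ℕ) (E V R : Subgroup G)
  (pr : G ⧸ E → G → G) (κ L : ℕ), Rot ℓ E V R pr κ L → Ax ℓ κ →
  ∀ g : G, ¬ IsOfFinOrder g → (∀ a : G, ∀ r ∈ R, ℓ g ≤ ℓ (a⁻¹ * (r * g) * a)) →
    (∃ n : ℕ, 1 ≤ n ∧ g ^ n ∈ R) → ∃ h : G, h⁻¹ * g * h ∈ E

/-- CORE (uses SpecOV) -/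
def SpecCore : Prop := ∀ (G : Type) [Group G] (ℓ : G → ℕ) (E V : Subgroup G)
  (pr : G ⧸ E → G → G) (κ : ℕ), Proj ℓ E V pr κ → ∀ (B : G ⧸ E) (z γ : G) (M : ℕ),
  dd ℓ z (γ * z) ≤ M → M + 71 * κ < dd ℓ (pr B 1) (pr B z) →
  M + 71 * κ < dd ℓ (pr B γ) (pr B (γ * z)) → γ • B = B

/-- CENA (uses SpecCore) -/
def SpecCenA : Prop := ∀ (G : Type) [Group G] (ℓ : G → ℕ) (E V R : Subgroup G)
  (pr : G ⧸ E → G → G) (κ L : ℕ), Rot ℓ E V R pr κ L →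
  ∀ z t : G, ℓ t ≤ κ → IsOfFinOrder t → Red ℓ R 1 z → z * t * z⁻¹ * t⁻¹ ∈ R →
    t ∈ V ∨ z * t = t * z

/-- CENB (uses SpecCore) -/
def SpecCenB : Prop := ∀ (G : Type) [Group G] (ℓ : G → ℕ) (E V R : Subgroup G)
  (pr : G ⧸ E → G → G) (κ L : ℕ), Rot ℓ E V R pr κ L →
  ∀ z t₁ t₂ : G, t₁ ∈ E → t₂ ∈ E → z * t₁ * z⁻¹ * t₂⁻¹ ∈ R →
    (∃ v ∈ V, v⁻¹ * t₁ ∈ R) ∨ (∃ e ∈ E, e⁻¹ * z ∈ R)

/-- BAR : the elements of `E` modulo the relation -/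
def SpecBar : Prop := ∀ (G : Type) [Group G] (V N E : Subgroup G) (y : G), IsStage G V N →
  Elem V N E y → ∀ (c : ℕ) (v₀ : G), 2 ≤ c → v₀ ∈ V → v₀ ≠ 1 → y * v₀ = v₀ * y →
  (y ^ (3 ^ c) * v₀⁻¹ ∈ N) ∧
  ∀ e ∈ E, ∃ j : ℤ, e ^ (3 ^ c) * (v₀ ^ j)⁻¹ ∈
      Subgroup.normalClosure ({y ^ (3 ^ c) * v₀⁻¹} : Set G) ∧ (e ∉ N → v₀ ^ j ≠ 1)

/-- STEP (uses everything above) -/
def SpecStep : Prop := ∀ (G : Type) [Group G] (V N : Subgroup G), IsStage G V N →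
  ∀ x : G, x ∉ N → ¬ IsOfFinOrder x → ∃ (R : Subgroup G) (_ : R.Normal), R ≤ N ∧
    (∀ v ∈ V, v ∈ R → v = 1) ∧ (∃ k : ℕ, ∃ v ∈ V, v ≠ 1 ∧ x ^ k * v⁻¹ ∈ R) ∧
    IsStage (G ⧸ R) (V.map (QuotientGroup.mk' R)) (N.map (QuotientGroup.mk' R))

/-! ### Part IV : base, limit, end -/

/-- FREE : the free group with its word norm -/
def SpecFree : Prop := GeoNorm (fun f : FreeGroup Bool => f.norm) ∧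
  FP (fun f : FreeGroup Bool => f.norm) 0

/-- SEMI : a semidirect product of a finite group by a group with a geodesic norm -/
def SpecSemi : Prop := ∀ (V F : Type) [Group V] [Finite V] [Group F] (φ : F →* MulAut V)
  (ℓ : F → ℕ) (δ : ℕ), GeoNorm ℓ → FP ℓ δ →
  ∃ ℓ' : V ⋊[φ] F → ℕ, GeoNorm ℓ' ∧ FP ℓ' (δ + 4)

/-- MONO : the action is by signed permutations of determinant 1 -/
def SpecMono : Prop := ∀ f : FreeGroup Bool, ∃ ε : ZMod 3 → ZMod 3,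
  (∀ i, ε i = 1 ∨ ε i = -1) ∧ ε 0 * ε 1 * ε 2 = 1 ∧
  ∀ (v : VV) (i : ZMod 3), Multiplicative.toAdd (actA f v) i =
    ε i * Multiplicative.toAdd v (i + Multiplicative.toAdd (chiA f))

/-- BASE (uses SpecFree, SpecSemi, SpecMono) -/
def SpecBase : Prop := IsStage E0 V0 N0

/-- LIM (uses SpecStep) -/
def SpecLim : Prop := ∀ (E₀ : Type) [Group E₀] [Countable E₀] (V N : Subgroup E₀),
  IsStage E₀ V N → ∃ R : Subgroup E₀, R.Normal ∧ R ≤ N ∧ (∀ v ∈ V, v ∈ R → v = 1) ∧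
    ∀ x : E₀, x ∉ N → ∃ k : ℕ, ∃ v ∈ V, v ≠ 1 ∧ x ^ k * v⁻¹ ∈ R

/-- FIN (uses SpecMono; the hypothesis is SpecLim for the base group) : the frozen statement -/
def SpecFin : Prop :=
  (∃ R : Subgroup E0, R.Normal ∧ R ≤ N0 ∧ (∀ v ∈ V0, v ∈ R → v = 1) ∧
    ∀ x : E0, x ∉ N0 → ∃ k : ℕ, ∃ v ∈ V0, v ≠ 1 ∧ x ^ k * v⁻¹ ∈ R) →
  ¬ (∀ (p : ℕ), p.Prime → ∀ (G : Type) [Group G], Group.FG G →
      ∀ H : Subgroup G, IsPGroup p H → H.normalCore = ⊥ →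
        (∀ K : Subgroup G, {x : G | ∃ a ∈ H, ∃ b ∈ K, a * b = x} =
          {x : G | ∃ b ∈ K, ∃ a ∈ H, b * a = x}) →
          ∀ g : G, ∃ k : ℕ,
            g ^ (p ^ k) ∈ Subgroup.centralizer (Subgroup.normalClosure (H : Set G) : Set G))

end MPba2ef4
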