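import Pool.Agent.Lib.MP_ba2ef4_al.Spec

section
/-!
# MP_ba2ef4_al : module AX
-/
set_option autoImplicit false

namespace MPba2ef4

namespace AxM

variable {G : Type} [Group G] {ℓ : G → ℕ}

theorem dd_pow (g : G) (i j : ℕ) : dd ℓ (g ^ i) (g ^ (i + j)) = ℓ (g ^ j) := by
  unfold dd
  congr 1
  rw [pow_add]
  group

/-- the chain lemma for the powers of an element, first step -/
theorem chain1 (h : GeoNorm ℓ) {δ : ℕ} (hF : FP ℓ δ) {g : G} {c : ℕ}
    (h1 : 2 * ℓ g ≤ ℓ (g ^ 2) + c) (h2 : c + 2 * δ + 1 ≤ ℓ g) :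
    ∀ i : ℕ, ℓ (g ^ i) + ℓ g ≤ ℓ (g ^ (i + 1)) + c + δ := by
  intro i
  induction i with
  | zero =>
    rw [pow_zero, h.one, zero_add, zero_add, pow_one]
    omega
  | succ i ih =>
    -- points g^i, g^(i+1), g^(i+2), 1
    have d1 : dd ℓ (g ^ i) (g ^ (i + 1)) = ℓ g := by rw [dd_pow, pow_one]
    have d2 : dd ℓ (g ^ (i + 1)) (g ^ (i + 1 + 1)) = ℓ g := by rw [dd_pow, pow_one]
    have d3 : dd ℓ (g ^ i) (g ^ (i + 1 + 1)) = ℓ (g ^ 2) := by
      rw [show i + 1 + 1 = i + 2 from rfl, dd_pow]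
    have d4 : dd ℓ (g ^ i) 1 = ℓ (g ^ i) := dd_one_right h _
    have d5 : dd ℓ (g ^ (i + 1)) 1 = ℓ (g ^ (i + 1)) := dd_one_right h _
    have d6 : dd ℓ 1 (g ^ (i + 1)) = ℓ (g ^ (i + 1)) := dd_one_left _
    have d7 : dd ℓ 1 (g ^ (i + 1 + 1)) = ℓ (g ^ (i + 1 + 1)) := dd_one_left _
    rcases ultra h hF (g ^ i) (g ^ (i + 1)) (g ^ (i + 1 + 1)) 1 with h3 | h3 <;> omega

theorem chain2 (h : GeoNorm ℓ) {δ : ℕ} (hF : FP ℓ δ) {g : G} {c : ℕ}
    (h1 : 2 * ℓ g ≤ ℓ (g ^ 2) + c) (h2 : c + 2 * δ + 1 ≤ ℓ g) (i j : ℕ) :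
    ℓ (g ^ i) + ℓ (g ^ j) ≤ ℓ (g ^ (i + j)) + c + 2 * δ := by
  have hc := chain1 h hF h1 h2
  rcases j with _ | j
  · simp only [pow_zero, h.one, add_zero]
    omega
  · -- points 1, g^i, g^(i+1), g^(i+j+1)
    have d1 : dd ℓ 1 (g ^ i) = ℓ (g ^ i) := dd_one_left _
    have d2 : dd ℓ (g ^ i) (g ^ (i + 1)) = ℓ g := by rw [dd_pow, pow_one]
    have d3 : dd ℓ 1 (g ^ (i + 1)) = ℓ (g ^ (i + 1)) := dd_one_left _
    have d4 : dd ℓ (g ^ i) (g ^ (i + (j + 1))) = ℓ (g ^ (j + 1)) := dd_pow g i (j + 1)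
    have d5 : dd ℓ 1 (g ^ (i + (j + 1))) = ℓ (g ^ (i + (j + 1))) := dd_one_left _
    have d6 : dd ℓ (g ^ (i + (j + 1))) (g ^ i) = ℓ (g ^ (j + 1)) := by rw [dd_comm h, d4]
    have d7 : dd ℓ (g ^ (i + (j + 1))) (g ^ (i + 1)) = ℓ (g ^ j) := by
      rw [dd_comm h, show i + (j + 1) = (i + 1) + j by omega, dd_pow]
    have e1 := hc i
    have e2 := hc j
    rcases ultra h hF 1 (g ^ i) (g ^ (i + 1)) (g ^ (i + (j + 1))) with h3 | h3 <;> omega

theorem chain_inf (h : GeoNorm ℓ) {δ : ℕ} (hF : FP ℓ δ) {g : G} {c : ℕ}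
    (h1 : 2 * ℓ g ≤ ℓ (g ^ 2) + c) (h2 : c + 2 * δ + 1 ≤ ℓ g) : ¬ IsOfFinOrder g := by
  have hc := chain1 h hF h1 h2
  have hi : ∀ i : ℕ, i ≤ ℓ (g ^ i) := by
    intro i
    induction i with
    | zero => omega
    | succ i ih =>
      have := hc i
      omega
  intro hf
  rw [isOfFinOrder_iff_pow_eq_one] at hf
  obtain ⟨n, hn, hn1⟩ := hf
  have := hi n
  rw [hn1, h.one] at this
  omega

/-- shortest elements of a conjugacy class -/
theorem minimal (h : GeoNorm ℓ) {δ : ℕ} (hF : FP ℓ δ) {g : G}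
    (hmin : ∀ a, ℓ g ≤ ℓ (a⁻¹ * g * a)) (hl : 4 * δ + 4 ≤ ℓ g) :
    2 * ℓ g ≤ ℓ (g ^ 2) + (2 * δ + 1) := by
  by_contra hcon
  push Not at hcon
  -- t = δ + 1
  have d0 : dd ℓ 1 g = ℓ g := dd_one_left _
  obtain ⟨p, hp, hp'⟩ := exists_btw h 1 g (δ + 1) (by omega)
  have hp1 := hp
  unfold Btw at hp1
  obtain ⟨u, hu, hu'⟩ := exists_btw h g p (δ + 1) (by rw [dd_comm h]; omega)
  have hu1 := hu
  unfold Btw at hu1
  have hu2 : Btw ℓ 1 u g := (Btw.trans_right h (hu.symm h) hp).1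
  unfold Btw at hu2
  -- distances
  have c1 := dd_comm h g u
  have c2 := dd_comm h g p
  have c3 := dd_comm h u p
  have c4 := dd_comm h u 1
  have c5 := dd_comm h g 1
  have e1 : dd ℓ (g * p) g = dd ℓ p 1 := by
    have := dd_left (ℓ := ℓ) g p 1
    rwa [mul_one] at this
  have e1' := dd_comm h p 1
  have e1'' := dd_comm h g (g * p)
  have e2 : dd ℓ g (g * g) = ℓ g := dd_mul_right _ _
  have e3 : dd ℓ (g * p) (g * g) = dd ℓ p g := dd_left _ _ _
  have e4 : dd ℓ 1 (g * g) = ℓ (g ^ 2) := by rw [dd_one_left, sq]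
  have e4' := dd_comm h (g * g) g
  have e4'' := dd_comm h (g * g) (g * p)
  have e5 : ℓ g ≤ dd ℓ p (g * p) := by
    have := hmin p
    unfold dd
    rwa [← mul_assoc]
  have t1 := dd_tri h p u (g * p)
  rcases ultra h hF u g (g * g) 1 with h3 | h3 <;>
    rcases ultra h hF u g (g * p) (g * g) with h4 | h4 <;> omega

end AxM

open AxM in
theorem specAx (hQ : SpecQL) : SpecAx := by
  intro G _ ℓ δ h hF
  classical
  choose! C hC using fun (x : G) (hx : ¬ IsOfFinOrder x) => hQ G ℓ δ h hF x hx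
  have hfin := h.fin (4 * δ + 3)
  refine ⟨(4 * δ + 3) + hfin.toFinset.sup C, ?_, ?_⟩
  · intro g hg hmin i j
    by_cases hl : 4 * δ + 4 ≤ ℓ g
    · have h1 := minimal h hF hmin hl
      have h2 := chain2 h hF h1 (by omega) i j
      omega
    · have h1 := hC g hg i j
      have h2 : C g ≤ hfin.toFinset.sup C := by
        refine Finset.le_sup (f := C) (hfin.mem_toFinset.2 ?_)
        change ℓ g ≤ 4 * δ + 3
        omega
      omega
  · intro g hg hmin
    by_contra hl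
    have hl' : 4 * δ + 4 ≤ ℓ g := by omega
    exact chain_inf h hF (minimal h hF hmin hl') (by omega) hg

end MPba2ef4
end

section
/-!
# MP_ba2ef4_al : consequences of the axioms of `Rot` and the module BPOLY
-/
set_option autoImplicit false

namespace MPba2ef4

namespace RotM

variable {G : Type} [Group G] {ℓ : G → ℕ} {E V R : Subgroup G} {pr : G ⧸ E → G → G} {κ L : ℕ}

/-- (P1) -/
theorem lip (hP : Proj ℓ E V pr κ) (A : G ⧸ E) (x y : G) :
    dd ℓ (pr A x) (pr A y) ≤ dd ℓ x y + κ := by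
  by_cases h : κ < dd ℓ (pr A x) (pr A y)
  · have := hP.far A x y h
    omega
  · omega

/-- (P2) -/
theorem fix (hP : Proj ℓ E V pr κ) (A : G ⧸ E) (a : G) (ha : (a : G ⧸ E) = A) : pr A a = a := by
  have h1 := hP.near A a a ha
  rw [dd_self hP.geo] at h1
  exact (dd_eq hP.geo (by omega)).symm

/-- (P4), projection of the first end -/
theorem nearL (hP : Proj ℓ E V pr κ) (A : G ⧸ E) {x y p : G}
    (hD : κ < dd ℓ (pr A x) (pr A y)) (hp : Btw ℓ x p y) :
    ∃ u, (Btw ℓ x u p ∨ Btw ℓ p u y) ∧ dd ℓ (pr A x) u ≤ 2 * κ := by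
  have h1 := hP.far A x y hD
  have t1 := dd_tri hP.geo (pr A x) (pr A y) y
  obtain ⟨u, hu, hu'⟩ := close hP.geo hP.fp (a := pr A x) (c := κ) (by omega) hp
  exact ⟨u, hu, by omega⟩

/-- (P4), projection of the second end -/
theorem nearR (hP : Proj ℓ E V pr κ) (A : G ⧸ E) {x y p : G}
    (hD : κ < dd ℓ (pr A x) (pr A y)) (hp : Btw ℓ x p y) :
    ∃ u, (Btw ℓ x u p ∨ Btw ℓ p u y) ∧ dd ℓ (pr A y) u ≤ 2 * κ := by
  have h1 := hP.far A x y hD
  have t1 := dd_tri hP.geo x (pr A x) (pr A y)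
  obtain ⟨u, hu, hu'⟩ := close hP.geo hP.fp (a := pr A y) (c := κ) (by omega) hp
  exact ⟨u, hu, by omega⟩

/-- (P4) without reference point -/
theorem nearL' (hP : Proj ℓ E V pr κ) (A : G ⧸ E) {x y : G}
    (hD : κ < dd ℓ (pr A x) (pr A y)) :
    ∃ u, Btw ℓ x u y ∧ dd ℓ (pr A x) u ≤ 2 * κ := by
  obtain ⟨u, hu, hu'⟩ := nearL hP A hD (btw_left hP.geo x y)
  rcases hu with hu | hu
  · exact ⟨u, (Btw.trans_left hP.geo hu (btw_left hP.geo x y)).1, hu'⟩
  · exact ⟨u, hu, hu'⟩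

/-- (P4) without reference point -/
theorem nearR' (hP : Proj ℓ E V pr κ) (A : G ⧸ E) {x y : G}
    (hD : κ < dd ℓ (pr A x) (pr A y)) :
    ∃ u, Btw ℓ x u y ∧ dd ℓ (pr A y) u ≤ 2 * κ := by
  obtain ⟨u, hu, hu'⟩ := nearR hP A hD (btw_left hP.geo x y)
  rcases hu with hu | hu
  · exact ⟨u, (Btw.trans_left hP.geo hu (btw_left hP.geo x y)).1, hu'⟩
  · exact ⟨u, hu, hu'⟩

/-- (P5) -/
theorem red (hR : Rot ℓ E V R pr κ L) (A : G ⧸ E) {x y : G} (hr : Red ℓ R x y) :
    2 * dd ℓ (pr A x) (pr A y) ≤ L + 2 * κ := by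
  have hP := hR.proj
  have hb := hR.big
  have hk := hP.pos
  by_cases hD : κ < dd ℓ (pr A x) (pr A y)
  · have h1 := hP.far A x y hD
    obtain ⟨m, hm, -, h2⟩ := hR.rot A (pr A x) (pr A y) (hP.mem A x) (hP.mem A y)
    have h3 := hr m hm
    have t1 := dd_tri hP.geo x (pr A x) (m * y)
    have t2 := dd_tri hP.geo (pr A x) (m * pr A y) (m * y)
    rw [dd_left] at t2
    omega
  · omega

end RotM

open RotM

theorem specB : SpecB := by
  intro G _ ℓ E V R pr κ L hR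
  have hP := hR.proj
  have hg := hP.geo
  have hF := hP.fp
  have hb := hR.big
  have hk := hP.pos
  suffices H : ∀ n : ℕ, ∀ p₀ u w p r : G, dd ℓ p₀ (r * p₀) < n → r ∈ R → Red ℓ R p₀ u →
      Red ℓ R w (r * p₀) → 4 * dd ℓ u w ≤ 3 * L →
      Btw ℓ p₀ p u → ∃ ρ ∈ R, ∃ q, Btw ℓ w q (r * p₀) ∧ dd ℓ p (ρ * q) ≤ 2 * L by
    intro p₀ u w p r
    exact H _ p₀ u w p r (Nat.lt_succ_self _)
  intro n
  induction n with
  | zero => intro p₀ u w p r h; omega
  | succ n ih =>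
  intro p₀ u w p r hn hr hred1 hred2 hgap hp
  -- the induction hypothesis in the form used below
  have IH : ∀ (u' w' m : G), m ∈ R → dd ℓ p₀ (m * (r * p₀)) < dd ℓ p₀ (r * p₀) →
      Red ℓ R p₀ u' → Btw ℓ w w' (r * p₀) → 4 * dd ℓ u' (m * w') ≤ 3 * L → Btw ℓ p₀ p u' →
      ∃ ρ ∈ R, ∃ q, Btw ℓ w q (r * p₀) ∧ dd ℓ p (ρ * q) ≤ 2 * L := by
    intro u' w' m hm hlt hred' hw' hgap' hp'
    have e : m * r * p₀ = m * (r * p₀) := mul_assoc _ _ _
    obtain ⟨ρ, hρ, q, hq, hq'⟩ := ih p₀ u' (m * w') p (m * r) (by rw [e]; omega)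
      (R.mul_mem hm hr) hred'
      (by rw [e]; exact Red.left hR.Rn m (Red.sub hg hred2 hw').2) hgap' hp'
    rw [e] at hq
    have hq2 : Btw ℓ w' (m⁻¹ * q) (r * p₀) := by
      apply Btw.of_left (g := m)
      rwa [mul_inv_cancel_left]
    refine ⟨ρ * m, R.mul_mem hρ hm, m⁻¹ * q, (Btw.trans_right hg hq2 hw').1, ?_⟩
    have e2 : ρ * m * (m⁻¹ * q) = ρ * q := by group
    rwa [e2]
  by_cases hr1 : r = 1
  · subst hr1
    rw [one_mul] at *
    obtain ⟨q, hq, hpq⟩ := FP.thin hg hF p₀ u w p hp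
    rcases hq with hq | hq
    · exact ⟨1, R.one_mem, q, Btw.symm hg hq, by rw [one_mul]; omega⟩
    · refine ⟨1, R.one_mem, w, btw_left hg w p₀, ?_⟩
      rw [one_mul]
      have t1 := dd_tri hg p q w
      unfold Btw at hq
      have c1 := dd_comm hg w q
      have c2 := dd_comm hg w u
      omega
  obtain ⟨A, hA⟩ := hR.green r hr hr1 p₀
  have D1r := red hR A hred1
  have D3r := red hR A hred2
  have far0 := hP.far A p₀ (r * p₀) (by omega)
  have tri1 := dd_tri hg (pr A p₀) (pr A u) (pr A w)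
  have tri2 := dd_tri hg (pr A p₀) (pr A w) (pr A (r * p₀))
  have tri3 := dd_tri hg (pr A u) (pr A w) (pr A (r * p₀))
  have tri4 := dd_tri hg (pr A p₀) (pr A u) (pr A (r * p₀))
  have tri5 := dd_tri hg (pr A u) (pr A p₀) (pr A (r * p₀))
  have cm1 := dd_comm hg (pr A u) (pr A p₀)
  have D2c : dd ℓ (pr A u) (pr A w) ≤ κ ∨
      dd ℓ u (pr A u) + dd ℓ (pr A u) (pr A w) + dd ℓ (pr A w) w ≤ dd ℓ u w + κ := by
    by_cases h : κ < dd ℓ (pr A u) (pr A w)
    · exact Or.inr (hP.far A u w h)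
    · exact Or.inl (by omega)
  by_cases hD1 : dd ℓ (pr A p₀) (pr A u) ≤ κ
  · -- case (i)
    rcases D2c with h | hD2
    · omega
    obtain ⟨w₀, hw₀, hw₀'⟩ := nearR' hP A (x := w) (y := r * p₀) (by omega)
    obtain ⟨m, hm, -, hm'⟩ := hR.rot A (pr A u) (pr A (r * p₀)) (hP.mem _ _) (hP.mem _ _)
    have t1 := dd_tri hg u (pr A u) (m * w₀)
    have t2 := dd_tri hg (pr A u) (m * pr A (r * p₀)) (m * w₀)
    have t3 := dd_tri hg p₀ (pr A p₀) (m * (r * p₀))
    have t4 := dd_tri hg (pr A p₀) (pr A u) (m * (r * p₀))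
    have t5 := dd_tri hg (pr A u) (m * pr A (r * p₀)) (m * (r * p₀))
    rw [dd_left] at t2 t5
    refine IH u w₀ m hm (by omega) hred1 hw₀ ?_ hp
    omega
  -- case (ii)
  obtain ⟨u₀, hu₀, hu₀'⟩ := nearL hP A (x := p₀) (y := u) (by omega) hp
  rcases hu₀ with hu₀ | hu₀
  · -- (ii.1)
    have hu1 := (Btw.trans_left hg hu₀ hp).2
    obtain ⟨p', hp', hpp'⟩ := FP.thin hg hF u₀ u (pr A u) p hu1
    rcases hp' with hp' | hp'
    · -- [u0,p',a1]
      have t1 := dd_tri hg p p' (pr A u)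
      have t2 := dd_tri hg u₀ (pr A p₀) (pr A u)
      have c1 := dd_comm hg u₀ (pr A p₀)
      have hp2 := hp'
      unfold Btw at hp2
      by_cases hD2 : κ < dd ℓ (pr A u) (pr A w)
      · have h2 := hP.far A u w hD2
        refine ⟨1, R.one_mem, w, btw_left hg _ _, ?_⟩
        rw [one_mul]
        have t3 := dd_tri hg p (pr A u) w
        have t4 := dd_tri hg (pr A u) (pr A w) w
        omega
      · obtain ⟨q, hq, hq'⟩ := nearL' hP A (x := w) (y := r * p₀) (by omega)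
        refine ⟨1, R.one_mem, q, hq, ?_⟩
        rw [one_mul]
        have t3 := dd_tri hg p (pr A u) q
        have t4 := dd_tri hg (pr A u) (pr A w) q
        omega
    · -- [a1,p',u]
      have hp2 := hp'
      unfold Btw at hp2
      by_cases hD2 : κ < dd ℓ (pr A u) (pr A w)
      · have h2 := hP.far A u w hD2
        refine ⟨1, R.one_mem, w, btw_left hg _ _, ?_⟩
        rw [one_mul]
        have t3 := dd_tri hg p p' w
        have t4 := dd_tri hg p' u w
        have c1 := dd_comm hg u (pr A u)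
        omega
      · obtain ⟨q₁, hq₁, hq₁'⟩ := nearL' hP A (x := w) (y := r * p₀) (by omega)
        obtain ⟨p'', hp'', hpp''⟩ := FP.thin hg hF (pr A u) u w p' hp'
        have t0 := dd_tri hg p p' p''
        rcases hp'' with hp'' | hp''
        · -- [a1,p'',w]
          have t1 := dd_tri hg (pr A u) (pr A w) q₁
          have t2 := dd_tri hg q₁ (pr A u) p''
          have t3 := dd_tri hg (pr A u) q₁ w
          have c1 := dd_comm hg q₁ (pr A u)
          have hp3 := hp''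
          unfold Btw at hp3
          obtain ⟨q, hq, hq'⟩ := close hg hF (x := q₁) (a := p'') (y := w) (p := w) (c := 6 * κ)
            (by omega) (btw_right hg q₁ w)
          have hq2 : Btw ℓ q₁ q w := by
            rcases hq with hq | hq
            · exact hq
            · exact (Btw.trans_right hg hq (btw_right hg q₁ w)).1
          refine ⟨1, R.one_mem, q, (Btw.trans_left hg (Btw.symm hg hq2) hq₁).1, ?_⟩
          rw [one_mul]
          have t4 := dd_tri hg p p'' q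
          omega
        · -- [w,p'',u]
          have hp3 := hp''
          unfold Btw at hp3
          refine ⟨1, R.one_mem, w, btw_left hg _ _, ?_⟩
          rw [one_mul]
          have t4 := dd_tri hg p p'' w
          have c1 := dd_comm hg w p''
          have c2 := dd_comm hg w u
          omega
  · -- (ii.2)
    have hu1 := Btw.trans_right hg hu₀ hp
    have hredu := (Red.sub hg hred1 hu1.1).1
    by_cases hD3 : κ < dd ℓ (pr A w) (pr A (r * p₀))
    · -- (A)
      obtain ⟨w₀, hw₀, hw₀'⟩ := nearR' hP A (x := w) (y := r * p₀) hD3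
      obtain ⟨m, hm, -, hm'⟩ := hR.rot' A (pr A p₀) (pr A (r * p₀)) (hP.mem _ _) (hP.mem _ _)
      have t1 := dd_tri hg u₀ (pr A p₀) (m * w₀)
      have t2 := dd_tri hg (pr A p₀) (m * pr A (r * p₀)) (m * w₀)
      have t3 := dd_tri hg p₀ (pr A p₀) (m * (r * p₀))
      have t5 := dd_tri hg (pr A p₀) (m * pr A (r * p₀)) (m * (r * p₀))
      have c1 := dd_comm hg u₀ (pr A p₀)
      rw [dd_left] at t2 t5
      refine IH u₀ w₀ m hm (by omega) hredu hw₀ (by omega) hu1.2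
    · -- (B)
      rcases D2c with h | hD2
      · omega
      obtain ⟨m, hm, -, hm'⟩ := hR.rot A (pr A p₀) (pr A w) (hP.mem _ _) (hP.mem _ _)
      have t1 := dd_tri hg u₀ (pr A p₀) (m * w)
      have t2 := dd_tri hg (pr A p₀) (m * pr A w) (m * w)
      have t3 := dd_tri hg p₀ (pr A p₀) (m * (r * p₀))
      have t5 := dd_tri hg (pr A p₀) (m * pr A w) (m * (r * p₀))
      have t6 := dd_tri hg (pr A w) (pr A (r * p₀)) (r * p₀)
      have c1 := dd_comm hg u₀ (pr A p₀)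
      rw [dd_left] at t2 t5
      refine IH u₀ w m hm (by omega) hredu (btw_left hg _ _) (by omega) hu1.2

end MPba2ef4
end

section
/-!
# MP_ba2ef4_al : BAR, the elements of `E` modulo the relation
-/
set_option autoImplicit false

namespace MPba2ef4

namespace Bar

variable {G : Type} [Group G] {V N : Subgroup G}

/-- the ninth power of `v a` is `a^9` if `a^3` commutes with `V` -/
theorem pow_nine (hV : V.Normal) (hcomm : ∀ a ∈ V, ∀ b ∈ V, a * b = b * a)
    (hexp : ∀ a ∈ V, a ^ 3 = 1) {v a : G} (hv : v ∈ V) (ha : ∀ u ∈ V, a ^ 3 * u = u * a ^ 3) :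
    (v * a) ^ 9 = a ^ 9 := by
  have h1 : a * v * a⁻¹ ∈ V := hV.conj_mem v hv a
  have h2 : a * (a * v * a⁻¹) * a⁻¹ ∈ V := hV.conj_mem _ h1 a
  set p := a * v * a⁻¹ with hp
  set q := a * p * a⁻¹ with hq
  have hq3 : a * q * a⁻¹ = v := by
    have e : a * q * a⁻¹ = a ^ 3 * v * (a ^ 3)⁻¹ := by
      rw [hq, hp]
      simp only [pow_succ, pow_zero, one_mul, mul_inv_rev, mul_assoc]
    rw [e, ha v hv, mul_assoc, mul_inv_cancel, mul_one]
  set u := v * p * q with hu
  have huV : u ∈ V := V.mul_mem (V.mul_mem hv h1) h2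
  have hcub : (v * a) ^ 3 = u * a ^ 3 := by
    rw [hu, hq, hp]
    simp only [pow_succ, pow_zero, one_mul, mul_assoc, inv_mul_cancel_left]
  have hau : a * u * a⁻¹ = u := by
    have e : a * u * a⁻¹ = p * q * v := by
      have : a * u * a⁻¹ = (a * v * a⁻¹) * (a * p * a⁻¹) * (a * q * a⁻¹) := by
        rw [hu]; group
      rw [this, hq3]
    rw [e, hu, mul_assoc v p q, hcomm v hv (p * q) (V.mul_mem h1 h2)]
  have hcom : Commute u (a ^ 3) := (ha u huV).symm
  have h9 : (v * a) ^ 9 = ((v * a) ^ 3) ^ 3 := by rw [← pow_mul]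
  rw [h9, hcub, hcom.mul_pow, hexp u huV, one_mul, ← pow_mul]

theorem cube_mem (hN : N.Normal) (hi : N.index = 3) (x : G) : x ^ 3 ∈ N := by
  have := Subgroup.pow_index_mem N x
  rwa [hi] at this

end Bar

/-- BAR -/
theorem specBar : SpecBar := by
  intro G _ V N E y hS hE c v₀ hc hv₀ hv₁ hy
  obtain ⟨c', rfl⟩ : ∃ c', c = c' + 2 := ⟨c - 2, by omega⟩
  have hy3 : y ^ 3 ∈ N := Bar.cube_mem hS.Nnormal hS.Nindex y
  have hpow : (3:ℕ) ^ (c' + 2) = 9 * 3 ^ c' := by rw [pow_add]; ring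
  have hpow' : (3:ℕ) ^ (c' + 2) = 3 * (3 * 3 ^ c') := by rw [pow_add]; ring
  constructor
  · apply N.mul_mem
    · rw [hpow', pow_mul]
      exact N.pow_mem hy3 _
    · exact N.inv_mem (hS.VN hv₀)
  · intro e he
    obtain ⟨v, hv, j, rfl⟩ := hE.form e he
    refine ⟨j, ?_, ?_⟩
    · have hcj : ∀ u ∈ V, (y ^ j) ^ 3 * u = u * (y ^ j) ^ 3 := by
        intro u hu
        have h1 : Commute (y ^ 3) u := hS.act3 y hE.ynotN u hu
        have h2 : (y ^ j) ^ 3 = (y ^ 3) ^ j := by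
          rw [← zpow_natCast, ← zpow_natCast y 3, ← zpow_mul, ← zpow_mul, mul_comm]
        rw [h2]
        exact h1.zpow_left j
      have h9 := Bar.pow_nine hS.Vnormal hS.Vcomm hS.Vexp hv hcj
      have h1 : (v * y ^ j) ^ (3 ^ (c' + 2)) = (y ^ (3 ^ (c' + 2))) ^ j := by
        rw [hpow, pow_mul, h9]
        rw [← zpow_natCast, ← zpow_natCast (y ^ j), ← zpow_natCast y, ← zpow_mul, ← zpow_mul,
          ← zpow_mul]
        congr 1
        push_cast
        ring
      have hcm : Commute (y ^ (3 ^ (c' + 2))) v₀⁻¹ := by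
        have : Commute y v₀ := hy
        exact (this.pow_left _).inv_right
      have h2 : (v * y ^ j) ^ (3 ^ (c' + 2)) * (v₀ ^ j)⁻¹ = (y ^ (3 ^ (c' + 2)) * v₀⁻¹) ^ j := by
        rw [h1, hcm.mul_zpow, inv_zpow]
      rw [h2]
      exact Subgroup.zpow_mem _ (Subgroup.subset_normalClosure (Set.mem_singleton _)) j
    · intro heN h1
      apply heN
      have h3 : v₀ ^ 3 = 1 := hS.Vexp v₀ hv₀
      have hord : orderOf v₀ = 3 := by
        have := orderOf_dvd_of_pow_eq_one h3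
        rcases (Nat.dvd_prime Nat.prime_three).1 this with h | h
        · exact absurd (orderOf_eq_one_iff.1 h) hv₁
        · exact h
      have h4 : (3 : ℤ) ∣ j := by
        have := orderOf_dvd_iff_zpow_eq_one.2 h1
        rw [hord] at this
        exact_mod_cast this
      obtain ⟨i, rfl⟩ := h4
      apply N.mul_mem (hS.VN hv)
      rw [zpow_mul]
      apply N.zpow_mem
      exact_mod_cast hy3

end MPba2ef4
end

section
/-!
# MP_ba2ef4_al : module FREE, the free group with its word norm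
-/
set_option autoImplicit false

namespace MPba2ef4

namespace FreeM

open FreeGroup

/-- length of the longest common initial segment of two words -/
def lcp : List (Bool × Bool) → List (Bool × Bool) → ℕ
  | a :: l, b :: m => if a = b then lcp l m + 1 else 0
  | [], _ => 0
  | _ :: _, [] => 0

theorem lcp_nil_right (l : List (Bool × Bool)) : lcp l [] = 0 := by
  cases l <;> simp [lcp]

theorem lcp_ultra : ∀ x y z : List (Bool × Bool), min (lcp x y) (lcp y z) ≤ lcp x z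
  | [], y, z => by simp [lcp]
  | a :: x, [], z => by simp [lcp]
  | a :: x, b :: y, [] => by simp [lcp]
  | a :: x, b :: y, c :: z => by
    have ih := lcp_ultra x y z
    by_cases h1 : a = b
    · by_cases h2 : b = c
      · have h3 : a = c := h1.trans h2
        simp only [lcp, h1, h2, if_true]
        omega
      · simp [lcp, h2]
    · simp [lcp, h1]

theorem norm_mk {L : List (Bool × Bool)} (h : IsReduced L) :
    (FreeGroup.mk L).norm = L.length := by
  unfold FreeGroup.norm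
  rw [toWord_mk, h.reduce_eq]

theorem norm_lcp : ∀ X Y : List (Bool × Bool), IsReduced X → IsReduced Y →
    ((FreeGroup.mk X)⁻¹ * FreeGroup.mk Y).norm + 2 * lcp X Y = X.length + Y.length
  | [], Y, _, hY => by
    have : (FreeGroup.mk ([] : List (Bool × Bool)))⁻¹ * FreeGroup.mk Y = FreeGroup.mk Y := by
      rw [← one_eq_mk]; simp
    rw [this, norm_mk hY]
    simp [lcp]
  | a :: X, [], hX, _ => by
    have : (FreeGroup.mk (a :: X))⁻¹ * FreeGroup.mk ([] : List (Bool × Bool)) =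
        (FreeGroup.mk (a :: X))⁻¹ := by
      rw [← one_eq_mk]; simp
    rw [this, norm_inv_eq, norm_mk hX]
    simp [lcp]
  | a :: X, b :: Y, hX, hY => by
    have hX' : IsReduced X := List.IsChain.tail hX
    have hY' : IsReduced Y := List.IsChain.tail hY
    by_cases hab : a = b
    · subst hab
      have ih := norm_lcp X Y hX' hY'
      have e : (FreeGroup.mk (a :: X))⁻¹ * FreeGroup.mk (a :: Y) =
          (FreeGroup.mk X)⁻¹ * FreeGroup.mk Y := by
        have e1 : ∀ Z : List (Bool × Bool), FreeGroup.mk (a :: Z) =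
            FreeGroup.mk [a] * FreeGroup.mk Z := by
          intro Z
          rw [mul_mk]
          rfl
        rw [e1 X, e1 Y]
        group
      rw [e]
      simp only [lcp, if_true, List.length_cons]
      omega
    · have hr : IsReduced (invRev (a :: X) ++ (b :: Y)) := by
        unfold FreeGroup.IsReduced
        rw [List.isChain_append]
        refine ⟨?_, hY, ?_⟩
        · have : IsReduced (FreeGroup.mk (a :: X))⁻¹.toWord := isReduced_toWord
          rw [toWord_inv, toWord_mk, hX.reduce_eq] at this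
          exact this
        · intro u hu v hv
          have e2 : invRev (a :: X) = invRev X ++ [(a.1, !a.2)] := by
            simp [invRev]
          rw [e2] at hu
          simp only [List.getLast?_append, List.getLast?_singleton, Option.some_or,
            Option.mem_def, Option.some.injEq] at hu
          simp only [List.head?_cons, Option.mem_def, Option.some.injEq] at hv
          subst hu
          subst hv
          intro h1
          simp only at h1 ⊢
          have h2 : a.2 ≠ b.2 := fun h => hab (Prod.ext h1 h)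
          revert h2
          generalize a.2 = p
          generalize b.2 = q
          revert p q
          decide
      have e : (FreeGroup.mk (a :: X))⁻¹ * FreeGroup.mk (b :: Y) =
          FreeGroup.mk (invRev (a :: X) ++ (b :: Y)) := by
        rw [inv_mk, mul_mk]
      rw [e, norm_mk hr]
      simp only [lcp, hab, if_false, List.length_append, invRev_length]
      omega

end FreeM

open FreeM in
theorem specFree : SpecFree := by
  constructor
  · refine ⟨by simp, ?_, ?_, ?_, ?_, ?_⟩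
    · intro g hg
      exact FreeGroup.norm_eq_zero.mp hg
    · intro g
      exact FreeGroup.norm_inv_eq
    · intro g h
      exact FreeGroup.norm_mul_le g h
    · intro n
      have h1 := List.finite_length_le (Bool × Bool) n
      refine Set.Finite.of_finite_image (f := FreeGroup.toWord) (h1.subset ?_)
        (FreeGroup.toWord_injective.injOn)
      rintro _ ⟨g, hg, rfl⟩
      exact hg
    · intro g k hk
      have hr : FreeGroup.IsReduced g.toWord := FreeGroup.isReduced_toWord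
      have hk' : k ≤ g.toWord.length := hk
      refine ⟨FreeGroup.mk (g.toWord.take k), FreeGroup.mk (g.toWord.drop k), ?_, ?_, ?_⟩
      · rw [FreeGroup.mul_mk, List.take_append_drop, FreeGroup.mk_toWord]
      · rw [norm_mk (List.IsChain.take hr k), List.length_take]
        omega
      · rw [norm_mk (List.IsChain.drop hr k), List.length_drop]
        change g.toWord.length - k + k = g.toWord.length
        omega
  · intro x y z w
    have key : ∀ a b c : FreeGroup Bool,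
        a.norm + (b⁻¹ * c).norm ≤ b.norm + (a⁻¹ * c).norm ∨
        a.norm + (b⁻¹ * c).norm ≤ c.norm + (a⁻¹ * b).norm := by
      intro a b c
      have h1 := norm_lcp _ _ (FreeGroup.isReduced_toWord (x := b))
        (FreeGroup.isReduced_toWord (x := c))
      have h2 := norm_lcp _ _ (FreeGroup.isReduced_toWord (x := a))
        (FreeGroup.isReduced_toWord (x := c))
      have h3 := norm_lcp _ _ (FreeGroup.isReduced_toWord (x := a))
        (FreeGroup.isReduced_toWord (x := b))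
      have h3' := norm_lcp _ _ (FreeGroup.isReduced_toWord (x := b))
        (FreeGroup.isReduced_toWord (x := a))
      rw [FreeGroup.mk_toWord, FreeGroup.mk_toWord] at h1 h2 h3 h3'
      have hn : ∀ g : FreeGroup Bool, g.toWord.length = g.norm := fun _ => rfl
      rw [hn, hn] at h1 h2 h3 h3'
      have h4 := lcp_ultra b.toWord a.toWord c.toWord
      have h5 : (b⁻¹ * a).norm = (a⁻¹ * b).norm := by
        rw [← FreeGroup.norm_inv_eq (x := b⁻¹ * a)]
        congr 1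
        group
      rw [h5] at h3'
      omega
    have e := key (x⁻¹ * y) (x⁻¹ * z) (x⁻¹ * w)
    have e1 : (x⁻¹ * z)⁻¹ * (x⁻¹ * w) = z⁻¹ * w := by group
    have e2 : (x⁻¹ * y)⁻¹ * (x⁻¹ * w) = y⁻¹ * w := by group
    have e3 : (x⁻¹ * y)⁻¹ * (x⁻¹ * z) = y⁻¹ * z := by group
    rw [e1, e2, e3] at e
    simp only [dd]
    rcases e with e | e
    · left; omega
    · right; omega

end MPba2ef4
end

section
/-!
# MP_ba2ef4_al : module MONO, the action is by signed permutations of determinant 1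
-/
set_option autoImplicit false

namespace MPba2ef4

namespace MonoM

/-- the property of the module, for one element of the free group -/
def P (f : FreeGroup Bool) : Prop := ∃ ε : ZMod 3 → ZMod 3,
  (∀ i, ε i = 1 ∨ ε i = -1) ∧ ε 0 * ε 1 * ε 2 = 1 ∧
  ∀ (v : VV) (i : ZMod 3), Multiplicative.toAdd (actA f v) i =
    ε i * Multiplicative.toAdd v (i + Multiplicative.toAdd (chiA f))

theorem prod_shift (ε : ZMod 3 → ZMod 3) (h : ε 0 * ε 1 * ε 2 = 1) (c : ZMod 3) :
    ε (0 + c) * ε (1 + c) * ε (2 + c) = 1 := by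
  have hc : c = 0 ∨ c = 1 ∨ c = 2 := by revert c; decide
  rcases hc with rfl | rfl | rfl
  · simpa using h
  · have e1 : (0 : ZMod 3) + 1 = 1 := by decide
    have e2 : (1 : ZMod 3) + 1 = 2 := by decide
    have e3 : (2 : ZMod 3) + 1 = 0 := by decide
    rw [e1, e2, e3]; linear_combination h
  · have e1 : (0 : ZMod 3) + 2 = 2 := by decide
    have e2 : (1 : ZMod 3) + 2 = 0 := by decide
    have e3 : (2 : ZMod 3) + 2 = 1 := by decide
    rw [e1, e2, e3]; linear_combination h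

theorem P_one : P 1 := by
  refine ⟨fun _ => 1, fun _ => Or.inl rfl, by simp, ?_⟩
  intro v i
  simp

theorem pm_mul {a b : ZMod 3} (ha : a = 1 ∨ a = -1) (hb : b = 1 ∨ b = -1) :
    a * b = 1 ∨ a * b = -1 := by
  rcases ha with rfl | rfl <;> rcases hb with rfl | rfl <;> decide

theorem P_mul {f g : FreeGroup Bool} (hf : P f) (hg : P g) : P (f * g) := by
  obtain ⟨ε, h1, h2, h3⟩ := hf
  obtain ⟨η, k1, k2, k3⟩ := hg
  refine ⟨fun i => ε i * η (i + Multiplicative.toAdd (chiA f)), ?_, ?_, ?_⟩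
  · intro i
    exact pm_mul (h1 _) (k1 _)
  · have := prod_shift η k2 (Multiplicative.toAdd (chiA f))
    calc _ = (ε 0 * ε 1 * ε 2) * (η (0 + Multiplicative.toAdd (chiA f)) *
        η (1 + Multiplicative.toAdd (chiA f)) * η (2 + Multiplicative.toAdd (chiA f))) := by ring
      _ = 1 := by rw [this, h2, one_mul]
  · intro v i
    rw [map_mul, MulAut.mul_apply, h3, k3, map_mul, toAdd_mul, add_assoc, mul_assoc]

theorem P_inv {f : FreeGroup Bool} (hf : P f) : P f⁻¹ := by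
  obtain ⟨ε, h1, h2, h3⟩ := hf
  refine ⟨fun i => ε (i - Multiplicative.toAdd (chiA f)), ?_, ?_, ?_⟩
  · intro i
    exact h1 _
  · have := prod_shift ε h2 (- Multiplicative.toAdd (chiA f))
    simpa [sub_eq_add_neg] using this
  · intro v i
    have hs : ∀ j, ε j * ε j = 1 := by
      intro j
      rcases h1 j with h | h <;> rw [h] <;> decide
    have e := h3 (actA f⁻¹ v) (i - Multiplicative.toAdd (chiA f))
    have e1 : actA f (actA f⁻¹ v) = v := by
      rw [← MulAut.mul_apply, ← map_mul, mul_inv_cancel, map_one, MulAut.one_apply]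
    rw [e1, sub_add_cancel] at e
    rw [map_inv chiA, toAdd_inv, ← sub_eq_add_neg, e, ← mul_assoc, hs, one_mul]

theorem P_of (b : Bool) : P (FreeGroup.of b) := by
  cases b
  · refine ⟨sg, ?_, ?_, ?_⟩
    · decide
    · decide
    · intro v i
      have e1 : chiA (FreeGroup.of false) = 1 := by simp [chiA]
      have e2 : actA (FreeGroup.of false) = genA false := by simp [actA]
      rw [e1, e2, toAdd_one, add_zero]
      rfl
  · refine ⟨fun _ => 1, fun _ => Or.inl rfl, by simp, ?_⟩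
    intro v i
    have e1 : chiA (FreeGroup.of true) = Multiplicative.ofAdd (1 : ZMod 3) := by simp [chiA]
    have e2 : actA (FreeGroup.of true) = genA true := by simp [actA]
    rw [e1, e2, one_mul, toAdd_ofAdd]
    rfl

end MonoM

open MonoM in
theorem specMono : SpecMono := by
  intro f
  show P f
  refine FreeGroup.induction_on f P_one P_of (fun b hb => P_inv hb) (fun x y hx hy => P_mul hx hy)

end MPba2ef4
end

section
/-!
# MP_ba2ef4_al : module SEMI, a norm on a semidirect product of a finite group by a group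
with a geodesic norm
-/
set_option autoImplicit false

namespace MPba2ef4

namespace SemiM

variable {V F : Type} [Group V] [Group F] {φ : F →* MulAut V}

open Classical in
/-- the norm of the semidirect product -/
noncomputable def nn (ℓ : F → ℕ) (g : V ⋊[φ] F) : ℕ :=
  if g.right ≠ 1 then ℓ g.right else if g = 1 then 0 else 1

theorem nn_of_ne {ℓ : F → ℕ} {g : V ⋊[φ] F} (h : g.right ≠ 1) : nn ℓ g = ℓ g.right := by
  unfold nn
  rw [if_pos h]

theorem nn_one (ℓ : F → ℕ) : nn ℓ (1 : V ⋊[φ] F) = 0 := by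
  simp [nn]

theorem nn_of_eq {ℓ : F → ℕ} {g : V ⋊[φ] F} (h : g.right = 1) (h' : g ≠ 1) : nn ℓ g = 1 := by
  simp [nn, h, h']

theorem nn_le {ℓ : F → ℕ} (hℓ : GeoNorm ℓ) (g : V ⋊[φ] F) :
    ℓ g.right ≤ nn ℓ g ∧ nn ℓ g ≤ ℓ g.right + 1 := by
  by_cases h : g.right = 1
  · by_cases h' : g = 1
    · subst h'
      rw [nn_one]
      simp [hℓ.one]
    · rw [nn_of_eq h h', h, hℓ.one]
      omega
  · rw [nn_of_ne h]
    omega

theorem nn_zero {ℓ : F → ℕ} (hℓ : GeoNorm ℓ) {g : V ⋊[φ] F} (h : nn ℓ g = 0) : g = 1 := by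
  by_contra hg
  by_cases h1 : g.right = 1
  · rw [nn_of_eq h1 hg] at h
    omega
  · rw [nn_of_ne h1] at h
    exact h1 (hℓ.eq_one _ h)

theorem geo {ℓ : F → ℕ} (hℓ : GeoNorm ℓ) [Finite V] :
    GeoNorm (fun g : V ⋊[φ] F => nn ℓ g) := by
  refine ⟨nn_one ℓ, fun g h => nn_zero hℓ h, ?_, ?_, ?_, ?_⟩
  · intro g
    show nn ℓ g⁻¹ = nn ℓ g
    by_cases h1 : g.right = 1
    · by_cases h2 : g = 1
      · subst h2; simp
      · rw [nn_of_eq h1 h2, nn_of_eq (by simp [h1]) (by simpa using h2)]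
    · rw [nn_of_ne h1, nn_of_ne (by simpa using h1), SemidirectProduct.inv_right, hℓ.inv]
  · intro g h
    show nn ℓ (g * h) ≤ nn ℓ g + nn ℓ h
    have a1 := (nn_le hℓ g).1
    have a2 := (nn_le hℓ h).1
    by_cases h1 : (g * h).right = 1
    · by_cases h2 : g * h = 1
      · rw [h2, nn_one]; omega
      · rw [nn_of_eq h1 h2]
        by_contra hc
        have h3 : nn ℓ g = 0 := by omega
        have h4 : nn ℓ h = 0 := by omega
        apply h2
        rw [nn_zero hℓ h3, nn_zero hℓ h4, one_mul]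
    · rw [nn_of_ne h1, SemidirectProduct.mul_right]
      have := hℓ.mul g.right h.right
      omega
  · intro n
    have hf := hℓ.fin n
    have : ((Set.univ : Set V) ×ˢ {f : F | ℓ f ≤ n}).Finite := Set.finite_univ.prod hf
    refine Set.Finite.of_finite_image (f := fun g : V ⋊[φ] F => (g.left, g.right))
      (this.subset ?_) ?_
    · rintro _ ⟨g, hg, rfl⟩
      refine ⟨Set.mem_univ _, ?_⟩
      have := (nn_le hℓ g).1
      simp only [Set.mem_ofPred_eq] at hg ⊢
      omega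
    · intro a _ b _ hab
      simp only [Prod.mk.injEq] at hab
      exact SemidirectProduct.ext hab.1 hab.2
  · intro g k hk
    by_cases h0 : k = 0
    · subst h0
      exact ⟨1, g, by simp, nn_one ℓ, by simp⟩
    by_cases h1 : k = nn ℓ g
    · refine ⟨g, 1, by simp, h1.symm, ?_⟩
      show nn ℓ 1 + k = nn ℓ g
      rw [nn_one, h1]; simp
    have hk' : k ≤ nn ℓ g := hk
    have h2 : g.right ≠ 1 := by
      intro h
      have := (nn_le hℓ g).2
      rw [h, hℓ.one] at this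
      omega
    have h3 : nn ℓ g = ℓ g.right := nn_of_ne h2
    obtain ⟨a, b, hab, ha, hb⟩ := hℓ.split g.right k (by omega)
    have ha1 : a ≠ 1 := by
      rintro rfl
      rw [hℓ.one] at ha
      omega
    have hb1 : b ≠ 1 := by
      rintro rfl
      rw [hℓ.one] at hb
      omega
    refine ⟨⟨g.left, a⟩, ⟨1, b⟩, ?_, ?_, ?_⟩
    · ext
      · simp
      · simpa using hab
    · show nn ℓ _ = k
      rw [nn_of_ne (by simpa using ha1)]
      exact ha
    · show nn ℓ _ + k = nn ℓ g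
      rw [nn_of_ne (by simpa using hb1), h3]
      exact hb

end SemiM

open SemiM in
theorem specSemi : SpecSemi := by
  intro V F _ _ _ φ ℓ δ hℓ hF
  refine ⟨fun g => nn ℓ g, geo hℓ, ?_⟩
  intro x y z w
  have key : ∀ a b : V ⋊[φ] F, dd ℓ a.right b.right ≤ dd (fun g : V ⋊[φ] F => nn ℓ g) a b ∧
      dd (fun g : V ⋊[φ] F => nn ℓ g) a b ≤ dd ℓ a.right b.right + 1 := by
    intro a b
    have := nn_le hℓ (a⁻¹ * b)
    simpa [dd] using this
  have h1 := key x y
  have h2 := key z w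
  have h3 := key x z
  have h4 := key y w
  have h5 := key x w
  have h6 := key y z
  rcases hF x.right y.right z.right w.right with h | h
  · left; omega
  · right; omega

end MPba2ef4
end

section
/-!
# MP_ba2ef4_al : module BASE, the base group is a stage
-/
set_option autoImplicit false

namespace MPba2ef4

namespace BaseM

theorem mem_V0 {x : E0} : x ∈ V0 ↔ x.right = 1 := by
  unfold V0
  rw [SemidirectProduct.range_inl_eq_ker_rightHom, MonoidHom.mem_ker]
  rfl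

theorem mem_N0 {x : E0} : x ∈ N0 ↔ chiA x.right = 1 := by
  unfold N0
  rw [MonoidHom.mem_ker]
  rfl

theorem V0_le_N0 : V0 ≤ N0 := by
  intro x hx
  rw [mem_N0, mem_V0.mp hx, map_one]

/-- conjugation of `V0` -/
theorem conj_inl (x : E0) (v : VV) :
    x * SemidirectProduct.inl v = SemidirectProduct.inl (actA x.right v) * x := by
  ext
  · simp [mul_comm]
  · simp

theorem VV_pow (v : VV) : v ^ 3 = 1 := by
  apply Multiplicative.toAdd.injective
  rw [toAdd_pow, toAdd_one]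
  funext i
  simp only [Pi.smul_apply, Pi.zero_apply]
  generalize Multiplicative.toAdd v i = t
  revert t
  decide

theorem chi_surj : Function.Surjective
    (chiA.comp (SemidirectProduct.rightHom : E0 →* FreeGroup Bool)) := by
  intro c
  obtain ⟨k, hk⟩ : ∃ k : ℕ, Multiplicative.ofAdd ((k : ℕ) : ZMod 3) = c := by
    refine ⟨(Multiplicative.toAdd c).val, ?_⟩
    rw [ZMod.natCast_zmod_val]
    rfl
  refine ⟨SemidirectProduct.inr (FreeGroup.of true ^ k), ?_⟩
  rw [MonoidHom.comp_apply, SemidirectProduct.rightHom_inr, map_pow]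
  have e1 : chiA (FreeGroup.of true) = Multiplicative.ofAdd (1 : ZMod 3) := by simp [chiA]
  rw [e1, ← hk, ← ofAdd_nsmul, nsmul_eq_mul, mul_one]

theorem index : N0.index = 3 := by
  unfold N0
  rw [Subgroup.index_ker, MonoidHom.range_eq_top.mpr chi_surj, Subgroup.card_top]
  simp

theorem torsion {t : E0} (ht : IsOfFinOrder t) : t ∈ V0 := by
  rw [mem_V0]
  have h1 : IsOfFinOrder t.right :=
    MonoidHom.isOfFinOrder (SemidirectProduct.rightHom : E0 →* FreeGroup Bool) ht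
  rw [isOfFinOrder_iff_pow_eq_one] at h1
  obtain ⟨n, hn, h⟩ := h1
  have hinj := pow_left_injective (M := FreeGroup Bool) (n := n) (by omega)
  apply hinj
  simpa using h

theorem cube {ε : ZMod 3 → ZMod 3} (h : ε 0 * ε 1 * ε 2 = 1) {c : ZMod 3} (hc : c ≠ 0)
    (i : ZMod 3) : ε i * ε (i + c) * ε (i + c + c) = 1 := by
  have hc : c = 1 ∨ c = 2 := by revert c; decide
  have hi : i = 0 ∨ i = 1 ∨ i = 2 := by revert i; decide
  rcases hc with rfl | rfl
  · rcases hi with rfl | rfl | rfl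
    · have e1 : (0 : ZMod 3) + 1 = 1 := by decide
      have e2 : (0 : ZMod 3) + 1 + 1 = 2 := by decide
      rw [e2, e1]; linear_combination h
    · have e1 : (1 : ZMod 3) + 1 = 2 := by decide
      have e2 : (1 : ZMod 3) + 1 + 1 = 0 := by decide
      rw [e2, e1]; linear_combination h
    · have e1 : (2 : ZMod 3) + 1 = 0 := by decide
      have e2 : (2 : ZMod 3) + 1 + 1 = 1 := by decide
      rw [e2, e1]; linear_combination h
  · rcases hi with rfl | rfl | rfl
    · have e1 : (0 : ZMod 3) + 2 = 2 := by decide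
      have e2 : (0 : ZMod 3) + 2 + 2 = 1 := by decide
      rw [e2, e1]; linear_combination h
    · have e1 : (1 : ZMod 3) + 2 = 0 := by decide
      have e2 : (1 : ZMod 3) + 2 + 2 = 2 := by decide
      rw [e2, e1]; linear_combination h
    · have e1 : (2 : ZMod 3) + 2 = 1 := by decide
      have e2 : (2 : ZMod 3) + 2 + 2 = 0 := by decide
      rw [e2, e1]; linear_combination h

theorem three (i c : ZMod 3) : i + c + c + c = i := by
  revert i c
  decide

theorem act_cube {f : FreeGroup Bool} (hf : chiA f ≠ 1) (v : VV) :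
    actA f (actA f (actA f v)) = v := by
  obtain ⟨ε, h1, h2, h3⟩ := specMono f
  apply Multiplicative.toAdd.injective
  funext i
  rw [h3, h3, h3]
  have hc : Multiplicative.toAdd (chiA f) ≠ 0 := by
    intro h
    apply hf
    apply Multiplicative.toAdd.injective
    rw [h, toAdd_one]
  generalize Multiplicative.toAdd (chiA f) = c at *
  rw [three, ← mul_assoc, ← mul_assoc, cube h2 hc, one_mul]

theorem cc1 (c : ZMod 3) (hc : c ≠ 0) : c + c ≠ 0 ∧ c + c ≠ c := by
  revert c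
  decide

theorem cc2 (c i : ZMod 3) (hc : c ≠ 0) : i = 0 ∨ i = c ∨ i = c + c := by
  revert i c
  decide

theorem exists_fix {f : FreeGroup Bool} (hf : chiA f ≠ 1) :
    ∃ v : VV, v ≠ 1 ∧ actA f v = v := by
  obtain ⟨ε, h1, h2, h3⟩ := specMono f
  have hc : Multiplicative.toAdd (chiA f) ≠ 0 := by
    intro h
    apply hf
    apply Multiplicative.toAdd.injective
    rw [h, toAdd_one]
  have hs : ∀ j, ε j * ε j = 1 := by
    intro j
    rcases h1 j with h | h <;> rw [h] <;> decide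
  generalize Multiplicative.toAdd (chiA f) = c at *
  have hcc : c + c ≠ 0 := (cc1 c hc).1
  have hcc' : c + c ≠ c := (cc1 c hc).2
  have h3c : c + c + c = 0 := by
    have := three 0 c
    rwa [zero_add] at this
  refine ⟨Multiplicative.ofAdd (fun i => if i = 0 then 1 else if i = c then ε 0 else
    ε (c + c)), ?_, ?_⟩
  · intro h
    have h' := congrArg (fun w : VV => Multiplicative.toAdd w 0) h
    simp at h'
  · apply Multiplicative.toAdd.injective
    funext i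
    rw [h3, toAdd_ofAdd]
    have hi : i = 0 ∨ i = c ∨ i = c + c := cc2 c i hc
    have hq := cube h2 hc 0
    rw [zero_add] at hq
    rcases hi with rfl | rfl | rfl
    · simp only [zero_add, if_true, if_neg hc]
      exact hs 0
    · simp only [if_neg hcc, if_neg hcc', if_neg hc, if_true]
      have := hs 0
      linear_combination ε 0 * hq - ε i * ε (i + i) * this
    · simp only [if_neg hcc, if_neg hcc', h3c, if_true]
      ring

end BaseM

open BaseM in
theorem specBase : SpecBase where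
  Vnormal := by
    unfold V0
    rw [SemidirectProduct.range_inl_eq_ker_rightHom]
    infer_instance
  Vfin := by
    have : Finite VV := inferInstanceAs (Finite (ZMod 3 → ZMod 3))
    have h := Set.finite_range (SemidirectProduct.inl : VV → E0)
    exact h
  Vcomm := by
    rintro _ ⟨a, rfl⟩ _ ⟨b, rfl⟩
    rw [← map_mul, ← map_mul, mul_comm]
  Vexp := by
    rintro _ ⟨a, rfl⟩
    rw [← map_pow, VV_pow, map_one]
  Nnormal := by
    unfold N0
    infer_instance
  VN := V0_le_N0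
  Nindex := index
  act3 := by
    rintro x hx _ ⟨v, rfl⟩
    rw [mem_N0] at hx
    have e : x ^ 3 * SemidirectProduct.inl v = x * (x * (x * SemidirectProduct.inl v)) := by
      rw [pow_succ, pow_two]
      simp only [mul_assoc]
    have e' : SemidirectProduct.inl v * x ^ 3 = SemidirectProduct.inl v * x * x * x := by
      rw [pow_succ, pow_two]
      simp only [mul_assoc]
    have e1 : x * (SemidirectProduct.inl (actA x.right v) * x) =
        SemidirectProduct.inl (actA x.right (actA x.right v)) * x * x := by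
      rw [← mul_assoc, conj_inl]
    have e2 : x * (SemidirectProduct.inl (actA x.right (actA x.right v)) * x * x) =
        SemidirectProduct.inl v * x * x * x := by
      rw [← mul_assoc, ← mul_assoc, conj_inl, act_cube hx]
    rw [e, e', conj_inl, e1, e2]
  fixv := by
    intro x hx
    rw [mem_N0] at hx
    obtain ⟨v, hv, h⟩ := exists_fix hx
    refine ⟨SemidirectProduct.inl v, ⟨v, rfl⟩, ?_, ?_⟩
    · intro h'
      apply hv
      apply SemidirectProduct.inl_injective (φ := actA)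
      rw [h', map_one]
    · rw [conj_inl, h]
  hyp := by
    have : Finite VV := inferInstanceAs (Finite (ZMod 3 → ZMod 3))
    obtain ⟨ℓ', h1, h2⟩ := specSemi VV (FreeGroup Bool) actA _ 0 specFree.1 specFree.2
    exact ⟨ℓ', _, h1, h2⟩
  tor3 := by
    intro g hg
    obtain ⟨v, rfl⟩ := torsion hg
    refine ⟨1, ?_⟩
    rw [pow_one, ← map_pow, VV_pow, map_one]
  cen := by
    intro t z ht htV _
    exact absurd (torsion ht) htV
  good := by
    intro t ht htN
    exact absurd (V0_le_N0 (torsion ht)) htN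

end MPba2ef4
end

section
/-!
# MP_ba2ef4_al : module OV

Two different cosets of `E` can follow the same geodesic only along a short stretch.
-/
set_option autoImplicit false

namespace MPba2ef4

namespace OvM

variable {G : Type} [Group G] {ℓ : G → ℕ} {E V : Subgroup G} {pr : G ⧸ E → G → G} {κ : ℕ}

/-- (P1) projections are coarsely Lipschitz -/
theorem lip (hP : Proj ℓ E V pr κ) (A : G ⧸ E) (x y : G) :
    dd ℓ (pr A x) (pr A y) ≤ dd ℓ x y + κ := by
  by_cases h : κ < dd ℓ (pr A x) (pr A y)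
  · have := hP.far A x y h
    omega
  · omega

/-- (P2) the projection of a point of `A` -/
theorem pr_self (hP : Proj ℓ E V pr κ) {A : G ⧸ E} {a : G} (ha : (a : G ⧸ E) = A) :
    pr A a = a := by
  have h1 := hP.near A a a ha
  rw [dd_self hP.geo] at h1
  have h2 : dd ℓ a (pr A a) = 0 := by omega
  exact (dd_eq hP.geo h2).symm

/-- a point of `A` near a point of intermediate position -/
theorem near_mid (hP : Proj ℓ E V pr κ) {A : G ⧸ E} {x P a a' z : G} {c : ℕ}
    (hA : (a : G ⧸ E) = A) (hA' : (a' : G ⧸ E) = A)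
    (ha : dd ℓ x a + dd ℓ a P ≤ dd ℓ x P + c) (ha' : dd ℓ x a' + dd ℓ a' P ≤ dd ℓ x P + c)
    (hz : dd ℓ x z + dd ℓ z P ≤ dd ℓ x P + 2 * c + κ)
    (h1 : dd ℓ x a ≤ dd ℓ x z) (h2 : dd ℓ x z ≤ dd ℓ x a') :
    ∃ b : G, (b : G ⧸ E) = A ∧ dd ℓ z b ≤ 3 * c + 4 * κ := by
  obtain ⟨w, hw, hzw⟩ := midd hP.geo hP.fp ha ha' hz h1 h2
  obtain ⟨b, hb, hwb⟩ := hP.qc A a a' w hA hA' hw
  refine ⟨b, hb, ?_⟩
  have := dd_tri hP.geo z w b
  omega

end OvM

open OvM in
theorem specOV : SpecOV := by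
  intro G _ ℓ E V pr κ hP A B hAB x P a a' b b' ha ha' hb hb' h1 h2 h3 h4
  have hg := hP.geo
  have hκ := hP.pos
  by_cases hlt : max (dd ℓ x a) (dd ℓ x b) ≤ min (min (dd ℓ x a') (dd ℓ x b')) (dd ℓ x P)
  · -- two points on `[x, P]`
    obtain ⟨z₁, hz₁, e₁⟩ := exists_btw hg x P (max (dd ℓ x a) (dd ℓ x b)) (by omega)
    obtain ⟨z₂, hz₂, e₂⟩ := exists_btw hg x P
      (min (min (dd ℓ x a') (dd ℓ x b')) (dd ℓ x P)) (by omega)
    unfold Btw at hz₁ hz₂
    have key : ∀ z : G, dd ℓ x z + dd ℓ z P = dd ℓ x P →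
        max (dd ℓ x a) (dd ℓ x b) ≤ dd ℓ x z →
        dd ℓ x z ≤ min (min (dd ℓ x a') (dd ℓ x b')) (dd ℓ x P) →
        ∃ q : G, (q : G ⧸ E) = B ∧ dd ℓ z (pr A q) ≤ 30 * κ := by
      intro z hz hz1 hz2
      obtain ⟨a₁, ha₁, hza⟩ := near_mid hP (z := z) (c := 2 * κ) ha ha' h1 h2 (by omega)
        (by omega) (by omega)
      obtain ⟨b₁, hb₁, hzb⟩ := near_mid hP (z := z) (c := 2 * κ) hb hb' h3 h4 (by omega)
        (by omega) (by omega)
      refine ⟨b₁, hb₁, ?_⟩
      have t1 := hP.near A b₁ a₁ ha₁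
      have t2 := dd_tri hg b₁ z a₁
      have t3 := dd_comm hg b₁ z
      have t4 := dd_tri hg z b₁ (pr A b₁)
      omega
    obtain ⟨q₁, hq₁, hd₁⟩ := key z₁ hz₁ (by omega) (by omega)
    obtain ⟨q₂, hq₂, hd₂⟩ := key z₂ hz₂ (by omega) (by omega)
    have hb := hP.bdd A B hAB q₁ q₂ hq₁ hq₂
    have t1 := dd_tri hg x z₁ z₂
    have t2 := dd_tri hg z₁ (pr A q₁) z₂
    have t3 := dd_tri hg (pr A q₁) (pr A q₂) z₂
    have t4 := dd_comm hg (pr A q₂) z₂
    omega
  · omega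

end MPba2ef4
end

section
/-!
# MP_ba2ef4_al : module CENA

Centralizers in the quotient of the elements which come from torsion elements of `G`.
-/
set_option autoImplicit false

namespace MPba2ef4

namespace CenM

variable {G : Type} [Group G] {ℓ : G → ℕ} {E V R : Subgroup G} {pr : G ⧸ E → G → G} {κ L : ℕ}

/-- (P5) the projections of a shortest pair -/
theorem red (hR : Rot ℓ E V R pr κ L) (A : G ⧸ E) {x y : G} (h : Red ℓ R x y) :
    2 * dd ℓ (pr A x) (pr A y) ≤ L + 2 * κ := by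
  have hP := hR.proj
  have hg := hP.geo
  have hb := hR.big
  have hκ := hP.pos
  by_cases hD : κ < dd ℓ (pr A x) (pr A y)
  · obtain ⟨m, hm, hmA, hd⟩ := hR.rot A (pr A x) (pr A y) (hP.mem _ _) (hP.mem _ _)
    have h1 := h m hm
    have h2 := hP.far A x y hD
    have t1 := dd_tri hg x (pr A x) (m * y)
    have t2 := dd_tri hg (pr A x) (m * pr A y) (m * y)
    rw [dd_left] at t2
    omega
  · omega

/-- an element of finite order which fixes a coset is in `V` -/
theorem fix_tor (hP : Proj ℓ E V pr κ) {B : G ⧸ E} {γ : G} (h : γ • B = B)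
    (hγ : IsOfFinOrder γ) : γ ∈ V := by
  obtain ⟨b, rfl⟩ := QuotientGroup.mk_surjective B
  have h1 : (((γ * b : G)) : G ⧸ E) = (b : G ⧸ E) := h
  have h2 : b⁻¹ * (γ * b) ∈ E := QuotientGroup.eq.mp h1.symm
  have h3 : IsOfFinOrder (b⁻¹ * (γ * b)) := by
    have : b⁻¹ * (γ * b) = MulAut.conj b⁻¹ γ := by
      simp [mul_assoc]
    rw [this]
    exact (MulAut.conj b⁻¹).toMonoidHom.isOfFinOrder hγ
  have h4 := hP.torV _ h2 h3
  have h5 := hP.Vn.conj_mem _ h4 b
  have e : b * (b⁻¹ * (γ * b)) * b⁻¹ = γ := by group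
  rwa [e] at h5

end CenM

open OvM CenM in
theorem specCenA (hC : SpecCore) : SpecCenA := by
  intro G _ ℓ E V R pr κ L hR z t ht htor hred hr
  have hP := hR.proj
  have hg := hP.geo
  have hb := hR.big
  have hκ := hP.pos
  by_cases hr1 : z * t * z⁻¹ * t⁻¹ = 1
  · right
    have h1 : z * t * z⁻¹ = t := mul_inv_eq_one.mp hr1
    exact mul_inv_eq_iff_eq_mul.mp h1
  left
  obtain ⟨B, hB⟩ := hR.green _ hr hr1 1
  rw [mul_one] at hB
  set r : G := z * t * z⁻¹ * t⁻¹ with hrdef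
  set γ : G := z * t * z⁻¹ with hγdef
  have eγz : γ * z = z * t := by rw [hγdef]; group
  have eγr : γ = r * t := by rw [hrdef, inv_mul_cancel_right]
  -- the distances
  have g1 : dd ℓ z (γ * z) ≤ κ := by rw [eγz, dd_mul_right]; exact ht
  have g2 : dd ℓ γ r ≤ κ := by
    rw [dd_comm hg, eγr, dd_mul_right]
    exact ht
  have l1 := lip hP B z (γ * z)
  have l2 := lip hP B γ r
  have r1 := red hR B hred
  have e1 : pr B γ = γ * pr (γ⁻¹ • B) 1 := by
    have := hP.equiv γ (γ⁻¹ • B) 1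
    rw [smul_inv_smul, mul_one] at this
    exact this
  have e2 : pr B (γ * z) = γ * pr (γ⁻¹ • B) z := by
    have := hP.equiv γ (γ⁻¹ • B) z
    rw [smul_inv_smul] at this
    exact this
  have r2 : 2 * dd ℓ (pr B γ) (pr B (γ * z)) ≤ L + 2 * κ := by
    rw [e1, e2, dd_left]
    exact red hR (γ⁻¹ • B) hred
  have t1 := dd_tri hg (pr B 1) (pr B z) (pr B r)
  have t2 := dd_tri hg (pr B z) (pr B (γ * z)) (pr B r)
  have t3 := dd_tri hg (pr B (γ * z)) (pr B γ) (pr B r)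
  have c1 := dd_comm hg (pr B (γ * z)) (pr B γ)
  have hfix := hC G ℓ E V pr κ hP B z γ κ g1 (by omega) (by omega)
  have hγtor : IsOfFinOrder γ := by
    have : γ = MulAut.conj z t := by simp [hγdef, MulAut.conj_apply]
    rw [this]
    exact (MulAut.conj z).toMonoidHom.isOfFinOrder htor
  have hγV := fix_tor hP hfix hγtor
  have h5 := hP.Vn.conj_mem _ hγV z⁻¹
  have e : z⁻¹ * γ * z⁻¹⁻¹ = t := by rw [hγdef]; group
  rwa [e] at h5

end MPba2ef4
end

section
/-!
# MP_ba2ef4_al : module CENB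

Elements which conjugate, modulo the relation, an element of `E` into `E`.
-/
set_option autoImplicit false

namespace MPba2ef4

namespace CenM

variable {G : Type} [Group G] {ℓ : G → ℕ} {E V R : Subgroup G} {pr : G ⧸ E → G → G} {κ L : ℕ}

open OvM in
/-- if `z` is nearest to `1` in `zE`, then `z` is nearly the projection of every point
`pr B' z` such that `B'` is seen from `1, z` -/
theorem seen (hP : Proj ℓ E V pr κ) {z : G} (hz : ∀ e ∈ E, ℓ z ≤ ℓ (z * e)) (B' : G ⧸ E)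
    (h : κ < dd ℓ (pr B' 1) (pr B' z)) : dd ℓ (pr (z : G ⧸ E) (pr B' z)) z ≤ 2 * κ := by
  have hg := hP.geo
  have hfar := hP.far B' 1 z h
  have hself : pr (z : G ⧸ E) z = z := pr_self hP rfl
  have hmem := hP.mem (z : G ⧸ E) (pr B' z)
  have h1 : z⁻¹ * pr (z : G ⧸ E) (pr B' z) ∈ E := QuotientGroup.eq.mp hmem.symm
  have h2 := hz _ h1
  rw [mul_inv_cancel_left] at h2
  have e1 : dd ℓ 1 (pr (z : G ⧸ E) (pr B' z)) = ℓ (pr (z : G ⧸ E) (pr B' z)) := dd_one_left _
  have e2 : dd ℓ 1 z = ℓ z := dd_one_left _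
  have t1 := dd_tri hg 1 (pr B' z) (pr (z : G ⧸ E) (pr B' z))
  have t2 := dd_tri hg 1 (pr B' 1) (pr B' z)
  by_cases hc : κ < dd ℓ (pr (z : G ⧸ E) (pr B' z)) (pr (z : G ⧸ E) z)
  · have hf := hP.far (z : G ⧸ E) (pr B' z) z hc
    rw [hself] at hf hc
    rw [dd_self hg] at hf
    omega
  · rw [hself] at hc
    omega

open OvM in
/-- the main case of CENB -/
theorem cenB_main (hC : SpecCore) (hR : Rot ℓ E V R pr κ L) {z t₁ t₂ : G}
    (hmin : ∀ e ∈ E, ∀ e' ∈ E, ∀ r ∈ R, ℓ z ≤ ℓ (e * z * e' * r))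
    (h1 : t₁ ∈ E) (h2 : t₂ ∈ E) (hl1 : 2 * ℓ t₁ ≤ L + κ) (hl2 : 2 * ℓ t₂ ≤ L + κ)
    (hr : z * t₁ * z⁻¹ * t₂⁻¹ ∈ R) (hz : ∀ e ∈ E, e⁻¹ * z ∉ R) : t₁ ∈ V := by
  have hP := hR.proj
  have hg := hP.geo
  have hb := hR.big
  have hκ := hP.pos
  have hRn := hR.Rn
  -- consequences of minimality
  have hminr : ∀ e ∈ E, ℓ z ≤ ℓ (z * e) := by
    intro e he
    have := hmin 1 E.one_mem e he 1 R.one_mem
    rwa [one_mul, mul_one] at this
  have hminl : ∀ e ∈ E, ∀ r ∈ R, ℓ z ≤ ℓ (e * r * z) := by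
    intro e he r hr'
    have := hmin e he 1 E.one_mem (z⁻¹ * r * z) (by
      have := hRn.conj_mem r hr' z⁻¹
      rwa [inv_inv] at this)
    have e1 : e * z * 1 * (z⁻¹ * r * z) = e * r * z := by group
    rwa [e1] at this
  have hred : Red ℓ R 1 z := by
    intro r hr'
    have := hminl 1 E.one_mem r hr'
    rw [one_mul] at this
    rw [dd_one_left, dd_one_left]
    exact this
  have hzE : z ∉ E := by
    intro h
    exact hz z h (by rw [inv_mul_cancel]; exact R.one_mem)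
  set r : G := z * t₁ * z⁻¹ * t₂⁻¹ with hrdef
  set γ : G := z * t₁ * z⁻¹ with hγdef
  have eγz : γ * z = z * t₁ := by rw [hγdef, inv_mul_cancel_right]
  have eγr : γ = r * t₂ := by rw [hrdef, inv_mul_cancel_right]
  have hγC : γ • (z : G ⧸ E) = (z : G ⧸ E) := by
    have : ((γ * z : G) : G ⧸ E) = (z : G ⧸ E) := by
      rw [eγz]
      exact QuotientGroup.mk_mul_of_mem z h1
    exact this
  have fromV : γ ∈ V → t₁ ∈ V := by
    intro h
    have h5 := hP.Vn.conj_mem _ h z⁻¹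
    have e : z⁻¹ * γ * z⁻¹⁻¹ = t₁ := by rw [hγdef]; group
    rwa [e] at h5
  have hCE : ((1 : G) : G ⧸ E) ≠ (z : G ⧸ E) := by
    intro h
    have := QuotientGroup.eq.mp h
    rw [inv_one, one_mul] at this
    exact hzE this
  by_cases hr1 : r = 1
  · apply fromV
    apply hP.mal _ _ hCE γ _ hγC
    have : ((γ * 1 : G) : G ⧸ E) = ((1 : G) : G ⧸ E) := by
      rw [mul_one, eγr, hr1, one_mul]
      exact (QuotientGroup.eq.mpr (by simpa using h2)).symm
    exact this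
  obtain ⟨B, hB⟩ := hR.green _ hr hr1 1
  rw [mul_one] at hB
  -- translated projections
  have tr : ∀ x : G, pr B (γ * x) = γ * pr (γ⁻¹ • B) x := by
    intro x
    have := hP.equiv γ (γ⁻¹ • B) x
    rw [smul_inv_smul] at this
    exact this
  have tr1 : pr B γ = γ * pr (γ⁻¹ • B) 1 := by
    have := tr 1
    rwa [mul_one] at this
  have r1 := red hR B hred
  have r3' := red hR (γ⁻¹ • B) hred
  have e3 : dd ℓ (pr B (γ * z)) (pr B γ) = dd ℓ (pr (γ⁻¹ • B) z) (pr (γ⁻¹ • B) 1) := by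
    rw [tr, tr1, dd_left]
  have e3' : dd ℓ (pr B γ) (pr B (γ * z)) = dd ℓ (pr (γ⁻¹ • B) 1) (pr (γ⁻¹ • B) z) := by
    rw [tr, tr1, dd_left]
  have c3 := dd_comm hg (pr (γ⁻¹ • B) z) (pr (γ⁻¹ • B) 1)
  have s1 := dd_tri hg (pr B 1) (pr B z) (pr B r)
  have s2 := dd_tri hg (pr B z) (pr B (γ * z)) (pr B r)
  have s3 := dd_tri hg (pr B (γ * z)) (pr B γ) (pr B r)
  have hγz : ((γ * z : G) : G ⧸ E) = (z : G ⧸ E) := hγC
  have hγr : ((γ : G) : G ⧸ E) = (r : G ⧸ E) := by
    rw [eγr]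
    exact QuotientGroup.mk_mul_of_mem r h2
  have hzr : (z : G ⧸ E) ≠ (r : G ⧸ E) := by
    intro h
    have h3 : r⁻¹ * z ∈ E := QuotientGroup.eq.mp h.symm
    apply hz _ h3
    have h4 := hRn.conj_mem r hr z⁻¹
    have e : (r⁻¹ * z)⁻¹ * z = z⁻¹ * r * z⁻¹⁻¹ := by group
    rwa [e]
  have n1 : dd ℓ 1 z = ℓ z := dd_one_left _
  by_cases hBz : B = (z : G ⧸ E)
  · -- the case `B = zE`
    exfalso
    subst hBz
    have p1 : pr (z : G ⧸ E) z = z := pr_self hP rfl
    have p2 : pr (z : G ⧸ E) (γ * z) = γ * z := pr_self hP hγz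
    have hgi : γ⁻¹ • (z : G ⧸ E) = (z : G ⧸ E) := by
      rw [inv_smul_eq_iff]; exact hγC.symm
    rw [hgi] at e3
    have d1 : dd ℓ (pr (z : G ⧸ E) 1) (pr (z : G ⧸ E) z) ≤ κ := by
      by_contra hcon
      have hf := hP.far (z : G ⧸ E) 1 z (by omega)
      have h3 : z⁻¹ * pr (z : G ⧸ E) 1 ∈ E :=
        QuotientGroup.eq.mp (hP.mem (z : G ⧸ E) 1).symm
      have h4 := hminr _ h3
      rw [mul_inv_cancel_left] at h4
      have h5 : dd ℓ 1 (pr (z : G ⧸ E) 1) = ℓ (pr (z : G ⧸ E) 1) := dd_one_left _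
      omega
    have d2 : dd ℓ (pr (z : G ⧸ E) z) (pr (z : G ⧸ E) (γ * z)) = ℓ t₁ := by
      rw [p1, p2, eγz, dd_mul_right]
    have d4 := hP.bdd (z : G ⧸ E) (r : G ⧸ E) hzr γ r hγr rfl
    have c1 := dd_comm hg (pr (z : G ⧸ E) z) (pr (z : G ⧸ E) 1)
    omega
  have d2 := hP.bdd B (z : G ⧸ E) hBz z (γ * z) rfl hγz
  by_cases hBr : B = (r : G ⧸ E)
  · -- the case `B = rE`
    exfalso
    subst hBr
    have hgi : γ⁻¹ • (r : G ⧸ E) = ((1 : G) : G ⧸ E) := by
      rw [inv_smul_eq_iff, ← hγr]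
      have : ((γ : G) : G ⧸ E) = ((γ * 1 : G) : G ⧸ E) := by rw [mul_one]
      exact this
    rw [hgi] at e3
    have p1 : pr ((1 : G) : G ⧸ E) 1 = 1 := pr_self hP rfl
    have d3 : dd ℓ (pr ((1 : G) : G ⧸ E) 1) (pr ((1 : G) : G ⧸ E) z) ≤ κ := by
      by_contra hcon
      have hf := hP.far ((1 : G) : G ⧸ E) 1 z (by omega)
      have h3 : (1 : G)⁻¹ * pr ((1 : G) : G ⧸ E) z ∈ E :=
        QuotientGroup.eq.mp (hP.mem ((1 : G) : G ⧸ E) z).symm
      rw [inv_one, one_mul] at h3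
      have h4 := hminl _ (E.inv_mem h3) 1 R.one_mem
      rw [mul_one] at h4
      have h5 : dd ℓ (pr ((1 : G) : G ⧸ E) z) z = ℓ ((pr ((1 : G) : G ⧸ E) z)⁻¹ * z) := rfl
      omega
    have d1 : dd ℓ (pr (r : G ⧸ E) 1) (pr (r : G ⧸ E) z) ≤ κ := by
      by_contra hcon
      have hf := hP.far (r : G ⧸ E) 1 z (by omega)
      have h3 : r⁻¹ * pr (r : G ⧸ E) z ∈ E :=
        QuotientGroup.eq.mp (hP.mem (r : G ⧸ E) z).symm
      have h4 := hminl _ (E.inv_mem h3) r⁻¹ (R.inv_mem hr)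
      have e : (r⁻¹ * pr (r : G ⧸ E) z)⁻¹ * r⁻¹ * z = (pr (r : G ⧸ E) z)⁻¹ * z := by group
      rw [e] at h4
      have h5 : dd ℓ (pr (r : G ⧸ E) z) z = ℓ ((pr (r : G ⧸ E) z)⁻¹ * z) := rfl
      omega
    have d4 : dd ℓ (pr (r : G ⧸ E) γ) (pr (r : G ⧸ E) r) = ℓ t₂ := by
      rw [pr_self hP hγr, pr_self hP (rfl : ((r : G) : G ⧸ E) = (r : G ⧸ E)), dd_comm hg, eγr,
        dd_mul_right]
    have c1 := dd_comm hg (pr ((1 : G) : G ⧸ E) z) (pr ((1 : G) : G ⧸ E) 1)
    omega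
  have d4 := hP.bdd B (r : G ⧸ E) hBr γ r hγr rfl
  -- the main case
  have q1 := seen hP hminr B (by omega)
  have q2 := seen hP hminr (γ⁻¹ • B) (by omega)
  have q3 : pr (z : G ⧸ E) (pr B (γ * z)) = γ * pr (z : G ⧸ E) (pr (γ⁻¹ • B) z) := by
    rw [tr]
    have := hP.equiv γ (z : G ⧸ E) (pr (γ⁻¹ • B) z)
    rwa [hγC] at this
  have q4 : dd ℓ (pr (z : G ⧸ E) (pr B (γ * z))) (γ * z) ≤ 2 * κ := by
    rw [q3, dd_left]; exact q2
  have q5 := hP.bdd (z : G ⧸ E) B (fun h => hBz h.symm) (pr B z) (pr B (γ * z)) (hP.mem _ _)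
    (hP.mem _ _)
  have s4 := dd_tri hg z (pr (z : G ⧸ E) (pr B z)) (γ * z)
  have s5 := dd_tri hg (pr (z : G ⧸ E) (pr B z)) (pr (z : G ⧸ E) (pr B (γ * z))) (γ * z)
  have c4 := dd_comm hg z (pr (z : G ⧸ E) (pr B z))
  have c5 := dd_comm hg (pr B (γ * z)) (pr B γ)
  have hfix := hC G ℓ E V pr κ hP B z γ (5 * κ) (by omega) (by omega) (by omega)
  exact fromV (hP.mal _ _ hBz γ hfix hγC)

end CenM

open OvM CenM in
theorem specCenB (hC : SpecCore) : SpecCenB := by
  intro G _ ℓ E V R pr κ L hR z t₁ t₂ h1 h2 hr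
  have hP := hR.proj
  have hg := hP.geo
  have hRn := hR.Rn
  by_cases hzE : ∃ e ∈ E, e⁻¹ * z ∈ R
  · exact Or.inr hzE
  left
  -- the shortest element of the double coset
  classical
  have hne : ∃ n : ℕ, ∃ e ∈ E, ∃ e' ∈ E, ∃ r ∈ R, ℓ (e * z * e' * r) = n :=
    ⟨_, 1, E.one_mem, 1, E.one_mem, 1, R.one_mem, rfl⟩
  obtain ⟨e, he, e', he', r₀, hr₀, hlen⟩ := Nat.find_spec hne
  have hminn : ∀ f ∈ E, ∀ f' ∈ E, ∀ s ∈ R, ℓ (e * z * e' * r₀) ≤ ℓ (f * z * f' * s) := by
    intro f hf f' hf' s hs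
    rw [hlen]
    exact Nat.find_min' hne ⟨f, hf, f', hf', s, hs, rfl⟩
  -- shortening of the elements of `E`
  have short : ∀ t ∈ E, ∃ m ∈ R, m * t ∈ E ∧ 2 * ℓ (m * t) ≤ L + κ := by
    intro t ht
    have ht' : ((t : G) : G ⧸ E) = ((1 : G) : G ⧸ E) :=
      (QuotientGroup.eq.mpr (by simpa using ht)).symm
    obtain ⟨m, hm, hmA, hd⟩ := hR.rot' ((1 : G) : G ⧸ E) 1 t rfl ht'
    refine ⟨m, hm, ?_, ?_⟩
    · have h3 : ((m * 1 : G) : G ⧸ E) = ((1 : G) : G ⧸ E) := hmA
      have h4 := QuotientGroup.eq.mp h3.symm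
      rw [inv_one, one_mul, mul_one] at h4
      exact E.mul_mem h4 ht
    · rwa [dd_one_left] at hd
  obtain ⟨m₁, hm₁, hE₁, hL₁⟩ := short (e'⁻¹ * t₁ * e')
    (E.mul_mem (E.mul_mem (E.inv_mem he') h1) he')
  obtain ⟨m₂, hm₂, hE₂, hL₂⟩ := short (e * t₂ * e⁻¹)
    (E.mul_mem (E.mul_mem he h2) (E.inv_mem he))
  -- work in the quotient
  have : R.Normal := hRn
  have q0 : ∀ s ∈ R, ((s : G) : G ⧸ R) = 1 := fun s hs => (QuotientGroup.eq_one_iff s).mpr hs
  have hrel : (z : G ⧸ R) * (t₁ : G ⧸ R) * (z : G ⧸ R)⁻¹ * (t₂ : G ⧸ R)⁻¹ = 1 := by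
    have := q0 _ hr
    simpa using this
  have hrel' : (z : G ⧸ R) * (t₁ : G ⧸ R) * (z : G ⧸ R)⁻¹ = (t₂ : G ⧸ R) :=
    mul_inv_eq_one.mp hrel
  have hmain : m₁ * (e'⁻¹ * t₁ * e') ∈ V := by
    refine cenB_main hC hR (z := e * z * e' * r₀) ?_ hE₁ hE₂ hL₁ hL₂ ?_ ?_
    · intro f hf f' hf' s hs
      have h3 := hminn (f * e) (E.mul_mem hf he) (e' * f') (E.mul_mem he' hf')
        (f'⁻¹ * r₀ * f' * s) (R.mul_mem (by
          have := hRn.conj_mem r₀ hr₀ f'⁻¹
          rwa [inv_inv] at this) hs)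
      have e1 : f * e * z * (e' * f') * (f'⁻¹ * r₀ * f' * s) =
          f * (e * z * e' * r₀) * f' * s := by group
      rwa [e1] at h3
    · rw [← QuotientGroup.eq_one_iff]
      simp only [QuotientGroup.mk_mul, QuotientGroup.mk_inv]
      rw [q0 _ hr₀, q0 _ hm₁, q0 _ hm₂, ← hrel']
      group
    · intro f hf hcon
      apply hzE
      refine ⟨e⁻¹ * f * e'⁻¹, E.mul_mem (E.mul_mem (E.inv_mem he) hf) (E.inv_mem he'), ?_⟩
      rw [← QuotientGroup.eq_one_iff] at hcon ⊢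
      simp only [QuotientGroup.mk_mul, QuotientGroup.mk_inv] at hcon ⊢
      rw [q0 _ hr₀, mul_one] at hcon
      have h3 : (e : G ⧸ R) * z * e' = f := (inv_mul_eq_one.mp hcon).symm
      rw [← h3]
      group
  refine ⟨e' * (m₁ * (e'⁻¹ * t₁ * e')) * e'⁻¹, hP.Vn.conj_mem _ hmain e', ?_⟩
  rw [← QuotientGroup.eq_one_iff]
  simp only [QuotientGroup.mk_mul, QuotientGroup.mk_inv]
  rw [q0 _ hm₁]
  group

end MPba2ef4
end

section
/-!
# MP_ba2ef4_al : module CORE

An element which moves both ends of a segment with a long projection to `B` only a little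
fixes the coset `B`.
-/
set_option autoImplicit false

namespace MPba2ef4

theorem specCore (hOV : SpecOV) : SpecCore := by
  intro G _ ℓ E V pr κ hP B z γ M hM h1 h2
  by_contra hne
  have hg := hP.geo
  have hκ := hP.pos
  have hBB : B ≠ γ⁻¹ • B := by
    intro h
    apply hne
    have h' : γ • B = γ • (γ⁻¹ • B) := by rw [← h]
    rw [smul_inv_smul] at h'
    exact h'
  -- the translated coset
  have e1 : pr (γ⁻¹ • B) z = γ⁻¹ * pr B (γ * z) := by
    have := hP.equiv γ⁻¹ B (γ * z)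
    rw [inv_mul_cancel_left] at this
    exact this
  have e2 : pr (γ⁻¹ • B) 1 = γ⁻¹ * pr B γ := by
    have := hP.equiv γ⁻¹ B γ
    rw [inv_mul_cancel] at this
    exact this
  have d1 : dd ℓ (pr (γ⁻¹ • B) 1) (pr (γ⁻¹ • B) z) = dd ℓ (pr B γ) (pr B (γ * z)) := by
    rw [e1, e2, dd_left]
  have d2 : dd ℓ z (pr (γ⁻¹ • B) z) = dd ℓ (γ * z) (pr B (γ * z)) := by
    rw [e1, dd_shift γ z]
  have f1 := hP.far B 1 z (by omega)
  have f2 := hP.far (γ⁻¹ • B) 1 z (by omega)
  have t1 := dd_tri hg 1 (pr B 1) z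
  have t2 := dd_tri hg 1 (pr (γ⁻¹ • B) 1) z
  have c1 := dd_comm hg z 1
  have c2 := dd_comm hg z (pr B 1)
  have c3 := dd_comm hg z (pr B z)
  have c4 := dd_comm hg z (pr (γ⁻¹ • B) 1)
  have c5 := dd_comm hg z (pr (γ⁻¹ • B) z)
  have c6 := dd_comm hg (pr B 1) 1
  have c7 := dd_comm hg (pr (γ⁻¹ • B) 1) 1
  have t3 := dd_tri hg (pr B z) (pr B 1) 1
  have c8 := dd_comm hg (pr B z) (pr B 1)
  have t4 := dd_tri hg (pr (γ⁻¹ • B) z) (pr (γ⁻¹ • B) 1) 1
  have c9 := dd_comm hg (pr (γ⁻¹ • B) z) (pr (γ⁻¹ • B) 1)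
  have n1 := hP.near B (γ * z) (pr B z) (hP.mem B z)
  have n2 := hP.near B z (pr B (γ * z)) (hP.mem B (γ * z))
  have t5 := dd_tri hg (γ * z) z (pr B z)
  have t6 := dd_tri hg z (γ * z) (pr B (γ * z))
  have c10 := dd_comm hg z (γ * z)
  have t7 := dd_tri hg z (pr B z) (pr B 1)
  have t8 := dd_tri hg z (pr (γ⁻¹ • B) z) (pr (γ⁻¹ • B) 1)
  have key := hOV G ℓ E V pr κ hP B (γ⁻¹ • B) hBB z 1 (pr B z) (pr B 1)
    (pr (γ⁻¹ • B) z) (pr (γ⁻¹ • B) 1) (hP.mem _ _) (hP.mem _ _) (hP.mem _ _) (hP.mem _ _)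
    (by omega) (by omega) (by omega) (by omega)
  omega

end MPba2ef4
end

section
/-!
# MP_ba2ef4_al : module CYC
-/
set_option autoImplicit false

namespace MPba2ef4

namespace Cyc

/-- A subgroup generated by a power of `x` has finite index if `⟨x⟩` has. -/
theorem finiteIndex_zpowers_pow {E : Type} [Group E] (x : E) (m : ℕ) (hm : 1 ≤ m)
    (h : (Subgroup.zpowers x).FiniteIndex) : (Subgroup.zpowers (x ^ m)).FiniteIndex := by
  have := h
  have : Finite (E ⧸ Subgroup.zpowers x) := Subgroup.finite_quotient_of_finiteIndex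
  have hs : Function.Surjective
      (fun q : (E ⧸ Subgroup.zpowers x) × Fin m =>
        (QuotientGroup.mk (q.1.out * x ^ (q.2 : ℕ)) : E ⧸ Subgroup.zpowers (x ^ m))) := by
    intro q
    obtain ⟨e, rfl⟩ := QuotientGroup.mk_surjective q
    have h1 : (QuotientGroup.mk e : E ⧸ Subgroup.zpowers x).out⁻¹ * e ∈ Subgroup.zpowers x := by
      rw [← QuotientGroup.eq]
      exact Quotient.out_eq' _
    obtain ⟨k, hk⟩ := Subgroup.mem_zpowers_iff.mp h1
    have hm0 : (0 : ℤ) < m := by exact_mod_cast hm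
    have hmod := Int.emod_nonneg k (ne_of_gt hm0)
    have hlt := Int.emod_lt_of_pos k hm0
    refine ⟨(QuotientGroup.mk e, ⟨(k % m).toNat, by omega⟩), ?_⟩
    simp only
    rw [QuotientGroup.eq]
    rw [Subgroup.mem_zpowers_iff]
    refine ⟨k / m, ?_⟩
    have e1 : x ^ ((k % m).toNat : ℕ) = x ^ (k % m) := by
      rw [← zpow_natCast]
      congr 1
      omega
    rw [e1, mul_inv_rev, mul_assoc, ← hk, ← zpow_neg, ← zpow_add, ← zpow_natCast, ← zpow_mul]
    congr 1
    have := Int.emod_add_mul_ediv k m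
    linarith
  have : Finite (E ⧸ Subgroup.zpowers (x ^ m)) := Finite.of_surjective _ hs
  exact Subgroup.finiteIndex_of_finite_quotient

end Cyc

open Cyc in
theorem specCyc : SpecCyc := by
  intro E _ V x hV hfin htor ⟨m, hm, hcen⟩ hidx
  have := hV
  -- torsion free quotient
  have tf : ∀ q : E ⧸ V, ∀ n : ℕ, 1 ≤ n → q ^ n = 1 → q = 1 := by
    intro q n hn hq
    obtain ⟨e, rfl⟩ := QuotientGroup.mk_surjective q
    rw [← QuotientGroup.mk_pow, QuotientGroup.eq_one_iff] at hq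
    rw [QuotientGroup.eq_one_iff]
    apply htor
    have : Finite V := hfin
    have h1 : IsOfFinOrder (⟨e ^ n, hq⟩ : V) := isOfFinOrder_of_finite _
    have h2 : IsOfFinOrder (e ^ n) := by
      exact V.subtype.isOfFinOrder h1
    rw [isOfFinOrder_pow] at h2
    rcases h2 with h2 | h2
    · exact h2
    · omega
  -- the centre has finite index
  have hZ : (Subgroup.center (E ⧸ V)).FiniteIndex := by
    have h1 := finiteIndex_zpowers_pow x m hm hidx
    have h2 : (Subgroup.zpowers ((QuotientGroup.mk x : E ⧸ V) ^ m)).FiniteIndex := by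
      have : Finite (E ⧸ Subgroup.zpowers (x ^ m)) := Subgroup.finite_quotient_of_finiteIndex
      have hs : Function.Surjective
          (fun q : (E ⧸ Subgroup.zpowers (x ^ m)) =>
            (QuotientGroup.mk (QuotientGroup.mk q.out : E ⧸ V) :
              (E ⧸ V) ⧸ Subgroup.zpowers ((QuotientGroup.mk x : E ⧸ V) ^ m))) := by
        intro q
        obtain ⟨q', rfl⟩ := QuotientGroup.mk_surjective q
        obtain ⟨e, rfl⟩ := QuotientGroup.mk_surjective q'
        refine ⟨QuotientGroup.mk e, ?_⟩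
        have h1 : (QuotientGroup.mk e : E ⧸ Subgroup.zpowers (x ^ m)).out⁻¹ * e ∈
            Subgroup.zpowers (x ^ m) := by
          rw [← QuotientGroup.eq]
          exact Quotient.out_eq' _
        obtain ⟨k, hk⟩ := Subgroup.mem_zpowers_iff.mp h1
        simp only
        rw [QuotientGroup.eq, Subgroup.mem_zpowers_iff]
        refine ⟨k, ?_⟩
        rw [← QuotientGroup.mk_inv, ← QuotientGroup.mk_mul, ← hk]
        simp
      have := Finite.of_surjective _ hs
      exact Subgroup.finiteIndex_of_finite_quotient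
    have := h2
    refine Subgroup.finiteIndex_of_le
      (H := Subgroup.zpowers ((QuotientGroup.mk x : E ⧸ V) ^ m)) ?_
    rw [Subgroup.zpowers_le, Subgroup.mem_center_iff]
    intro g
    obtain ⟨e, rfl⟩ := QuotientGroup.mk_surjective g
    have := hcen e
    rw [← QuotientGroup.mk_pow, ← QuotientGroup.mk_mul, ← QuotientGroup.mk_mul]
    rw [this.eq]
  -- commutativity
  have hcomm : ∀ a b : E ⧸ V, a * b = b * a := by
    intro a b
    have hn : (Subgroup.center (E ⧸ V)).index ≠ 0 := hZ.index_ne_zero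
    have h1 : MonoidHom.transferCenterPow (E ⧸ V) (a * b * (b * a)⁻¹) = 1 := by
      rw [map_mul, map_inv, map_mul, map_mul, mul_inv_eq_one]
      apply Subtype.ext
      exact Subgroup.mem_center_iff.mp (MonoidHom.transferCenterPow (E ⧸ V) b).2 _
    have h2 : (a * b * (b * a)⁻¹) ^ (Subgroup.center (E ⧸ V)).index = 1 := by
      rw [← MonoidHom.transferCenterPow_apply, h1]
      rfl
    have := tf _ _ (by omega) h2
    exact mul_inv_eq_one.mp this
  -- the cyclic subgroup generated by x has finite index and is normal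
  let H : Subgroup (E ⧸ V) := Subgroup.zpowers (QuotientGroup.mk x : E ⧸ V)
  have hH : H.FiniteIndex := by
    have : Finite (E ⧸ Subgroup.zpowers x) := Subgroup.finite_quotient_of_finiteIndex
    have hs : Function.Surjective
        (fun q : (E ⧸ Subgroup.zpowers x) =>
          (QuotientGroup.mk (QuotientGroup.mk q.out : E ⧸ V) : (E ⧸ V) ⧸ H)) := by
      intro q
      obtain ⟨q', rfl⟩ := QuotientGroup.mk_surjective q
      obtain ⟨e, rfl⟩ := QuotientGroup.mk_surjective q'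
      refine ⟨QuotientGroup.mk e, ?_⟩
      have h1 : (QuotientGroup.mk e : E ⧸ Subgroup.zpowers x).out⁻¹ * e ∈
          Subgroup.zpowers x := by
        rw [← QuotientGroup.eq]
        exact Quotient.out_eq' _
      obtain ⟨k, hk⟩ := Subgroup.mem_zpowers_iff.mp h1
      simp only
      rw [QuotientGroup.eq, Subgroup.mem_zpowers_iff]
      refine ⟨k, ?_⟩
      rw [← QuotientGroup.mk_inv, ← QuotientGroup.mk_mul, ← hk]
      simp
    have := Finite.of_surjective _ hs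
    exact Subgroup.finiteIndex_of_finite_quotient
  have hHn : H.Normal := ⟨fun n hn g => by rw [hcomm g n, mul_inv_cancel_right]; exact hn⟩
  have hpow : ∀ g : E ⧸ V, g ^ H.index ∈ H := fun g => H.pow_index_mem g
  let f : (E ⧸ V) →* H :=
    { toFun := fun g => ⟨g ^ H.index, hpow g⟩
      map_one' := by simp
      map_mul' := by
        intro a b
        apply Subtype.ext
        have : Commute a b := hcomm a b
        simp [this.mul_pow] }
  have hf : Function.Injective f := by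
    rw [injective_iff_map_eq_one]
    intro a ha
    have h1 : a ^ H.index = 1 := by
      have h2 : (f a : E ⧸ V) = a ^ H.index := rfl
      rw [← h2, ha]
      rfl
    have hn : H.index ≠ 0 := hH.index_ne_zero
    exact tf _ _ (by omega) h1
  have hcyc : IsCyclic (E ⧸ V) := isCyclic_of_injective f hf
  obtain ⟨g, hg⟩ := hcyc.exists_generator
  obtain ⟨y, rfl⟩ := QuotientGroup.mk_surjective g
  refine ⟨y, fun e => ?_⟩
  obtain ⟨j, hj⟩ := Subgroup.mem_zpowers_iff.mp (hg (QuotientGroup.mk e))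
  refine ⟨e * (y ^ j)⁻¹, ?_, j, by group⟩
  rw [← QuotientGroup.eq_one_iff]
  simp only [QuotientGroup.mk_mul, QuotientGroup.mk_inv, QuotientGroup.mk_zpow]
  rw [← hj, mul_inv_cancel]

end MPba2ef4
end

section
/-!
# MP_ba2ef4_al : module ELEM
-/
set_option autoImplicit false

namespace MPba2ef4

namespace ElemM

variable {G : Type} [Group G]

/-- the elements which commute with a power of `x` -/
def comm (x : G) : Subgroup G where
  carrier := {g | ∃ m : ℕ, 1 ≤ m ∧ Commute g (x ^ m)}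
  one_mem' := ⟨1, le_rfl, Commute.one_left _⟩
  mul_mem' := by
    rintro a b ⟨m, hm, ha⟩ ⟨n, hn, hb⟩
    refine ⟨m * n, Nat.mul_pos hm hn, ?_⟩
    have h1 : Commute a (x ^ (m * n)) := by rw [pow_mul]; exact ha.pow_right n
    have h2 : Commute b (x ^ (m * n)) := by rw [mul_comm, pow_mul]; exact hb.pow_right m
    exact h1.mul_left h2
  inv_mem' := by
    rintro a ⟨m, hm, ha⟩
    exact ⟨m, hm, ha.inv_left⟩

theorem mem_comm {x g : G} : g ∈ comm x ↔ ∃ m : ℕ, 1 ≤ m ∧ Commute g (x ^ m) := Iff.rfl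

/-- a finite set of elements of `comm x` commutes with a common power -/
theorem common (x : G) (S : Finset G) (hS : ∀ g ∈ S, g ∈ comm x) :
    ∃ m : ℕ, 1 ≤ m ∧ ∀ g ∈ S, Commute g (x ^ m) := by
  classical
  induction S using Finset.induction_on with
  | empty => exact ⟨1, le_rfl, by simp⟩
  | insert a S ha ih =>
    obtain ⟨m, hm, h⟩ := ih (fun g hg => hS g (Finset.mem_insert_of_mem hg))
    obtain ⟨n, hn, h'⟩ := hS a (Finset.mem_insert_self _ _)
    refine ⟨m * n, Nat.mul_pos hm hn, ?_⟩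
    intro g hg
    rcases Finset.mem_insert.mp hg with rfl | hg
    · rw [mul_comm, pow_mul]
      exact h'.pow_right m
    · rw [pow_mul]
      exact (h g hg).pow_right n

/-- finitely many cosets -/
theorem cover (hC : SpecCent) {ℓ : G → ℕ} {δ : ℕ} (hl : GeoNorm ℓ) (hF : FP ℓ δ) {x : G}
    (hx : ¬ IsOfFinOrder x) : ∃ S : Finset G, (∀ g ∈ S, g ∈ comm x) ∧
      ∀ e ∈ comm x, ∃ g ∈ S, ∃ k : ℤ, e = x ^ k * g := by
  classical
  obtain ⟨B, hB⟩ := hC G ℓ δ hl hF x hx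
  by_contra hcon
  have key : ∀ n : ℕ, ∃ S : Finset G, (∀ g ∈ S, g ∈ comm x) ∧
      (∀ g ∈ S, ∀ h ∈ S, ∀ k : ℤ, h = x ^ k * g → h = g) ∧ S.card = n := by
    intro n
    induction n with
    | zero => exact ⟨∅, by simp, by simp, by simp⟩
    | succ n ih =>
      obtain ⟨S, h1, h2, h3⟩ := ih
      have : ∃ e ∈ comm x, ∀ g ∈ S, ∀ k : ℤ, e ≠ x ^ k * g := by
        by_contra hne
        apply hcon
        refine ⟨S, h1, fun e he => ?_⟩
        by_contra hc
        apply hne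
        refine ⟨e, he, fun g hg k hk => hc ⟨g, hg, k, hk⟩⟩
      obtain ⟨e, he, hne⟩ := this
      have heS : e ∉ S := fun h => hne e h 0 (by simp)
      refine ⟨insert e S, ?_, ?_, ?_⟩
      · intro g hg
        rcases Finset.mem_insert.mp hg with rfl | hg
        · exact he
        · exact h1 g hg
      · intro g hg h hh k hk
        rcases Finset.mem_insert.mp hg with hg1 | hg1
        · rcases Finset.mem_insert.mp hh with hh1 | hh1
          · rw [hg1, hh1]
          · exfalso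
            apply hne h hh1 (-k)
            rw [hk, zpow_neg, inv_mul_cancel_left, hg1]
        · rcases Finset.mem_insert.mp hh with hh1 | hh1
          · rw [hh1] at hk
            exact absurd hk (hne g hg1 k)
          · exact h2 g hg1 h hh1 k hk
      · rw [Finset.card_insert_of_notMem heS, h3]
  obtain ⟨S, h1, h2, h3⟩ := key (B + 1)
  obtain ⟨m, hm, hcm⟩ := common x S h1
  have := hB m hm S hcm h2
  omega

/-- exponential growth beats `c k + M a ^ k` -/
theorem growth (a b L M : ℕ) (ha : 1 ≤ a) (hab : a < b)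
    (h : ∀ k : ℕ, b ^ k ≤ 2 * k * L + M * a ^ k) : False := by
  have ha' : (0 : ℝ) < a := by exact_mod_cast ha
  have hr : (1 : ℝ) < (b : ℝ) / a := by
    rw [lt_div_iff₀ ha']
    rw [one_mul]
    exact_mod_cast hab
  have h1 : Filter.Tendsto (fun n : ℕ => (n : ℝ) ^ 1 / ((b : ℝ) / a) ^ n) Filter.atTop
      (nhds 0) := tendsto_pow_const_div_const_pow_of_one_lt 1 hr
  have h2 : Filter.Tendsto (fun n : ℕ => (1 : ℝ) / ((b : ℝ) / a) ^ n) Filter.atTop
      (nhds 0) := by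
    have := tendsto_pow_const_div_const_pow_of_one_lt 0 hr
    simpa using this
  have h3 : Filter.Tendsto (fun n : ℕ => 2 * (L : ℝ) * ((n : ℝ) ^ 1 / ((b : ℝ) / a) ^ n) +
      M * ((1 : ℝ) / ((b : ℝ) / a) ^ n)) Filter.atTop (nhds 0) := by
    have := (h1.const_mul (2 * (L : ℝ))).add (h2.const_mul (M : ℝ))
    simpa using this
  obtain ⟨n, hn⟩ := (h3.eventually (gt_mem_nhds (show (0 : ℝ) < 1 by norm_num))).exists
  have h4 := h n
  have hpos : (0 : ℝ) < ((b : ℝ) / a) ^ n := by positivity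
  have h5 : ((b : ℝ) / a) ^ n ≤ 2 * L * n + M := by
    rw [div_pow, div_le_iff₀ (by positivity)]
    have h6 : (b : ℝ) ^ n ≤ 2 * n * L + M * (a : ℝ) ^ n := by exact_mod_cast h4
    have h7 : (1 : ℝ) ≤ (a : ℝ) ^ n := one_le_pow₀ (by exact_mod_cast ha)
    have h8 : (0 : ℝ) ≤ 2 * n * L := by positivity
    nlinarith
  have h6 : 2 * (L : ℝ) * ((n : ℝ) ^ 1 / ((b : ℝ) / a) ^ n) +
      M * ((1 : ℝ) / ((b : ℝ) / a) ^ n) = (2 * L * n + M) / ((b : ℝ) / a) ^ n := by
    field_simp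
  rw [h6, div_lt_one hpos] at hn
  linarith

theorem norm_pow_le {ℓ : G → ℕ} (hl : GeoNorm ℓ) (g : G) (n : ℕ) : ℓ (g ^ n) ≤ n * ℓ g := by
  induction n with
  | zero => simp [hl.one]
  | succ n ih =>
    rw [pow_succ]
    have := hl.mul (g ^ n) g
    calc ℓ (g ^ n * g) ≤ ℓ (g ^ n) + ℓ g := this
      _ ≤ n * ℓ g + ℓ g := by omega
      _ = (n + 1) * ℓ g := by ring

theorem norm_zpow {ℓ : G → ℕ} (hl : GeoNorm ℓ) (g : G) (n : ℤ) :
    ℓ (g ^ n) = ℓ (g ^ n.natAbs) := by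
  rcases Int.natAbs_eq n with h | h
  · conv_lhs => rw [h]
    rw [zpow_natCast]
  · conv_lhs => rw [h]
    rw [zpow_neg, hl.inv, zpow_natCast]

theorem conj_iter {g y : G} {a b : ℤ} (h : g * y ^ a * g⁻¹ = y ^ b) (k : ℕ) :
    g ^ k * y ^ (a ^ k) * (g ^ k)⁻¹ = y ^ (b ^ k) := by
  induction k with
  | zero => simp
  | succ k ih =>
    have e1 : g ^ (k + 1) * y ^ (a ^ (k + 1)) * (g ^ (k + 1))⁻¹ =
        g * (g ^ k * y ^ (a ^ k) * (g ^ k)⁻¹) ^ a * g⁻¹ := by
      rw [conj_zpow, ← zpow_mul, ← pow_succ, pow_succ' g k]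
      group
    rw [e1, ih, ← zpow_mul, mul_comm, zpow_mul, ← conj_zpow, h, ← zpow_mul, pow_succ, mul_comm]

theorem abs_le (hG : SpecGrow) {ℓ : G → ℕ} {δ : ℕ} (hl : GeoNorm ℓ) (hF : FP ℓ δ) {y : G}
    (hy : ¬ IsOfFinOrder y) {g : G} {a b : ℤ} (ha : a ≠ 0) (h : g * y ^ a * g⁻¹ = y ^ b) :
    b.natAbs ≤ a.natAbs := by
  by_contra hcon
  push Not at hcon
  obtain ⟨n₁, hn₁, hgrow⟩ := hG G ℓ δ hl hF y hy
  refine growth a.natAbs b.natAbs (ℓ g) (n₁ * ℓ y) (by omega) hcon (fun k => ?_)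
  have h1 := hgrow (b.natAbs ^ k)
  have h2 : y ^ ((b ^ k) * (n₁ : ℤ)) = g ^ k * y ^ ((a ^ k) * (n₁ : ℤ)) * (g ^ k)⁻¹ := by
    rw [zpow_mul, ← conj_iter h k, conj_zpow, ← zpow_mul]
  have h3 : ℓ (y ^ ((b ^ k) * (n₁ : ℤ))) = ℓ (y ^ (b.natAbs ^ k * n₁)) := by
    rw [norm_zpow hl, Int.natAbs_mul, Int.natAbs_pow, Int.natAbs_natCast]
  have h4 : ℓ (y ^ ((a ^ k) * (n₁ : ℤ))) ≤ a.natAbs ^ k * n₁ * ℓ y := by
    rw [norm_zpow hl, Int.natAbs_mul, Int.natAbs_pow, Int.natAbs_natCast]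
    exact norm_pow_le hl _ _
  have h5 := hl.mul (g ^ k * y ^ ((a ^ k) * (n₁ : ℤ))) (g ^ k)⁻¹
  have h6 := hl.mul (g ^ k) (y ^ ((a ^ k) * (n₁ : ℤ)))
  rw [hl.inv] at h5
  have h7 := norm_pow_le hl g k
  rw [← h3, h2] at h1
  have e : n₁ * ℓ y * a.natAbs ^ k = a.natAbs ^ k * n₁ * ℓ y := by ring
  rw [e]
  have e2 : 2 * k * ℓ g = k * ℓ g + k * ℓ g := by ring
  rw [e2]
  omega

end ElemM

open ElemM in
theorem specElem (hG : SpecGrow) (hC : SpecCent) (hCyc : SpecCyc) : SpecElem := by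
  intro G _ V N hst x hxN hxinf
  obtain ⟨ℓ, δ, hl, hF⟩ := hst.hyp
  obtain ⟨S, hS, hcov⟩ := cover hC hl hF hxinf
  obtain ⟨m₀, hm₀, hcm⟩ := common x S hS
  have hcen : ∀ e ∈ comm x, Commute e (x ^ m₀) := by
    intro e he
    obtain ⟨g, hg, k, rfl⟩ := hcov e he
    exact ((Commute.refl x).zpow_left k |>.pow_right m₀).mul_left (hcm g hg)
  have hVE : V ≤ comm x := by
    intro v hv
    exact ⟨3, by norm_num, (hst.act3 x hxN v hv).symm⟩
  have hxE : x ∈ comm x := ⟨1, le_rfl, by rw [pow_one]⟩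
  have htor : ∀ e ∈ comm x, IsOfFinOrder e → e ∈ V := by
    intro e he hfe
    by_contra hne
    have := hst.cen e (x ^ m₀) hfe hne (hcen e he)
    rw [isOfFinOrder_pow] at this
    rcases this with h | h
    · exact hxinf h
    · omega
  -- apply CYC
  have hcyc := hCyc (comm x) (V.subgroupOf (comm x)) ⟨x, hxE⟩
    (by
      have := hst.Vnormal
      infer_instance)
    (by
      have hf := hst.Vfin
      have e : (((V.subgroupOf (comm x)) : Subgroup (comm x)) : Set (comm x)) =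
          (Subtype.val ⁻¹' (V : Set G)) := rfl
      rw [e]
      exact Set.Finite.preimage Subtype.val_injective.injOn hf)
    (by
      intro e he
      rw [Subgroup.mem_subgroupOf]
      exact htor e e.2 ((comm x).subtype.isOfFinOrder he))
    ⟨m₀, hm₀, fun e => by
      have := hcen e e.2
      apply Subtype.ext
      exact this.symm⟩
    (by
      have hs : Function.Surjective
          (fun g : S => (QuotientGroup.mk (⟨g.1, hS g.1 g.2⟩ : comm x)⁻¹ :
            (comm x) ⧸ Subgroup.zpowers (⟨x, hxE⟩ : comm x))) := by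
        intro q
        obtain ⟨e, rfl⟩ := QuotientGroup.mk_surjective q
        obtain ⟨g, hg, k, hk⟩ := hcov (e : G)⁻¹ ((comm x).inv_mem e.2)
        refine ⟨⟨g, hg⟩, ?_⟩
        simp only
        rw [QuotientGroup.eq, Subgroup.mem_zpowers_iff]
        refine ⟨-k, ?_⟩
        apply Subtype.ext
        simp only [Subgroup.coe_zpow, inv_inv, Subgroup.coe_mul]
        have : (e : G) = g⁻¹ * (x ^ k)⁻¹ := by
          rw [← mul_inv_rev, ← hk, inv_inv]
        rw [this, mul_inv_cancel_left, zpow_neg]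
      have := Finite.of_surjective _ hs
      exact Subgroup.finiteIndex_of_finite_quotient)
  obtain ⟨⟨y, hyE⟩, hform'⟩ := hcyc
  have hform : ∀ e ∈ comm x, ∃ v ∈ V, ∃ j : ℤ, e = v * y ^ j := by
    intro e he
    obtain ⟨v, hv, j, hj⟩ := hform' ⟨e, he⟩
    refine ⟨v, hv, j, ?_⟩
    have := congrArg Subtype.val hj
    simpa using this
  have hyN : y ∉ N := by
    intro hy
    obtain ⟨v, hv, j, hj⟩ := hform x hxE
    apply hxN
    rw [hj]
    exact N.mul_mem (hst.VN hv) (N.zpow_mem hy j)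
  have hyinf : ¬ IsOfFinOrder y := fun h => hyN (hst.VN (htor y hyE h))
  -- ninth powers
  have h9 : ∀ v ∈ V, ∀ j : ℤ, (v * y ^ j) ^ 9 = y ^ (9 * j) := by
    intro v hv j
    have hVn := hst.Vnormal
    have h3 : ∃ n ∈ V, (v * y ^ j) ^ 3 = n * y ^ (3 * j) := by
      refine ⟨v * (y ^ j * v * (y ^ j)⁻¹) * (y ^ (2 * j) * v * (y ^ (2 * j))⁻¹), ?_, ?_⟩
      · exact V.mul_mem (V.mul_mem hv (hVn.conj_mem v hv _)) (hVn.conj_mem v hv _)
      · simp only [pow_succ, pow_zero, one_mul]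
        group
    obtain ⟨n, hn, h3⟩ := h3
    have hc : Commute n (y ^ (3 * j)) := by
      have := hst.act3 y hyN n hn
      have h4 : Commute n (y ^ 3) := this.symm
      rw [zpow_mul]
      have h5 : (y ^ (3 : ℤ)) = y ^ 3 := by norm_cast
      rw [h5]
      exact h4.zpow_right j
    have e1 : (v * y ^ j) ^ 9 = ((v * y ^ j) ^ 3) ^ 3 := by rw [← pow_mul]
    rw [e1, h3, hc.mul_pow, hst.Vexp n hn, one_mul, ← zpow_natCast, ← zpow_mul]
    congr 1
    push_cast
    ring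
  obtain ⟨v₁, hv₁, i, hi⟩ := hform x hxE
  have hi0 : i ≠ 0 := by
    rintro rfl
    apply hxN
    rw [hi]
    simpa using hst.VN hv₁
  -- centralizers
  have hcy : ∀ g : G, ∀ j : ℤ, j ≠ 0 → Commute g (y ^ (9 * j)) → g ∈ comm x := by
    intro g j hj hc
    refine ⟨9 * j.natAbs, by omega, ?_⟩
    have h1 : Commute g (x ^ (9 * j)) := by
      have e : x ^ (9 * j) = (y ^ (9 * j)) ^ i := by
        have e9 : x ^ (9 : ℤ) = y ^ (9 * i) := by
          rw [← h9 v₁ hv₁ i, ← hi]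
          norm_cast
        rw [zpow_mul, e9, ← zpow_mul, ← zpow_mul]
        congr 1
        ring
      rw [e]
      exact hc.zpow_right i
    rcases Int.natAbs_eq j with h | h
    · rw [h] at h1
      have : x ^ (9 * (j.natAbs : ℤ)) = x ^ (9 * j.natAbs) := by
        rw [← zpow_natCast]
        push_cast
        rfl
      rwa [this] at h1
    · rw [h] at h1
      have : x ^ (9 * (-(j.natAbs : ℤ))) = (x ^ (9 * j.natAbs))⁻¹ := by
        rw [← zpow_natCast, ← zpow_neg]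
        congr 1
        push_cast
        ring
      rw [this] at h1
      exact Commute.inv_right_iff.mp h1
  refine ⟨comm x, y, ⟨hVE, hyE, hyN, hyinf, hform, ?_⟩, hxE⟩
  -- malnormality
  intro g hg e he hge
  by_contra heV
  apply hg
  obtain ⟨v, hv, j, hj⟩ := hform e he
  obtain ⟨v', hv', j', hj'⟩ := hform _ hge
  have hj0 : j ≠ 0 := by
    rintro rfl
    apply heV
    rw [hj]
    simpa using hv
  have hconj : g * y ^ (9 * j) * g⁻¹ = y ^ (9 * j') := by
    rw [← h9 v hv j, ← h9 v' hv' j', ← hj, ← hj', conj_pow]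
  have hconj' : g⁻¹ * y ^ (9 * j') * g⁻¹⁻¹ = y ^ (9 * j) := by
    rw [← hconj]
    group
  have hj0' : j' ≠ 0 := by
    rintro rfl
    apply heV
    have h1 : g * e * g⁻¹ ∈ V := by
      rw [hj']
      simpa using hv'
    have := hst.Vnormal.conj_mem _ h1 g⁻¹
    have e2 : g⁻¹ * (g * e * g⁻¹) * g⁻¹⁻¹ = e := by group
    rwa [e2] at this
  have hle := abs_le hG hl hF hyinf (by omega) hconj
  have hle' := abs_le hG hl hF hyinf (by omega) hconj'
  have hcases : j' = j ∨ j' = -j := by omega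
  rcases hcases with rfl | rfl
  · apply hcy g j' hj0
    have := mul_inv_eq_iff_eq_mul.mp hconj
    exact this
  · have hg2 : g ^ 2 ∈ comm x := by
      apply hcy (g ^ 2) j hj0
      have e1 : g ^ 2 * y ^ (9 * j) * (g ^ 2)⁻¹ = y ^ (9 * j) := by
        have : g ^ 2 * y ^ (9 * j) * (g ^ 2)⁻¹ = g * (g * y ^ (9 * j) * g⁻¹) * g⁻¹ := by
          simp only [pow_two, mul_inv_rev, mul_assoc]
        rw [this, hconj]
        have e2 : y ^ (9 * -j) = (y ^ (9 * j))⁻¹ := by
          rw [← zpow_neg]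
          congr 1
          ring
        rw [e2]
        have e3 : g * (y ^ (9 * j))⁻¹ * g⁻¹ = (g * y ^ (9 * j) * g⁻¹)⁻¹ := by group
        rw [e3, hconj, e2, inv_inv]
      exact mul_inv_eq_iff_eq_mul.mp e1
    by_cases hgf : IsOfFinOrder g
    · obtain ⟨k, hk⟩ := hst.tor3 g hgf
      have hodd : Odd (3 ^ k) := Odd.pow (by decide)
      obtain ⟨r, hr⟩ := hodd
      have e1 : g = (g ^ 2) ^ (r + 1) := by
        rw [← pow_mul]
        have : 2 * (r + 1) = 3 ^ k + 1 := by omega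
        rw [this, pow_succ, hk, one_mul]
      rw [e1]
      exact (comm x).pow_mem hg2 _
    · obtain ⟨v2, hv2, k, hk⟩ := hform _ hg2
      have hk0 : k ≠ 0 := by
        rintro rfl
        apply hgf
        have h1 : g ^ 2 ∈ V := by
          rw [hk]
          simpa using hv2
        have h2 : (g ^ 2) ^ 3 = 1 := hst.Vexp _ h1
        rw [isOfFinOrder_iff_pow_eq_one]
        exact ⟨2 * 3, by norm_num, by rw [pow_mul, h2]⟩
      apply hcy g k hk0
      rw [← h9 v2 hv2 k, ← hk]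
      exact ((Commute.refl g).pow_right 2).pow_right 9

end MPba2ef4
end

section
/-!
# MP_ba2ef4_al : FIN, the counterexample from the limit group
-/
set_option autoImplicit false

namespace MPba2ef4

namespace FinM

open SemidirectProduct

/-- the group generated by the first coordinate being zero -/
def W0 : Subgroup VV where
  carrier := {v | Multiplicative.toAdd v 0 = 0}
  mul_mem' := by
    intro a b ha hb
    show Multiplicative.toAdd (a * b) 0 = 0
    rw [toAdd_mul, Pi.add_apply, ha, hb, add_zero]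
  one_mem' := rfl
  inv_mem' := by
    intro a ha
    show Multiplicative.toAdd a⁻¹ 0 = 0
    rw [toAdd_inv, Pi.neg_apply, ha, neg_zero]

theorem mem_W0 {v : VV} : v ∈ W0 ↔ Multiplicative.toAdd v 0 = 0 := Iff.rfl

/-- the base group is finitely generated -/
theorem fg : Group.FG E0 := by
  rw [Group.fg_iff]
  refine ⟨Set.range (inl : VV →* E0) ∪ Set.range (fun b : Bool => (inr (FreeGroup.of b) : E0)),
    ?_, ?_⟩
  · rw [eq_top_iff]
    intro x _
    have hx : x = inl x.left * inr x.right := (inl_left_mul_inr_right x).symm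
    rw [hx]
    apply Subgroup.mul_mem
    · exact Subgroup.subset_closure (Or.inl ⟨_, rfl⟩)
    · have h1 : (⊤ : Subgroup (FreeGroup Bool)) ≤
          (Subgroup.closure (Set.range (inl : VV →* E0) ∪
            Set.range (fun b : Bool => (inr (FreeGroup.of b) : E0)))).comap inr := by
        rw [← FreeGroup.closure_range_of, Subgroup.closure_le]
        rintro _ ⟨b, rfl⟩
        exact Subgroup.subset_closure (Or.inr ⟨b, rfl⟩)
      exact h1 (Subgroup.mem_top x.right)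
  · exact (Set.finite_range _).union (Set.finite_range _)

variable {R : Subgroup E0}

/-- the map `V → E0 ⧸ R` is injective -/
theorem inj (hn : R.Normal) (hV : ∀ v ∈ V0, v ∈ R → v = 1) {u w : VV}
    (h : ((inl u : E0) : E0 ⧸ R) = ((inl w : E0) : E0 ⧸ R)) : u = w := by
  rw [QuotientGroup.eq] at h
  have h1 : (inl (u⁻¹ * w) : E0) ∈ R := by
    rw [map_mul, map_inv]; exact h
  have h2 : (inl (u⁻¹ * w) : E0) = 1 := hV _ ⟨_, rfl⟩ h1
  have h3 : u⁻¹ * w = 1 := inl_injective (h2.trans (map_one _).symm)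
  exact (inv_mul_eq_one.1 h3)

/-- the subgroup `H` -/
def HH (R : Subgroup E0) [R.Normal] : Subgroup (E0 ⧸ R) :=
  (W0.map (inl : VV →* E0)).map (QuotientGroup.mk' R)

theorem mem_HH [R.Normal] {h : E0 ⧸ R} : h ∈ HH R ↔ ∃ v ∈ W0, ((inl v : E0) : E0 ⧸ R) = h := by
  unfold HH
  constructor
  · rintro ⟨_, ⟨v, hv, rfl⟩, rfl⟩
    exact ⟨v, hv, rfl⟩
  · rintro ⟨v, hv, rfl⟩
    exact ⟨_, ⟨v, hv, rfl⟩, rfl⟩

theorem conj_mk [R.Normal] (x : E0) (v : VV) :
    (x : E0 ⧸ R) * ((inl v : E0) : E0 ⧸ R) * (x : E0 ⧸ R)⁻¹ =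
      ((inl (actA x.right v) : E0) : E0 ⧸ R) := by
  rw [← QuotientGroup.mk_mul, BaseM.conj_inl, QuotientGroup.mk_mul, mul_inv_cancel_right]

theorem pgroup [R.Normal] : IsPGroup 3 (HH R) := by
  rintro ⟨h, hh⟩
  obtain ⟨v, hv, rfl⟩ := mem_HH.1 hh
  refine ⟨1, ?_⟩
  apply Subtype.ext
  show (((inl v : E0) : E0 ⧸ R)) ^ (3 ^ 1) = 1
  rw [← QuotientGroup.mk_pow, ← map_pow, pow_one, BaseM.VV_pow, map_one, QuotientGroup.mk_one]

theorem core [R.Normal] (hV : ∀ v ∈ V0, v ∈ R → v = 1) : (HH R).normalCore = ⊥ := by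
  rw [eq_bot_iff]
  intro h hh
  have h0 : ∀ b : E0 ⧸ R, b * h * b⁻¹ ∈ HH R := hh
  have h1 := h0 1
  rw [one_mul, inv_one, mul_one] at h1
  obtain ⟨v, hv, rfl⟩ := mem_HH.1 h1
  have key : ∀ f : FreeGroup Bool, Multiplicative.toAdd (actA f v) 0 = 0 := by
    intro f
    have h2 := h0 ((inr f : E0) : E0 ⧸ R)
    rw [conj_mk] at h2
    obtain ⟨w, hw, e⟩ := mem_HH.1 h2
    have h3 := inj inferInstance hV e
    rw [right_inr] at h3
    rw [← h3]
    exact mem_W0.1 hw
  have k1 : ∀ w : VV, Multiplicative.toAdd (actA (FreeGroup.of true) w) 0 =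
      Multiplicative.toAdd w (0 + 1) := by
    intro w
    simp [actA, genA, cycA]
  have a0 := mem_W0.1 hv
  have a1 : Multiplicative.toAdd v 1 = 0 := by
    have := key (FreeGroup.of true)
    rw [k1] at this
    simpa using this
  have a2 : Multiplicative.toAdd v 2 = 0 := by
    have := key (FreeGroup.of true * FreeGroup.of true)
    rw [map_mul, MulAut.mul_apply, k1] at this
    simp [actA, genA, cycA] at this
    have e : (1 : ZMod 3) + 1 = 2 := by decide
    rw [e] at this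
    exact this
  have hv1 : v = 1 := by
    apply Multiplicative.toAdd.injective
    funext i
    have hi : i = 0 ∨ i = 1 ∨ i = 2 := by revert i; decide
    rcases hi with rfl | rfl | rfl
    · exact a0
    · exact a1
    · exact a2
  rw [hv1, map_one, QuotientGroup.mk_one]
  exact Subgroup.one_mem _

/-- the crucial point: `k h = h' k^j` -/
theorem perm_aux [R.Normal]
    (hR : ∀ x : E0, x ∉ N0 → ∃ k : ℕ, ∃ v ∈ V0, v ≠ 1 ∧ x ^ k * v⁻¹ ∈ R)
    (hV : ∀ v ∈ V0, v ∈ R → v = 1)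
    (k : E0 ⧸ R) {h : E0 ⧸ R} (hh : h ∈ HH R) : ∃ h' ∈ HH R, ∃ j : ℤ, k * h = h' * k ^ j := by
  obtain ⟨x, rfl⟩ := QuotientGroup.mk_surjective k
  obtain ⟨v, hv, rfl⟩ := mem_HH.1 hh
  obtain ⟨ε, hε1, hε2, hε3⟩ := specMono x.right
  by_cases hx : x ∈ N0
  · refine ⟨_, mem_HH.2 ⟨actA x.right v, ?_, rfl⟩, 1, ?_⟩
    · rw [mem_W0, hε3, BaseM.mem_N0.1 hx, toAdd_one, add_zero, mem_W0.1 hv, mul_zero]
    · rw [← conj_mk, zpow_one, inv_mul_cancel_right]
  · obtain ⟨n, v', ⟨u, rfl⟩, hu1, hn⟩ := hR x hx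
    have hk : (x : E0 ⧸ R) ^ n = ((inl u : E0) : E0 ⧸ R) := by
      rw [← QuotientGroup.mk_pow]
      have h2 := (QuotientGroup.eq_one_iff (N := R) (x ^ n * (inl u : E0)⁻¹)).2 hn
      rw [QuotientGroup.mk_mul, QuotientGroup.mk_inv, mul_inv_eq_one] at h2
      exact h2
    have hfix : actA x.right u = u := by
      apply inj (R := R) inferInstance hV
      rw [← conj_mk, ← hk, ← pow_succ', pow_succ, mul_inv_cancel_right]
    have hc : Multiplicative.toAdd (chiA x.right) ≠ 0 := by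
      intro h0
      apply hx
      rw [BaseM.mem_N0]
      exact Multiplicative.toAdd.injective (h0.trans toAdd_one.symm)
    set c := Multiplicative.toAdd (chiA x.right) with hcdef
    have hu0 : Multiplicative.toAdd u 0 ≠ 0 := by
      intro h0
      apply hu1
      have e1 : ∀ i, Multiplicative.toAdd u i = 0 → Multiplicative.toAdd u (i + c) = 0 := by
        intro i hi
        have h2 := hε3 u i
        rw [hfix, hi] at h2
        rcases hε1 i with h | h
        · rw [h, one_mul] at h2; exact h2.symm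
        · rw [h] at h2
          have h3 := h2.symm
          rw [neg_one_mul, neg_eq_zero] at h3
          exact h3
      have e2 := e1 0 h0
      have e3 := e1 _ e2
      have hu : u = 1 := by
        apply Multiplicative.toAdd.injective
        funext i
        rcases BaseM.cc2 c i hc with h | h | h
        · rw [h]; exact h0
        · rw [h]; rw [zero_add] at e2; exact e2
        · rw [h]; rw [zero_add] at e3; exact e3
      rw [hu, map_one]
    set w := actA x.right v with hw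
    set a : ZMod 3 := Multiplicative.toAdd w 0 * (Multiplicative.toAdd u 0)⁻¹ with ha
    haveI : Fact (Nat.Prime 3) := ⟨Nat.prime_three⟩
    have haN : ((a.val : ℕ) : ZMod 3) = a := ZMod.natCast_zmod_val a
    refine ⟨_, mem_HH.2 ⟨w * (u ^ a.val)⁻¹, ?_, rfl⟩, n * a.val + 1, ?_⟩
    · rw [mem_W0, toAdd_mul, toAdd_inv, toAdd_pow, Pi.add_apply, Pi.neg_apply, Pi.smul_apply,
        nsmul_eq_mul, haN, ha, mul_assoc, inv_mul_cancel₀ hu0, mul_one, add_neg_cancel]
    · have e1 : (x : E0 ⧸ R) * ((inl v : E0) : E0 ⧸ R) = ((inl w : E0) : E0 ⧸ R) * (x : E0 ⧸ R) := by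
        rw [hw, ← conj_mk, inv_mul_cancel_right]
      have e2 : (x : E0 ⧸ R) ^ ((n : ℤ) * (a.val : ℤ) + 1) =
          ((inl (u ^ a.val) : E0) : E0 ⧸ R) * (x : E0 ⧸ R) := by
        rw [zpow_add, zpow_one, zpow_mul, zpow_natCast, zpow_natCast, hk, ← QuotientGroup.mk_pow,
          ← map_pow]
      rw [e1, e2, map_mul, map_inv, QuotientGroup.mk_mul, QuotientGroup.mk_inv, mul_assoc,
        inv_mul_cancel_left]

end FinM

open SemidirectProduct in
/-- FIN -/
theorem specFin : SpecFin := by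
  rintro ⟨R, hn, hRN, hV, hR⟩ hall
  haveI := hn
  have hfg : Group.FG (E0 ⧸ R) := by
    haveI := FinM.fg
    exact Group.fg_of_surjective (QuotientGroup.mk'_surjective R)
  have hperm : ∀ K : Subgroup (E0 ⧸ R),
      {x : E0 ⧸ R | ∃ a ∈ FinM.HH R, ∃ b ∈ K, a * b = x} =
      {x : E0 ⧸ R | ∃ b ∈ K, ∃ a ∈ FinM.HH R, b * a = x} := by
    intro K
    ext z
    constructor
    · rintro ⟨a, ha, b, hb, rfl⟩
      obtain ⟨h', hh', j, e⟩ := FinM.perm_aux hR hV b⁻¹ ((FinM.HH R).inv_mem ha)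
      refine ⟨(b⁻¹ ^ j)⁻¹, K.inv_mem (K.zpow_mem (K.inv_mem hb) j), h'⁻¹,
        (FinM.HH R).inv_mem hh', ?_⟩
      rw [← mul_inv_rev, ← e, mul_inv_rev, inv_inv, inv_inv]
    · rintro ⟨b, hb, a, ha, rfl⟩
      obtain ⟨h', hh', j, e⟩ := FinM.perm_aux hR hV b ha
      exact ⟨h', hh', b ^ j, K.zpow_mem hb j, e.symm⟩
  obtain ⟨k, hk⟩ := hall 3 Nat.prime_three (E0 ⧸ R) hfg (FinM.HH R) FinM.pgroup (FinM.core hV)
    hperm ((inr (FreeGroup.of false) : E0) : E0 ⧸ R)
  set v : VV := Multiplicative.ofAdd (Pi.single 1 1) with hv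
  have hvW : v ∈ FinM.W0 := by
    rw [FinM.mem_W0, hv, toAdd_ofAdd]
    simp
  have hmem : ((inl v : E0) : E0 ⧸ R) ∈ Subgroup.normalClosure ((FinM.HH R : Subgroup _) : Set (E0 ⧸ R)) :=
    Subgroup.subset_normalClosure (FinM.mem_HH.2 ⟨v, hvW, rfl⟩)
  have hcomm := (Subgroup.mem_centralizer_iff.1 hk) _ hmem
  have h1 := FinM.conj_mk (R := R) ((inr (FreeGroup.of false) : E0) ^ (3 ^ k)) v
  rw [QuotientGroup.mk_pow, ← hcomm, mul_inv_cancel_right] at h1
  have h2 := FinM.inj hn hV h1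
  rw [← map_pow, right_inr] at h2
  have h3 : ∀ m : ℕ, actA (FreeGroup.of false ^ (2 * m + 1)) v = v⁻¹ := by
    intro m
    have g1 : actA (FreeGroup.of false) v = v⁻¹ := by
      apply Multiplicative.toAdd.injective
      funext i
      simp [actA, genA, sgnA, hv, sg]
      revert i
      decide
    have g2 : actA (FreeGroup.of false ^ 2) v = v := by
      rw [pow_two, map_mul, MulAut.mul_apply, g1, map_inv, g1, inv_inv]
    induction m with
    | zero => simpa using g1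
    | succ m ih =>
      have : 2 * (m + 1) + 1 = (2 * m + 1) + 2 := by ring
      rw [this, pow_add, map_mul, MulAut.mul_apply, g2, ih]
  have hodd : Odd (3 ^ k) := Odd.pow (by decide)
  obtain ⟨m, hm⟩ := hodd
  rw [hm, h3 m] at h2
  have h4 := congrArg (fun z : VV => Multiplicative.toAdd z 1) h2
  simp [hv] at h4
  revert h4
  decide

end MPba2ef4
end

section
set_option autoImplicit false

/-!
# MP_ba2ef4_al : module GREEN
-/

namespace MPba2ef4

namespace GreenM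

variable {G : Type} [Group G] {ℓ : G → ℕ} {E V : Subgroup G} {pr : G ⧸ E → G → G} {κ : ℕ}

/-- The set of points of an object. -/
def S (E : Subgroup G) : (G ⧸ E) ⊕ G → Set G
  | Sum.inl B => {b | (b : G ⧸ E) = B}
  | Sum.inr x => {x}

lemma S_nonempty (X : (G ⧸ E) ⊕ G) : (S E X).Nonempty := by
  rcases X with B | x
  · exact ⟨B.out, QuotientGroup.out_eq' B⟩
  · exact ⟨x, rfl⟩

lemma smul_mem_S (g : G) (X : (G ⧸ E) ⊕ G) {x : G} (hx : x ∈ S E X) : g * x ∈ S E (g • X) := by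
  rcases X with B | y
  · have hx' : (x : G ⧸ E) = B := hx
    change ((g * x : G) : G ⧸ E) = g • B
    rw [← hx']
    rfl
  · have hx' : x = y := hx
    subst hx'
    rfl

/-- The set of the distances of the projections. -/
def DS (ℓ : G → ℕ) (E : Subgroup G) (pr : G ⧸ E → G → G) (A : G ⧸ E) (X X' : (G ⧸ E) ⊕ G) :
    Set ℕ :=
  {n | ∃ x ∈ S E X, ∃ x' ∈ S E X', dd ℓ (pr A x) (pr A x') = n}

/-- The distance of the projections. -/
noncomputable def D (ℓ : G → ℕ) (E : Subgroup G) (pr : G ⧸ E → G → G) :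
    (G ⧸ E) ⊕ G → (G ⧸ E) ⊕ G → (G ⧸ E) ⊕ G → ℕ
  | Sum.inl A, X, X' => sSup (DS ℓ E pr A X X')
  | Sum.inr _, _, _ => 0

lemma diam (h : Proj ℓ E V pr κ) {A : G ⧸ E} {X : (G ⧸ E) ⊕ G} (hX : X ≠ Sum.inl A) {x x' : G}
    (hx : x ∈ S E X) (hx' : x' ∈ S E X) : dd ℓ (pr A x) (pr A x') ≤ κ := by
  rcases X with B | y
  · have hBA : B ≠ A := fun e => hX (by rw [e])
    exact h.bdd A B hBA.symm x x' hx hx'
  · have h1 : x = y := hx
    have h2 : x' = y := hx'
    rw [h1, h2, dd_self h.geo]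
    exact Nat.zero_le _

lemma dist_le (h : Proj ℓ E V pr κ) {A : G ⧸ E} {X X' : (G ⧸ E) ⊕ G} (hX : X ≠ Sum.inl A)
    (hX' : X' ≠ Sum.inl A) {x y x' y' : G} (hx : x ∈ S E X) (hy : y ∈ S E X) (hx' : x' ∈ S E X')
    (hy' : y' ∈ S E X') :
    dd ℓ (pr A x) (pr A x') ≤ dd ℓ (pr A y) (pr A y') + 2 * κ := by
  have h1 := diam h hX hx hy
  have h2 := diam h hX' hy' hx'
  have h3 := dd_tri h.geo (pr A x) (pr A y) (pr A x')
  have h4 := dd_tri h.geo (pr A y) (pr A y') (pr A x')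
  omega

lemma bdd (h : Proj ℓ E V pr κ) {A : G ⧸ E} {X X' : (G ⧸ E) ⊕ G} (hX : X ≠ Sum.inl A)
    (hX' : X' ≠ Sum.inl A) : BddAbove (DS ℓ E pr A X X') := by
  obtain ⟨y, hy⟩ := S_nonempty X
  obtain ⟨y', hy'⟩ := S_nonempty X'
  refine ⟨dd ℓ (pr A y) (pr A y') + 2 * κ, ?_⟩
  rintro n ⟨x, hx, x', hx', rfl⟩
  exact dist_le h hX hX' hx hy hx' hy'

lemma le_D (h : Proj ℓ E V pr κ) {A : G ⧸ E} {X X' : (G ⧸ E) ⊕ G} (hX : X ≠ Sum.inl A)
    (hX' : X' ≠ Sum.inl A) {x x' : G} (hx : x ∈ S E X) (hx' : x' ∈ S E X') :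
    dd ℓ (pr A x) (pr A x') ≤ D ℓ E pr (Sum.inl A) X X' :=
  le_csSup (bdd h hX hX') ⟨x, hx, x', hx', rfl⟩

lemma D_le (h : Proj ℓ E V pr κ) {A : G ⧸ E} {X X' : (G ⧸ E) ⊕ G} (hX : X ≠ Sum.inl A)
    (hX' : X' ≠ Sum.inl A) {x x' : G} (hx : x ∈ S E X) (hx' : x' ∈ S E X') :
    D ℓ E pr (Sum.inl A) X X' ≤ dd ℓ (pr A x) (pr A x') + 2 * κ := by
  refine csSup_le ⟨_, x, hx, x', hx', rfl⟩ ?_
  rintro n ⟨y, hy, y', hy', rfl⟩
  exact dist_le h hX hX' hy hx hy' hx'

lemma D_exists (h : Proj ℓ E V pr κ) {A : G ⧸ E} {X X' : (G ⧸ E) ⊕ G} (hX : X ≠ Sum.inl A)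
    (hX' : X' ≠ Sum.inl A) :
    ∃ x ∈ S E X, ∃ x' ∈ S E X', dd ℓ (pr A x) (pr A x') = D ℓ E pr (Sum.inl A) X X' := by
  obtain ⟨x, hx⟩ := S_nonempty X
  obtain ⟨x', hx'⟩ := S_nonempty X'
  exact Nat.sSup_mem (s := DS ℓ E pr A X X') ⟨_, x, hx, x', hx', rfl⟩ (bdd h hX hX')

/-- The rotations. -/
def M (E : Subgroup G) (c : G) (_ : c ∈ E) (hcE : ∀ e ∈ E, c * e = e * c) :
    (G ⧸ E) ⊕ G → Subgroup G
  | Sum.inl A =>
    { carrier := {h | ∃ (g : G) (k : ℤ), (g : G ⧸ E) = A ∧ h = g * c ^ k * g⁻¹}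
      one_mem' := ⟨A.out, 0, QuotientGroup.out_eq' A, by simp⟩
      mul_mem' := by
        rintro _ _ ⟨g, k, hg, rfl⟩ ⟨g', k', hg', rfl⟩
        refine ⟨g, k + k', hg, ?_⟩
        have he : g⁻¹ * g' ∈ E := QuotientGroup.eq.mp (hg.trans hg'.symm)
        have h1 : Commute c (g⁻¹ * g') := hcE _ he
        have h2 := (h1.zpow_left k').eq
        have e : g' * c ^ k' * g'⁻¹ = g * c ^ k' * g⁻¹ := by
          calc g' * c ^ k' * g'⁻¹ = g * ((g⁻¹ * g') * c ^ k') * g'⁻¹ := by group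
            _ = g * (c ^ k' * (g⁻¹ * g')) * g'⁻¹ := by rw [h2]
            _ = _ := by group
        rw [e, zpow_add]
        group
      inv_mem' := by
        rintro _ ⟨g, k, hg, rfl⟩
        exact ⟨g, -k, hg, by group⟩ }
  | Sum.inr _ => ⊥

end GreenM

open GreenM in
/-- GREEN -/
theorem specGreen (hW : SpecWind) : SpecGreen := by
  intro G _ ℓ E V pr κ L c h hc hcE hL hκ r hr hr1 o
  have key := hW G ((G ⧸ E) ⊕ G) (Set.range Sum.inl) (D ℓ E pr) (M E c hc hcE) (4 * κ) L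
    ?_ ?_ ?_ ?_ ?_ ?_ ?_ ?_ ?_ ?_ (Sum.inr o) ?_ ?_ ?_ r ?_ hr1
  · obtain ⟨_, ⟨A, rfl⟩, hA⟩ := key
    refine ⟨A, ?_⟩
    have h1 : D ℓ E pr (Sum.inl A) (Sum.inr o) (r • Sum.inr o) =
        dd ℓ (pr A o) (pr A (r * o)) := by
      obtain ⟨x, hx, x', hx', h2⟩ := D_exists h (A := A) (X := Sum.inr o) (X' := r • Sum.inr o)
        (by simp) (by simp [Sum.smul_inr])
      have e1 : x = o := hx
      have e2 : x' = r * o := hx'
      rw [← h2, e1, e2]
    rw [h1] at hA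
    omega
  · rintro g _ ⟨A, rfl⟩
    exact ⟨g • A, rfl⟩
  · rintro _ ⟨A, rfl⟩ B C hB hC
    change sSup _ = sSup _
    congr 1
    ext n
    constructor
    · rintro ⟨x, hx, x', hx', rfl⟩
      exact ⟨x', hx', x, hx, dd_comm h.geo _ _⟩
    · rintro ⟨x, hx, x', hx', rfl⟩
      exact ⟨x', hx', x, hx, dd_comm h.geo _ _⟩
  · rintro _ ⟨A, rfl⟩ B C X hB hC hX
    obtain ⟨b, hb, c', hc', e⟩ := D_exists h hB hC
    obtain ⟨x, hx⟩ := S_nonempty X
    rw [← e]
    have h1 := le_D h hB hX hb hx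
    have h2 := le_D h hX hC hx hc'
    have h3 := dd_tri h.geo (pr A b) (pr A x) (pr A c')
    omega
  · rintro _ ⟨A, rfl⟩ B hB
    obtain ⟨b, hb, c', hc', e⟩ := D_exists h hB hB
    rw [← e]
    have := diam h hB hb hc'
    omega
  · rintro g _ ⟨A, rfl⟩ B C
    change sSup _ = sSup _
    congr 1
    ext n
    constructor
    · rintro ⟨x, hx, x', hx', rfl⟩
      refine ⟨g⁻¹ * x, ?_, g⁻¹ * x', ?_, ?_⟩
      · have := smul_mem_S g⁻¹ _ hx
        rwa [inv_smul_smul] at this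
      · have := smul_mem_S g⁻¹ _ hx'
        rwa [inv_smul_smul] at this
      · have e1 : pr (g • A) x = g * pr A (g⁻¹ * x) := by
          rw [← h.equiv, mul_inv_cancel_left]
        have e2 : pr (g • A) x' = g * pr A (g⁻¹ * x') := by
          rw [← h.equiv, mul_inv_cancel_left]
        rw [e1, e2, dd_left]
    · rintro ⟨x, hx, x', hx', rfl⟩
      refine ⟨g * x, smul_mem_S g _ hx, g * x', smul_mem_S g _ hx', ?_⟩
      rw [h.equiv, h.equiv, dd_left]
  · rintro _ ⟨A, rfl⟩ _ ⟨B, rfl⟩ C hAB hCA hCB hlt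
    by_contra hcon
    push Not at hcon
    obtain ⟨c0, hc0⟩ := S_nonempty C
    have h1 := D_le h (A := A) (X := Sum.inl B) hAB.symm hCA (h.mem B c0) hc0
    have h2 := D_le h (A := B) (X := Sum.inl A) hAB hCB (h.mem A c0) hc0
    have c1 := dd_comm h.geo (pr A (pr B c0)) (pr A c0)
    have c2 := dd_comm h.geo (pr B (pr A c0)) (pr B c0)
    have h3 := h.far A c0 (pr B c0) (by omega)
    have h4 := h.far B c0 (pr A c0) (by omega)
    omega
  · rintro _ ⟨A, rfl⟩ _ ⟨g, k, hg, rfl⟩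
    change Sum.inl ((g * c ^ k * g⁻¹) • A) = Sum.inl A
    congr 1
    rw [← hg]
    change (((g * c ^ k * g⁻¹) * g : G) : G ⧸ E) = (g : G ⧸ E)
    rw [eq_comm, QuotientGroup.eq]
    have e : g⁻¹ * (g * c ^ k * g⁻¹ * g) = c ^ k := by group
    rw [e]
    exact E.zpow_mem hc k
  · rintro _ ⟨A, rfl⟩ g _ ⟨g', k, hg, rfl⟩
    refine ⟨g * g', k, ?_, by group⟩
    rw [← hg]
    rfl
  · rintro _ ⟨A, rfl⟩ _ ⟨g, k, hg, rfl⟩ h1 B hB
    have hk : k ≠ 0 := by
      rintro rfl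
      exact h1 (by group)
    have hfix : (g * c ^ k * g⁻¹) • A = A := by
      rw [← hg]
      change (((g * c ^ k * g⁻¹) * g : G) : G ⧸ E) = (g : G ⧸ E)
      rw [eq_comm, QuotientGroup.eq]
      have e : g⁻¹ * (g * c ^ k * g⁻¹ * g) = c ^ k := by group
      rw [e]
      exact E.zpow_mem hc k
    obtain ⟨b, hb⟩ := S_nonempty B
    have hB' : (g * c ^ k * g⁻¹) • B ≠ Sum.inl A := by
      intro e
      apply hB
      have e2 : (g * c ^ k * g⁻¹) • (Sum.inl A : (G ⧸ E) ⊕ G) = Sum.inl A :=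
        congrArg Sum.inl hfix
      exact smul_left_cancel _ (e.trans e2.symm)
    have h2 := le_D h hB hB' hb (smul_mem_S _ _ hb)
    have h3 : pr A (g * c ^ k * g⁻¹ * b) = g * c ^ k * g⁻¹ * pr A b := by
      conv_lhs => rw [← hfix]
      exact h.equiv _ _ _
    rw [h3] at h2
    have he : g⁻¹ * pr A b ∈ E := QuotientGroup.eq.mp (hg.trans (h.mem A b).symm)
    have h4 : Commute c (g⁻¹ * pr A b) := hcE _ he
    have h5 := (h4.zpow_left k).eq
    have h6 : dd ℓ (pr A b) (g * c ^ k * g⁻¹ * pr A b) = ℓ (c ^ k) := by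
      unfold dd
      congr 1
      calc (pr A b)⁻¹ * (g * c ^ k * g⁻¹ * pr A b)
          = (pr A b)⁻¹ * g * (c ^ k * (g⁻¹ * pr A b)) := by group
        _ = (pr A b)⁻¹ * g * ((g⁻¹ * pr A b) * c ^ k) := by rw [h5]
        _ = _ := by group
    rw [h6] at h2
    exact (hL k hk).trans h2
  · omega
  · rintro ⟨A, hA⟩
    cases hA
  · rintro g ⟨A, hA⟩
    cases hA
  · refine ⟨fun X => Sum.elim (fun A => dd ℓ o (pr A o)) (fun _ => 0) X, ?_⟩
    rintro _ ⟨A, rfl⟩ _ ⟨F, rfl⟩ hFA hlt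
    have h1 := D_le h (A := F) (X := Sum.inr o) (X' := Sum.inl A) (by simp) hFA.symm
      (x := o) rfl (h.mem A o)
    have h2 := h.far F o (pr A o) (by omega)
    change dd ℓ o (pr F o) < dd ℓ o (pr A o)
    omega
  · have h1 : Subgroup.normalClosure ({c} : Set G) ≤ Subgroup.closure
        {h : G | ∃ A ∈ Set.range (Sum.inl : G ⧸ E → (G ⧸ E) ⊕ G), h ∈ M E c hc hcE A} := by
      unfold Subgroup.normalClosure
      apply Subgroup.closure_mono
      intro x hx
      rw [Group.mem_conjugatesOfSet_iff] at hx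
      obtain ⟨a, ha, hax⟩ := hx
      rw [Set.mem_singleton_iff] at ha
      subst ha
      obtain ⟨g, hg⟩ := isConj_iff.mp hax
      exact ⟨Sum.inl (g : G ⧸ E), ⟨_, rfl⟩, g, 1, rfl, by rw [zpow_one, hg]⟩
    exact h1 hr

end MPba2ef4
end

section
/-!
# MP_ba2ef4_al : LIM, the limit of the tower of quotients
-/
set_option autoImplicit false

namespace MPba2ef4

namespace Lim

variable {E : Type} [Group E]

/-- a normal subgroup whose quotient is a stage -/
def Approx (V N R : Subgroup E) : Prop :=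
  ∃ (G : Type) (_ : Group G) (φ : E →* G), Function.Surjective φ ∧ φ.ker = R ∧
    IsStage G (V.map φ) (N.map φ) ∧ R ≤ N ∧ ∀ v ∈ V, v ∈ R → v = 1

theorem Approx.normal {V N R : Subgroup E} (h : Approx V N R) : R.Normal := by
  obtain ⟨G, _, φ, -, rfl, -⟩ := h
  exact φ.normal_ker

theorem approx_bot {V N : Subgroup E} (h : IsStage E V N) : Approx V N ⊥ := by
  refine ⟨E, inferInstance, MonoidHom.id E, Function.surjective_id, ?_, ?_, bot_le, ?_⟩
  · ext x
    simp
  · rwa [Subgroup.map_id, Subgroup.map_id]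
  · intro v _ hv
    exact Subgroup.mem_bot.1 hv

theorem step (hStep : SpecStep) {V N R : Subgroup E} (h : Approx V N R) (x : E) :
    ∃ R' : Subgroup E, Approx V N R' ∧ R ≤ R' ∧
      (x ∉ N → ∃ k : ℕ, ∃ v ∈ V, v ≠ 1 ∧ x ^ k * v⁻¹ ∈ R') := by
  by_cases hx : x ∈ N
  · exact ⟨R, h, le_rfl, fun h' => absurd hx h'⟩
  obtain ⟨G, iG, φ, hs, hk, hst, hRN, hV⟩ := h
  have hup : ∀ z : E, φ z ∈ N.map φ → z ∈ N := by
    rintro z ⟨n, hn, e⟩
    have h1 : z * n⁻¹ ∈ φ.ker := by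
      rw [MonoidHom.mem_ker, map_mul, map_inv, e, mul_inv_cancel]
    rw [hk] at h1
    have h2 := N.mul_mem (hRN h1) hn
    rwa [inv_mul_cancel_right] at h2
  have hφx : φ x ∉ N.map φ := fun h' => hx (hup x h')
  by_cases ht : IsOfFinOrder (φ x)
  · obtain ⟨k, hk1, hk2⟩ := hst.good (φ x) ht hφx
    obtain ⟨v, hv, e⟩ := hk1
    refine ⟨R, ⟨G, iG, φ, hs, hk, hst, hRN, hV⟩, le_rfl, fun _ => ⟨k, v, hv, ?_, ?_⟩⟩
    · rintro rfl
      apply hk2
      rw [← e, map_one]
    · rw [← hk, MonoidHom.mem_ker, map_mul, map_inv, map_pow, e, mul_inv_cancel]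
  · obtain ⟨R₁, hn, h1, h2, ⟨k, v', hv', hv1, hkv⟩, h4⟩ := hStep G _ _ hst (φ x) hφx ht
    obtain ⟨v, hv, rfl⟩ := hv'
    refine ⟨R₁.comap φ, ⟨G ⧸ R₁, inferInstance, (QuotientGroup.mk' R₁).comp φ, ?_, ?_, ?_, ?_, ?_⟩,
      ?_, fun _ => ⟨k, v, hv, ?_, ?_⟩⟩
    · rw [MonoidHom.coe_comp]
      exact (QuotientGroup.mk'_surjective R₁).comp hs
    · ext z
      rw [MonoidHom.mem_ker, MonoidHom.comp_apply, Subgroup.mem_comap, ← MonoidHom.mem_ker,
        QuotientGroup.ker_mk']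
    · rw [← Subgroup.map_map, ← Subgroup.map_map]
      exact h4
    · intro z hz
      exact hup z (h1 (Subgroup.mem_comap.1 hz))
    · intro v hv hvR
      have h5 : φ v = 1 := h2 (φ v) ⟨v, hv, rfl⟩ (Subgroup.mem_comap.1 hvR)
      apply hV v hv
      rw [← hk, MonoidHom.mem_ker, h5]
    · intro z hz
      rw [Subgroup.mem_comap]
      rw [← hk, MonoidHom.mem_ker] at hz
      rw [hz]
      exact R₁.one_mem
    · rintro rfl
      exact hv1 (map_one φ)
    · rw [Subgroup.mem_comap, map_mul, map_inv, map_pow]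
      exact hkv

end Lim

/-- LIM -/
theorem specLim (hStep : SpecStep) : SpecLim := by
  intro E iE iC V N hst
  obtain ⟨f, hf⟩ := exists_surjective_nat E
  choose nx hnx1 hnx2 hnx3 using
    fun (R : {R : Subgroup E // Lim.Approx V N R}) (x : E) => Lim.step hStep R.2 x
  let sq : ℕ → {R : Subgroup E // Lim.Approx V N R} := fun n =>
    Nat.rec ⟨⊥, Lim.approx_bot hst⟩ (fun n R => ⟨nx R (f n), hnx1 R (f n)⟩) n
  have hsucc : ∀ n, (sq (n + 1)).1 = nx (sq n) (f n) := fun n => rfl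
  have hmono : Monotone (fun n => (sq n).1) := by
    apply monotone_nat_of_le_succ
    intro n
    show (sq n).1 ≤ (sq (n + 1)).1
    rw [hsucc]
    exact hnx2 (sq n) (f n)
  have hmem : ∀ z : E, z ∈ (⨆ n, (sq n).1) ↔ ∃ n, z ∈ (sq n).1 := fun z =>
    Subgroup.mem_iSup_of_directed hmono.directed_le
  refine ⟨⨆ n, (sq n).1, ⟨?_⟩, ?_, ?_, ?_⟩
  · intro r hr g
    rw [hmem] at hr ⊢
    obtain ⟨n, hn⟩ := hr
    exact ⟨n, (sq n).2.normal.conj_mem r hn g⟩
  · apply iSup_le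
    intro n
    obtain ⟨G, _, φ, -, -, -, h, -⟩ := (sq n).2
    exact h
  · intro v hv hvR
    rw [hmem] at hvR
    obtain ⟨n, hn⟩ := hvR
    obtain ⟨G, _, φ, -, -, -, -, h⟩ := (sq n).2
    exact h v hv hn
  · intro x hx
    obtain ⟨n, rfl⟩ := hf x
    obtain ⟨k, v, hv, hv1, h⟩ := hnx3 (sq n) (f n) hx
    exact ⟨k, v, hv, hv1, (hmem _).2 ⟨n + 1, by rw [hsucc]; exact h⟩⟩

end MPba2ef4
end

section
set_option autoImplicit false

/-!
# MP_ba2ef4_al : module PROJ
-/

namespace MPba2ef4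

namespace ProjM

variable {G : Type} [Group G] {ℓ : G → ℕ} {E V : Subgroup G}

lemma smul_coe (g x : G) : g • (x : G ⧸ E) = ((g * x : G) : G ⧸ E) := rfl

lemma exists_nu (ℓ : G → ℕ) (A : G ⧸ E) :
    ∃ n : G, (n : G ⧸ E) = A ∧ ∀ a : G, (a : G ⧸ E) = A → ℓ n ≤ ℓ a := by
  have hne : {k : ℕ | ∃ a : G, (a : G ⧸ E) = A ∧ ℓ a = k}.Nonempty :=
    ⟨_, A.out, QuotientGroup.out_eq' A, rfl⟩
  obtain ⟨a, ha, hk⟩ := Nat.sInf_mem hne
  refine ⟨a, ha, fun b hb => ?_⟩
  rw [hk]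
  exact Nat.sInf_le ⟨b, hb, rfl⟩

/-- A nearest point of the coset to `1`. -/
noncomputable def nu (ℓ : G → ℕ) (A : G ⧸ E) : G := (exists_nu ℓ A).choose

lemma nu_mem (ℓ : G → ℕ) (A : G ⧸ E) : ((nu ℓ A : G) : G ⧸ E) = A :=
  (exists_nu ℓ A).choose_spec.1

lemma nu_le (ℓ : G → ℕ) (A : G ⧸ E) (a : G) (ha : (a : G ⧸ E) = A) : ℓ (nu ℓ A) ≤ ℓ a :=
  (exists_nu ℓ A).choose_spec.2 a ha

/-- The projection. -/
noncomputable def pr (ℓ : G → ℕ) (A : G ⧸ E) (x : G) : G := x * nu ℓ (x⁻¹ • A)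

lemma pr_mem (ℓ : G → ℕ) (A : G ⧸ E) (x : G) : ((pr ℓ A x : G) : G ⧸ E) = A := by
  unfold pr
  rw [← smul_coe, nu_mem, smul_inv_smul]

lemma pr_near (A : G ⧸ E) (x a : G) (ha : (a : G ⧸ E) = A) :
    dd ℓ x (pr ℓ A x) ≤ dd ℓ x a := by
  unfold pr
  rw [dd_mul_right]
  apply nu_le
  rw [← ha]
  rfl

lemma pr_equiv (ℓ : G → ℕ) (g : G) (A : G ⧸ E) (x : G) :
    pr ℓ (g • A) (g * x) = g * pr ℓ A x := by
  unfold pr
  have e : (g * x)⁻¹ • g • A = x⁻¹ • A := by
    rw [smul_smul]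
    congr 1
    group
  rw [e, mul_assoc]

lemma qc (hl : GeoNorm ℓ) {lam : ℕ}
    (hq : ∀ e ∈ E, ∀ p : G, Btw ℓ 1 p e → ∃ b ∈ E, dd ℓ p b ≤ lam) (A : G ⧸ E) (a a' p : G)
    (ha : (a : G ⧸ E) = A) (ha' : (a' : G ⧸ E) = A) (hp : Btw ℓ a p a') :
    ∃ b : G, (b : G ⧸ E) = A ∧ dd ℓ p b ≤ lam := by
  have he : a⁻¹ * a' ∈ E := QuotientGroup.eq.mp (ha.trans ha'.symm)
  obtain ⟨b, hb, hb'⟩ := hq _ he (a⁻¹ * p) (by
    apply Btw.of_left (g := a)
    simpa using hp)
  refine ⟨a * b, ?_, ?_⟩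
  · rw [← ha, eq_comm, QuotientGroup.eq]
    simpa using hb
  · rw [dd_comm hl, dd_shift, dd_comm hl]
    exact hb'

lemma excess (hl : GeoNorm ℓ) {δ lam : ℕ} (hF : FP ℓ δ)
    (hq : ∀ e ∈ E, ∀ p : G, Btw ℓ 1 p e → ∃ b ∈ E, dd ℓ p b ≤ lam) (A : G ⧸ E) (x a' : G)
    (ha' : (a' : G ⧸ E) = A) :
    dd ℓ x (pr ℓ A x) + dd ℓ (pr ℓ A x) a' ≤ dd ℓ x a' + (2 * lam + 2 * δ + 2) := by
  have ha := pr_mem ℓ A x
  have hn := pr_near (ℓ := ℓ) A x
  generalize pr ℓ A x = a at ha hn ⊢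
  by_contra hcon
  push Not at hcon
  have t0 := dd_tri hl x a a'
  have t1 := dd_tri hl x a' a
  have c0 := dd_comm hl a' a
  obtain ⟨q, hq1, hq2⟩ := exists_btw hl a a' (lam + δ + 1) (by omega)
  obtain ⟨b, hb, hb'⟩ := qc hl hq A a a' q ha ha' hq1
  have h1 := hn b hb
  have t2 := dd_tri hl x q b
  have hq1' := hq1
  unfold Btw at hq1'
  have c1 := dd_comm hl q a
  rcases hF x q a a' with h | h <;> omega

lemma far (hl : GeoNorm ℓ) {δ lam : ℕ} (hF : FP ℓ δ)
    (hq : ∀ e ∈ E, ∀ p : G, Btw ℓ 1 p e → ∃ b ∈ E, dd ℓ p b ≤ lam) (A : G ⧸ E) (x y : G)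
    (hD : 2 * (2 * lam + 2 * δ + 2) + δ < dd ℓ (pr ℓ A x) (pr ℓ A y)) :
    dd ℓ x (pr ℓ A x) + dd ℓ (pr ℓ A x) (pr ℓ A y) + dd ℓ (pr ℓ A y) y ≤
      dd ℓ x y + (2 * (2 * lam + 2 * δ + 2) + δ) := by
  have h1 := excess hl hF hq A x (pr ℓ A y) (pr_mem ℓ A y)
  have h2 := excess hl hF hq A y (pr ℓ A x) (pr_mem ℓ A x)
  generalize pr ℓ A x = a at *
  generalize pr ℓ A y = a' at *
  have c1 := dd_comm hl a y
  have c2 := dd_comm hl a' y
  have c3 := dd_comm hl a a'
  rcases hF x a' a y with h | h <;> omega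

lemma torV {N : Subgroup G} {y : G} (hs : IsStage G V N) (hE : Elem V N E y) (e : G)
    (he : e ∈ E) (ht : IsOfFinOrder e) : e ∈ V := by
  obtain ⟨v, hv, j, rfl⟩ := hE.form e he
  have := hs.Vnormal
  have : Finite V := hs.Vfin
  rcases eq_or_ne j 0 with rfl | hj
  · simpa using hv
  exfalso
  apply hE.yinf
  obtain ⟨m, hm, hm'⟩ := isOfFinOrder_iff_pow_eq_one.mp ht
  have h1 : ((y ^ j) ^ m : G) ∈ V := by
    rw [← QuotientGroup.eq_one_iff]
    have h2 : (((v * y ^ j) ^ m : G) : G ⧸ V) = 1 := by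
      rw [hm']
      rfl
    rw [QuotientGroup.mk_pow, QuotientGroup.mk_mul, (QuotientGroup.eq_one_iff v).mpr hv,
      one_mul] at h2
    rw [QuotientGroup.mk_pow]
    exact h2
  have h3 : IsOfFinOrder ((y ^ j) ^ m) := by
    have := isOfFinOrder_of_finite (⟨_, h1⟩ : V)
    exact Submonoid.isOfFinOrder_coe.mpr this
  have h4 : IsOfFinOrder (y ^ j) := h3.of_pow hm.ne'
  rcases Int.natAbs_eq j with h | h
  · rw [h, zpow_natCast] at h4
    exact h4.of_pow (Int.natAbs_ne_zero.mpr hj)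
  · rw [h, zpow_neg, isOfFinOrder_inv_iff, zpow_natCast] at h4
    exact h4.of_pow (Int.natAbs_ne_zero.mpr hj)

lemma malV {N : Subgroup G} {y : G} (hs : IsStage G V N) (hE : Elem V N E y) (A B : G ⧸ E)
    (hAB : A ≠ B) (g : G) (hA : g • A = A) (hB : g • B = B) : g ∈ V := by
  obtain ⟨a, rfl⟩ := QuotientGroup.mk_surjective A
  obtain ⟨b, rfl⟩ := QuotientGroup.mk_surjective B
  have h1 : a⁻¹ * g * a ∈ E := by
    have := QuotientGroup.eq.mp hA.symm
    simpa [mul_assoc] using this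
  have h2 : b⁻¹ * g * b ∈ E := by
    have := QuotientGroup.eq.mp hB.symm
    simpa [mul_assoc] using this
  have h3 : b⁻¹ * a ∉ E := fun h => hAB (QuotientGroup.eq.mpr h).symm
  have h4 := hE.mal _ h3 _ h1 (by
    have e : b⁻¹ * a * (a⁻¹ * g * a) * (b⁻¹ * a)⁻¹ = b⁻¹ * g * b := by group
    rw [e]
    exact h2)
  have h5 := hs.Vnormal.conj_mem _ h4 a
  have e : a * (a⁻¹ * g * a) * a⁻¹ = g := by group
  rwa [e] at h5

/-- The number of elements of the ball times the number of elements of `V`. -/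
noncomputable def NB (ℓ : G → ℕ) (V : Subgroup G) (ρ : ℕ) : ℕ :=
  {g : G | ℓ g ≤ ρ}.ncard * (V : Set G).ncard

lemma bdd {N : Subgroup G} {y : G} (hs : IsStage G V N) (hE : Elem V N E y) (hl : GeoNorm ℓ)
    {δ lam : ℕ} (hF : FP ℓ δ)
    (hq : ∀ e ∈ E, ∀ p : G, Btw ℓ 1 p e → ∃ b ∈ E, dd ℓ p b ≤ lam) (A B : G ⧸ E) (hAB : A ≠ B)
    (b b' : G) (hb : (b : G ⧸ E) = B) (hb' : (b' : G ⧸ E) = B) :
    dd ℓ (pr ℓ A b) (pr ℓ A b') ≤ (2 * (2 * lam + 2 * δ + 2) + δ) + (2 * lam + 1) *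
      NB ℓ V (2 * lam + (2 * (2 * lam + 2 * δ + 2) + δ) + δ) := by
  classical
  by_contra hcon
  push Not at hcon
  have hfar := far hl hF hq A b b' (by omega)
  have ha := pr_mem ℓ A b
  have ha' := pr_mem ℓ A b'
  generalize pr ℓ A b = a at *
  generalize pr ℓ A b' = a' at *
  set C2 := 2 * (2 * lam + 2 * δ + 2) + δ with hC2
  set ρ := 2 * lam + C2 + δ with hρ
  -- choice of the points
  have hch : ∀ i : ℕ, ∃ z w : G, i ≤ NB ℓ V ρ → (z : G ⧸ E) = A ∧ (w : G ⧸ E) = B ∧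
      ℓ (z⁻¹ * w) ≤ ρ ∧ dd ℓ a z ≤ i * (2 * lam + 1) + lam ∧
      i * (2 * lam + 1) ≤ dd ℓ a z + lam := by
    intro i
    by_cases hi : i ≤ NB ℓ V ρ
    swap
    · exact ⟨1, 1, fun h => absurd h hi⟩
    have hi' : i * (2 * lam + 1) ≤ dd ℓ a a' := by
      have : i * (2 * lam + 1) ≤ (2 * lam + 1) * NB ℓ V ρ := by
        rw [mul_comm]
        exact Nat.mul_le_mul_left _ hi
      omega
    obtain ⟨q, hq1, hq2⟩ := exists_btw hl a a' _ hi'
    obtain ⟨z, hz, hz'⟩ := qc hl hq A a a' q ha ha' hq1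
    unfold Btw at hq1
    have t1 := dd_tri hl b a q
    have t2 := dd_tri hl q a' b'
    obtain ⟨u, hu, hu'⟩ := close hl hF (c := C2) (x := b) (a := q) (y := b') (p := b')
      (by omega) (btw_right hl b b')
    have hu2 : Btw ℓ b u b' := by
      rcases hu with hu | hu
      · exact hu
      · unfold Btw at hu
        rw [dd_self hl] at hu
        have : b' = u := dd_eq hl (by omega)
        rw [← this]
        exact btw_right hl b b'
    obtain ⟨w, hw, hw'⟩ := qc hl hq B b b' u hb hb' hu2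
    refine ⟨z, w, fun _ => ⟨hz, hw, ?_, ?_, ?_⟩⟩
    · have t3 := dd_tri hl z q w
      have t4 := dd_tri hl q u w
      have c1 := dd_comm hl z q
      change dd ℓ z w ≤ ρ
      omega
    · have := dd_tri hl a q z
      omega
    · have := dd_tri hl a z q
      have c1 := dd_comm hl z q
      omega
  choose z w hzw using hch
  have hfin : {g : G | ℓ g ≤ ρ}.Finite := hl.fin ρ
  have hcard : hfin.toFinset.card * (V : Set G).ncard < (Finset.range (NB ℓ V ρ + 1)).card := by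
    rw [Finset.card_range, NB, Set.ncard_eq_toFinset_card _ hfin]
    omega
  obtain ⟨g, -, hg⟩ := Finset.exists_lt_card_fiber_of_mul_lt_card_of_maps_to
    (f := fun i => (z i)⁻¹ * w i) (s := Finset.range (NB ℓ V ρ + 1)) (t := hfin.toFinset)
    (by
      intro i hi
      rw [Set.Finite.mem_toFinset]
      exact (hzw i (by simpa [Nat.lt_succ_iff] using hi)).2.2.1) hcard
  obtain ⟨i0, hi0⟩ : ({i ∈ Finset.range (NB ℓ V ρ + 1) | (z i)⁻¹ * w i = g}).Nonempty := by
    rw [← Finset.card_pos]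
    omega
  rw [Finset.mem_filter] at hi0
  have h0 := hzw i0 (by simpa [Nat.lt_succ_iff] using hi0.1)
  have hle : ({i ∈ Finset.range (NB ℓ V ρ + 1) | (z i)⁻¹ * w i = g}).card ≤
      (V : Set G).ncard := by
    rw [Set.ncard_eq_toFinset_card _ hs.Vfin]
    refine Finset.card_le_card_of_injOn (fun i => z i * (z i0)⁻¹) ?_ ?_
    · intro i hi
      rw [Finset.mem_coe, Finset.mem_filter] at hi
      have h1 := hzw i (by simpa [Nat.lt_succ_iff] using hi.1)
      rw [Finset.mem_coe, Set.Finite.mem_toFinset]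
      have e : z i * (z i0)⁻¹ = w i * (w i0)⁻¹ := by
        have h2 : (z i)⁻¹ * w i = (z i0)⁻¹ * w i0 := hi.2.trans hi0.2.symm
        calc z i * (z i0)⁻¹ = z i * ((z i0)⁻¹ * w i0) * (w i0)⁻¹ := by group
          _ = z i * ((z i)⁻¹ * w i) * (w i0)⁻¹ := by rw [h2]
          _ = _ := by group
      apply malV hs hE A B hAB
      · conv_lhs => rw [← h0.1]
        rw [smul_coe, inv_mul_cancel_right, h1.1]
      · change (z i * (z i0)⁻¹) • B = B
        rw [e]
        conv_lhs => rw [← h0.2.1]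
        rw [smul_coe, inv_mul_cancel_right, h1.2.1]
    · intro i hi j hj hij
      rw [Finset.mem_coe, Finset.mem_filter] at hi hj
      have h1 := hzw i (by simpa [Nat.lt_succ_iff] using hi.1)
      have h2 := hzw j (by simpa [Nat.lt_succ_iff] using hj.1)
      have e : z i = z j := mul_right_cancel hij
      have h3 := h1.2.2.2
      have h4 := h2.2.2.2
      rw [e] at h3
      rcases lt_trichotomy i j with h | h | h
      · have h5 : (i + 1) * (2 * lam + 1) ≤ j * (2 * lam + 1) :=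
          Nat.mul_le_mul_right _ h
        rw [add_mul, one_mul] at h5
        omega
      · exact h
      · have h5 : (j + 1) * (2 * lam + 1) ≤ i * (2 * lam + 1) :=
          Nat.mul_le_mul_right _ h
        rw [add_mul, one_mul] at h5
        omega
  omega

end ProjM

open ProjM in
/-- PROJ -/
theorem specProj (hQ : SpecQC) : SpecProj := by
  intro G _ V N E y ℓ δ hs hE hl hF
  obtain ⟨lam, hq⟩ := hQ G V N E y ℓ δ hs hE hl hF
  obtain ⟨CV, hCV⟩ : ∃ CV, ∀ v ∈ V, ℓ v ≤ CV := by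
    obtain ⟨CV, h⟩ := (hs.Vfin.image ℓ).bddAbove
    exact ⟨CV, fun v hv => h ⟨v, hv, rfl⟩⟩
  set C2 := 2 * (2 * lam + 2 * δ + 2) + δ with hC2
  set W := (2 * lam + 1) * NB ℓ V (2 * lam + C2 + δ) with hW
  refine ⟨pr ℓ, 1 + δ + lam + CV + C2 + W, ?_⟩
  refine ⟨hl, by omega, FP.mono (by omega) hF, hs.Vnormal, hE.Vle, torV hs hE, ?_, pr_mem ℓ,
    pr_near, pr_equiv ℓ, ?_, ?_, ?_, malV hs hE⟩
  · intro v hv
    have := hCV v hv
    omega
  · intro A a a' p ha ha' hp
    obtain ⟨b, hb, hb'⟩ := qc hl hq A a a' p ha ha' hp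
    exact ⟨b, hb, by omega⟩
  · intro A x y hD
    have := far hl hF hq A x y (by omega)
    omega
  · intro A B hAB b b' hb hb'
    have := bdd hs hE hl hF hq A B hAB b b' hb hb'
    rw [← hC2, ← hW] at this
    omega

end MPba2ef4
end

section
/-!
# MP_ba2ef4_al : module QC
-/
set_option autoImplicit false

namespace MPba2ef4

namespace QCM

variable {G : Type} [Group G] {ℓ : G → ℕ}

/-- elements which conjugate `x` into a ball are close to the centralizer of `x` -/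
theorem conj_near (h : GeoNorm ℓ) (x : G) (ρ : ℕ) : ∃ lam : ℕ, ∀ p : G,
    ℓ (p⁻¹ * x * p) ≤ ρ → ∃ c : G, c * x = x * c ∧ ℓ (c⁻¹ * p) ≤ lam := by
  classical
  have hfin := h.fin ρ
  let f : G → G := fun w => if hw : ∃ p : G, p⁻¹ * x * p = w then hw.choose else 1
  refine ⟨hfin.toFinset.sup (fun w => ℓ (f w)), fun p hp => ?_⟩
  have hw : ∃ q : G, q⁻¹ * x * q = p⁻¹ * x * p := ⟨p, rfl⟩
  have hf : (f (p⁻¹ * x * p))⁻¹ * x * (f (p⁻¹ * x * p)) = p⁻¹ * x * p := by
    have h1 : f (p⁻¹ * x * p) = hw.choose := by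
      simp only [f]
      rw [dif_pos hw]
    rw [h1]
    exact hw.choose_spec
  refine ⟨p * (f (p⁻¹ * x * p))⁻¹, ?_, ?_⟩
  · have h2 : x = p * ((f (p⁻¹ * x * p))⁻¹ * x * (f (p⁻¹ * x * p))) * p⁻¹ := by
      rw [hf]; group
    calc p * (f (p⁻¹ * x * p))⁻¹ * x
        = (p * ((f (p⁻¹ * x * p))⁻¹ * x * (f (p⁻¹ * x * p))) * p⁻¹) *
            (p * (f (p⁻¹ * x * p))⁻¹) := by group
      _ = x * (p * (f (p⁻¹ * x * p))⁻¹) := by rw [← h2]
  · have h3 : (p * (f (p⁻¹ * x * p))⁻¹)⁻¹ * p = f (p⁻¹ * x * p) := by group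
    rw [h3]
    exact Finset.le_sup (f := fun w => ℓ (f w)) (hfin.mem_toFinset.2 hp)

theorem pow_comm {V N E : Subgroup G} {y : G} (hs : IsStage G V N) (he : Elem V N E y)
    (n : ℕ) : ∀ e ∈ E, y ^ (3 * n) * e = e * y ^ (3 * n) := by
  intro e hE
  obtain ⟨v, hv, j, rfl⟩ := he.form e hE
  have h1 : Commute (y ^ 3) v := hs.act3 y he.ynotN v hv
  have h2 : Commute (y ^ (3 * n)) v := by
    rw [pow_mul]
    exact h1.pow_left n
  have h3 : Commute (y ^ (3 * n)) (y ^ j) :=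
    ((Commute.refl y).zpow_right j).pow_left _
  exact (h2.mul_right h3)

theorem pow_notin {V N E : Subgroup G} {y : G} (hs : IsStage G V N) (he : Elem V N E y)
    (n : ℕ) (hn : 0 < n) : y ^ n ∉ V := by
  intro hv
  apply he.yinf
  rw [isOfFinOrder_iff_pow_eq_one]
  refine ⟨n * 3, by omega, ?_⟩
  rw [pow_mul]
  exact hs.Vexp _ hv

end QCM

open QCM in
theorem specQC : SpecQC := by
  intro G _ V N E y ℓ δ hs he h hF
  obtain ⟨lam, hlam⟩ := conj_near h (y ^ 9) (3 * ℓ (y ^ 9) + δ)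
  refine ⟨lam, fun e hE p hp => ?_⟩
  have hcomm : y ^ 9 * e = e * y ^ 9 := pow_comm hs he 3 e hE
  have hp' : Btw ℓ (y ^ 9 * 1) (y ^ 9 * p) (y ^ 9 * e) := hp.left (y ^ 9)
  have h1 : dd ℓ p (y ^ 9 * p) ≤ 3 * ℓ (y ^ 9) + δ := by
    refine fellow h hF (R := ℓ (y ^ 9)) (x := 1) (y := e) ?_ ?_ hp hp' (dd_left _ _ _).symm
    · rw [mul_one, dd_one_left]
    · unfold dd
      rw [hcomm]
      simp
  have h2 : ℓ (p⁻¹ * y ^ 9 * p) ≤ 3 * ℓ (y ^ 9) + δ := by
    have : dd ℓ p (y ^ 9 * p) = ℓ (p⁻¹ * y ^ 9 * p) := by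
      unfold dd
      rw [mul_assoc]
    rwa [this] at h1
  obtain ⟨c, hc, hcp⟩ := hlam p h2
  refine ⟨c, ?_, ?_⟩
  · by_contra hcE
    have h3 : c * y ^ 9 * c⁻¹ ∈ E := by
      rw [hc, mul_assoc, mul_inv_cancel, mul_one]
      exact E.pow_mem he.ymem 9
    exact pow_notin hs he 9 (by norm_num) (he.mal c hcE (y ^ 9) (E.pow_mem he.ymem 9) h3)
  · rw [dd_comm h]
    exact hcp

end MPba2ef4
end

section
/-!
# MP_ba2ef4_al : module QL
-/
set_option autoImplicit false

namespace MPba2ef4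

namespace QLM

variable {G : Type} [Group G] {ℓ : G → ℕ}

theorem ivt_int (f : ℕ → ℤ) (D : ℤ) (hD : 0 ≤ D) (i : ℕ) : ∀ d : ℕ,
    (∀ k, i ≤ k → k < i + d → |f (k + 1) - f k| ≤ D) → f i ≤ 0 → 0 ≤ f (i + d) →
    ∃ k, i ≤ k ∧ k ≤ i + d ∧ |f k| ≤ D := by
  intro d
  induction d with
  | zero =>
    intro _ h1 h2
    refine ⟨i, le_rfl, by omega, ?_⟩
    rw [add_zero] at h2
    rw [abs_le]
    omega
  | succ d ih =>
    intro h0 h1 h2
    by_cases h3 : 0 ≤ f (i + d)
    · obtain ⟨k, hk1, hk2, hk3⟩ := ih (fun k hk hk' => h0 k hk (by omega)) h1 h3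
      exact ⟨k, hk1, by omega, hk3⟩
    · refine ⟨i + (d + 1), by omega, le_rfl, ?_⟩
      have h4 := h0 (i + d) (by omega) (by omega)
      rw [abs_le] at h4 ⊢
      have e : i + d + 1 = i + (d + 1) := by omega
      rw [e] at h4
      omega

theorem pow_le (h : GeoNorm ℓ) (x : G) (i : ℕ) : ℓ (x ^ i) ≤ i * ℓ x := by
  induction i with
  | zero => rw [pow_zero, h.one]; omega
  | succ i ih =>
    rw [pow_succ, Nat.succ_mul]
    have := h.mul (x ^ i) x
    omega

theorem pow_large (h : GeoNorm ℓ) {x : G} (hx : ¬ IsOfFinOrder x) (M : ℕ) :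
    ∃ i₀ : ℕ, ∀ k, i₀ ≤ k → M < ℓ (x ^ k) := by
  have hinj : Function.Injective (fun k : ℕ => x ^ k) := injective_pow_iff_not_isOfFinOrder.2 hx
  have hfin : {k : ℕ | ℓ (x ^ k) ≤ M}.Finite :=
    Set.Finite.preimage (f := fun k : ℕ => x ^ k) hinj.injOn (h.fin M)
  obtain ⟨b, hb⟩ := hfin.bddAbove
  refine ⟨b + 1, fun k hk => ?_⟩
  by_contra hcon
  push Not at hcon
  have := hb (show k ∈ {k : ℕ | ℓ (x ^ k) ≤ M} from hcon)
  omega

/-- representatives of the centralizer modulo `⟨x⟩` -/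
theorem cent_reps {x : G} {B : ℕ} (hB : ∀ S : Finset G,
    (∀ g ∈ S, Commute g x) → (∀ g ∈ S, ∀ h ∈ S, ∀ k : ℤ, h = x ^ k * g → h = g) →
    S.card ≤ B) :
    ∃ S : Finset G, ∀ c : G, Commute c x → ∃ g ∈ S, ∃ k : ℤ, c = x ^ k * g := by
  classical
  by_contra hcon
  push Not at hcon
  have key : ∀ n : ℕ, ∃ S : Finset G, (∀ g ∈ S, Commute g x) ∧
      (∀ g ∈ S, ∀ h ∈ S, ∀ k : ℤ, h = x ^ k * g → h = g) ∧ S.card = n := by
    intro n
    induction n with
    | zero => exact ⟨∅, by simp, by simp, rfl⟩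
    | succ n ih =>
      obtain ⟨S, h1, h2, h3⟩ := ih
      obtain ⟨c, hc, hc'⟩ := hcon S
      have hcS : c ∉ S := by
        intro hcS
        exact hc' c hcS 0 (by simp)
      refine ⟨insert c S, ?_, ?_, ?_⟩
      · intro g hg
        rcases Finset.mem_insert.1 hg with rfl | hg
        · exact hc
        · exact h1 g hg
      · intro g hg h hh k hk
        rcases Finset.mem_insert.1 hg with e | hgS
        · rcases Finset.mem_insert.1 hh with e' | hhS
          · rw [e, e']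
          · exfalso
            refine hc' h hhS (-k) ?_
            rw [hk, e]
            group
        · rcases Finset.mem_insert.1 hh with e' | hhS
          · exact absurd (e' ▸ hk) (hc' g hgS k)
          · exact h2 g hgS h hhS k hk
      · rw [Finset.card_insert_of_notMem hcS, h3]
  obtain ⟨S, h1, h2, h3⟩ := key (B + 1)
  have := hB S h1 h2
  omega

end QLM

open QLM QCM in
theorem specQL (hSh : SpecShift) (hCe : SpecCent) : SpecQL := by
  intro G _ ℓ δ h hF x hx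
  classical
  obtain ⟨B, hB⟩ := hCe G ℓ δ h hF x hx
  obtain ⟨S, hS⟩ := cent_reps (x := x) (B := B) (fun S h1 h2 => hB 1 le_rfl S
    (fun g hg => by rw [pow_one]; exact h1 g hg) h2)
  obtain ⟨lam0, hlam0⟩ := conj_near h x (ℓ x + 3 * δ)
  obtain ⟨lam, hlamdef⟩ : ∃ lam, lam = lam0 + S.sup ℓ := ⟨_, rfl⟩
  obtain ⟨i₀, hi₀⟩ := pow_large h hx (ℓ x + δ + (3 * δ + 2 * lam))
  refine ⟨2 * (i₀ * ℓ x) + 2 * (3 * δ + 2 * lam) + δ, ?_⟩
  -- main claim for i ≤ j
  have main : ∀ i j : ℕ, i ≤ j → ℓ (x ^ i) + ℓ (x ^ j) ≤ ℓ (x ^ (i + j)) +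
      (2 * (i₀ * ℓ x) + 2 * (3 * δ + 2 * lam) + δ) := by
    intro i j hij
    obtain ⟨K, hK⟩ : ∃ K, K = (i + j + 1) * ℓ x := ⟨_, rfl⟩
    obtain ⟨n, p, hn, -, hp, hs1, hs2⟩ := hSh G ℓ δ h hF x hx K 1 le_rfl
    have hcx : ∀ k : ℕ, Commute (x ^ k) (x ^ n) := fun k => Commute.pow_pow_self x k n
    have hK' : ∀ k : ℕ, k ≤ i + j → ℓ (x ^ k) ≤ K := by
      intro k hk
      have h1 := pow_le h x k
      have h2 : k * ℓ x ≤ (i + j + 1) * ℓ x := Nat.mul_le_mul_right _ (by omega)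
      omega
    have hKx : ℓ x ≤ K := by
      have : 1 * ℓ x ≤ (i + j + 1) * ℓ x := Nat.mul_le_mul_right _ (by omega)
      omega
    have hcx1 : Commute x (x ^ n) := by simp
    -- lam
    have hx1 := hs1 x hKx hcx1
    have hpx : ℓ (p⁻¹ * x * p) ≤ ℓ x + 3 * δ := by
      have : dd ℓ p (x * p) = ℓ (p⁻¹ * x * p) := by
        unfold dd
        rw [mul_assoc]
      rw [← this]
      omega
    obtain ⟨c, hc, hcp⟩ := hlam0 p hpx
    obtain ⟨g, hg, k, hk⟩ := hS c hc
    have hu : ℓ (x ^ (-k) * p) ≤ lam := by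
      have e : x ^ (-k) * p = g * (c⁻¹ * p) := by
        rw [hk]; group
      rw [e]
      have h1 := h.mul g (c⁻¹ * p)
      have h2 : ℓ g ≤ S.sup ℓ := Finset.le_sup (f := ℓ) hg
      omega
    -- (2)
    have h2 : ∀ k' : ℕ, k' ≤ i + j → (ℓ (x ^ k') : ℤ) ≤ |ss ℓ p (x ^ k')| + (3 * δ + 2 * lam) := by
      intro k' hk'
      have h3 := (hs1 (x ^ k') (hK' k' hk') (hcx k')).2.2
      have h4 : ℓ (x ^ k') ≤ dd ℓ p (x ^ k' * p) + 2 * lam := by
        have e : x ^ k' = (x ^ (-k) * p) * (p⁻¹ * (x ^ k' * p)) * (x ^ (-k) * p)⁻¹ := by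
          group
        have e1 := h.mul ((x ^ (-k) * p) * (p⁻¹ * (x ^ k' * p))) (x ^ (-k) * p)⁻¹
        have e2 := h.mul (x ^ (-k) * p) (p⁻¹ * (x ^ k' * p))
        rw [← e, h.inv] at e1
        have e3 : dd ℓ p (x ^ k' * p) = ℓ (p⁻¹ * (x ^ k' * p)) := rfl
        omega
      omega
    have hstep : ∀ k' : ℕ, k' + 1 ≤ i + j →
        |ss ℓ p (x ^ (k' + 1)) - ss ℓ p (x ^ k')| ≤ (ℓ x : ℤ) + δ := by
      intro k' hk'
      have h3 := hs2 (x ^ k') x (hK' k' (by omega)) hKx (hcx k') hcx1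
      rw [← pow_succ] at h3
      have h4 := hx1.1
      rw [abs_le] at *
      omega
    have hsi := h2 i (by omega)
    have hsj := h2 j (by omega)
    have hij' := hs2 (x ^ i) (x ^ j) (hK' i (by omega)) (hK' j (by omega)) (hcx i) (hcx j)
    rw [← pow_add] at hij'
    have hsij := (hs1 (x ^ (i + j)) (hK' _ le_rfl) (hcx _)).1
    have small : (∃ k', i ≤ k' ∧ k' ≤ j ∧ |ss ℓ p (x ^ k')| ≤ (ℓ x : ℤ) + δ) →
        ℓ (x ^ i) + ℓ (x ^ j) ≤ ℓ (x ^ (i + j)) +
          (2 * (i₀ * ℓ x) + 2 * (3 * δ + 2 * lam) + δ) := by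
      rintro ⟨k', hk1, hk2, hk3⟩
      have h3 := h2 k' (by omega)
      have h4 : k' < i₀ := by
        by_contra hcon
        have := hi₀ k' (by omega)
        omega
      have h5 := pow_le h x i
      have h6 : i * ℓ x ≤ i₀ * ℓ x := Nat.mul_le_mul_right _ (by omega)
      have h7 := h.mul (x ^ i)⁻¹ (x ^ (i + j))
      have e : (x ^ i)⁻¹ * x ^ (i + j) = x ^ j := by rw [pow_add]; group
      rw [e, h.inv] at h7
      omega
    have hD : (0 : ℤ) ≤ (ℓ x : ℤ) + δ := by omega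
    rcases le_total 0 (ss ℓ p (x ^ i)) with hi | hi <;>
      rcases le_total 0 (ss ℓ p (x ^ j)) with hj | hj
    · rw [abs_of_nonneg hi] at hsi
      rw [abs_of_nonneg hj] at hsj
      rw [abs_le] at hsij hij'
      omega
    · apply small
      obtain ⟨k', hk1, hk2, hk3⟩ := ivt_int (fun k => - ss ℓ p (x ^ k)) _ hD i (j - i)
        (fun k' _ hk' => by
          have := hstep k' (by omega)
          rw [abs_le] at this ⊢
          constructor <;> omega) (by simpa using hi)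
        (by
          have : i + (j - i) = j := by omega
          rw [this]
          simpa using hj)
      refine ⟨k', hk1, by omega, ?_⟩
      simpa [abs_neg] using hk3
    · apply small
      obtain ⟨k', hk1, hk2, hk3⟩ := ivt_int (fun k => ss ℓ p (x ^ k)) _ hD i (j - i)
        (fun k' _ hk' => hstep k' (by omega)) hi
        (by
          have : i + (j - i) = j := by omega
          rw [this]
          exact hj)
      exact ⟨k', hk1, by omega, hk3⟩
    · rw [abs_of_nonpos hi] at hsi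
      rw [abs_of_nonpos hj] at hsj
      rw [abs_le] at hsij hij'
      omega
  intro i j
  rcases le_total i j with hij | hij
  · exact main i j hij
  · have := main j i hij
    rw [add_comm j i] at this
    omega

end MPba2ef4
end

section
/-!
# MP_ba2ef4_al : QN, the quotient norm
-/
set_option autoImplicit false

namespace MPba2ef4

namespace QN

variable {G : Type} [Group G] {ℓ : G → ℕ} {R : Subgroup G}

theorem exists_eq (q : G ⧸ R) : ∃ g : G, (g : G ⧸ R) = q ∧ ℓ g = qn ℓ R q := by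
  have hne : {n : ℕ | ∃ g : G, (g : G ⧸ R) = q ∧ ℓ g = n}.Nonempty := by
    obtain ⟨g, hg⟩ := QuotientGroup.mk_surjective q
    exact ⟨ℓ g, g, hg, rfl⟩
  exact Nat.sInf_mem hne

theorem le (g : G) : qn ℓ R (g : G ⧸ R) ≤ ℓ g := Nat.sInf_le ⟨g, rfl, rfl⟩

theorem le' {g : G} {q : G ⧸ R} (h : (g : G ⧸ R) = q) : qn ℓ R q ≤ ℓ g := by
  rw [← h]; exact le g

theorem mul_le [R.Normal] (h : GeoNorm ℓ) (p q : G ⧸ R) : qn ℓ R (p * q) ≤ qn ℓ R p + qn ℓ R q := by
  obtain ⟨a, ha, ha'⟩ := exists_eq (ℓ := ℓ) p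
  obtain ⟨b, hb, hb'⟩ := exists_eq (ℓ := ℓ) q
  have h1 : qn ℓ R (p * q) ≤ ℓ (a * b) := le' (by rw [QuotientGroup.mk_mul, ha, hb])
  have := h.mul a b
  omega

theorem inv_le [R.Normal] (h : GeoNorm ℓ) (p : G ⧸ R) : qn ℓ R p⁻¹ ≤ qn ℓ R p := by
  obtain ⟨a, ha, ha'⟩ := exists_eq (ℓ := ℓ) p
  have h1 : qn ℓ R p⁻¹ ≤ ℓ a⁻¹ := le' (by rw [QuotientGroup.mk_inv, ha])
  rw [h.inv] at h1
  omega

end QN

/-- QN -/
theorem specQN : SpecQN := by
  intro G _ ℓ R _ h
  refine ⟨?_, ?_, ?_, QN.mul_le h, ?_, ?_⟩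
  · have := QN.le (ℓ := ℓ) (R := R) 1
    rw [h.one] at this
    exact Nat.le_zero.1 this
  · intro q hq
    obtain ⟨g, hg, hg'⟩ := QN.exists_eq (ℓ := ℓ) q
    rw [hq] at hg'
    rw [← hg, h.eq_one g hg']
    rfl
  · intro q
    have h1 := QN.inv_le h q
    have h2 := QN.inv_le h q⁻¹
    rw [inv_inv] at h2
    omega
  · intro n
    refine ((h.fin n).image (fun g : G => (g : G ⧸ R))).subset ?_
    intro q hq
    obtain ⟨g, hg, hg'⟩ := QN.exists_eq (ℓ := ℓ) q
    exact ⟨g, by rw [Set.mem_ofPred_eq, hg']; exact hq, hg⟩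
  · intro q k hk
    obtain ⟨g, hg, hg'⟩ := QN.exists_eq (ℓ := ℓ) q
    obtain ⟨a, b, hab, ha, hb⟩ := h.split g k (by omega)
    refine ⟨(a : G ⧸ R), (b : G ⧸ R), ?_, ?_, ?_⟩
    · rw [← QuotientGroup.mk_mul, hab, hg]
    all_goals
      have h1 := QN.le (ℓ := ℓ) (R := R) a
      have h2 := QN.le (ℓ := ℓ) (R := R) b
      have h3 := QN.mul_le h (a : G ⧸ R) (b : G ⧸ R)
      rw [← QuotientGroup.mk_mul, hab, hg] at h3
      omega

end MPba2ef4
end

section
/-!
# MP_ba2ef4_al : module QTHIN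
-/
set_option autoImplicit false

namespace MPba2ef4

namespace QThinM

variable {G : Type} [Group G] {ℓ : G → ℕ} {R : Subgroup G}

theorem qn_le (g : G) : qn ℓ R (g : G ⧸ R) ≤ ℓ g := Nat.sInf_le ⟨g, rfl, rfl⟩

theorem exists_lift (q : G ⧸ R) : ∃ g : G, (g : G ⧸ R) = q ∧ ℓ g = qn ℓ R q := by
  have hne : {n : ℕ | ∃ g : G, (g : G ⧸ R) = q ∧ ℓ g = n}.Nonempty := by
    obtain ⟨g, hg⟩ := QuotientGroup.mk_surjective q
    exact ⟨ℓ g, g, hg, rfl⟩
  exact Nat.sInf_mem hne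

theorem dd_le [R.Normal] (a b : G) : dd (qn ℓ R) (a : G ⧸ R) (b : G ⧸ R) ≤ dd ℓ a b := by
  unfold dd
  have e : (a : G ⧸ R)⁻¹ * (b : G ⧸ R) = ((a⁻¹ * b : G) : G ⧸ R) := rfl
  rw [e]
  exact qn_le _

theorem exists_dd [R.Normal] (a : G) (y : G ⧸ R) :
    ∃ b : G, (b : G ⧸ R) = y ∧ dd ℓ a b = dd (qn ℓ R) (a : G ⧸ R) y := by
  obtain ⟨g, hg, hg'⟩ := exists_lift (ℓ := ℓ) ((a : G ⧸ R)⁻¹ * y)
  refine ⟨a * g, ?_, ?_⟩
  · rw [QuotientGroup.mk_mul, hg]
    group
  · rw [dd_mul_right, hg']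
    rfl

theorem mk_left [R.Normal] {r : G} (hr : r ∈ R) (g : G) : ((r * g : G) : G ⧸ R) = (g : G ⧸ R) := by
  rw [QuotientGroup.mk_mul, (QuotientGroup.eq_one_iff r).mpr hr, one_mul]

theorem red_of [R.Normal] {a b : G} (h : dd ℓ a b = dd (qn ℓ R) (a : G ⧸ R) (b : G ⧸ R)) :
    Red ℓ R a b := by
  intro r hr
  rw [h, ← mk_left hr b]
  exact dd_le _ _

end QThinM

open QThinM in
theorem specQThin (hQN : SpecQN) (hT : SpecT) : SpecQThin := by
  intro G _ ℓ E V R _ pr κ L hR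
  have hg := hR.proj.geo
  have hq := hQN G ℓ R hg
  intro x y z p hp
  obtain ⟨p₀, rfl⟩ := QuotientGroup.mk_surjective x
  obtain ⟨p', hp', hpd⟩ := exists_dd (ℓ := ℓ) p₀ p
  obtain ⟨p₁, hp₁, hpd₁⟩ := exists_dd (ℓ := ℓ) p' y
  obtain ⟨p₂, hp₂, hpd₂⟩ := exists_dd (ℓ := ℓ) p₁ z
  obtain ⟨p₃, hp₃, hpd₃⟩ := exists_dd (ℓ := ℓ) p₂ (p₀ : G ⧸ R)
  subst hp'
  subst hp₁
  subst hp₂
  have hb : Btw ℓ p₀ p' p₁ ∧ dd ℓ p₀ p₁ = dd (qn ℓ R) (p₀ : G ⧸ R) (p₁ : G ⧸ R) := by
    unfold Btw at hp ⊢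
    have t := dd_tri hg p₀ p' p₁
    have t2 := dd_le (ℓ := ℓ) (R := R) p₀ p₁
    constructor <;> omega
  have hr : ∃ r ∈ R, p₃ = r * p₀ := by
    refine ⟨p₃ * p₀⁻¹, ?_, by group⟩
    have : ((p₃ * p₀⁻¹ : G) : G ⧸ R) = 1 := by
      rw [QuotientGroup.mk_mul, hp₃, QuotientGroup.mk_inv]
      group
    exact (QuotientGroup.eq_one_iff _).mp this
  obtain ⟨r, hr, rfl⟩ := hr
  rw [← hp₃] at hpd₃
  obtain ⟨ρ, hρ, q, hq1, hq2⟩ := hT G ℓ E V R pr κ L hR p₀ p₁ p₁ p₂ p₂ p' r hr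
    (red_of hb.2) (red_of hpd₂) (red_of hpd₃)
    (by rw [dd_self hg]; omega) (by rw [dd_self hg]; omega) hb.1
  refine ⟨(q : G ⧸ R), ?_, ?_⟩
  · rcases hq1 with hq1 | hq1
    · right
      have t1 := dd_le (ℓ := ℓ) (R := R) p₁ q
      have t2 := dd_le (ℓ := ℓ) (R := R) q p₂
      have t3 := dd_tri hq (p₁ : G ⧸ R) (q : G ⧸ R) (p₂ : G ⧸ R)
      apply Btw.symm hq
      unfold Btw at hq1 ⊢
      omega
    · left
      have t1 := dd_le (ℓ := ℓ) (R := R) p₂ q
      have t2 := dd_le (ℓ := ℓ) (R := R) q (r * p₀)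
      have t3 := dd_tri hq (p₂ : G ⧸ R) (q : G ⧸ R) ((r * p₀ : G) : G ⧸ R)
      apply Btw.symm hq
      rw [← hp₃]
      unfold Btw at hq1 ⊢
      omega
  · have := dd_le (ℓ := ℓ) (R := R) p' (ρ * q)
    rw [mk_left hρ q] at this
    omega

end MPba2ef4
end

section
/-!
# MP_ba2ef4_al : module ROT
-/
set_option autoImplicit false

namespace MPba2ef4

namespace RotM

variable {G : Type} [Group G] {ℓ : G → ℕ}

theorem exists_large (h : GeoNorm ℓ) {y : G} (hy : ¬ IsOfFinOrder y) (B m : ℕ) :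
    ∃ c : ℕ, m ≤ c ∧ B < ℓ (y ^ (3 ^ c)) := by
  by_contra hcon
  push Not at hcon
  have hinj : Function.Injective (fun c : ℕ => y ^ (3 ^ (c + m))) := by
    intro a b hab
    have h1 : (3 : ℕ) ^ (a + m) = 3 ^ (b + m) :=
      (injective_pow_iff_not_isOfFinOrder.2 hy) hab
    have h2 := Nat.pow_right_injective (le_refl 2 |>.trans (by norm_num : 2 ≤ 3)) h1
    omega
  have : (Set.range (fun c : ℕ => y ^ (3 ^ (c + m)))).Finite := by
    refine (h.fin B).subset ?_
    rintro _ ⟨c, rfl⟩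
    exact hcon (c + m) (by omega)
  exact Set.infinite_range_of_injective hinj this

theorem Proj.mono {E V : Subgroup G} {pr : G ⧸ E → G → G} {κ K : ℕ} (hK : κ ≤ K)
    (hp : Proj ℓ E V pr κ) : Proj ℓ E V pr K where
  geo := hp.geo
  pos := hp.pos.trans hK
  fp := hp.fp.mono hK
  Vn := hp.Vn
  Vle := hp.Vle
  torV := hp.torV
  smallV v hv := (hp.smallV v hv).trans hK
  mem := hp.mem
  near := hp.near
  equiv := hp.equiv
  qc A a a' p h1 h2 h3 := by
    obtain ⟨b, hb, hb'⟩ := hp.qc A a a' p h1 h2 h3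
    exact ⟨b, hb, hb'.trans hK⟩
  far A x y h1 := by
    have := hp.far A x y (by omega)
    omega
  bdd A B hAB b b' h1 h2 := (hp.bdd A B hAB b b' h1 h2).trans hK
  mal := hp.mal

end RotM

open RotM QCM in
theorem specRot (hSp : SpecSpin) (hGr : SpecGreen) : SpecRot := by
  intro G _ V N E y ℓ pr κ hs he hp
  obtain ⟨C, hC⟩ := hSp G V N E y ℓ κ hs he hp.geo hp.fp
  refine ⟨100 * (κ + C + 1), fun K hK => ?_⟩
  obtain ⟨v₀, hv₀, hv₁, hv₂⟩ := hs.fixv y he.ynotN
  obtain ⟨c, hc, hL⟩ := exists_large hp.geo he.yinf (1000 * K + C) 2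
  obtain ⟨h1, h2, h3⟩ := hC c hc v₀ hv₀ hv₂
  set L := ℓ (y ^ (3 ^ c)) with hLdef
  set z := y ^ (3 ^ c) * v₀⁻¹ with hz
  set R := Subgroup.normalClosure ({z} : Set G) with hR
  have hRn : R.Normal := Subgroup.normalClosure_normal
  have hzR : z ∈ R := Subgroup.subset_normalClosure (Set.mem_singleton z)
  have hzE : z ∈ E := E.mul_mem (E.pow_mem he.ymem _) (E.inv_mem (he.Vle hv₀))
  have hcent : ∀ e ∈ E, z * e = e * z := by
    intro e hE
    have h4 : Commute (y ^ (3 ^ c)) e := by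
      have := pow_comm hs he (3 ^ (c - 1)) e hE
      have h5 : 3 * 3 ^ (c - 1) = 3 ^ c := by
        rw [← pow_succ']
        congr 1
        omega
      rw [h5] at this
      exact this
    obtain ⟨v, hv, j, rfl⟩ := he.form e hE
    have h6 : Commute v₀⁻¹ v := (show Commute v₀ v from hs.Vcomm v₀ hv₀ v hv).inv_left
    have h7 : Commute v₀⁻¹ (y ^ j) :=
      ((show Commute y v₀ from hv₂).symm.inv_left).zpow_right j
    exact (h4.mul_left (h6.mul_right h7))
  have hrot : ∀ (A : G ⧸ E) (a a' : G), (a : G ⧸ E) = A → (a' : G ⧸ E) = A → ∀ k : ℤ,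
      (a * z ^ k * a⁻¹) ∈ R ∧ (a * z ^ k * a⁻¹) • A = A ∧
        dd ℓ a (a * z ^ k * a⁻¹ * a') = ℓ (z ^ k * (a⁻¹ * a')) := by
    intro A a a' ha ha' k
    refine ⟨hRn.conj_mem _ (R.zpow_mem hzR k) a, ?_, ?_⟩
    · rw [← ha]
      change ((a * z ^ k * a⁻¹ * a : G) : G ⧸ E) = (a : G ⧸ E)
      rw [QuotientGroup.eq]
      have : (a * z ^ k * a⁻¹ * a)⁻¹ * a = (z ^ k)⁻¹ := by group
      rw [this]
      exact E.inv_mem (E.zpow_mem hzE k)
    · unfold dd
      congr 1
      group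
  refine ⟨c, v₀, L, hc, hv₀, hv₁, hv₂, ?_⟩
  refine ⟨Proj.mono (by omega) hp, hRn, by omega, ?_, ?_, ?_⟩
  · intro r hr hr1 o
    obtain ⟨A, hA⟩ := hGr G ℓ E V pr κ (L - C) z hp hzE hcent
      (fun k hk => by have := h1 k hk; omega) (by omega) r hr hr1 o
    exact ⟨A, by omega⟩
  · intro A a a' ha ha'
    have hE : a⁻¹ * a' ∈ E := by
      rw [← QuotientGroup.eq, ha, ha']
    obtain ⟨k, hk⟩ := h2 _ hE
    obtain ⟨m1, m2, m3⟩ := hrot A a a' ha ha' k
    refine ⟨_, m1, m2, ?_⟩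
    rw [m3]
    have : dd ℓ a a' = ℓ (a⁻¹ * a') := rfl
    omega
  · intro A a a' ha ha'
    have hE : a⁻¹ * a' ∈ E := by
      rw [← QuotientGroup.eq, ha, ha']
    obtain ⟨k, hk⟩ := h3 _ hE
    obtain ⟨m1, m2, m3⟩ := hrot A a a' ha ha' k
    refine ⟨_, m1, m2, ?_⟩
    rw [m3]
    omega

end MPba2ef4
end

section
/-!
# MP_ba2ef4_al : module TOR

An element of infinite order which is shortest among all lifts of all conjugates of a torsion
element of the quotient is conjugate into `E`.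
-/
set_option autoImplicit false

namespace MPba2ef4

open OvM in
theorem specTor (hOV : SpecOV) : SpecTor := by
  intro G _ ℓ E V R pr κ L hR hAx g hinf hmin hex
  obtain ⟨n, hn, hgn⟩ := hex
  have hP := hR.proj
  have hg := hP.geo
  have hb := hR.big
  have hκ := hP.pos
  have hmin1 : ∀ a, ℓ g ≤ ℓ (a⁻¹ * g * a) := by
    intro a
    have := hmin a 1 R.one_mem
    rwa [one_mul] at this
  have hne : g ^ n ≠ 1 := by
    intro h
    exact hinf (isOfFinOrder_iff_pow_eq_one.mpr ⟨n, by omega, h⟩)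
  obtain ⟨A, hA⟩ := hR.green _ hgn hne 1
  rw [mul_one] at hA
  have hfar := hP.far A 1 (g ^ n) (by omega)
  -- the case `g A = A`
  by_cases hfix : g • A = A
  · obtain ⟨h, rfl⟩ := QuotientGroup.mk_surjective A
    have h1 : (((g * h : G)) : G ⧸ E) = (h : G ⧸ E) := hfix
    have h2 : h⁻¹ * (g * h) ∈ E := QuotientGroup.eq.mp h1.symm
    exact ⟨h, by rwa [← mul_assoc] at h2⟩
  exfalso
  set a := pr A 1 with ha
  set a' := pr A (g ^ n) with ha'
  have haA : (a : G ⧸ E) = A := hP.mem _ _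
  have haA' : (a' : G ⧸ E) = A := hP.mem _ _
  have hbB : ((g * a : G) : G ⧸ E) = g • A := by
    rw [← haA]; rfl
  have hbB' : ((g * a' : G) : G ⧸ E) = g • A := by
    rw [← haA']; rfl
  have ax1 := hAx.inf g hinf hmin1 n 1
  rw [pow_one] at ax1
  have n1 : dd ℓ 1 (g ^ n) = ℓ (g ^ n) := dd_one_left _
  have nP : dd ℓ 1 (g ^ (n + 1)) = ℓ (g ^ (n + 1)) := dd_one_left _
  have ng : dd ℓ 1 g = ℓ g := dd_one_left _
  have s1 : dd ℓ (g ^ n) (g ^ (n + 1)) = ℓ g := by
    rw [pow_succ, dd_mul_right]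
  have s2 : dd ℓ (g * a) (g ^ (n + 1)) = dd ℓ a (g ^ n) := by
    rw [pow_succ', dd_left]
  have s3 : dd ℓ (g * a') (g ^ (n + 1)) = dd ℓ a' (g ^ n) := by
    rw [pow_succ', dd_left]
  have s4 : dd ℓ g (g * a) = dd ℓ 1 a := by
    have := dd_left (ℓ := ℓ) g 1 a
    rwa [mul_one] at this
  have s5 : dd ℓ g (g * a') = dd ℓ 1 a' := by
    have := dd_left (ℓ := ℓ) g 1 a'
    rwa [mul_one] at this
  have t1 := dd_tri hg 1 a a'
  have t2 := dd_tri hg a a' (g ^ n)
  have t3 := dd_tri hg a (g ^ n) (g ^ (n + 1))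
  have t4 := dd_tri hg a' (g ^ n) (g ^ (n + 1))
  have t5 := dd_tri hg 1 g (g * a)
  have t6 := dd_tri hg 1 g (g * a')
  have t7 := dd_tri hg 1 a (g ^ n)
  have t8 := dd_tri hg 1 a' (g ^ n)
  have t9 := dd_tri hg 1 (g * a) (g ^ (n + 1))
  have t10 := dd_tri hg 1 (g * a') (g ^ (n + 1))
  have hov := hOV G ℓ E V pr κ hP A (g • A) (fun h => hfix h.symm) 1 (g ^ (n + 1)) a a'
    (g * a) (g * a') haA haA' hbB hbB' (by omega) (by omega) (by omega) (by omega)
  -- the position of `a` on the orbit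
  have hex2 : ∃ i, i < n ∧ ℓ (g ^ i) ≤ dd ℓ 1 a ∧ dd ℓ 1 a < ℓ (g ^ (i + 1)) := by
    by_contra hcon
    push Not at hcon
    have : ∀ i, i ≤ n → ℓ (g ^ i) ≤ dd ℓ 1 a := by
      intro i
      induction i with
      | zero =>
        intro _
        rw [pow_zero, hg.one]
        omega
      | succ i ih =>
        intro hi
        exact hcon i (by omega) (ih (by omega))
    have := this n le_rfl
    omega
  obtain ⟨i, hin, hi1, hi2⟩ := hex2
  have ax2 := hAx.inf g hinf hmin1 i (n + 1 - i)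
  have ax3 := hAx.inf g hinf hmin1 (i + 1) (n - i)
  rw [show i + (n + 1 - i) = n + 1 by omega] at ax2
  rw [show i + 1 + (n - i) = n + 1 by omega] at ax3
  have u1 : dd ℓ 1 (g ^ i) = ℓ (g ^ i) := dd_one_left _
  have u2 : dd ℓ 1 (g ^ (i + 1)) = ℓ (g ^ (i + 1)) := dd_one_left _
  have u3 : dd ℓ (g ^ i) (g ^ (n + 1)) = ℓ (g ^ (n + 1 - i)) := by
    have : g ^ (n + 1) = g ^ i * g ^ (n + 1 - i) := by
      rw [← pow_add]; congr 1; omega
    rw [this, dd_mul_right]
  have u4 : dd ℓ (g ^ (i + 1)) (g ^ (n + 1)) = ℓ (g ^ (n - i)) := by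
    have : g ^ (n + 1) = g ^ (i + 1) * g ^ (n - i) := by
      rw [← pow_add]; congr 1; omega
    rw [this, dd_mul_right]
  obtain ⟨p, hp, hap⟩ := midd hg hP.fp (x := 1) (P := g ^ (n + 1)) (a := g ^ i)
    (a' := g ^ (i + 1)) (z := a) (c := κ) (by omega) (by omega) (by omega) (by omega) (by omega)
  unfold Btw at hp
  have u5 : dd ℓ (g ^ i) (g ^ (i + 1)) = ℓ g := by rw [pow_succ, dd_mul_right]
  have u6 : dd ℓ (g ^ (i + 1)) (g * p) = dd ℓ (g ^ i) p := by rw [pow_succ', dd_left]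
  have u7 := dd_tri hg p (g ^ (i + 1)) (g * p)
  -- the projection of `g a` to `A`
  have claim : L ≤ dd ℓ a (pr A (g * a)) + 85 * κ := by
    have v1 := dd_tri hg 1 a (g * a)
    have v2 := dd_tri hg a (pr A (g * a)) (g * a)
    have v3 := dd_comm hg (pr A (g * a)) (g * a)
    by_cases hle : dd ℓ 1 (g * a) ≤ dd ℓ 1 a'
    · obtain ⟨q, hq, hq'⟩ := near_mid hP (x := 1) (P := g ^ (n + 1)) (z := g * a) (c := 2 * κ)
        haA haA' (by omega) (by omega) (by omega) (by omega) hle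
      have v4 := hP.near A (g * a) q hq
      omega
    · have v5 := posn hg hP.fp (x := 1) (P := g ^ (n + 1)) (z := g * a) (w := a') (c := 2 * κ)
        (by omega) (by omega)
      have v6 := hP.near A (g * a) a' haA'
      omega
  have w1 := lip hP A a p
  rw [pr_self hP haA] at w1
  have w2 := lip hP A (g * p) (g * a)
  rw [dd_left] at w2
  have w3 := dd_comm hg p a
  have w4 := dd_tri hg a (pr A p) (pr A (g * a))
  have w5 := dd_tri hg (pr A p) (pr A (g * p)) (pr A (g * a))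
  have hfar2 := hP.far A p (g * p) (by omega)
  obtain ⟨m, hm, hmA, hd⟩ := hR.rot A (pr A p) (pr A (g * p)) (hP.mem _ _) (hP.mem _ _)
  have x1 := dd_tri hg p (pr A p) (m * (g * p))
  have x2 := dd_tri hg (pr A p) (m * pr A (g * p)) (m * (g * p))
  rw [dd_left] at x2
  have x3 := hmin p m hm
  have x4 : dd ℓ p (m * (g * p)) = ℓ (p⁻¹ * (m * g) * p) := by
    unfold dd
    congr 1
    group
  omega

end MPba2ef4
end
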